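import Pool.Agent.MP_ff5407_an.H58.Spec

/-! A Cantor measure with a Frostman bound, on a null set with thin neighbourhoods. -/

open scoped ContDiff Topology Manifold NNReal ENNReal ComplexConjugate
open Set Filter MeasureTheory Complex

noncomputable section

namespace Pool.Agent.MP_ff5407_an.H58

theorem A1_nbhd (E : Set ℝ) (F : Finset ℝ) (ρ N : ℝ) (hρ : 0 ≤ ρ) (hF : (F.card : ℝ) ≤ N)
    (hE : E ⊆ ⋃ y ∈ F, Metric.closedBall y ρ) :
    volume {ξ : ℝ | ∃ b ∈ E, |(|ξ| - b)| ≤ ρ} ≤ ENNReal.ofReal (8 * (N * ρ)) := by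
  have hs : {ξ : ℝ | ∃ b ∈ E, |(|ξ| - b)| ≤ ρ} ⊆
      ⋃ y ∈ F, (Metric.closedBall y (2 * ρ) ∪ Metric.closedBall (-y) (2 * ρ)) := by
    rintro ξ ⟨b, hb, h⟩
    obtain ⟨y, hy, hby⟩ := mem_iUnion₂.mp (hE hb)
    rw [Metric.mem_closedBall, Real.dist_eq, abs_le] at hby
    rw [abs_le] at h
    refine mem_iUnion₂.mpr ⟨y, hy, ?_⟩
    rcases abs_cases ξ with ⟨e, -⟩ | ⟨e, -⟩
    · left
      rw [Metric.mem_closedBall, Real.dist_eq, abs_le]
      rw [e] at h
      constructor <;> linarith [h.1, h.2, hby.1, hby.2]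
    · right
      rw [Metric.mem_closedBall, Real.dist_eq, abs_le]
      rw [e] at h
      constructor <;> linarith [h.1, h.2, hby.1, hby.2]
  refine (measure_mono hs).trans ((measure_biUnion_finset_le _ _).trans ?_)
  calc ∑ y ∈ F, volume (Metric.closedBall y (2 * ρ) ∪ Metric.closedBall (-y) (2 * ρ))
      ≤ ∑ _y ∈ F, ENNReal.ofReal (8 * ρ) := by
        refine Finset.sum_le_sum fun y _ => (measure_union_le _ _).trans ?_
        rw [Real.volume_closedBall, Real.volume_closedBall,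
          ← ENNReal.ofReal_add (by positivity) (by positivity)]
        exact ENNReal.ofReal_le_ofReal (by linarith)
    _ = ENNReal.ofReal (F.card * (8 * ρ)) := by
        rw [Finset.sum_const, nsmul_eq_mul, ENNReal.ofReal_mul (Nat.cast_nonneg _),
          ENNReal.ofReal_natCast]
    _ ≤ ENNReal.ofReal (8 * (N * ρ)) := ENNReal.ofReal_le_ofReal (by nlinarith)

theorem rA1 (h : RA1a) : RA1 := by
  intro α h0 h1
  set l : ℝ := (1 / 2 : ℝ) ^ α⁻¹ with hl
  have l0 : 0 < l := Real.rpow_pos_of_pos (by norm_num) _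
  have l1 : l < 1 / 2 := by
    have : (1 / 2 : ℝ) ^ α⁻¹ < (1 / 2 : ℝ) ^ (1 : ℝ) :=
      Real.rpow_lt_rpow_of_exponent_gt (by norm_num) (by norm_num) (one_lt_inv_iff₀.mpr ⟨h0, h1⟩)
    rwa [Real.rpow_one] at this
  have la : l ^ α = 1 / 2 := Real.rpow_inv_rpow (by norm_num) h0.ne'
  have lg : l ^ (1 - α) = 2 * l := by
    rw [Real.rpow_sub l0, Real.rpow_one, la]; ring
  obtain ⟨ν, E, c, hC, c0, hb, hF⟩ := h l l0 l1
  have nb : ∀ k : ℕ, volume {ξ : ℝ | ∃ b ∈ E, |(|ξ| - b)| ≤ l ^ k} ≤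
      ENNReal.ofReal (8 * (2 * l) ^ k) := by
    intro k
    obtain ⟨F, a1, a2⟩ := hF k
    rw [mul_pow]
    exact A1_nbhd E F (l ^ k) (2 ^ k) (by positivity) (by exact_mod_cast a1) a2
  refine ⟨ν, E, hC, ⟨2 / c ^ α, fun x r hr => ?_⟩, ?_, ⟨2 + 4 / l, 1 - α, by linarith, ?_⟩⟩
  · have e : 2 / c ^ α * r ^ α = 2 * (r / c) ^ α := by
      rw [Real.div_rpow hr.le c0.le]; ring
    rw [e]
    by_cases hrc : r / c ≤ 1
    · obtain ⟨k, k1, k2⟩ := exists_nat_pow_near_of_lt_one (div_pos hr c0) hrc l0 (by linarith)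
      rw [div_le_iff₀' c0] at k2
      refine (measure_mono (Metric.closedBall_subset_closedBall k2)).trans ((hb k x).trans ?_)
      refine ENNReal.ofReal_le_ofReal ?_
      have a1 : (l ^ (k + 1)) ^ α ≤ (r / c) ^ α := Real.rpow_le_rpow (by positivity) k1.le h0.le
      rw [← Real.rpow_pow_comm l0.le, la, pow_succ] at a1
      linarith
    · have a1 : 1 ≤ (r / c) ^ α := Real.one_le_rpow (not_le.mp hrc).le h0.le
      refine (measure_mono (subset_univ _)).trans ?_
      rw [hC.mass]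
      calc (2⁻¹ : ℝ≥0∞) ≤ 1 := ENNReal.inv_le_one.mpr one_le_two
        _ ≤ ENNReal.ofReal (2 * (r / c) ^ α) := ENNReal.one_le_ofReal.mpr (by linarith)
  · have t1 : Tendsto (fun k : ℕ => ENNReal.ofReal (8 * (2 * l) ^ k)) atTop
        (𝓝 (ENNReal.ofReal (8 * 0))) :=
      ENNReal.tendsto_ofReal
        ((tendsto_pow_atTop_nhds_zero_of_lt_one (by positivity) (by linarith)).const_mul 8)
    rw [mul_zero, ENNReal.ofReal_zero] at t1
    refine le_antisymm (ge_of_tendsto' t1 fun k => (measure_mono fun b hbE => ?_).trans (nb k))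
      zero_le
    have := (hC.sub hbE).1
    refine ⟨b, hbE, ?_⟩
    rw [abs_of_nonneg (by linarith : (0 : ℝ) ≤ b), sub_self, abs_zero]
    positivity
  · rintro ε ⟨e0, e1⟩
    obtain ⟨k, k1, k2⟩ := exists_nat_pow_near_of_lt_one e0 e1 l0 (by linarith)
    have hs : {ξ | ¬ far E ε ξ} ⊆
        Metric.closedBall 0 ε ∪ {ξ : ℝ | ∃ b ∈ E, |(|ξ| - b)| ≤ l ^ k} := by
      intro ξ hξ
      by_cases a : ε < |ξ|
      · right
        by_contra hc
        refine hξ ⟨a, fun b hbE => ?_⟩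
        by_contra hd
        exact hc ⟨b, hbE, (not_lt.mp hd).trans k2⟩
      · left
        rw [Metric.mem_closedBall, Real.dist_eq, sub_zero]
        exact not_lt.mp a
    refine (measure_mono hs).trans ((measure_union_le _ _).trans ?_)
    refine (add_le_add le_rfl (nb k)).trans ?_
    rw [Real.volume_closedBall, ← ENNReal.ofReal_add (by positivity) (by positivity)]
    refine ENNReal.ofReal_le_ofReal ?_
    have a1 : (l ^ (k + 1)) ^ (1 - α) ≤ ε ^ (1 - α) :=
      Real.rpow_le_rpow (by positivity) k1.le (by linarith)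
    rw [← Real.rpow_pow_comm l0.le, lg, pow_succ] at a1
    have a2 : ε ≤ ε ^ (1 - α) := by
      have := Real.rpow_le_rpow_of_exponent_ge e0 e1 (by linarith : 1 - α ≤ 1)
      rwa [Real.rpow_one] at this
    have a3 : 8 * (2 * l) ^ k ≤ 4 / l * ε ^ (1 - α) := by
      rw [div_mul_eq_mul_div, le_div_iff₀ l0]
      linarith
    linarith

end Pool.Agent.MP_ff5407_an.H58
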