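import Pool.Agent.MP_ff5407_an.H58.Spec

/-!
Row A1a: the central Cantor set with ratio `l` in `[1/10, 1/5]` and its natural measure.
-/

open scoped ContDiff Topology Manifold NNReal ENNReal ComplexConjugate
open Set Filter MeasureTheory Complex

noncomputable section

namespace Pool.Agent.MP_ff5407_an.H58

def A1a_a (l : ℝ) (w : ℕ → Bool) (j : ℕ) : ℝ := if w j then l ^ j else 0

def A1a_S (l : ℝ) (w : ℕ → Bool) : ℝ := ∑' j, A1a_a l w j

def A1a_X (l : ℝ) (w : ℕ → Bool) : ℝ := 1 / 10 + 1 / 10 * (1 - l) * A1a_S l w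

theorem A1a_a_nonneg {l : ℝ} (h0 : 0 < l) (w : ℕ → Bool) (j : ℕ) : 0 ≤ A1a_a l w j := by
  unfold A1a_a
  split_ifs
  · positivity
  · exact le_rfl

theorem A1a_a_le {l : ℝ} (h0 : 0 < l) (w : ℕ → Bool) (j : ℕ) : A1a_a l w j ≤ l ^ j := by
  unfold A1a_a
  split_ifs
  · exact le_rfl
  · positivity

theorem A1a_summ {l : ℝ} (h0 : 0 < l) (h1 : l < 1) (w : ℕ → Bool) : Summable (A1a_a l w) :=
  Summable.of_nonneg_of_le (A1a_a_nonneg h0 w) (A1a_a_le h0 w)
    (summable_geometric_of_lt_one h0.le h1)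

theorem A1a_dec {l : ℝ} (h0 : 0 < l) (h1 : l < 1) (w w' : ℕ → Bool) (k : ℕ) :
    |A1a_S l w - A1a_S l w' - ∑ j ∈ Finset.range k, (A1a_a l w j - A1a_a l w' j)| ≤
      l ^ k * (1 - l)⁻¹ := by
  have hs : Summable fun j => A1a_a l w j - A1a_a l w' j :=
    (A1a_summ h0 h1 w).sub (A1a_summ h0 h1 w')
  have e1 : A1a_S l w - A1a_S l w' = ∑' j, (A1a_a l w j - A1a_a l w' j) :=
    ((A1a_summ h0 h1 w).tsum_sub (A1a_summ h0 h1 w')).symm
  have e2 := hs.sum_add_tsum_nat_add k
  rw [e1, ← e2, add_sub_cancel_left, ← Real.norm_eq_abs]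
  refine tsum_of_norm_bounded ((hasSum_geometric_of_lt_one h0.le h1).mul_left (l ^ k)) fun i => ?_
  rw [Real.norm_eq_abs, abs_le, ← pow_add, add_comm k i]
  have a1 := A1a_a_nonneg h0 w (i + k)
  have a2 := A1a_a_nonneg h0 w' (i + k)
  have a3 := A1a_a_le h0 w (i + k)
  have a4 := A1a_a_le h0 w' (i + k)
  constructor <;> linarith

theorem A1a_near {l : ℝ} (h0 : 0 < l) (h1 : l < 1) (w w' : ℕ → Bool) (k : ℕ)
    (h : ∀ j < k, w j = w' j) : |A1a_X l w - A1a_X l w'| ≤ l ^ k := by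
  have e := A1a_dec h0 h1 w w' k
  have z : ∑ j ∈ Finset.range k, (A1a_a l w j - A1a_a l w' j) = 0 :=
    Finset.sum_eq_zero fun j hj => by
      simp only [A1a_a, h j (Finset.mem_range.1 hj), sub_self]
  rw [z, sub_zero] at e
  have hl : 0 < 1 - l := by linarith
  have e3 : A1a_X l w - A1a_X l w' = 1 / 10 * (1 - l) * (A1a_S l w - A1a_S l w') := by
    simp only [A1a_X]; ring
  rw [e3, abs_mul, abs_of_pos (by positivity : (0 : ℝ) < 1 / 10 * (1 - l))]
  have hk : 0 < l ^ k := by positivity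
  calc 1 / 10 * (1 - l) * |A1a_S l w - A1a_S l w'|
      ≤ 1 / 10 * (1 - l) * (l ^ k * (1 - l)⁻¹) := by gcongr
    _ = 1 / 10 * l ^ k := by field_simp
    _ ≤ l ^ k := by linarith

theorem A1a_far {l : ℝ} (h0 : 0 < l) (h1 : l < 1 / 2) (w w' : ℕ → Bool) (k : ℕ)
    (h : ∃ j < k, w j ≠ w' j) : (1 - 2 * l) / 10 * l ^ k ≤ |A1a_X l w - A1a_X l w'| := by
  classical
  have hex : ∃ j, w j ≠ w' j := by
    obtain ⟨j, -, hj⟩ := h
    exact ⟨j, hj⟩
  set i := Nat.find hex with hi
  have hik : i ≤ k := by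
    obtain ⟨j, hjk, hj⟩ := h
    exact (Nat.find_min' hex hj).trans hjk.le
  have hne : w i ≠ w' i := Nat.find_spec hex
  have h1' : l < 1 := by linarith
  have e := A1a_dec h0 h1' w w' (i + 1)
  have z : ∑ j ∈ Finset.range i, (A1a_a l w j - A1a_a l w' j) = 0 :=
    Finset.sum_eq_zero fun j hj => by
      have := Nat.find_min hex (Finset.mem_range.1 hj)
      simp only [ne_eq, not_not] at this
      simp only [A1a_a, this, sub_self]
  rw [Finset.sum_range_succ, z, zero_add] at e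
  have hpi : 0 < l ^ i := by positivity
  have hd : |A1a_a l w i - A1a_a l w' i| = l ^ i := by
    unfold A1a_a
    cases hw : w i <;> cases hw' : w' i
    · exact absurd (hw.trans hw'.symm) hne
    · simp [abs_of_pos hpi]
    · simp [abs_of_pos hpi]
    · exact absurd (hw.trans hw'.symm) hne
  have hl : 0 < 1 - l := by linarith
  have e3 : A1a_X l w - A1a_X l w' = 1 / 10 * (1 - l) * (A1a_S l w - A1a_S l w') := by
    simp only [A1a_X]; ring
  have e4 : l ^ i - l ^ (i + 1) * (1 - l)⁻¹ ≤ |A1a_S l w - A1a_S l w'| := by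
    have := abs_sub_abs_le_abs_sub (A1a_a l w i - A1a_a l w' i) (A1a_S l w - A1a_S l w')
    rw [abs_sub_comm (A1a_a l w i - A1a_a l w' i)] at this
    linarith
  rw [e3, abs_mul, abs_of_pos (by positivity : (0 : ℝ) < 1 / 10 * (1 - l))]
  have hp : l ^ k ≤ l ^ i := pow_le_pow_of_le_one h0.le h1'.le hik
  have h2 : 0 < 1 - 2 * l := by linarith
  calc (1 - 2 * l) / 10 * l ^ k ≤ (1 - 2 * l) / 10 * l ^ i := by gcongr
    _ = 1 / 10 * (1 - l) * (l ^ i - l ^ (i + 1) * (1 - l)⁻¹) := by field_simp; ring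
    _ ≤ 1 / 10 * (1 - l) * |A1a_S l w - A1a_S l w'| := by gcongr

theorem A1a_cont {l : ℝ} (h0 : 0 < l) (h1 : l < 1) : Continuous (A1a_X l) := by
  have hS : Continuous (A1a_S l) := by
    refine continuous_tsum (u := fun j => l ^ j) (fun j => ?_)
      (summable_geometric_of_lt_one h0.le h1) fun j w => ?_
    · exact (continuous_of_discreteTopology (f := fun b : Bool => if b then l ^ j else 0)).comp
        (continuous_apply j)
    · rw [Real.norm_eq_abs, abs_of_nonneg (A1a_a_nonneg h0 w j)]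
      exact A1a_a_le h0 w j
  exact continuous_const.add (continuous_const.mul hS)

theorem A1a_mem {l : ℝ} (h0 : 0 < l) (h1 : l < 1) (w : ℕ → Bool) :
    A1a_X l w ∈ Icc (1 / 10 : ℝ) (1 / 5) := by
  have hl : 0 < 1 - l := by linarith
  have a : 0 ≤ A1a_S l w := tsum_nonneg (A1a_a_nonneg h0 w)
  have b : A1a_S l w ≤ (1 - l)⁻¹ := by
    rw [← tsum_geometric_of_lt_one h0.le h1]
    exact (A1a_summ h0 h1 w).tsum_le_tsum (A1a_a_le h0 w) (summable_geometric_of_lt_one h0.le h1)
  have c : (1 - l) * A1a_S l w ≤ 1 := by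
    calc (1 - l) * A1a_S l w ≤ (1 - l) * (1 - l)⁻¹ := by gcongr
      _ = 1 := by field_simp
  have d : 0 ≤ (1 - l) * A1a_S l w := by positivity
  unfold A1a_X
  constructor <;> nlinarith

def A1a_P : Measure (ℕ → Bool) :=
  Measure.infinitePi fun _ => (PMF.uniformOfFintype Bool).toMeasure

instance A1a_prob : IsProbabilityMeasure A1a_P := by
  unfold A1a_P
  infer_instance

theorem A1a_cyl (w0 : ℕ → Bool) (k : ℕ) :
    A1a_P {w | ∀ j < k, w j = w0 j} = ENNReal.ofReal ((1 / 2) ^ k) := by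
  have e : {w : ℕ → Bool | ∀ j < k, w j = w0 j} =
      Set.pi (Finset.range k : Finset ℕ) fun j => {w0 j} := by
    ext w
    simp
  rw [e, A1a_P, Measure.infinitePi_pi _ fun i _ => measurableSet_singleton _]
  have h : ∀ b : Bool, (PMF.uniformOfFintype Bool).toMeasure {b} = 2⁻¹ := fun b => by
    rw [PMF.toMeasure_apply_singleton _ _ (measurableSet_singleton _), PMF.uniformOfFintype_apply]
    simp
  simp only [h, Finset.prod_const, Finset.card_range]
  rw [ENNReal.ofReal_pow (by norm_num), one_div, ENNReal.ofReal_inv_of_pos (by norm_num)]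
  simp

theorem rA1a : RA1a := by
  intro l h0 h1
  have h1' : l < 1 := by linarith
  have hc := A1a_cont h0 h1'
  have hm : Measurable (A1a_X l) := hc.measurable
  have hcl : IsClosed (range (A1a_X l)) := (isCompact_range hc).isClosed
  have h2 : 0 < 1 - 2 * l := by linarith
  refine ⟨(2⁻¹ : ℝ≥0∞) • A1a_P.map (A1a_X l), range (A1a_X l), (1 - 2 * l) / 30,
    ⟨hcl, ?_, ?_, ?_⟩, by positivity, fun k x => ?_, fun k => ?_⟩
  · rintro _ ⟨w, rfl⟩
    exact A1a_mem h0 h1' w
  · rw [Measure.smul_apply, Measure.map_apply hm MeasurableSet.univ]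
    simp
  · rw [Measure.smul_apply, Measure.map_apply hm hcl.measurableSet.compl]
    simp
  · rw [Measure.smul_apply, Measure.map_apply hm measurableSet_closedBall, smul_eq_mul]
    refine le_trans (mul_le_of_le_one_left' (by simp)) ?_
    rcases (A1a_X l ⁻¹' Metric.closedBall x ((1 - 2 * l) / 30 * l ^ k)).eq_empty_or_nonempty with
      he | ⟨w0, hw0⟩
    · simp [he]
    · rw [← A1a_cyl w0 k]
      refine measure_mono fun w hw => ?_
      by_contra hn
      simp only [mem_ofPred_eq, not_forall] at hn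
      obtain ⟨j, hj, hne⟩ := hn
      have hf := A1a_far h0 h1 w w0 k ⟨j, hj, hne⟩
      simp only [mem_preimage, Metric.mem_closedBall, Real.dist_eq] at hw hw0
      have ht := abs_sub_le (A1a_X l w) x (A1a_X l w0)
      rw [abs_sub_comm x] at ht
      have hp : 0 < (1 - 2 * l) * l ^ k := by positivity
      nlinarith
  · classical
    refine ⟨Finset.univ.image fun s : Fin k → Bool =>
      A1a_X l fun j => if h : j < k then s ⟨j, h⟩ else false, ?_, ?_⟩
    · refine Finset.card_image_le.trans ?_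
      simp
    · rintro _ ⟨w, rfl⟩
      simp only [mem_iUnion, Finset.mem_image, Finset.mem_univ, true_and, exists_prop]
      refine ⟨_, ⟨fun j => w j, rfl⟩, ?_⟩
      rw [Metric.mem_closedBall, Real.dist_eq]
      exact A1a_near h0 h1' _ _ k fun j hj => by simp [hj]

end Pool.Agent.MP_ff5407_an.H58
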