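import Pool.Agent.MP_ff5407_an.H58.Spec

/-! Row A2: negative moments of a Frostman measure. -/

open scoped ContDiff Topology Manifold NNReal ENNReal ComplexConjugate
open Set Filter MeasureTheory Complex

noncomputable section

namespace Pool.Agent.MP_ff5407_an.H58

theorem A2_abs {b u : ℝ} (hb : 1 / 10 ≤ b) : |b - √u| ≤ 10 * |b ^ 2 - u| := by
  rcases le_total 0 u with hu | hu
  · have h : b ^ 2 - u = (b - √u) * (b + √u) := by
      have := Real.sq_sqrt hu
      linear_combination this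
    have h0 := Real.sqrt_nonneg u
    rw [h, abs_mul, abs_of_nonneg (by linarith : 0 ≤ b + √u)]
    nlinarith [abs_nonneg (b - √u)]
  · rw [Real.sqrt_eq_zero_of_nonpos hu, sub_zero, abs_of_nonneg (by linarith),
      abs_of_nonneg (by nlinarith)]
    nlinarith

theorem A2_lt {x t a : ℝ} (hx : 0 ≤ x) (ht : 0 < t) (ha : 0 < a) (h : t < x ^ (-a)) :
    x ≤ t ^ (-a)⁻¹ := by
  rcases hx.eq_or_lt with h0 | h0
  · rw [← h0]; positivity
  · exact ((Real.lt_rpow_inv_iff_of_neg h0 ht (neg_lt_zero.2 ha)).2 h).le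

theorem rA2 : RA2 := by
  intro α ν E H a ha haα
  obtain ⟨C, hC⟩ := H.fro
  have hK : ∫⁻ t in Ioi (1 : ℝ), ENNReal.ofReal (C * 10 ^ α * t ^ ((-a)⁻¹ * α)) < ⊤ := by
    refine Integrable.lintegral_lt_top (Integrable.const_mul ?_ _)
    refine integrableOn_Ioi_rpow_of_lt ?_ one_pos
    rw [inv_neg, neg_mul, neg_lt_neg_iff, inv_mul_eq_div, one_lt_div ha]
    exact haα
  set K := ∫⁻ t in Ioi (1 : ℝ), ENNReal.ofReal (C * 10 ^ α * t ^ ((-a)⁻¹ * α))
  have hK' : 1 + K ≠ ⊤ := ENNReal.add_ne_top.2 ⟨ENNReal.one_ne_top, hK.ne⟩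
  refine ⟨(1 + K).toReal, fun u => ?_⟩
  have hm : Measurable fun b : ℝ => |b ^ 2 - u| ^ (-a) := by fun_prop
  have hn : 0 ≤ᵐ[ν] fun b : ℝ => |b ^ 2 - u| ^ (-a) :=
    Eventually.of_forall fun b => by positivity
  have hL : ∫⁻ b, ENNReal.ofReal (|b ^ 2 - u| ^ (-a)) ∂ν ≤ 1 + K := by
    rw [lintegral_eq_lintegral_meas_lt ν hn hm.aemeasurable, ← Ioc_union_Ioi_eq_Ioi zero_le_one]
    refine (lintegral_union_le _ _ _).trans (add_le_add ?_ ?_)
    · refine (lintegral_mono (g := fun _ => 1) fun t => ?_).trans (by simp)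
      refine (measure_mono (subset_univ _)).trans ?_
      rw [H.mass]
      simp
    · refine setLIntegral_mono' measurableSet_Ioi fun t ht => ?_
      have ht0 : 0 < t := one_pos.trans ht
      have hs : {b : ℝ | t < |b ^ 2 - u| ^ (-a)} ⊆
          Metric.closedBall (√u) (10 * t ^ (-a)⁻¹) ∪ Eᶜ := by
        intro b hb
        by_cases hE : b ∈ E
        · left
          rw [Metric.mem_closedBall, Real.dist_eq]
          have h1 := A2_lt (abs_nonneg _) ht0 ha hb
          have h2 := A2_abs (u := u) (H.sub hE).1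
          linarith
        · exact Or.inr hE
      refine (measure_mono hs).trans ((measure_union_le _ _).trans ?_)
      rw [H.supp, add_zero]
      refine (hC _ _ (by positivity)).trans_eq ?_
      rw [Real.mul_rpow (by norm_num) (by positivity), Real.rpow_mul ht0.le, mul_assoc]
  refine ⟨⟨hm.aestronglyMeasurable, ?_⟩, ?_⟩
  · exact (hasFiniteIntegral_iff_ofReal hn).2 (hL.trans_lt hK'.lt_top)
  · rw [integral_eq_lintegral_of_nonneg_ae hn hm.aestronglyMeasurable]
    exact ENNReal.toReal_mono hK' hL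

end Pool.Agent.MP_ff5407_an.H58
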