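import Pool.Agent.MP_ff5407_an.H58.Spec

/-! Bounds and Hölder continuity of the profile. -/

open scoped ContDiff Topology Manifold NNReal ENNReal ComplexConjugate
open Set Filter MeasureTheory Complex

noncomputable section

namespace Pool.Agent.MP_ff5407_an.H58

theorem A3_inv_sqrt {t : ℝ} (ht : 0 < t) : (√t)⁻¹ = t ^ (-(1 / 2 : ℝ)) := by
  rw [Real.sqrt_eq_rpow, Real.rpow_neg ht.le]

theorem A3_split {t : ℝ} (ht : 0 < t) (β : ℝ) : (√t)⁻¹ = t ^ β * t ^ (-(1 / 2 + β)) := by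
  rw [A3_inv_sqrt ht, ← Real.rpow_add ht]
  congr 1
  ring

theorem A3_le {β t t' : ℝ} (h0 : 0 ≤ β) (h1 : β ≤ 1) (h : t ≤ t') :
    |(√t)⁻¹ - (√t')⁻¹| ≤ |t - t'| ^ β * (|t| ^ (-(1 / 2 + β)) + |t'| ^ (-(1 / 2 + β))) := by
  have p1 : 0 ≤ |t| ^ (-(1 / 2 + β)) := by positivity
  have p2 : 0 ≤ |t'| ^ (-(1 / 2 + β)) := by positivity
  have p3 : 0 ≤ |t - t'| ^ β := by positivity
  have e : |t - t'| = t' - t := by rw [abs_sub_comm, abs_of_nonneg (by linarith)]
  rcases le_or_gt t' 0 with h2 | h2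
  · rw [Real.sqrt_eq_zero_of_nonpos h2, Real.sqrt_eq_zero_of_nonpos (h.trans h2), sub_self,
      abs_zero]
    positivity
  rcases le_or_gt t 0 with h3 | h3
  · rw [Real.sqrt_eq_zero_of_nonpos h3, inv_zero, zero_sub, abs_neg,
      abs_of_nonneg (by positivity), A3_split h2 β]
    have h4 : t' ^ β ≤ |t - t'| ^ β := Real.rpow_le_rpow h2.le (by rw [e]; linarith) h0
    rw [abs_of_pos h2] at p2 ⊢
    calc t' ^ β * t' ^ (-(1 / 2 + β)) ≤ |t - t'| ^ β * t' ^ (-(1 / 2 + β)) :=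
          mul_le_mul_of_nonneg_right h4 p2
      _ ≤ _ := mul_le_mul_of_nonneg_left (by linarith) p3
  · have hx : 0 < √t := Real.sqrt_pos.2 h3
    have hxy : √t ≤ √t' := Real.sqrt_le_sqrt h
    have hy : 0 < √t' := hx.trans_le hxy
    have hinv : (√t')⁻¹ ≤ (√t)⁻¹ := inv_anti₀ hx hxy
    have hs : 0 ≤ (t' - t) / t := div_nonneg (by linarith) h3.le
    have key : (√t)⁻¹ - (√t')⁻¹ ≤ ((t' - t) / t) ^ β * (√t)⁻¹ := by
      rcases le_total 1 ((t' - t) / t) with h5 | h5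
      · have := Real.one_le_rpow h5 h0
        have h6 : 0 < (√t')⁻¹ := inv_pos.2 hy
        nlinarith [inv_pos.2 hx]
      · have h6 : (t' - t) / t ≤ ((t' - t) / t) ^ β := by
          conv_lhs => rw [← Real.rpow_one ((t' - t) / t)]
          exact Real.rpow_le_rpow_of_exponent_ge' hs h5 h0 h1
        refine le_trans ?_ (mul_le_mul_of_nonneg_right h6 (inv_pos.2 hx).le)
        have e1 := Real.sq_sqrt h3.le
        have e2 := Real.sq_sqrt h2.le
        generalize √t = x at *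
        generalize √t' = y at *
        subst e1 e2
        rw [← sub_nonneg]
        have : (y ^ 2 - x ^ 2) / x ^ 2 * x⁻¹ - (x⁻¹ - y⁻¹) =
            (y - x) * ((y + x) * y - x ^ 2) / (x ^ 3 * y) := by
          field_simp
          ring
        rw [this]
        refine div_nonneg (mul_nonneg (by linarith) (by nlinarith)) (by positivity)
    rw [abs_of_nonneg (by linarith)]
    refine key.trans ?_
    rw [A3_split h3 β, Real.div_rpow (by linarith) h3.le, ← mul_assoc,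
      div_mul_cancel₀ _ (Real.rpow_pos_of_pos h3 β).ne', ← e]
    rw [abs_of_pos h3] at p1 ⊢
    exact mul_le_mul_of_nonneg_left (by linarith) p3

theorem A3_le' {β : ℝ} (h0 : 0 ≤ β) (h1 : β ≤ 1) (t t' : ℝ) :
    |(√t)⁻¹ - (√t')⁻¹| ≤ |t - t'| ^ β * (|t| ^ (-(1 / 2 + β)) + |t'| ^ (-(1 / 2 + β))) := by
  rcases le_total t t' with h | h
  · exact A3_le h0 h1 h
  · rw [abs_sub_comm, abs_sub_comm t, add_comm (|t| ^ _)]
    exact A3_le h0 h1 h

theorem A3_bound (t : ℝ) : (√t)⁻¹ ≤ |t| ^ (-(1 / 2 : ℝ)) := by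
  rcases le_or_gt t 0 with h | h
  · rw [Real.sqrt_eq_zero_of_nonpos h, inv_zero]
    positivity
  · rw [A3_inv_sqrt h, abs_of_pos h]

theorem rA3 (h : RA2) : RA3 := by
  intro α ν E hC hα
  have hae : ∀ᵐ b ∂ν, 1 / 10 ≤ b ∧ b ≤ 1 / 5 :=
    Filter.mem_of_superset (mem_ae_iff.2 hC.supp) fun b hb => hC.sub hb
  obtain ⟨K, hK⟩ := h α ν E hC (1 / 2) (by norm_num) hα
  have hle : ∀ u, ∀ᵐ b ∂ν, 0 ≤ b / √(b ^ 2 - u) ∧
      b / √(b ^ 2 - u) ≤ |b ^ 2 - u| ^ (-(1 / 2 : ℝ)) := fun u => hae.mono fun b hb => by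
    have hb0 : 0 ≤ b := by linarith [hb.1]
    refine ⟨by positivity, le_trans ?_ (A3_bound _)⟩
    rw [div_eq_mul_inv]
    exact mul_le_of_le_one_left (by positivity) (by linarith [hb.2])
  have hint : ∀ u, Integrable (fun b : ℝ => b / √(b ^ 2 - u)) ν := fun u =>
    (hK u).1.mono' (by fun_prop : Measurable fun b : ℝ => b / √(b ^ 2 - u)).aestronglyMeasurable
      ((hle u).mono fun b hb => by rw [Real.norm_of_nonneg hb.1]; exact hb.2)
  refine ⟨fun u => ?_, ⟨1 / 2 + K, fun u => ?_⟩, ?_, fun u hu => ?_, fun β h0 h1 hβ => ?_⟩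
  · exact le_add_of_nonneg_right (integral_nonneg_of_ae ((hle u).mono fun b hb => hb.1))
  · exact add_le_add_right ((integral_mono_ae (hint u) (hK u).1
      ((hle u).mono fun b hb => hb.2)).trans (hK u).2) _
  · have : ∫ b, b / √(b ^ 2 - 0) ∂ν = ∫ _, (1 : ℝ) ∂ν :=
      integral_congr_ae (hae.mono fun b hb => by
        have hb0 : 0 < b := by linarith [hb.1]
        simp only [sub_zero, Real.sqrt_sq hb0.le, div_self hb0.ne'])
    rw [Sf, this, integral_const, Measure.real, hC.mass]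
    norm_num
  · have : ∫ b, b / √(b ^ 2 - u) ∂ν = ∫ _, (0 : ℝ) ∂ν :=
      integral_congr_ae (hae.mono fun b hb => by
        have hb0 : b ^ 2 - u ≤ 0 := by nlinarith [hb.1, hb.2]
        simp only [Real.sqrt_eq_zero_of_nonpos hb0, div_zero])
    rw [Sf, this, integral_zero, add_zero]
  · obtain ⟨C, hC'⟩ := h α ν E hC (1 / 2 + β) (by linarith) hβ
    refine ⟨C + C, fun u v => ?_⟩
    rw [Sf, Sf, add_sub_add_left_eq_sub, ← integral_sub (hint u) (hint v)]
    have h2 : ∀ᵐ b ∂ν, ‖b / √(b ^ 2 - u) - b / √(b ^ 2 - v)‖ ≤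
        |u - v| ^ β * (|b ^ 2 - u| ^ (-(1 / 2 + β)) + |b ^ 2 - v| ^ (-(1 / 2 + β))) :=
      hae.mono fun b hb => by
        have hb0 : 0 ≤ b := by linarith [hb.1]
        have h3 := A3_le' h0 h1 (b ^ 2 - u) (b ^ 2 - v)
        rw [show b ^ 2 - u - (b ^ 2 - v) = -(u - v) by ring, abs_neg] at h3
        rw [div_eq_mul_inv, div_eq_mul_inv, ← mul_sub, Real.norm_eq_abs, abs_mul,
          abs_of_nonneg hb0]
        exact (mul_le_of_le_one_left (abs_nonneg _) (by linarith [hb.2])).trans h3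
    refine (norm_integral_le_of_norm_le (((hC' u).1.add (hC' v).1).const_mul _) h2).trans ?_
    simp only [Pi.add_apply]
    rw [integral_const_mul, integral_add (hC' u).1 (hC' v).1, mul_comm]
    exact mul_le_mul_of_nonneg_right (add_le_add (hC' u).2 (hC' v).2) (by positivity)

end Pool.Agent.MP_ff5407_an.H58
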