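import Pool.Agent.MP_ff5407_an.H58.Spec

/-! Row A4: the profile is analytic off the squares of the Cantor set. -/

open scoped ContDiff Topology Manifold NNReal ENNReal ComplexConjugate
open Set Filter MeasureTheory Complex

noncomputable section

namespace Pool.Agent.MP_ff5407_an.H58

theorem A4_meas (z : ℂ) (r : ℝ) : Measurable fun b : ℝ => ((b : ℂ) ^ 2 - z) ^ (r : ℂ) :=
  ((Complex.measurable_ofReal.pow_const 2).sub_const z).pow_const _

theorem A4_re (b : ℝ) (z : ℂ) : ((b : ℂ) ^ 2 - z).re = b ^ 2 - z.re := by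
  rw [sub_re, ← ofReal_pow, ofReal_re]

theorem A4_bd {b c d r : ℝ} {z : ℂ} (d0 : 0 < d) (hb : c + d ≤ b ^ 2) (hz : z.re < c)
    (hr : r ≤ 0) : ‖((b : ℂ) ^ 2 - z) ^ (r : ℂ)‖ ≤ d ^ r := by
  rw [norm_cpow_real]
  refine Real.rpow_le_rpow_of_nonpos d0 ?_ hr
  have := re_le_norm ((b : ℂ) ^ 2 - z)
  rw [A4_re] at this
  linarith

theorem A4_diff (μ : Measure ℝ) [IsFiniteMeasure μ] {c d : ℝ} (d0 : 0 < d)
    (hμ : ∀ᵐ b ∂μ, |b| ≤ 1 ∧ c + d ≤ b ^ 2) :
    DifferentiableOn ℂ (fun z : ℂ => ∫ b : ℝ, (b : ℂ) * ((b : ℂ) ^ 2 - z) ^ ((-1 / 2 : ℝ) : ℂ) ∂μ)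
      {z | z.re < c} := by
  intro z hz
  have ho : IsOpen {z : ℂ | z.re < c} := isOpen_lt continuous_re continuous_const
  have hm : ∀ (z : ℂ) (r : ℝ),
      AEStronglyMeasurable (fun b : ℝ => (b : ℂ) * ((b : ℂ) ^ 2 - z) ^ (r : ℂ)) μ := fun z r =>
    (Complex.measurable_ofReal.mul (A4_meas z r)).aestronglyMeasurable
  have hb : ∀ r : ℝ, r ≤ 0 → ∀ᵐ b : ℝ ∂μ, ∀ z ∈ {z : ℂ | z.re < c},
      ‖(b : ℂ) * ((b : ℂ) ^ 2 - z) ^ (r : ℂ)‖ ≤ d ^ r := fun r hr => hμ.mono fun b hb z hz => by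
    rw [norm_mul, norm_real, Real.norm_eq_abs]
    exact (mul_le_of_le_one_left (norm_nonneg _) hb.1).trans (A4_bd d0 hb.2 hz hr)
  refine (hasDerivAt_integral_of_dominated_loc_of_deriv_le (ho.mem_nhds hz)
    (F' := fun z b => (1 / 2 : ℂ) * ((b : ℂ) * ((b : ℂ) ^ 2 - z) ^ ((-3 / 2 : ℝ) : ℂ)))
    (bound := fun _ => d ^ (-3 / 2 : ℝ)) (Eventually.of_forall fun z => hm z _)
    (Integrable.of_bound (hm z _) _ ((hb _ (by norm_num)).mono fun b h => h z hz))
    ((hm z _).const_mul _) ((hb (-3 / 2) (by norm_num)).mono fun b h z hz => ?_)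
    (integrable_const _) (hμ.mono fun b hb z hz => ?_)).2.differentiableAt.differentiableWithinAt
  · rw [norm_mul]
    exact (mul_le_of_le_one_left (norm_nonneg _) (by norm_num)).trans (h z hz)
  · have hs : (b : ℂ) ^ 2 - z ∈ slitPlane := Or.inl (by
      rw [A4_re]
      have : z.re < c := hz
      linarith [hb.2])
    have h1 := (((hasDerivAt_id z).const_sub ((b : ℂ) ^ 2)).cpow_const
      (c := ((-1 / 2 : ℝ) : ℂ)) hs).const_mul (b : ℂ)
    have e : ((-1 / 2 : ℝ) : ℂ) - 1 = ((-3 / 2 : ℝ) : ℂ) := by push_cast; ring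
    rw [e] at h1
    refine h1.congr_deriv ?_
    simp only [id]
    push_cast
    ring

theorem rA4 : RA4 := by
  intro ν E hC u hu
  have : IsFiniteMeasure ν := ⟨by rw [hC.mass]; simp⟩
  have hK : IsCompact E := isCompact_Icc.of_isClosed_subset hC.closed hC.sub
  obtain ⟨d, d0, hd⟩ := hK.exists_forall_le' (f := fun b => |b ^ 2 - u|) (by fun_prop) (a := 0)
    fun b hb => abs_pos.2 (sub_ne_zero.2 (hu b hb))
  have hE : ∀ᵐ b ∂ν, b ∈ E := hC.supp
  have hA : MeasurableSet {b : ℝ | u < b ^ 2} := measurableSet_lt measurable_const (by fun_prop)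
  have hμ : ∀ᵐ b ∂ν.restrict {b : ℝ | u < b ^ 2}, |b| ≤ 1 ∧ u + d / 2 + d / 2 ≤ b ^ 2 := by
    rw [ae_restrict_iff' hA]
    refine hE.mono fun b hb hb' => ⟨?_, ?_⟩
    · have := hC.sub hb
      rw [abs_le]; constructor <;> linarith [this.1, this.2]
    · have := hd b hb
      have h2 : u < b ^ 2 := hb'
      rw [abs_of_pos (by linarith)] at this
      linarith
  have ho : IsOpen {z : ℂ | z.re < u + d / 2} := isOpen_lt continuous_re continuous_const
  have h1 := (A4_diff _ (half_pos d0) hμ).analyticAt (z := (u : ℂ))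
    (ho.mem_nhds (by simp [d0]))
  have h2 := (reCLM.analyticAt _).comp
    ((h1.restrictScalars (𝕜 := ℝ)).comp (ofRealCLM.analyticAt u))
  refine ((analyticAt_const (v := (1 / 2 : ℝ))).add h2).congr ?_
  filter_upwards [Ioo_mem_nhds (show u - d / 2 < u by linarith) (show u < u + d / 2 by linarith)]
    with v hv
  have e1 : ∫ b, b / √(b ^ 2 - v) ∂ν = ∫ b in {b : ℝ | u < b ^ 2}, b / √(b ^ 2 - v) ∂ν := by
    rw [← integral_indicator hA]
    refine integral_congr_ae (hE.mono fun b hb => ?_)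
    by_cases h : b ∈ {b : ℝ | u < b ^ 2}
    · simp only [indicator_of_mem h]
    · have h3 : b ^ 2 ≤ u := not_lt.1 h
      have := hd b hb
      rw [abs_of_nonpos (by linarith)] at this
      simp only [indicator_of_notMem h]
      rw [Real.sqrt_eq_zero_of_nonpos (by linarith [hv.1]), div_zero]
  have e2 : ∫ b : ℝ in {b : ℝ | u < b ^ 2}, (b : ℂ) * ((b : ℂ) ^ 2 - v) ^ ((-1 / 2 : ℝ) : ℂ) ∂ν =
      ((∫ b in {b : ℝ | u < b ^ 2}, b / √(b ^ 2 - v) ∂ν : ℝ) : ℂ) := by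
    rw [← integral_complex_ofReal]
    refine integral_congr_ae (hμ.mono fun b hb => ?_)
    have h3 : 0 ≤ b ^ 2 - v := by linarith [hb.2, hv.2]
    have h4 : (b : ℂ) ^ 2 - v = ((b ^ 2 - v : ℝ) : ℂ) := by push_cast; ring
    simp only
    rw [h4, ← ofReal_cpow h3, Real.sqrt_eq_rpow, neg_div, Real.rpow_neg h3, div_eq_mul_inv b,
      ← ofReal_mul]
  simp only [Pi.add_apply, Function.comp_apply, reCLM_apply, Sf]
  rw [e2, ofReal_re, e1]

end Pool.Agent.MP_ff5407_an.H58
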