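import Pool.Agent.MP_ff5407_an.H58.Spec

/-! The deflection angle and the time delay are locally constant off the Cantor set. -/

open scoped ContDiff Topology Manifold NNReal ENNReal ComplexConjugate
open Set Filter MeasureTheory Complex

noncomputable section

namespace Pool.Agent.MP_ff5407_an.H58

theorem A5_ae {ν : Measure ℝ} {E : Set ℝ} (h : Can0 ν E) :
    ∀ᵐ b ∂ν, b ∈ E ∧ 0 < b ∧ b ≤ 1 / 5 := by
  have h1 : ∀ᵐ b ∂ν, b ∈ E := h.supp
  filter_upwards [h1] with b hb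
  exact ⟨hb, by linarith [(h.sub hb).1], (h.sub hb).2⟩

theorem A5_fin {ν : Measure ℝ} {E : Set ℝ} (h : Can0 ν E) : IsFiniteMeasure ν :=
  ⟨by rw [h.mass]; simp⟩

theorem A5_int (h1 : RA5a) {ν : Measure ℝ} {E : Set ℝ} (h : Can0 ν E) (ξ : ℝ) :
    Integrable (Function.uncurry fun v b : ℝ => b / √(b ^ 2 - (v ^ 2 + ξ ^ 2)))
      ((volume.restrict (uIoc (-1 / 5 : ℝ) (1 / 5))).prod ν) := by
  have := A5_fin h
  have hm : Measurable (Function.uncurry fun v b : ℝ => b / √(b ^ 2 - (v ^ 2 + ξ ^ 2))) := by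
    unfold Function.uncurry
    fun_prop
  rw [integrable_prod_iff' hm.aestronglyMeasurable]
  constructor
  · filter_upwards [A5_ae h] with b hb
    exact intervalIntegrable_iff.1 (h1 b ξ hb.2.1 hb.2.2).1
  · refine Integrable.of_bound
      hm.norm.stronglyMeasurable.integral_prod_left'.aestronglyMeasurable Real.pi ?_
    filter_upwards [A5_ae h] with b hb
    have h2 := (h1 b ξ hb.2.1 hb.2.2).2
    have hle : (-1 / 5 : ℝ) ≤ 1 / 5 := by norm_num
    rw [intervalIntegral.integral_of_le hle] at h2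
    have h3 : ∀ v : ℝ, ‖Function.uncurry (fun v b : ℝ => b / √(b ^ 2 - (v ^ 2 + ξ ^ 2))) (v, b)‖ =
        b / √(b ^ 2 - (v ^ 2 + ξ ^ 2)) := fun v =>
      Real.norm_of_nonneg (div_nonneg hb.2.1.le (Real.sqrt_nonneg _))
    simp only [h3]
    rw [uIoc_of_le hle, h2]
    have := Real.pi_pos
    split_ifs
    · rw [Real.norm_of_nonneg (mul_nonneg this.le hb.2.1.le)]
      nlinarith [hb.2.2]
    · simpa using this.le

theorem A5_TT (h1 : RA5a) {ν : Measure ℝ} {E : Set ℝ} (h : Can0 ν E) {q : ℝ → ℝ}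
    (hq : ∀ u, SS q u = Sf ν u) (ξ : ℝ) :
    TT q ξ = ∫ b, (if |ξ| < b then Real.pi * b else 0) ∂ν := by
  have := A5_fin h
  simp only [TT, hq, Sf, add_sub_cancel_left]
  rw [intervalIntegral_integral_swap (A5_int h1 h ξ)]
  refine integral_congr_ae ?_
  filter_upwards [A5_ae h] with b hb
  exact (h1 b ξ hb.2.1 hb.2.2).2

theorem A5_DD (h1 : RA5a) (h2 : RA5b) {ν : Measure ℝ} {E : Set ℝ} (h : Can0 ν E) {q : ℝ → ℝ}
    (hq : ∀ u, SS q u = Sf ν u) (ξ : ℝ) (hξ : ξ ≠ 0) :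
    DD q ξ = ∫ b, (if |ξ| < b then Real.pi * (ξ / |ξ|) else 0) ∂ν := by
  have := A5_fin h
  have hi : Integrable (Function.uncurry fun v b : ℝ =>
      ξ * (b / √(b ^ 2 - (v ^ 2 + ξ ^ 2))) / (v ^ 2 + ξ ^ 2))
      ((volume.restrict (uIoc (-1 / 5 : ℝ) (1 / 5))).prod ν) := by
    refine ((A5_int h1 h ξ).const_mul (ξ / ξ ^ 2)).mono ?_ (Eventually.of_forall fun p => ?_)
    · refine Measurable.aestronglyMeasurable ?_
      unfold Function.uncurry
      fun_prop
    · have h3 : 0 < ξ ^ 2 := by positivity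
      simp only [Function.uncurry]
      rw [div_mul_eq_mul_div, norm_div, norm_div _ (ξ ^ 2), Real.norm_of_nonneg h3.le,
        Real.norm_of_nonneg (by positivity : 0 ≤ p.1 ^ 2 + ξ ^ 2)]
      exact div_le_div_of_nonneg_left (norm_nonneg _) h3 (by nlinarith [sq_nonneg p.1])
  simp only [DD, hq, Sf, add_sub_cancel_left, ← integral_const_mul, ← integral_div]
  rw [intervalIntegral_integral_swap hi]
  refine integral_congr_ae ?_
  filter_upwards [A5_ae h] with b hb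
  exact h2 b ξ hb.2.1 hb.2.2 hξ

theorem rA5 (h1 : RA5a) (h2 : RA5b) : RA5 := by
  intro ν E h q hq ξ ξ' hp hs
  have hξ : ξ ≠ 0 := left_ne_zero_of_mul hp.ne'
  have hξ' : ξ' ≠ 0 := right_ne_zero_of_mul hp.ne'
  have hsg : ξ / |ξ| = ξ' / |ξ'| := by
    rcases pos_and_pos_or_neg_and_neg_of_mul_pos hp with ⟨a, b⟩ | ⟨a, b⟩
    · rw [abs_of_pos a, abs_of_pos b, div_self hξ, div_self hξ']
    · rw [abs_of_neg a, abs_of_neg b, div_neg, div_neg, div_self hξ, div_self hξ']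
  rw [A5_DD h1 h2 h hq ξ hξ, A5_DD h1 h2 h hq ξ' hξ', A5_TT h1 h hq, A5_TT h1 h hq, hsg]
  constructor <;> refine integral_congr_ae ?_ <;> filter_upwards [A5_ae h] with b hb <;>
    simp only [hs b hb.1]

end Pool.Agent.MP_ff5407_an.H58
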