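import Pool.Agent.MP_ff5407_an.H58.Spec

/-! Row A5a: an elementary integral. -/

open scoped ContDiff Topology Manifold NNReal ENNReal ComplexConjugate
open Set Filter MeasureTheory Complex

noncomputable section

namespace Pool.Agent.MP_ff5407_an.H58

theorem A5a_zero (f : ℝ → ℝ) (s t : ℝ) (h : ∀ v ∈ uIcc s t, f v = 0) :
    IntervalIntegrable f volume s t ∧ ∫ v in s..t, f v = 0 := by
  refine ⟨?_, ?_⟩
  · refine (intervalIntegrable_const (c := (0 : ℝ))).congr fun v hv => ?_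
    exact (h v (uIoc_subset_uIcc hv)).symm
  · rw [intervalIntegral.integral_congr (g := fun _ => 0) h]
    simp

theorem A5a_mid (a b : ℝ) (ha : 0 < a) (hb : 0 < b) :
    IntervalIntegrable (fun v : ℝ => b / √(a ^ 2 - v ^ 2)) volume (-a) a ∧
      ∫ v in (-a)..a, b / √(a ^ 2 - v ^ 2) = Real.pi * b := by
  have hc : Continuous fun v : ℝ => b * Real.arcsin (v / a) := by fun_prop
  have hd : ∀ v ∈ Ioo (-a) a,
      HasDerivAt (fun v : ℝ => b * Real.arcsin (v / a)) (b / √(a ^ 2 - v ^ 2)) v := by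
    intro v hv
    have h1 : v / a ≠ -1 := by
      intro h; rw [div_eq_iff ha.ne'] at h; linarith [hv.1]
    have h2 : v / a ≠ 1 := by
      intro h; rw [div_eq_iff ha.ne'] at h; linarith [hv.2]
    have h3 := ((Real.hasDerivAt_arcsin h1 h2).comp v ((hasDerivAt_id v).div_const a)).const_mul b
    refine h3.congr_deriv ?_
    have e : a ^ 2 - v ^ 2 = a ^ 2 * (1 - (v / a) ^ 2) := by field_simp
    rw [e, Real.sqrt_mul (sq_nonneg a), Real.sqrt_sq ha.le]
    field_simp
  have hle : -a ≤ a := by linarith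
  have hi : IntervalIntegrable (fun v : ℝ => b / √(a ^ 2 - v ^ 2)) volume (-a) a := by
    refine intervalIntegral.intervalIntegrable_deriv_of_nonneg hc.continuousOn ?_ ?_
    · rw [min_eq_left hle, max_eq_right hle]; exact hd
    · intro x _; positivity
  refine ⟨hi, ?_⟩
  rw [intervalIntegral.integral_eq_sub_of_hasDerivAt_of_le hle hc.continuousOn hd hi, neg_div,
    div_self ha.ne', Real.arcsin_neg, Real.arcsin_one]
  ring

theorem rA5a : RA5a := by
  intro b ξ hb hb5
  split_ifs with h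
  · have h1 : ξ ^ 2 < b ^ 2 := by
      rw [← sq_abs ξ]; exact pow_lt_pow_left₀ h (abs_nonneg _) two_ne_zero
    set a := √(b ^ 2 - ξ ^ 2) with ha
    have ha0 : 0 < a := Real.sqrt_pos.2 (by linarith)
    have ha2 : a ^ 2 = b ^ 2 - ξ ^ 2 := Real.sq_sqrt (by linarith)
    have hab : a ≤ 1 / 5 := by nlinarith [sq_nonneg ξ]
    have e : (fun v : ℝ => b / √(b ^ 2 - (v ^ 2 + ξ ^ 2))) = fun v : ℝ => b / √(a ^ 2 - v ^ 2) := by
      funext v; rw [ha2]; congr 2; ring
    rw [e]
    obtain ⟨m1, m2⟩ := A5a_mid a b ha0 hb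
    obtain ⟨l1, l2⟩ := A5a_zero (fun v : ℝ => b / √(a ^ 2 - v ^ 2)) (-1 / 5) (-a) fun v hv => by
      rw [uIcc_of_le (by linarith)] at hv
      rw [Real.sqrt_eq_zero_of_nonpos (by nlinarith [hv.2]), div_zero]
    obtain ⟨r1, r2⟩ := A5a_zero (fun v : ℝ => b / √(a ^ 2 - v ^ 2)) a (1 / 5) fun v hv => by
      rw [uIcc_of_le hab] at hv
      rw [Real.sqrt_eq_zero_of_nonpos (by nlinarith [hv.1]), div_zero]
    refine ⟨(l1.trans m1).trans r1, ?_⟩
    rw [← intervalIntegral.integral_add_adjacent_intervals (l1.trans m1) r1,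
      ← intervalIntegral.integral_add_adjacent_intervals l1 m1, l2, m2, r2]
    ring
  · refine A5a_zero _ _ _ fun v _ => ?_
    have h1 : b ^ 2 ≤ ξ ^ 2 := by
      rw [← sq_abs ξ]; exact pow_le_pow_left₀ hb.le (not_lt.1 h) 2
    rw [Real.sqrt_eq_zero_of_nonpos (by nlinarith [sq_nonneg v]), div_zero]

end Pool.Agent.MP_ff5407_an.H58
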