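import Pool.Agent.MP_ff5407_an.H58.Spec

/-!
The deflection integral of one spherical layer.
-/

open scoped ContDiff Topology Manifold NNReal ENNReal ComplexConjugate
open Set Filter MeasureTheory Complex

noncomputable section

namespace Pool.Agent.MP_ff5407_an.H58

theorem A5b_der {a b ξ v : ℝ} (ha : 0 < a) (hξ : ξ ≠ 0) (hb : b ^ 2 = a ^ 2 + ξ ^ 2)
    (hv : v ^ 2 < a ^ 2) :
    HasDerivAt (fun v : ℝ => ξ / |ξ| * Real.arcsin (b * v / (a * √(v ^ 2 + ξ ^ 2))))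
      (ξ * (b / √(b ^ 2 - (v ^ 2 + ξ ^ 2))) / (v ^ 2 + ξ ^ 2)) v := by
  have h0 : 0 < v ^ 2 + ξ ^ 2 := by positivity
  have h1 : HasDerivAt (fun v : ℝ => v ^ 2 + ξ ^ 2) (2 * v) v := by
    simpa using (hasDerivAt_pow 2 v).add_const (ξ ^ 2)
  have h2 := ((hasDerivAt_id v).const_mul b).div ((h1.sqrt h0.ne').const_mul a)
    (by positivity)
  have e0 : b ^ 2 - (v ^ 2 + ξ ^ 2) = a ^ 2 - v ^ 2 := by linarith
  rw [e0]
  obtain ⟨s, hs⟩ : ∃ s, s = √(v ^ 2 + ξ ^ 2) := ⟨_, rfl⟩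
  obtain ⟨t, ht⟩ : ∃ t, t = √(a ^ 2 - v ^ 2) := ⟨_, rfl⟩
  have s0 : 0 < s := by rw [hs]; positivity
  have t0 : 0 < t := by rw [ht]; exact Real.sqrt_pos.2 (by linarith)
  have s2 : s ^ 2 = v ^ 2 + ξ ^ 2 := by rw [hs, Real.sq_sqrt h0.le]
  have t2 : t ^ 2 = a ^ 2 - v ^ 2 := by rw [ht, Real.sq_sqrt (by linarith)]
  have x0 : 0 < |ξ| := abs_pos.2 hξ
  have x2 : |ξ| ^ 2 = ξ ^ 2 := sq_abs ξ
  have e1 : 1 - (b * v / (a * s)) ^ 2 = (|ξ| * t / (a * s)) ^ 2 := by
    field_simp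
    rw [x2, t2, s2, hb]
    ring
  have p1 : 0 < 1 - (b * v / (a * s)) ^ 2 := by rw [e1]; positivity
  have n1 : b * v / (a * s) ≠ -1 := fun h => by rw [h] at p1; norm_num at p1
  have n2 : b * v / (a * s) ≠ 1 := fun h => by rw [h] at p1; norm_num at p1
  have h3 := Real.hasDerivAt_arcsin n1 n2
  rw [e1, Real.sqrt_sq (by positivity), hs] at h3
  refine HasDerivAt.congr_deriv ((h3.comp v h2).const_mul (ξ / |ξ|)) ?_
  simp only [id]
  rw [← hs, ← ht, ← s2]
  field_simp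
  rw [x2, s2]
  ring

theorem rA5b (h : RA5a) : RA5b := by
  intro b ξ hb hb' hξ
  have z : ∀ v : ℝ, b ^ 2 ≤ v ^ 2 + ξ ^ 2 →
      ξ * (b / √(b ^ 2 - (v ^ 2 + ξ ^ 2))) / (v ^ 2 + ξ ^ 2) = 0 := fun v hv => by
    rw [Real.sqrt_eq_zero'.2 (by linarith)]
    simp
  split_ifs with hl
  · have h1 : ξ ^ 2 < b ^ 2 := by
      rw [← sq_abs ξ]
      exact pow_lt_pow_left₀ hl (abs_nonneg _) two_ne_zero
    obtain ⟨a, ha, hab⟩ : ∃ a : ℝ, 0 < a ∧ b ^ 2 = a ^ 2 + ξ ^ 2 :=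
      ⟨√(b ^ 2 - ξ ^ 2), Real.sqrt_pos.2 (by linarith), by rw [Real.sq_sqrt (by linarith)]; ring⟩
    have ha' : a ≤ 1 / 5 := by nlinarith [sq_nonneg ξ]
    have hi : IntervalIntegrable
        (fun v : ℝ => ξ * (b / √(b ^ 2 - (v ^ 2 + ξ ^ 2))) / (v ^ 2 + ξ ^ 2)) volume
        (-1 / 5) (1 / 5) := by
      have hc : Continuous fun v : ℝ => ξ / (v ^ 2 + ξ ^ 2) :=
        continuous_const.div (by fun_prop) fun v => by positivity
      have := (h b ξ hb hb').1.mul_continuousOn hc.continuousOn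
      refine this.congr fun v _ => ?_
      ring
    have m1 : -a ∈ uIcc (-1 / 5 : ℝ) (1 / 5) := by
      rw [uIcc_of_le (by norm_num)]; constructor <;> linarith
    have m2 : a ∈ uIcc (-1 / 5 : ℝ) (1 / 5) := by
      rw [uIcc_of_le (by norm_num)]; constructor <;> linarith
    have i1 := hi.mono_set (uIcc_subset_uIcc left_mem_uIcc m1)
    have i2 := hi.mono_set (uIcc_subset_uIcc m1 m2)
    have i3 := hi.mono_set (uIcc_subset_uIcc m2 right_mem_uIcc)
    have z1 : ∫ v in (-1 / 5 : ℝ)..(-a),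
        ξ * (b / √(b ^ 2 - (v ^ 2 + ξ ^ 2))) / (v ^ 2 + ξ ^ 2) = 0 := by
      rw [intervalIntegral.integral_congr (g := fun _ => 0) fun v hv => z v ?_,
        intervalIntegral.integral_zero]
      rw [uIcc_of_le (by linarith)] at hv
      nlinarith [hv.2]
    have z3 : ∫ v in a..(1 / 5 : ℝ),
        ξ * (b / √(b ^ 2 - (v ^ 2 + ξ ^ 2))) / (v ^ 2 + ξ ^ 2) = 0 := by
      rw [intervalIntegral.integral_congr (g := fun _ => 0) fun v hv => z v ?_,
        intervalIntegral.integral_zero]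
      rw [uIcc_of_le ha'] at hv
      nlinarith [hv.1]
    have hc : Continuous fun v : ℝ => ξ / |ξ| * Real.arcsin (b * v / (a * √(v ^ 2 + ξ ^ 2))) :=
      continuous_const.mul (Real.continuous_arcsin.comp
        (Continuous.div (by fun_prop) (by fun_prop) fun v => by positivity))
    rw [← intervalIntegral.integral_add_adjacent_intervals i1 (i2.trans i3),
      ← intervalIntegral.integral_add_adjacent_intervals i2 i3, z1, z3,
      intervalIntegral.integral_eq_sub_of_hasDerivAt_of_le (by linarith) hc.continuousOn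
        (fun v hv => A5b_der ha hξ hab (by nlinarith [hv.1, hv.2])) i2,
      neg_sq, ← hab, Real.sqrt_sq hb.le, show b * a / (a * b) = 1 by field_simp,
      show b * -a / (a * b) = -1 by field_simp, Real.arcsin_one, Real.arcsin_neg_one]
    ring
  · have h1 : b ^ 2 ≤ ξ ^ 2 := by
      rw [← sq_abs ξ]
      exact pow_le_pow_left₀ hb.le (not_lt.1 hl) 2
    rw [intervalIntegral.integral_congr (g := fun _ => 0) fun v _ => z v
      (by nlinarith [sq_nonneg v]), intervalIntegral.integral_zero]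

end Pool.Agent.MP_ff5407_an.H58
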