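import Pool.Agent.MP_ff5407_an.H58.Spec

/-!
The conformal coordinate of the model.
-/

open scoped ContDiff Topology Manifold NNReal ENNReal ComplexConjugate
open Set Filter MeasureTheory Complex

noncomputable section

namespace Pool.Agent.MP_ff5407_an.H58

/-- A primitive of `q`. -/
def A6_Q (q : ℝ → ℝ) (u : ℝ) : ℝ := (∫ v in (1 : ℝ)..u, q v) - Real.log 2

/-- The square of the new radius. -/
def A6_eta (q : ℝ → ℝ) (u : ℝ) : ℝ := u * Real.exp (A6_Q q u)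

/-- The inverse of `A6_eta`. -/
def A6_rho (q : ℝ → ℝ) : ℝ → ℝ := Function.invFun (A6_eta q)

/-- The radial factor. -/
def A6_g (q : ℝ → ℝ) (x : ℂ) : ℝ := Real.exp (A6_Q q (‖x‖ ^ 2) / 2)

/-- The conformal factor. -/
def A6_n (q : ℝ → ℝ) (y : ℂ) : ℝ := Real.exp (-(A6_Q q (A6_rho q (‖y‖ ^ 2)) / 2))

variable {q : ℝ → ℝ}

theorem A6_dQ (h : Pre q) (u : ℝ) : HasStrictDerivAt (A6_Q q) (q u) u :=
  (h.cont.integral_hasStrictDerivAt 1 u).sub_const _

theorem A6_deta (h : Pre q) (u : ℝ) :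
    HasStrictDerivAt (A6_eta q) (Real.exp (A6_Q q u) * SS q u) u := by
  have := (hasStrictDerivAt_id u).mul (A6_dQ h u).exp
  refine HasStrictDerivAt.congr_deriv this ?_
  simp only [SS, id]
  ring

theorem A6_pos (h : Pre q) (u : ℝ) : 0 < Real.exp (A6_Q q u) * SS q u :=
  mul_pos (Real.exp_pos _) (by linarith [h.lo u])

theorem A6_mono (h : Pre q) : StrictMono (A6_eta q) :=
  strictMono_of_deriv_pos fun u => by rw [(A6_deta h u).hasDerivAt.deriv]; exact A6_pos h u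

theorem A6_flat (h : Pre q) {r : ℝ} (hr : 1 / 5 ≤ r) : Real.exp (A6_Q q (r ^ 2)) = (2 * r)⁻¹ := by
  have h0 : 0 < r := by linarith
  have h1 : ∫ v in (1 : ℝ)..r ^ 2, q v = ∫ v in (1 : ℝ)..r ^ 2, -(1 / 2) * v⁻¹ := by
    refine intervalIntegral.integral_congr fun v hv => ?_
    have h2 : 1 / 25 ≤ v := le_trans (le_min (by norm_num) (by nlinarith)) hv.1
    have h3 := h.flat v h2
    have h4 : v ≠ 0 := by linarith
    rw [SS] at h3
    field_simp
    linarith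
  rw [A6_Q, h1, intervalIntegral.integral_const_mul, integral_inv_of_pos one_pos (by positivity),
    div_one, Real.log_pow, ← Real.exp_log (show 0 < (2 * r)⁻¹ by positivity), Real.log_inv,
    Real.log_mul two_ne_zero h0.ne']
  congr 1
  push_cast
  ring

theorem A6_eta_flat (h : Pre q) {r : ℝ} (hr : 1 / 5 ≤ r) : A6_eta q (r ^ 2) = r / 2 := by
  have h0 : r ≠ 0 := by linarith
  rw [A6_eta, A6_flat h hr]
  field_simp

theorem A6_rho_eta (h : Pre q) (u : ℝ) : A6_rho q (A6_eta q u) = u :=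
  Function.leftInverse_invFun (A6_mono h).injective u

theorem A6_eta_rho (h : Pre q) {s : ℝ} (hs : 0 ≤ s) : A6_eta q (A6_rho q s) = s := by
  have hc : Continuous (A6_eta q) :=
    continuous_iff_continuousAt.2 fun u => (A6_deta h u).hasDerivAt.continuousAt
  obtain ⟨u, -, hu⟩ := intermediate_value_Icc (sq_nonneg (2 * s + 1)) hc.continuousOn
    (show s ∈ Icc (A6_eta q 0) (A6_eta q ((2 * s + 1) ^ 2)) by
      rw [A6_eta_flat h (by linarith), A6_eta, zero_mul]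
      exact ⟨hs, by linarith⟩)
  exact Function.invFun_eq ⟨u, hu⟩

theorem A6_drho (h : Pre q) {s : ℝ} (hs : 0 ≤ s) : HasStrictDerivAt (A6_rho q)
    (Real.exp (A6_Q q (A6_rho q s)) * SS q (A6_rho q s))⁻¹ s := by
  have := (A6_deta h (A6_rho q s)).to_local_left_inverse (A6_pos h _).ne'
    (Eventually.of_forall (A6_rho_eta h))
  rwa [A6_eta_rho h hs] at this

theorem A6_g_sq (x : ℂ) : A6_g q x ^ 2 = Real.exp (A6_Q q (‖x‖ ^ 2)) := by
  rw [A6_g, sq, ← Real.exp_add, add_halves]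

theorem A6_n_sq (y : ℂ) : A6_n q y ^ 2 = (Real.exp (A6_Q q (A6_rho q (‖y‖ ^ 2))))⁻¹ := by
  rw [A6_n, sq, ← Real.exp_add, ← Real.exp_neg]
  congr 1
  ring

theorem A6_norm_g (x : ℂ) : ‖(A6_g q x : ℂ) * x‖ ^ 2 = A6_eta q (‖x‖ ^ 2) := by
  rw [norm_mul, mul_pow, Complex.norm_real, Real.norm_eq_abs, sq_abs, A6_g_sq, A6_eta, mul_comm]

theorem A6_norm_n (h : Pre q) (y : ℂ) : ‖(A6_n q y : ℂ) * y‖ ^ 2 = A6_rho q (‖y‖ ^ 2) := by
  have h1 := A6_eta_rho h (sq_nonneg ‖y‖)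
  rw [A6_eta] at h1
  rw [norm_mul, mul_pow, Complex.norm_real, Real.norm_eq_abs, sq_abs, A6_n_sq,
    inv_mul_eq_iff_eq_mul₀ (Real.exp_pos _).ne', mul_comm, h1]

theorem A6_n_g (h : Pre q) (x : ℂ) : A6_n q (A6_g q x * x) = (A6_g q x)⁻¹ := by
  rw [A6_n, A6_norm_g, A6_rho_eta h, Real.exp_neg, A6_g]

theorem A6_g_n (h : Pre q) (y : ℂ) : A6_g q (A6_n q y * y) = (A6_n q y)⁻¹ := by
  rw [A6_g, A6_norm_n h, A6_n, Real.exp_neg, inv_inv]

theorem A6_dg (h : Pre q) (x : ℂ) :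
    HasFDerivAt (A6_g q) ((q (‖x‖ ^ 2) * A6_g q x) • innerSL ℝ x) x := by
  have h1 := (((A6_dQ h (‖x‖ ^ 2)).hasDerivAt.div_const 2).exp).comp_hasFDerivAt x
    (hasStrictFDerivAt_norm_sq x).hasFDerivAt
  refine HasFDerivAt.congr_fderiv h1 ?_
  ext v
  simp only [A6_g, smul_apply, smul_eq_mul, nsmul_eq_mul]
  push_cast
  ring

theorem A6_dn (h : Pre q) (y : ℂ) : HasFDerivAt (A6_n q)
    ((-(q (A6_rho q (‖y‖ ^ 2)) / SS q (A6_rho q (‖y‖ ^ 2)) * A6_n q y ^ 3)) • innerSL ℝ y) y := by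
  have h0 := (A6_dQ h (A6_rho q (‖y‖ ^ 2))).hasDerivAt.comp (‖y‖ ^ 2)
    (A6_drho h (sq_nonneg ‖y‖)).hasDerivAt
  have h1 := ((h0.div_const 2).neg.exp).comp_hasFDerivAt y
    (hasStrictFDerivAt_norm_sq y).hasFDerivAt
  refine HasFDerivAt.congr_fderiv h1 ?_
  ext v
  rw [pow_succ (A6_n q y) 2, A6_n_sq]
  simp only [A6_n, smul_apply, smul_eq_mul, nsmul_eq_mul, Pi.neg_apply, Function.comp_apply,
    mul_inv]
  push_cast
  ring

/-- The conformal coordinate. -/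
def A6_H (h : Pre q) : ℂ ≃ₜ ℂ where
  toFun x := A6_g q x * x
  invFun y := A6_n q y * y
  left_inv x := by
    have : (A6_g q x : ℂ) ≠ 0 := ofReal_ne_zero.2 (Real.exp_pos _).ne'
    simp only [A6_n_g h, ofReal_inv]
    rw [inv_mul_cancel_left₀ this]
  right_inv y := by
    have : (A6_n q y : ℂ) ≠ 0 := ofReal_ne_zero.2 (Real.exp_pos _).ne'
    simp only [A6_g_n h, ofReal_inv]
    rw [inv_mul_cancel_left₀ this]
  continuous_toFun := (continuous_ofReal.comp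
    (continuous_iff_continuousAt.2 fun x => (A6_dg h x).continuousAt)).mul continuous_id
  continuous_invFun := (continuous_ofReal.comp
    (continuous_iff_continuousAt.2 fun x => (A6_dn h x).continuousAt)).mul continuous_id

theorem rA6 : RA6 := by
  intro q h
  have e : ∀ x, A6_H h x = A6_g q x * x := fun _ => rfl
  have e' : ∀ y, (A6_H h).symm y = A6_n q y * y := fun _ => rfl
  refine ⟨A6_H h, A6_n q, fun _ => Real.exp_pos _, e', fun y => ?_, fun x => ?_, fun x hx => ?_,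
    fun x r hr => ?_, fun x r hr => ?_, fun y hy => ?_⟩
  · rw [e', A6_norm_n h]
    exact A6_dn h y
  · simp only [e, A6_n_g h, inv_inv]
    exact A6_dg h x
  · rw [e, mul_pow, ← ofReal_pow, A6_g_sq, A6_flat h hx, zz, div_eq_inv_mul]
    push_cast
    rfl
  · rw [e, A6_norm_g, ← A6_eta_flat h hr, (A6_mono h).lt_iff_lt,
      sq_lt_sq₀ (norm_nonneg _) (by linarith)]
  · rw [e, A6_norm_g, ← A6_eta_flat h hr, (A6_mono h).le_iff_le,
      sq_le_sq₀ (norm_nonneg _) (by linarith)]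
  · have hr : 1 / 5 ≤ 2 * ‖y‖ ^ 2 := by linarith
    have h1 := A6_eta_flat h hr
    rw [mul_div_cancel_left₀ _ two_ne_zero] at h1
    have h2 : A6_rho q (‖y‖ ^ 2) = (2 * ‖y‖ ^ 2) ^ 2 := by
      conv_lhs => rw [← h1]
      exact A6_rho_eta h _
    refine (sq_eq_sq₀ (Real.exp_pos _).le (by positivity)).1 ?_
    refine (A6_n_sq y).trans ?_
    rw [h2, A6_flat h hr, inv_inv]
    ring

end Pool.Agent.MP_ff5407_an.H58
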