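import Pool.Agent.MP_ff5407_an.H58.Spec

/-! The profile of the cap. -/

open scoped ContDiff Topology Manifold NNReal ENNReal ComplexConjugate
open Set Filter MeasureTheory Complex

noncomputable section

namespace Pool.Agent.MP_ff5407_an.H58

theorem A7_cont {S : ℝ → ℝ} {C γ : ℝ} (hγ : 0 < γ) (h : ∀ u v, |S u - S v| ≤ C * |u - v| ^ γ) :
    Continuous S := by
  refine continuous_iff_continuousAt.mpr fun v => ?_
  rw [ContinuousAt, tendsto_iff_dist_tendsto_zero]
  have h1 : Continuous fun u : ℝ => C * |u - v| ^ γ :=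
    continuous_const.mul ((continuous_id.sub continuous_const).abs.rpow_const
      fun _ => Or.inr hγ.le)
  have h2 := h1.tendsto v
  simp only [sub_self, abs_zero, Real.zero_rpow hγ.ne', mul_zero] at h2
  exact squeeze_zero (fun _ => dist_nonneg) (fun u => h u v) h2

theorem A7_an {S : ℝ → ℝ} {u : ℝ} (h : AnalyticAt ℝ S u) : AnalyticAt ℝ (dslope S 0) u := by
  by_cases hu : u = 0
  · subst hu
    obtain ⟨p, hp⟩ := h
    exact ⟨_, hp.has_fpower_series_dslope_fslope⟩
  · refine AnalyticAt.congr ?_ (dslope_eventuallyEq_slope_of_ne S hu).symm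
    have : slope S 0 = fun v => (S v - S 0) / v := by
      funext v; simp [slope_def_field]
    rw [this]
    exact (h.sub analyticAt_const).div analyticAt_id hu

theorem rA7 (h1 : RA1) (h3 : RA3) (h4 : RA4) (h5 : RA5) : RA7 := by
  intro β hβ0 hβ
  obtain ⟨ν, E, hC⟩ := h1 ((β + 3 / 2) / 2) (by linarith) (by linarith)
  obtain ⟨lo, hi, h0, fl, hol⟩ := h3 _ ν E hC (by linarith)
  set S := Sf ν with hS
  have hmul : ∀ u, u * dslope S 0 u = S u - 1 := fun u => by
    have := sub_smul_dslope S 0 u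
    rwa [sub_zero, smul_eq_mul, h0] at this
  have hSS : ∀ u, SS (dslope S 0) u = S u := fun u => by rw [SS, hmul]; ring
  have han : ∀ u, (∀ b ∈ E, b ^ 2 ≠ u) → AnalyticAt ℝ (dslope S 0) u :=
    fun u hu => A7_an (h4 ν E hC.toCan0 u hu)
  have han' : ∀ u, u ≤ 1 / 200 → AnalyticAt ℝ (dslope S 0) u := fun u hu =>
    han u fun b hb e => by have := (hC.sub hb).1; nlinarith
  have hSc : Continuous S := by
    obtain ⟨C, hC⟩ := hol (1 / 8) (by norm_num) (by norm_num) (by linarith)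
    exact A7_cont (by norm_num) hC
  have hqc : Continuous (dslope S 0) := by
    refine continuous_iff_continuousAt.mpr fun u => ?_
    by_cases hu : u = 0
    · exact (han' u (by rw [hu]; norm_num)).continuousAt
    · exact (continuousAt_dslope_of_ne hu).mpr hSc.continuousAt
  refine ⟨dslope S 0, E, ⟨hqc, fun u => hSS u ▸ lo u, ?_, fun u hu => hSS u ▸ fl u hu⟩, ?_,
    fun u hu => (han u hu).contDiffAt, hC.closed, hC.sub, hC.null, hC.thick,
    h5 ν E hC.toCan0 _ hSS⟩
  · obtain ⟨K, hK⟩ := hi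
    exact ⟨K, fun u => hSS u ▸ hK u⟩
  intro R
  obtain ⟨C, hC'⟩ := hol β hβ0 (by linarith) (by linarith)
  obtain ⟨M, hM⟩ := (isCompact_Icc (a := (0 : ℝ)) (b := R)).exists_bound_of_continuousOn
    hqc.continuousOn
  obtain ⟨K, hK⟩ := (isCompact_Icc (a := (0 : ℝ)) (b := 1 / 200)).exists_bound_of_continuousOn
    (f := deriv (dslope S 0)) fun u hu => (han' u hu.2).deriv.continuousAt.continuousWithinAt
  have hK0 : 0 ≤ K := (norm_nonneg _).trans (hK 0 ⟨le_rfl, by norm_num⟩)
  have hpow : ∀ u ∈ Icc 0 R, ∀ v ∈ Icc 0 R, |u - v| ≤ R ^ (1 - β) * |u - v| ^ β := by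
    intro u hu v hv
    have e : |u - v| = |u - v| ^ (1 - β) * |u - v| ^ β := by
      rw [← Real.rpow_add' (abs_nonneg _) (by norm_num)]; simp
    have : |u - v| ≤ R := abs_le.mpr ⟨by linarith [hu.1, hv.2], by linarith [hu.2, hv.1]⟩
    conv_lhs => rw [e]
    gcongr
    linarith
  have hbig : ∀ u ∈ Icc 0 R, ∀ v ∈ Icc 0 R, 1 / 200 ≤ u →
      |dslope S 0 u - dslope S 0 v| ≤ 200 * (|C| + M * R ^ (1 - β)) * |u - v| ^ β := by
    intro u hu v hv hu'
    have hM0 : 0 ≤ M := (norm_nonneg _).trans (hM u hu)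
    have e : u * (dslope S 0 u - dslope S 0 v) = (S u - S v) - dslope S 0 v * (u - v) := by
      linear_combination hmul u - hmul v
    have a1 : |S u - S v| ≤ |C| * |u - v| ^ β :=
      (hC' u v).trans (by gcongr; exact le_abs_self C)
    have a2 : |dslope S 0 v * (u - v)| ≤ M * (R ^ (1 - β) * |u - v| ^ β) := by
      rw [abs_mul]
      exact mul_le_mul (hM v hv) (hpow u hu v hv) (abs_nonneg _) hM0
    have a3 : u * |dslope S 0 u - dslope S 0 v| ≤
        |C| * |u - v| ^ β + M * (R ^ (1 - β) * |u - v| ^ β) := by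
      rw [← abs_of_nonneg hu.1, abs_of_nonneg hu.1, ← abs_of_nonneg hu.1, ← abs_mul,
        abs_of_nonneg hu.1, e]
      exact (abs_sub _ _).trans (add_le_add a1 a2)
    nlinarith [abs_nonneg (dslope S 0 u - dslope S 0 v)]
  refine ⟨200 * (|C| + M * R ^ (1 - β)) + K * R ^ (1 - β), fun u hu v hv => ?_⟩
  have hM0 : 0 ≤ M := (norm_nonneg _).trans (hM u hu)
  have hR : 0 ≤ R ^ (1 - β) := Real.rpow_nonneg (hu.1.trans hu.2) _
  have hp : 0 ≤ |u - v| ^ β := by positivity
  have b1 : 0 ≤ K * R ^ (1 - β) * |u - v| ^ β := by positivity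
  have b2 : 0 ≤ 200 * (|C| + M * R ^ (1 - β)) * |u - v| ^ β := by positivity
  rw [add_mul]
  by_cases hu' : 1 / 200 ≤ u
  · linarith [hbig u hu v hv hu']
  by_cases hv' : 1 / 200 ≤ v
  · have := hbig v hv u hu hv'
    rw [abs_sub_comm, abs_sub_comm v] at this
    linarith
  have c1 := (convex_Icc (0 : ℝ) (1 / 200)).norm_image_sub_le_of_norm_deriv_le
    (fun w hw => (han' w hw.2).differentiableAt) hK ⟨hv.1, (not_le.mp hv').le⟩
    ⟨hu.1, (not_le.mp hu').le⟩
  rw [Real.norm_eq_abs, Real.norm_eq_abs] at c1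
  have c2 := mul_le_mul_of_nonneg_left (hpow u hu v hv) hK0
  linarith

end Pool.Agent.MP_ff5407_an.H58
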