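import Pool.Agent.MP_ff5407_an.H58.Spec

/-! The model flow is a continuous flow that solves the model equation. -/

open scoped ContDiff Topology Manifold NNReal ENNReal ComplexConjugate
open Set Filter MeasureTheory Complex

noncomputable section

namespace Pool.Agent.MP_ff5407_an.H58

theorem B1_mul_conj (a : ℂ) (e : Circle) : a * (e : ℂ) * conj (e : ℂ) = a := by
  rw [mul_assoc, Complex.mul_conj, Circle.normSq_coe]
  simp

theorem B1_xi (q : ℝ → ℝ) (z : ℝ × ℝ × Circle) : xi (Xi q z) = z.1 := by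
  simp only [xi, Xi, B1_mul_conj]
  simp

theorem B1_uu (q : ℝ → ℝ) (z : ℝ × ℝ × Circle) : uu (Xi q z) = ut q z.1 z.2.1 := by
  simp only [uu, Xi, B1_mul_conj]
  simp

theorem B1_cancel (c : Circle) (a : ℝ) : c * Circle.exp (-a) * Circle.exp a = c := by
  rw [mul_assoc, ← Circle.exp_add, neg_add_cancel, Circle.exp_zero, mul_one]

theorem B1_cancel' (c : Circle) (a : ℝ) : c * Circle.exp a * Circle.exp (-a) = c := by
  rw [mul_assoc, ← Circle.exp_add, add_neg_cancel, Circle.exp_zero, mul_one]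

theorem B1_norm (p : Y) : ‖p.1‖ = ‖(uu p : ℂ) - xi p * I‖ := by
  conv_lhs => rw [pos_eq p]
  rw [norm_mul, Circle.norm_coe, mul_one]

theorem B1_cont {q : ℝ → ℝ} (hB : Bas q) : Continuous (Xi q) := by
  have h1 : Continuous fun z : ℝ × ℝ × Circle => ut q z.1 z.2.1 :=
    hB.c_ut.comp (continuous_fst.prodMk continuous_snd.fst)
  have h2 : Continuous fun z : ℝ × ℝ × Circle => Th q z.1 (ut q z.1 z.2.1) :=
    hB.c_Th.comp (continuous_fst.prodMk h1)
  have h3 : Continuous fun z : ℝ × ℝ × Circle =>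
      z.2.2 * Circle.exp (Th q z.1 (ut q z.1 z.2.1)) :=
    continuous_snd.snd.mul (Circle.exp.continuous.comp h2)
  refine Continuous.prodMk ?_ h3
  refine Continuous.mul ?_ (continuous_subtype_val.comp h3)
  exact (continuous_ofReal.comp h1).sub ((continuous_ofReal.comp continuous_fst).mul
    continuous_const)

theorem B1_ode {q : ℝ → ℝ} (hP : Pre q) (hB : Bas q) (ξ τ : ℝ) (c : Circle) (t : ℝ) :
    Ode q (fun s => Xi q (ξ, τ + s, c)) t := by
  have hn : ‖(Xi q (ξ, τ + t, c)).1‖ ^ 2 = ut q ξ (τ + t) ^ 2 + ξ ^ 2 := by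
    rw [norm_sq_eq, B1_xi, B1_uu]
  have hu : HasDerivAt (fun s => ut q ξ (τ + s)) (SS q (ut q ξ (τ + t) ^ 2 + ξ ^ 2))⁻¹ t :=
    (hB.d_ut ξ (τ + t)).comp_const_add τ t
  have hT : HasDerivAt (fun s => Th q ξ (ut q ξ (τ + s)))
      (ξ * q (ut q ξ (τ + t) ^ 2 + ξ ^ 2) * (SS q (ut q ξ (τ + t) ^ 2 + ξ ^ 2))⁻¹) t :=
    (hB.d_Th ξ _).comp t hu
  have he := ((hT.ofReal_comp.mul_const I).cexp).const_mul (c : ℂ)
  have hx := (hu.ofReal_comp.sub_const (ξ * I)).mul he
  have hS : SS q (ut q ξ (τ + t) ^ 2 + ξ ^ 2) ≠ 0 := by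
    have := hP.lo (ut q ξ (τ + t) ^ 2 + ξ ^ 2)
    linarith
  have hS' : ((SS q (ut q ξ (τ + t) ^ 2 + ξ ^ 2) : ℝ) : ℂ) ≠ 0 := ofReal_ne_zero.mpr hS
  have hdef : ((SS q (ut q ξ (τ + t) ^ 2 + ξ ^ 2) : ℝ) : ℂ) =
      1 + ((ut q ξ (τ + t) : ℂ) ^ 2 + (ξ : ℂ) ^ 2) * (q (ut q ξ (τ + t) ^ 2 + ξ ^ 2) : ℝ) := by
    simp only [SS]; push_cast; ring
  have key : ∀ u x S Q e : ℂ, S ≠ 0 → S = 1 + (u ^ 2 + x ^ 2) * Q →
      S⁻¹ * e + (u - x * I) * (e * (x * Q * S⁻¹ * I)) = e - Q / S * u * ((u - x * I) * e) := by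
    intro u x S Q e h0 h1
    field_simp
    rw [h1]
    linear_combination (-(x ^ 2 * Q)) * e * I_sq
  have e2 : ∀ s, ((Xi q (ξ, τ + s, c)).2 : ℂ) = c * cexp (Th q ξ (ut q ξ (τ + s)) * I) := by
    intro s
    simp only [Xi, Circle.coe_mul, Circle.coe_exp]
  have e1 : ∀ s, (Xi q (ξ, τ + s, c)).1 =
      ((ut q ξ (τ + s) : ℂ) - ξ * I) * (c * cexp (Th q ξ (ut q ξ (τ + s)) * I)) := by
    intro s
    simp only [Xi, Circle.coe_mul, Circle.coe_exp]
  constructor
  · refine (hx.congr_deriv ?_).congr_of_eventuallyEq (Eventually.of_forall e1)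
    simp only [W1, hn, B1_uu]
    rw [e1, e2, ofReal_mul, ofReal_mul, ofReal_mul, ofReal_div, ofReal_inv, ← mul_assoc (c : ℂ)]
    exact key _ _ _ _ _ hS' hdef
  · refine (he.congr_deriv ?_).congr_of_eventuallyEq (Eventually.of_forall e2)
    simp only [W2, hn, B1_xi]
    rw [e2, ofReal_mul, ofReal_mul, ofReal_mul, ofReal_div, ofReal_inv]
    ring

theorem B1_lip {q : ℝ → ℝ} (hP : Pre q) (hB : Bas q) (ξ s t : ℝ) :
    |ut q ξ t - ut q ξ s| ≤ 2 * |t - s| := by
  have h := convex_univ.norm_image_sub_le_of_norm_hasDerivWithin_le (f := ut q ξ) (C := 2)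
    (fun x _ => (hB.d_ut ξ x).hasDerivWithinAt) (fun x _ => by
      have h1 := hP.lo (ut q ξ x ^ 2 + ξ ^ 2)
      rw [Real.norm_eq_abs, abs_of_pos (inv_pos.mpr (by linarith))]
      exact inv_le_of_inv_le₀ (by norm_num) (by linarith)) (mem_univ s) (mem_univ t)
  simpa only [Real.norm_eq_abs] using h

theorem rB1 : RB1 := by
  intro q hP hB
  have hxi : ∀ t p, xi (psi q t p) = xi p := fun t p => B1_xi q _
  have huu : ∀ t p, uu (psi q t p) = ut q (xi p) (tau q (xi p) (uu p) + t) :=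
    fun t p => B1_uu q _
  have hlip : ∀ t p, |uu (psi q t p) - uu p| ≤ 2 * |t| := by
    intro t p
    have h := B1_lip hP hB (xi p) (tau q (xi p) (uu p)) (tau q (xi p) (uu p) + t)
    rwa [hB.ut_tau, add_sub_cancel_left, ← huu] at h
  refine ⟨fun p => ?_, fun s t p => ?_, ?_, hxi, huu, fun p t => B1_ode hP hB _ _ _ t,
    fun p s t hst => ?_, hlip, fun t p => ?_⟩
  · simp only [psi, Xi, add_zero, hB.ut_tau, B1_cancel]
    exact Prod.ext (pos_eq p).symm rfl
  · have h2 : (psi q t p).2 * Circle.exp (-Th q (xi p) (uu (psi q t p))) =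
        p.2 * Circle.exp (-Th q (xi p) (uu p)) := by
      rw [huu]
      exact B1_cancel' _ _
    rw [psi.eq_1 q s, hxi, h2, huu, hB.tau_ut, psi, add_assoc, add_comm t s]
  · have h0 : Continuous fun p : Y => p.1 * conj (p.2 : ℂ) :=
      continuous_fst.mul (continuous_conj.comp (continuous_subtype_val.comp continuous_snd))
    have h1 : Continuous xi := (continuous_im.comp h0).neg
    have h2 : Continuous uu := continuous_re.comp h0
    have h3 : Continuous fun z : ℝ × Y => (xi z.2, uu z.2) :=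
      (h1.comp continuous_snd).prodMk (h2.comp continuous_snd)
    exact (B1_cont hB).comp ((h1.comp continuous_snd).prodMk
      (((hB.c_tau.comp h3).add continuous_fst).prodMk
        (continuous_snd.snd.mul (Circle.exp.continuous.comp (hB.c_Th.comp h3).neg))))
  · rw [huu, huu, ← (hB.mono (xi p)).le_iff_le, hB.tau_ut, hB.tau_ut]
    linarith
  · rw [B1_norm, B1_norm p, hxi]
    refine (abs_norm_sub_norm_le _ _).trans ?_
    rw [sub_sub_sub_cancel_right, ← ofReal_sub, Complex.norm_real, Real.norm_eq_abs]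
    exact hlip t p

end Pool.Agent.MP_ff5407_an.H58
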