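import Pool.Agent.MP_ff5407_an.H58.Spec

/-! Uniqueness for the model equation. -/

open scoped ContDiff Topology Manifold NNReal ENNReal ComplexConjugate
open Set Filter MeasureTheory Complex

noncomputable section

namespace Pool.Agent.MP_ff5407_an.H58

theorem B2x_z (q : ℝ → ℝ) (hq : Pre q) (γ : ℝ → Y) (t : ℝ) (h : Ode q γ t) :
    HasDerivAt (fun s => (γ s).1 * conj ((γ s).2 : ℂ))
      (((SS q (uu (γ t) ^ 2 + xi (γ t) ^ 2))⁻¹ : ℝ) : ℂ) t := by
  have h2 : HasDerivAt (fun s => conj ((γ s).2 : ℂ)) (conj (W2 q (γ t))) t :=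
    (Complex.conjCLE.toContinuousLinearMap.hasFDerivAt).comp_hasDerivAt t h.2
  refine (h.1.mul h2).congr_deriv ?_
  have hS : SS q (uu (γ t) ^ 2 + xi (γ t) ^ 2) ≠ 0 := by
    have := hq.lo (uu (γ t) ^ 2 + xi (γ t) ^ 2); linarith
  have hS' : ((SS q (uu (γ t) ^ 2 + xi (γ t) ^ 2) : ℝ) : ℂ) ≠ 0 := by exact_mod_cast hS
  have he : ((γ t).2 : ℂ) * conj ((γ t).2 : ℂ) = 1 := by
    rw [Complex.mul_conj, Circle.normSq_coe]; simp
  have hd : ((SS q (uu (γ t) ^ 2 + xi (γ t) ^ 2) : ℝ) : ℂ) = 1 + ((uu (γ t) : ℂ) ^ 2 +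
      (xi (γ t) : ℂ) ^ 2) * (q (uu (γ t) ^ 2 + xi (γ t) ^ 2) : ℝ) := by
    unfold SS; push_cast; ring
  unfold W1 W2
  rw [norm_sq_eq]
  simp only [map_mul, conj_I, conj_ofReal]
  have hx := pos_eq (γ t)
  generalize (γ t).1 = x at *
  subst hx
  push_cast
  field_simp
  generalize conj ((γ t).2 : ℂ) = eb at *
  linear_combination (exp := 1) (((SS q (uu (γ t) ^ 2 + xi (γ t) ^ 2) : ℝ) : ℂ) - (q (uu (γ t) ^ 2 + xi (γ t) ^ 2) : ℝ) * ((uu (γ t) : ℂ) ^ 2 + (xi (γ t) : ℂ) ^ 2)) * he + hd + ((q (uu (γ t) ^ 2 + xi (γ t) ^ 2) : ℝ) * (xi (γ t) : ℂ) ^ 2 * (γ t).2 * eb) * Complex.I_sq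

theorem B2x_const {F : Type} [NormedAddCommGroup F] [NormedSpace ℝ F] (f : ℝ → F) (a b : ℝ)
    (h : ∀ t ∈ Ioo a b, HasDerivAt f 0 t) : ∀ s ∈ Ioo a b, ∀ t ∈ Ioo a b, f s = f t :=
  fun s hs t ht => isOpen_Ioo.is_const_of_deriv_eq_zero isPreconnected_Ioo
    (fun x hx => (h x hx).differentiableAt.differentiableWithinAt)
    (fun x hx => (h x hx).deriv) hs ht

theorem rB2x : RB2 := by
  intro q hq hb γ a b h s hs t ht
  have hxi : ∀ r ∈ Ioo a b, xi (γ r) = xi (γ s) := by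
    intro r hr
    refine B2x_const (fun r => xi (γ r)) a b (fun x hx => ?_) r hr s hs
    have := (Complex.imCLM.hasFDerivAt.comp_hasDerivAt x (B2x_z q hq γ x (h x hx))).neg
    rw [Complex.imCLM_apply, Complex.ofReal_im, neg_zero] at this
    exact this
  have hu : ∀ r ∈ Ioo a b, HasDerivAt (fun r => uu (γ r))
      (SS q (uu (γ r) ^ 2 + xi (γ s) ^ 2))⁻¹ r := by
    intro x hx
    have := Complex.reCLM.hasFDerivAt.comp_hasDerivAt x (B2x_z q hq γ x (h x hx))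
    rw [← hxi x hx]
    rw [Complex.reCLM_apply, Complex.ofReal_re] at this
    exact this
  have hS : ∀ u, SS q u ≠ 0 := fun u => by have := hq.lo u; linarith
  have h1 : tau q (xi (γ s)) (uu (γ t)) - t = tau q (xi (γ s)) (uu (γ s)) - s := by
    refine B2x_const (fun r => tau q (xi (γ s)) (uu (γ r)) - r) a b (fun x hx => ?_) t ht s hs
    have := ((hb.d_tau (xi (γ s)) (uu (γ x))).comp x (hu x hx)).sub (hasDerivAt_id x)
    rw [mul_inv_cancel₀ (hS _), sub_self] at this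
    exact this
  have h2 : ((γ t).2 : ℂ) * exp (-(Th q (xi (γ s)) (uu (γ t)) : ℂ) * I) =
      ((γ s).2 : ℂ) * exp (-(Th q (xi (γ s)) (uu (γ s)) : ℂ) * I) := by
    refine B2x_const (fun r => ((γ r).2 : ℂ) * exp (-(Th q (xi (γ s)) (uu (γ r)) : ℂ) * I)) a b
      (fun x hx => ?_) t ht s hs
    have k := ((hb.d_Th (xi (γ s)) (uu (γ x))).comp x (hu x hx)).ofReal_comp
    refine ((h x hx).2.mul (k.neg.mul_const I).cexp).congr_deriv ?_
    unfold W2
    rw [norm_sq_eq, hxi x hx]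
    simp only [Function.comp_def, Pi.neg_apply, div_eq_mul_inv]
    push_cast
    ring
  have h3 : ut q (xi (γ s)) (tau q (xi (γ s)) (uu (γ s)) + (t - s)) = uu (γ t) := by
    rw [← hb.ut_tau (xi (γ s)) (uu (γ t))]
    congr 1
    linarith
  have h4 : (γ s).2 * Circle.exp (-Th q (xi (γ s)) (uu (γ s))) *
      Circle.exp (Th q (xi (γ s)) (uu (γ t))) = (γ t).2 := by
    apply Circle.ext
    simp only [Circle.coe_mul, Circle.coe_exp, Complex.ofReal_neg]
    rw [← h2, mul_assoc, ← Complex.exp_add]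
    simp
  unfold psi Xi
  simp only [h3, h4]
  refine Prod.ext ?_ rfl
  rw [← hxi t ht]
  exact pos_eq _

end Pool.Agent.MP_ff5407_an.H58
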