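import Pool.Agent.MP_ff5407_an.H58.Spec

/-! The angle measure is finite, nonzero, rotation invariant and given by cone volumes. -/

open scoped ContDiff Topology Manifold NNReal ENNReal ComplexConjugate
open Set Filter MeasureTheory Complex

noncomputable section

namespace Pool.Agent.MP_ff5407_an.H58

theorem B3_meas : Measurable fun z : ℂ => Circle.exp (arg z) :=
  Circle.exp.continuous.measurable.comp measurable_arg

theorem B3_set (B : Set Circle) :
    {z : ℂ | ∃ e ∈ B, ∃ r ∈ Ioc (0 : ℝ) 1, z = r • (e : ℂ)} =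
      ((fun z : ℂ => Circle.exp (arg z)) ⁻¹' B ∩ Metric.closedBall 0 1) \ {0} := by
  ext z
  simp only [mem_ofPred_eq, Set.mem_sdiff, mem_inter_iff, mem_preimage, mem_closedBall_zero_iff,
    mem_singleton_iff, mem_Ioc]
  constructor
  · rintro ⟨e, he, r, ⟨h0, h1⟩, rfl⟩
    refine ⟨⟨?_, ?_⟩, ?_⟩
    · rw [real_smul, arg_real_mul _ h0, Circle.exp_arg]
      exact he
    · rw [norm_smul, Circle.norm_coe, mul_one, Real.norm_eq_abs, abs_of_pos h0]
      exact h1
    · exact smul_ne_zero h0.ne' (Circle.coe_ne_zero e)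
  · rintro ⟨⟨h1, h2⟩, h3⟩
    refine ⟨_, h1, ‖z‖, ⟨norm_pos_iff.2 h3, h2⟩, ?_⟩
    rw [real_smul, Circle.coe_exp, norm_mul_exp_arg_mul_I]

theorem B3_cone (B : Set Circle) (hB : MeasurableSet B) :
    cm B = volume {z : ℂ | ∃ e ∈ B, ∃ r ∈ Ioc (0 : ℝ) 1, z = r • (e : ℂ)} := by
  rw [B3_set, measure_sdiff_null (measure_singleton 0), cm, Measure.map_apply B3_meas hB,
    Measure.restrict_apply (B3_meas hB)]

theorem B3_univ : cm univ = volume (Metric.closedBall (0 : ℂ) 1) := by
  rw [cm, Measure.map_apply B3_meas MeasurableSet.univ, preimage_univ, Measure.restrict_apply_univ]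

theorem rB3 : RB3 := by
  refine ⟨⟨?_⟩, ?_, fun c => ?_, B3_cone⟩
  · rw [B3_univ]
    exact (isCompact_closedBall _ _).measure_lt_top
  · rw [B3_univ]
    exact (Metric.measure_closedBall_pos _ _ one_pos).ne'
  · have hc : Measurable fun e : Circle => e * c := (continuous_mul_const c).measurable
    refine ⟨hc, ?_⟩
    ext B hB
    rw [Measure.map_apply hc hB, B3_cone _ (hc hB), B3_cone _ hB,
      ← (rotation c).measurePreserving.measure_preimage_emb
        (rotation c).toHomeomorph.measurableEmbedding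
        {z : ℂ | ∃ e ∈ B, ∃ r ∈ Ioc (0 : ℝ) 1, z = r • (e : ℂ)}]
    congr 1
    ext z
    simp only [mem_ofPred_eq, mem_preimage, rotation_apply]
    constructor
    · rintro ⟨e, he, r, hr, rfl⟩
      refine ⟨e * c, he, r, hr, ?_⟩
      rw [Circle.coe_mul, real_smul, real_smul]
      ring
    · rintro ⟨e, he, r, hr, h⟩
      refine ⟨e * c⁻¹, by simpa using he, r, hr, ?_⟩
      have h0 := Circle.coe_ne_zero c
      rw [Circle.coe_mul, Circle.coe_inv, real_smul, ← mul_assoc, ← real_smul, ← h]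
      field_simp

end Pool.Agent.MP_ff5407_an.H58
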