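import Pool.Agent.MP_ff5407_an.H58.Spec

/-! Invariance and size of the Liouville measure of the model. -/

open scoped ContDiff Topology Manifold NNReal ENNReal ComplexConjugate
open Set Filter MeasureTheory Complex

noncomputable section

namespace Pool.Agent.MP_ff5407_an.H58

theorem B4_mul (q : ℝ → ℝ) (z : ℝ × ℝ × Circle) :
    (Xi q z).1 * conj ((Xi q z).2 : ℂ) = (ut q z.1 z.2.1 : ℂ) - z.1 * I := by
  simp only [Xi]
  rw [mul_assoc, Complex.mul_conj, Circle.normSq_coe]
  simp

theorem B4_xi (q : ℝ → ℝ) (z : ℝ × ℝ × Circle) : xi (Xi q z) = z.1 := by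
  rw [xi, B4_mul]; simp

theorem B4_uu (q : ℝ → ℝ) (z : ℝ × ℝ × Circle) : uu (Xi q z) = ut q z.1 z.2.1 := by
  rw [uu, B4_mul]; simp

theorem B4_semi {q : ℝ → ℝ} (hB : Bas q) (t : ℝ) (z : ℝ × ℝ × Circle) :
    Xi q (z.1, z.2.1 + t, z.2.2) = psi q t (Xi q z) := by
  have h : (Xi q z).2 * Circle.exp (-Th q z.1 (ut q z.1 z.2.1)) = z.2.2 := by
    simp only [Xi]
    rw [mul_assoc, ← Circle.exp_add, add_neg_cancel, Circle.exp_zero, mul_one]
  rw [psi, B4_xi, B4_uu, hB.tau_ut, h]

theorem B4_coe : Continuous fun e : Circle => (e : ℂ) := continuous_induced_dom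

theorem B4_cm : Continuous fun p : Y => p.1 * conj (p.2 : ℂ) :=
  continuous_fst.mul (continuous_conj.comp (B4_coe.comp continuous_snd))

theorem B4_cxi : Continuous xi := (continuous_im.comp B4_cm).neg

theorem B4_cuu : Continuous uu := continuous_re.comp B4_cm

theorem B4_meas {q : ℝ → ℝ} (hB : Bas q) (hX : Measurable (Xi q)) (t : ℝ) :
    Measurable (psi q t) := by
  have h1 : Continuous fun p : Y => (xi p, uu p) := B4_cxi.prodMk B4_cuu
  have h2 : Continuous fun p : Y =>
      (xi p, tau q (xi p) (uu p) + t, p.2 * Circle.exp (-Th q (xi p) (uu p))) :=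
    B4_cxi.prodMk (((hB.c_tau.comp h1).add continuous_const).prodMk
      (continuous_snd.mul (Circle.exp.continuous.comp (hB.c_Th.comp h1).neg)))
  exact hX.comp h2.measurable

theorem B4_ball (q : ℝ → ℝ) (hC : CM) : mm q {p | ‖p.1‖ < 17 / 10} =
    (∫⁻ x in Metric.ball (0 : ℂ) (17 / 10), ENNReal.ofReal (SS q (‖x‖ ^ 2))) * cm univ := by
  have := hC.fin
  have h : {p : Y | ‖p.1‖ < 17 / 10} = Metric.ball (0 : ℂ) (17 / 10) ×ˢ univ := by
    ext p; simp
  rw [h, mm, Measure.prod_prod, withDensity_apply _ measurableSet_ball]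

theorem rB4 : RB4 := by
  intro q hP hB hC hX
  have := hC.fin
  obtain ⟨K, hK⟩ := hP.hi
  refine ⟨fun t => ?_, ?_, ?_, ?_⟩
  · have h1 : MeasurePreserving (fun z : ℝ × ℝ × Circle => (z.1, z.2.1 + t, z.2.2))
        (volume.prod (volume.prod cm)) (volume.prod (volume.prod cm)) :=
      (MeasurePreserving.id volume).prod
        ((measurePreserving_add_right volume t).prod (MeasurePreserving.id cm))
    exact hX.of_semiconj h1 (B4_semi hB t) (B4_meas hB hX.measurable t)
  · have hfin : volume (Icc (-K) K) * cm univ ≠ ⊤ :=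
      ENNReal.mul_ne_top measure_Icc_lt_top.ne (measure_ne_top _ _)
    refine ⟨(volume (Icc (-K) K) * cm univ).toNNReal, fun B => ?_⟩
    have hm : MeasurableSet {p : Y | ‖p.1‖ ≤ 1 ∧ xi p ∈ toMeasurable volume B} :=
      (measurableSet_le continuous_fst.norm.measurable measurable_const).inter
        (B4_cxi.measurable (measurableSet_toMeasurable volume B))
    have hsub : Xi q ⁻¹' {p : Y | ‖p.1‖ ≤ 1 ∧ xi p ∈ toMeasurable volume B} ⊆
        toMeasurable volume B ×ˢ (Icc (-K) K ×ˢ univ) := by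
      rintro z ⟨h1, h2⟩
      rw [B4_xi] at h2
      refine ⟨h2, ?_, trivial⟩
      have h3 := norm_sq_eq (Xi q z)
      rw [B4_uu] at h3
      have h4 : |ut q z.1 z.2.1| ≤ 1 := by
        rw [← sq_le_one_iff_abs_le_one]
        nlinarith [norm_nonneg (Xi q z).1, sq_nonneg (xi (Xi q z))]
      have h5 : ‖tau q z.1 (ut q z.1 z.2.1)‖ ≤ K * |ut q z.1 z.2.1 - 0| :=
        intervalIntegral.norm_integral_le_of_norm_le_const fun v _ => by
          rw [Real.norm_eq_abs, abs_of_nonneg (by linarith [hP.lo (v ^ 2 + z.1 ^ 2)])]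
          exact hK _
      rw [hB.tau_ut, Real.norm_eq_abs, sub_zero] at h5
      have h6 : 0 ≤ K := by linarith [hP.lo 0, hK 0]
      exact abs_le.1 (h5.trans (mul_le_of_le_one_right h6 h4))
    calc mm q {p | ‖p.1‖ ≤ 1 ∧ xi p ∈ B}
        ≤ mm q {p | ‖p.1‖ ≤ 1 ∧ xi p ∈ toMeasurable volume B} :=
          measure_mono fun p hp => ⟨hp.1, subset_toMeasurable volume B hp.2⟩
      _ ≤ (volume.prod (volume.prod cm)) (toMeasurable volume B ×ˢ (Icc (-K) K ×ˢ univ)) := by
          rw [← hX.measure_preimage hm.nullMeasurableSet]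
          exact measure_mono hsub
      _ = _ := by
          rw [Measure.prod_prod, Measure.prod_prod, measure_toMeasurable, ENNReal.coe_toNNReal hfin,
            mul_comm]
  · rw [B4_ball q hC]
    refine ENNReal.mul_ne_top (ne_top_of_le_ne_top ?_
      (lintegral_mono fun x => ENNReal.ofReal_le_ofReal (hK _))) (measure_ne_top _ _)
    rw [setLIntegral_const]
    exact ENNReal.mul_ne_top ENNReal.ofReal_ne_top measure_ball_lt_top.ne
  · rw [B4_ball q hC]
    refine mul_ne_zero (ne_of_gt (lt_of_lt_of_le ?_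
      (lintegral_mono fun x => ENNReal.ofReal_le_ofReal (hP.lo _)))) hC.pos
    rw [setLIntegral_const]
    exact ENNReal.mul_pos (by simp) (Metric.measure_ball_pos volume _ (by norm_num)).ne'

end Pool.Agent.MP_ff5407_an.H58
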