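import Pool.Agent.MP_ff5407_an.H58.Spec

/-! Row B4a: the image of the Lebesgue measure under the inverse of the time function. -/

open scoped ContDiff Topology Manifold NNReal ENNReal ComplexConjugate
open Set Filter MeasureTheory Complex

noncomputable section

namespace Pool.Agent.MP_ff5407_an.H58

theorem rB4a : RB4a := by
  intro q hP hB ξ
  have hc : Continuous (ut q ξ) := hB.c_ut.comp (continuous_const.prodMk continuous_id)
  ext A hA
  have e : ut q ξ ⁻¹' A = tau q ξ '' A := by
    ext t
    exact ⟨fun h => ⟨_, h, hB.tau_ut ξ t⟩, fun ⟨u, hu, e⟩ => by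
      rw [mem_preimage, ← e, hB.ut_tau]; exact hu⟩
  have h := lintegral_image_eq_lintegral_abs_deriv_mul hA
    (fun u _ => (hB.d_tau ξ u).hasDerivWithinAt) (hB.mono ξ).injective.injOn (fun _ => 1)
  rw [Measure.map_apply hc.measurable hA, withDensity_apply _ hA, e, ← setLIntegral_one, h]
  refine lintegral_congr fun u => ?_
  rw [mul_one, abs_of_nonneg (le_trans (by norm_num) (hP.lo _))]

end Pool.Agent.MP_ff5407_an.H58
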