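import Pool.Agent.MP_ff5407_an.H58.Spec

/-! The flow box coordinates of the model preserve the measure. -/

open scoped ContDiff Topology Manifold NNReal ENNReal ComplexConjugate
open Set Filter MeasureTheory Complex

noncomputable section

namespace Pool.Agent.MP_ff5407_an.H58

theorem B4b_rot (e : Circle) :
    MeasurePreserving (fun p : ℝ × ℝ => ((p.2 : ℂ) - p.1 * I) * e) (volume.prod volume) volume := by
  have hn : ‖-I * (e : ℂ)‖ = 1 := by simp
  have h1 := (rotation ⟨-I * e, mem_sphere_zero_iff_norm.2 hn⟩).measurePreserving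
  have h2 := h1.comp (Complex.volume_preserving_equiv_real_prod.symm _)
  have h3 : (fun p : ℝ × ℝ => ((p.2 : ℂ) - p.1 * I) * e) =
      rotation ⟨-I * e, mem_sphere_zero_iff_norm.2 hn⟩ ∘ Complex.measurableEquivRealProd.symm := by
    funext p
    have h4 : Complex.measurableEquivRealProd.symm p = (p.1 : ℂ) + p.2 * I := by
      apply Complex.ext <;> simp
    rw [Function.comp_apply, rotation_apply, h4]
    change _ = -I * (e : ℂ) * _
    linear_combination ((p.2 : ℂ) * e) * I_mul_I
  rw [h3]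
  exact h2

theorem B4b_norm (ξ u : ℝ) (e : Circle) : ‖((u : ℂ) - ξ * I) * e‖ ^ 2 = u ^ 2 + ξ ^ 2 := by
  rw [norm_mul, Circle.norm_coe, mul_one, Complex.sq_norm, Complex.normSq_apply]
  simp
  ring

theorem B4b_coe : Continuous fun e : Circle => (e : ℂ) := continuous_induced_dom

theorem B4b_cont {q : ℝ → ℝ} (hB : Bas q) : Continuous (Xi q) := by
  have h1 : Continuous fun z : ℝ × ℝ × Circle => ut q z.1 z.2.1 :=
    hB.c_ut.comp (continuous_fst.prodMk (continuous_fst.comp continuous_snd))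
  have h2 : Continuous fun z : ℝ × ℝ × Circle => Th q z.1 (ut q z.1 z.2.1) :=
    hB.c_Th.comp (continuous_fst.prodMk h1)
  have h3 : Continuous fun z : ℝ × ℝ × Circle =>
      z.2.2 * Circle.exp (Th q z.1 (ut q z.1 z.2.1)) :=
    (continuous_snd.comp continuous_snd).mul (Circle.exp.continuous.comp h2)
  refine Continuous.prodMk (Continuous.mul ?_ (B4b_coe.comp h3)) h3
  exact (continuous_ofReal.comp h1).sub ((continuous_ofReal.comp continuous_fst).mul
    continuous_const)

theorem B4b_int (h : RB4a) {q : ℝ → ℝ} (hP : Pre q) (hB : Bas q) (hC : CM) {f : Y → ℝ≥0∞}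
    (hf : Measurable f) :
    ∫⁻ z, f (Xi q z) ∂(volume.prod (volume.prod cm)) = ∫⁻ y, f y ∂(mm q) := by
  have := hC.fin
  have hX : Measurable fun z => f (Xi q z) := hf.comp (B4b_cont hB).measurable
  have hS : Measurable fun s : ℝ => ENNReal.ofReal (SS q s) :=
    (continuous_const.add (continuous_id.mul hP.cont)).measurable.ennreal_ofReal
  have hS2 : Measurable fun x : ℂ => ENNReal.ofReal (SS q (‖x‖ ^ 2)) :=
    hS.comp (continuous_norm.pow 2).measurable
  have hΦ : Measurable fun z : (ℝ × ℝ) × Circle =>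
      ((((z.1.2 : ℂ) - z.1.1 * I) * z.2, z.2) : Y) := by
    refine Continuous.measurable (Continuous.prodMk (Continuous.mul ?_
      (B4b_coe.comp continuous_snd)) continuous_snd)
    fun_prop
  obtain ⟨g, hg⟩ : ∃ g : Y → ℝ≥0∞, g = fun y => ENNReal.ofReal (SS q (‖y.1‖ ^ 2)) * f y :=
    ⟨_, rfl⟩
  have hgm : Measurable g := hg ▸ (hS2.comp measurable_fst).mul hf
  have hG : Measurable fun p : ℝ × ℝ => ∫⁻ e, f (((p.2 : ℂ) - p.1 * I) * e, e) ∂cm :=
    (hf.comp hΦ).lintegral_prod_right'
  have hG' : Measurable fun p : ℝ × ℝ => ∫⁻ e, g (((p.2 : ℂ) - p.1 * I) * e, e) ∂cm :=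
    (hgm.comp hΦ).lintegral_prod_right'
  have step : ∀ ξ : ℝ, ∫⁻ w, f (Xi q (ξ, w)) ∂(volume.prod cm) =
      ∫⁻ u : ℝ, ∫⁻ e, g (((u : ℂ) - ξ * I) * e, e) ∂cm := by
    intro ξ
    have hu : Measurable (ut q ξ) :=
      (hB.c_ut.comp (continuous_const.prodMk continuous_id)).measurable
    have hGξ : Measurable fun u : ℝ => ∫⁻ e, f (((u : ℂ) - ξ * I) * e, e) ∂cm :=
      hG.comp measurable_prodMk_left
    have hd : Measurable fun u : ℝ => ENNReal.ofReal (SS q (u ^ 2 + ξ ^ 2)) :=
      hS.comp (by fun_prop)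
    have hfe : ∀ u : ℝ, Measurable fun e : Circle => f (((u : ℂ) - ξ * I) * e, e) := fun u =>
      (hf.comp hΦ).comp (measurable_prodMk_left (x := (ξ, u)))
    have hXξ : Measurable fun w : ℝ × Circle => f (Xi q (ξ, w)) := hX.comp measurable_prodMk_left
    rw [lintegral_prod _ hXξ.aemeasurable]
    have e1 : ∀ t : ℝ, ∫⁻ c, f (Xi q (ξ, t, c)) ∂cm =
        ∫⁻ e, f (((ut q ξ t : ℂ) - ξ * I) * e, e) ∂cm := fun t =>
      (hC.inv (Circle.exp (Th q ξ (ut q ξ t)))).lintegral_comp (hfe (ut q ξ t))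
    rw [lintegral_congr e1, ← lintegral_map hGξ hu, h q hP hB ξ,
      lintegral_withDensity_eq_lintegral_mul _ hd hGξ]
    refine lintegral_congr fun u => ?_
    rw [Pi.mul_apply, ← lintegral_const_mul _ (hfe u)]
    refine lintegral_congr fun e => ?_
    rw [hg]
    simp only [B4b_norm]
  rw [lintegral_prod _ hX.aemeasurable, lintegral_congr step, ← lintegral_prod _ hG'.aemeasurable,
    lintegral_lintegral_swap (f := fun (p : ℝ × ℝ) (e : Circle) =>
      g (((p.2 : ℂ) - p.1 * I) * e, e)) (hgm.comp hΦ).aemeasurable, mm,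
    lintegral_prod_symm _ hf.aemeasurable]
  refine lintegral_congr fun e => ?_
  have hge : Measurable fun x : ℂ => g (x, e) := hgm.comp measurable_prodMk_right
  have hfe : Measurable fun x : ℂ => f (x, e) := hf.comp measurable_prodMk_right
  rw [(B4b_rot e).lintegral_comp hge, lintegral_withDensity_eq_lintegral_mul _ hS2 hfe, hg]
  rfl

theorem rB4b (h : RB4a) : RB4b := by
  intro q hP hB hC
  have hX := (B4b_cont hB).measurable
  refine ⟨hX, Measure.ext fun s hs => ?_⟩
  rw [← lintegral_indicator_one hs, ← lintegral_indicator_one hs,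
    lintegral_map (measurable_one.indicator hs) hX]
  exact B4b_int h hP hB hC (measurable_one.indicator hs)

end Pool.Agent.MP_ff5407_an.H58
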