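import Pool.Agent.MP_ff5407_an.H58.Spec

/-! In the flat region the model flow is a straight line in the flat coordinate. -/

open scoped ContDiff Topology Manifold NNReal ENNReal ComplexConjugate
open Set Filter MeasureTheory Complex

noncomputable section

namespace Pool.Agent.MP_ff5407_an.H58

theorem B5a_const {f : ℝ → ℂ} {t : ℝ} (h : ∀ s ∈ Icc 0 t, HasDerivAt f 0 s) :
    ∀ s ∈ Icc 0 t, f s = f 0 :=
  constant_of_has_deriv_right_zero (fun s hs => (h s hs).continuousAt.continuousWithinAt)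
    fun s hs => (h s (Ico_subset_Icc_self hs)).hasDerivWithinAt

theorem B5a_line {z w : ℝ → ℂ} {t : ℝ} (ht : 0 ≤ t)
    (hd : ∀ s ∈ Icc 0 t, HasDerivAt z (w s) s ∧ HasDerivAt w 0 s) :
    z t = z 0 + t * w 0 ∧ w t = w 0 := by
  have h1 : ∀ s ∈ Icc 0 t, w s = w 0 := B5a_const fun s h => (hd s h).2
  have h2 : ∀ s ∈ Icc 0 t, HasDerivAt (fun s : ℝ => z s - s * w 0) 0 s := by
    intro s h
    have a1 : HasDerivAt (fun s : ℝ => (s : ℂ) * w 0) (((1 : ℝ) : ℂ) * w 0) s :=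
      (hasDerivAt_id s).ofReal_comp.mul_const _
    have a2 := (hd s h).1.sub a1
    rw [h1 s h, ofReal_one, one_mul, sub_self] at a2
    exact a2
  have h3 := B5a_const h2 t ⟨ht, le_rfl⟩
  refine ⟨?_, h1 t ⟨ht, le_rfl⟩⟩
  rw [ofReal_zero, zero_mul, sub_zero] at h3
  rw [← h3]
  ring

theorem B5a_curve {q : ℝ → ℝ} (hO : FlatOde q) {γ : ℝ → Y} (hc : Continuous γ)
    (ho : ∀ s, Ode q γ s) {t : ℝ} (ht : 0 ≤ t) (hs : ∀ s ∈ Icc 0 t, 1 / 5 ≤ ‖(γ s).1‖) :
    zz (γ t).1 = zz (γ 0).1 + t * th (γ 0) ∧ th (γ t) = th (γ 0) :=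
  B5a_line (z := fun s => zz (γ s).1) (w := fun s => th (γ s)) ht
    fun s h => (hO γ s hc.continuousAt (hs s h)).1 (ho s)

theorem B5a_cont {F : ℝ → Y → Y} (h : Continuous fun z : ℝ × Y => F z.1 z.2) (p : Y) :
    Continuous fun s : ℝ => F s p :=
  h.comp (continuous_id.prodMk continuous_const)

theorem rB5a : RB5a := by
  intro q _ hF hO p t ht hs
  have h := B5a_curve hO (B5a_cont hF.cont p) (hF.ode p) ht hs
  rwa [hF.zero] at h

end Pool.Agent.MP_ff5407_an.H58
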