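import Pool.Agent.MP_ff5407_an.H58.Spec

/-! Row `B5b`: the passage through a cap is a rotation with a time delay. -/

open scoped ContDiff Topology Manifold NNReal ENNReal ComplexConjugate
open Set Filter MeasureTheory Complex

noncomputable section

namespace Pool.Agent.MP_ff5407_an.H58

theorem B5b_int {g G : ℝ → ℝ} {ξ u0 u1 : ℝ} (hG : ∀ v, HasDerivAt G (g v) v) (hc : Continuous g)
    (h0 : ∀ v, 1 / 25 ≤ v ^ 2 + ξ ^ 2 → g v = 0) (a0 : u0 ≤ 0) (b0 : 1 / 25 ≤ u0 ^ 2 + ξ ^ 2)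
    (a1 : 0 ≤ u1) (b1 : 1 / 25 ≤ u1 ^ 2 + ξ ^ 2) :
    ∫ v in (-1 / 5 : ℝ)..(1 / 5), g v = G u1 - G u0 := by
  have ftc : ∀ a b, ∫ v in a..b, g v = G b - G a := fun a b =>
    intervalIntegral.integral_eq_sub_of_hasDerivAt (fun v _ => hG v) (hc.intervalIntegrable a b)
  have z : ∀ a b, (∀ v ∈ uIcc a b, 1 / 25 ≤ v ^ 2 + ξ ^ 2) → G b - G a = 0 := by
    intro a b h
    rw [← ftc, intervalIntegral.integral_congr (g := fun _ => (0 : ℝ)) fun v hv => h0 v (h v hv)]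
    simp
  have z1 := z (1 / 5) u1 fun v hv => by
    rcases mem_uIcc.1 hv with h | h <;> nlinarith [h.1, h.2, sq_nonneg ξ]
  have z0 := z (-1 / 5) u0 fun v hv => by
    rcases mem_uIcc.1 hv with h | h <;> nlinarith [h.1, h.2, sq_nonneg ξ]
  rw [ftc]
  linarith

theorem B5b_arg {ξ : ℝ} (hξ : ξ ≠ 0) (u : ℝ) :
    ((u : ℂ) - ξ * I) / (√(u ^ 2 + ξ ^ 2) : ℝ) =
      -I * (ξ / |ξ| : ℝ) * exp (Real.arctan (u / ξ) * I) := by
  have ha : 0 < |ξ| := abs_pos.2 hξ
  have hs : √(u ^ 2 + ξ ^ 2) = |ξ| * √(1 + (u / ξ) ^ 2) := by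
    rw [← Real.sqrt_sq ha.le, ← Real.sqrt_mul (sq_nonneg _), sq_abs]
    congr 1
    field_simp
    ring
  have hp : 0 < √(1 + (u / ξ) ^ 2) := Real.sqrt_pos.2 (by positivity)
  rw [Complex.exp_mul_I, ← Complex.ofReal_cos, ← Complex.ofReal_sin, Real.cos_arctan,
    Real.sin_arctan, hs]
  have h1 : ((|ξ| : ℝ) : ℂ) ≠ 0 := by exact_mod_cast ha.ne'
  have h2 : ((√(1 + (u / ξ) ^ 2) : ℝ) : ℂ) ≠ 0 := by exact_mod_cast hp.ne'
  have h3 : (ξ : ℂ) ≠ 0 := by exact_mod_cast hξ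
  generalize √(1 + (u / ξ) ^ 2) = s at h2 ⊢
  generalize |ξ| = a at h1 ⊢
  push_cast
  field_simp
  linear_combination (u : ℂ) * Complex.I_sq

theorem B5b_th (p : Y) (hξ : xi p ≠ 0) :
    th p = (p.2 : ℂ) ^ 2 * (-I * (xi p / |xi p| : ℝ) * exp (Real.arctan (uu p / xi p) * I)) := by
  rw [← B5b_arg hξ, ← norm_sq_eq, Real.sqrt_sq (norm_nonneg _), th]
  nth_rewrite 1 [pos_eq p]
  ring

theorem B5b_zz (p : Y) : zz p.1 = th p * ((uu p : ℂ) - xi p * I) / 2 := by
  have h : p.1 ^ 2 = p.1 * (((uu p : ℂ) - xi p * I) * p.2) := by rw [← pos_eq p]; ring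
  rw [zz, th, h]
  ring

theorem rB5b : RB5b := by
  intro q hq hb hf p t ht h0 h1 hξ a0 a1
  have hx := hf.xi_eq t p
  have hu := hf.uu_eq t p
  have b0 : 1 / 25 ≤ uu p ^ 2 + xi p ^ 2 := by rw [← norm_sq_eq]; nlinarith
  have b1 : 1 / 25 ≤ uu (psi q t p) ^ 2 + xi p ^ 2 := by rw [← hx, ← norm_sq_eq]; nlinarith
  have h2 : ((psi q t p).2 : ℂ) = p.2 * exp (-Th q (xi p) (uu p) * I) *
      exp (Th q (xi p) (uu (psi q t p)) * I) := by
    rw [hu]
    simp only [psi, Xi, Circle.coe_mul, Circle.coe_exp, Complex.ofReal_neg]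
  have hw : ∀ v : ℝ, 0 < v ^ 2 + xi p ^ 2 := fun v => by positivity
  have cS : Continuous fun v : ℝ => SS q (v ^ 2 + xi p ^ 2) - 1 / 2 := by
    have := hq.cont
    unfold SS
    fun_prop
  have eT : TT q (xi p) = (tau q (xi p) (uu (psi q t p)) - uu (psi q t p) / 2) -
      (tau q (xi p) (uu p) - uu p / 2) :=
    B5b_int (G := fun u => tau q (xi p) u - u / 2)
      (fun v => (hb.d_tau _ v).sub ((hasDerivAt_id v).div_const 2)) cS
      (fun v hv => by rw [hq.flat _ hv, sub_self]) a0 b0 a1 b1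
  have eD : DD q (xi p) =
      (Real.arctan (uu (psi q t p) / xi p) / 2 + Th q (xi p) (uu (psi q t p))) -
      (Real.arctan (uu p / xi p) / 2 + Th q (xi p) (uu p)) := by
    refine B5b_int (G := fun u => Real.arctan (u / xi p) / 2 + Th q (xi p) u) (fun v => ?_)
      ((continuous_const.mul cS).div (by fun_prop) fun v => (hw v).ne')
      (fun v hv => by rw [hq.flat _ hv, sub_self, mul_zero, zero_div]) a0 b0 a1 b1
    refine (((((hasDerivAt_id v).div_const (xi p)).arctan).div_const 2).add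
      (hb.d_Th (xi p) v)).congr_deriv ?_
    have := (hw v).ne'
    simp only [id, SS]
    field_simp
    ring
  have et : tau q (xi p) (uu (psi q t p)) = tau q (xi p) (uu p) + t := by rw [hu, hb.tau_ut]
  have eT' : TT q (xi p) = t - (uu (psi q t p) - uu p) / 2 := by rw [eT, et]; ring
  have hth : th (psi q t p) = exp (2 * DD q (xi p) * I) * th p := by
    have e : 2 * (DD q (xi p) : ℂ) * I + Real.arctan (uu p / xi p) * I =
        2 * (-Th q (xi p) (uu p) * I) + 2 * (Th q (xi p) (uu (psi q t p)) * I) +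
          Real.arctan (uu (psi q t p) / xi p) * I := by
      rw [eD]; push_cast; ring
    have e' := congrArg exp e
    rw [Complex.exp_add, Complex.exp_add, Complex.exp_add, two_mul, two_mul (_ * I),
      two_mul (_ * I), Complex.exp_add (-_ * I), Complex.exp_add (Th _ _ _ * I)] at e'
    rw [B5b_th _ (by rw [hx]; exact hξ), B5b_th p hξ, hx, h2, two_mul]
    linear_combination (-(p.2 : ℂ) ^ 2 * (-I * (xi p / |xi p| : ℝ))) * e'
  refine ⟨intervalIntegral.integral_nonneg (by norm_num) fun v _ => sub_nonneg.2 (hq.lo _),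
    by rw [eT']; linarith, ?_, hth⟩
  rw [B5b_zz, B5b_zz, hth, hx, eT']
  push_cast
  ring

end Pool.Agent.MP_ff5407_an.H58
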