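import Pool.Agent.MP_ff5407_an.H58.Spec

/-! Row B6: the model equation in the flat region. -/

open scoped ContDiff Topology Manifold NNReal ENNReal ComplexConjugate
open Set Filter MeasureTheory Complex

noncomputable section

namespace Pool.Agent.MP_ff5407_an.H58

theorem B6_norm {f : ℝ → ℂ} {f' : ℂ} {t : ℝ} (h : HasDerivAt f f' t) (h0 : f t ≠ 0) :
    HasDerivAt (fun s => ‖f s‖) ((f' * conj (f t)).re / ‖f t‖) t := by
  have hn : ‖f t‖ ≠ 0 := norm_ne_zero_iff.mpr h0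
  have h1 := h.norm_sq.sqrt (pow_ne_zero 2 hn)
  simp only [Real.sqrt_sq (norm_nonneg _)] at h1
  convert h1 using 1
  rw [Complex.inner]
  field_simp

theorem B6_sqrt {f : ℝ → ℂ} {d : ℂ} {t : ℝ} (hc : ContinuousAt f t) (h0 : f t ≠ 0)
    (h : HasDerivAt (fun s => f s ^ 2) d t) : HasDerivAt f (d / (2 * f t)) t := by
  rw [hasDerivAt_iff_tendsto_slope] at h ⊢
  have h1 : Tendsto (fun s => f s + f t) (𝓝[≠] t) (𝓝 (2 * f t)) := by
    rw [two_mul]
    exact (hc.tendsto.add_const _).mono_left nhdsWithin_le_nhds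
  have h2 : 2 * f t ≠ 0 := mul_ne_zero two_ne_zero h0
  refine (h.div h1 h2).congr' ?_
  filter_upwards [h1.eventually_ne h2] with s hs
  simp only [Pi.div_apply, slope, vsub_eq_sub, real_smul]
  rw [div_eq_iff hs]
  ring

theorem B6_W {q : ℝ → ℝ} (hq : Pre q) (p : Y) (hp : 1 / 5 ≤ ‖p.1‖) :
    W1 q p = p.2 + (uu p : ℂ) / (‖p.1‖ : ℂ) ^ 2 * p.1 ∧
      W2 q p = -(I * xi p / (‖p.1‖ : ℂ) ^ 2) * p.2 := by
  have hpos : 0 < ‖p.1‖ := by linarith
  have hS : SS q (‖p.1‖ ^ 2) = 1 / 2 := hq.flat _ (by nlinarith)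
  have hqq : q (‖p.1‖ ^ 2) / SS q (‖p.1‖ ^ 2) = -(1 / ‖p.1‖ ^ 2) := by
    have h1 := hS
    rw [hS]
    unfold SS at h1
    field_simp
    linarith
  rw [W1, W2, hqq]
  push_cast
  constructor <;> ring

theorem B6_rel (p : Y) : (‖p.1‖ : ℂ) ^ 2 * p.2 = ((uu p : ℂ) + xi p * I) * p.1 := by
  have h1 : (‖p.1‖ : ℂ) ^ 2 = (uu p : ℂ) ^ 2 + (xi p : ℂ) ^ 2 := by exact_mod_cast norm_sq_eq p
  have h2 := pos_eq p
  rw [h1]
  linear_combination (-(uu p : ℂ) - xi p * I) * h2 + (xi p : ℂ) ^ 2 * (p.2 : ℂ) * I_sq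

theorem B6_re (p : Y) : ((p.2 : ℂ) * conj p.1).re = uu p := by
  simp [uu]
  ring

theorem rB6 : RB6 := by
  intro q hq γ t hc hp
  obtain ⟨hW1, hW2⟩ := B6_W hq (γ t) hp
  have hpos : 0 < ‖(γ t).1‖ := by linarith
  have hx0 : (γ t).1 ≠ 0 := norm_pos_iff.mp hpos
  have hr0 : (‖(γ t).1‖ : ℂ) ≠ 0 := by exact_mod_cast hpos.ne'
  have hrel := B6_rel (γ t)
  have hcx : ContinuousAt (fun s => (γ s).1) t := continuous_fst.continuousAt.comp hc
  have hmc : (γ t).1 * conj (γ t).1 = (‖(γ t).1‖ : ℂ) ^ 2 := by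
    rw [mul_conj, normSq_eq_norm_sq]
    push_cast
    rfl
  unfold Ode
  rw [hW1, hW2]
  constructor
  · rintro ⟨h1, h2⟩
    have hρ := B6_norm h1 hx0
    have e1 : ((((γ t).2 : ℂ) + (uu (γ t) : ℂ) / (‖(γ t).1‖ : ℂ) ^ 2 * (γ t).1) *
        conj (γ t).1).re = 2 * uu (γ t) := by
      rw [add_mul, mul_assoc, hmc, div_mul_cancel₀ _ (pow_ne_zero 2 hr0), add_re, B6_re,
        ofReal_re, two_mul]
    rw [e1] at hρ
    have hr := hρ.ofReal_comp
    constructor
    · have h3 := (h1.fun_pow 2).fun_div (hr.const_mul (2 : ℂ)) (mul_ne_zero two_ne_zero hr0)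
      refine HasDerivAt.congr_deriv h3 ?_
      simp only [th]
      push_cast
      field_simp
      ring
    · have h3 := (h2.fun_mul h1).fun_div hr hr0
      refine HasDerivAt.congr_deriv h3 ?_
      push_cast
      field_simp
      linear_combination ((γ t).2 : ℂ) * hrel
  · rintro ⟨h1, h2⟩
    have hz0 : zz (γ t).1 ≠ 0 := by
      rw [← norm_ne_zero_iff, norm_zz]
      positivity
    have hρ0 := (B6_norm h1 hz0).const_mul 2
    have e1 : th (γ t) * conj (zz (γ t).1) = ((γ t).2 : ℂ) * conj (γ t).1 / 2 := by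
      simp only [th, zz, map_div₀, map_pow, map_mul, conj_ofReal, map_ofNat]
      field_simp
      linear_combination conj (γ t).1 * hmc
    have hρ : HasDerivAt (fun s => ‖(γ s).1‖) (2 * uu (γ t) / ‖(γ t).1‖) t := by
      have e2 : (fun s => 2 * ‖zz (γ s).1‖) = fun s => ‖(γ s).1‖ := by
        funext s
        rw [norm_zz]
        ring
      rw [e2] at hρ0
      refine hρ0.congr_deriv ?_
      rw [e1, norm_zz, div_ofNat_re, B6_re]
      field_simp
    have hr := hρ.ofReal_comp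
    have hne : ∀ᶠ s in 𝓝 t, (γ s).1 ≠ 0 := hcx.eventually_ne hx0
    have hsq : HasDerivAt (fun s => (γ s).1 ^ 2) _ t :=
      ((hr.const_mul (2 : ℂ)).fun_mul h1).congr_of_eventuallyEq (by
        filter_upwards [hne] with s hs
        have hs1 : (‖(γ s).1‖ : ℂ) ≠ 0 := by simpa using hs
        simp only [zz]
        field_simp)
    have hx : HasDerivAt (fun s => (γ s).1)
        (((γ t).2 : ℂ) + (uu (γ t) : ℂ) / (‖(γ t).1‖ : ℂ) ^ 2 * (γ t).1) t := by
      convert B6_sqrt hcx hx0 hsq using 1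
      simp only [th, zz]
      push_cast
      field_simp
      ring
    refine ⟨hx, ?_⟩
    have he : HasDerivAt (fun s => ((γ s).2 : ℂ)) _ t :=
      ((h2.fun_mul hr).fun_div hx hx0).congr_of_eventuallyEq (by
        filter_upwards [hne] with s hs
        have hs1 : (‖(γ s).1‖ : ℂ) ≠ 0 := by simpa using hs
        simp only [th]
        field_simp)
    convert he using 1
    simp only [th]
    push_cast
    field_simp
    linear_combination ((γ t).2 : ℂ) * hrel

end Pool.Agent.MP_ff5407_an.H58
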