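import Pool.Agent.MP_ff5407_an.H58.Spec

/-! Row B7: in the flat region the Liouville measure is the flat product measure. -/

open scoped ContDiff Topology Manifold NNReal ENNReal ComplexConjugate
open Set Filter MeasureTheory Complex

noncomputable section

namespace Pool.Agent.MP_ff5407_an.H58

theorem B7_inj (c : ℂ) {x y : ℂ} (hx : 0 < (x * conj c).re) (hy : 0 < (y * conj c).re)
    (h : zz x = zz y) : x = y := by
  have hx0 : x ≠ 0 := by rintro rfl; simp at hx
  have hn : ‖x‖ = ‖y‖ := by
    have := congrArg norm h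
    rw [norm_zz, norm_zz] at this
    linarith
  have h1 : ((‖x‖ : ℝ) : ℂ) ≠ 0 := by simpa using hx0
  have h2 : x ^ 2 = y ^ 2 := by
    unfold zz at h
    rw [← hn] at h
    field_simp at h
    exact h
  rcases sq_eq_sq_iff_eq_or_eq_neg.1 h2 with h3 | h3
  · exact h3
  · rw [h3, neg_mul, neg_re] at hx
    linarith

theorem B7_half (q : ℝ → ℝ) (hq : Pre q) (hc : CM) (A : Set Y) (hA : MeasurableSet A)
    (h : ∀ p ∈ A, 1 / 5 ≤ ‖p.1‖) : mm q A = 2⁻¹ * (volume.prod cm) A := by
  have := hc.fin
  have hf : Measurable fun x : ℂ => ENNReal.ofReal (SS q (‖x‖ ^ 2)) := by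
    refine ENNReal.measurable_ofReal.comp (Continuous.measurable ?_)
    have := hq.cont
    unfold SS
    fun_prop
  rw [mm, Measure.prod_apply hA, Measure.prod_apply hA,
    lintegral_withDensity_eq_lintegral_mul _ hf (measurable_measure_prodMk_left hA),
    ← lintegral_const_mul' _ _ (by simp)]
  refine lintegral_congr fun x => ?_
  rcases (Prod.mk x ⁻¹' A).eq_empty_or_nonempty with h0 | ⟨e, he⟩
  · simp [h0]
  · have h1 : 1 / 5 ≤ ‖x‖ := h _ he
    rw [Pi.mul_apply, hq.flat _ (by nlinarith), one_div, ENNReal.ofReal_inv_of_pos (by norm_num)]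
    simp

theorem B7_rot (hc : CM) :
    MeasurePreserving (fun p : Y => (p.1, p.2 * Circle.exp (-arg p.1))) (volume.prod cm)
      (volume.prod cm) := by
  have := hc.fin
  refine MeasurePreserving.skew_product (g := fun x e => e * Circle.exp (-arg x))
    (MeasurePreserving.id volume) ?_ (Eventually.of_forall fun x => (hc.inv _).map_eq)
  exact measurable_snd.mul
    (Circle.exp.continuous.measurable.comp (Complex.measurable_arg.comp measurable_fst).neg)

theorem rB7 (h : RB7a) : RB7 := by
  intro q hq hc c A hA hp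
  have := hc.fin
  have hr := B7_rot hc
  set A' : Set Y := (fun p : Y => (p.1, p.2 * Circle.exp (-arg p.1))) ⁻¹' A with hA'
  have mA' : MeasurableSet A' := hr.measurable hA
  have hp' : ∀ p ∈ A', 0 < (p.1 * conj c).re := fun p hp' => (hp _ hp').2
  have e1 : Zf '' A = Prod.map zz id '' A' := by
    ext p
    constructor
    · rintro ⟨a, ha, rfl⟩
      refine ⟨(a.1, a.2 * Circle.exp (arg a.1)), ?_, rfl⟩
      simp only [hA', mem_preimage]
      rw [mul_assoc, ← Circle.exp_add, add_neg_cancel, Circle.exp_zero, mul_one]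
      exact ha
    · rintro ⟨a, ha, rfl⟩
      refine ⟨_, ha, ?_⟩
      simp only [Zf, Prod.map, id]
      rw [mul_assoc, ← Circle.exp_add, neg_add_cancel, Circle.exp_zero, mul_one]
  have mZ : MeasurableSet (Prod.map zz id '' A') := by
    refine mA'.image_of_continuousOn_injOn (fun p hp1 => ?_) (fun p hp1 p' hp2 e => ?_)
    · have h0 : p.1 ≠ 0 := by
        intro h0
        have := hp' p hp1
        simp [h0] at this
      refine ContinuousAt.continuousWithinAt (ContinuousAt.prodMap ?_ continuousAt_id)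
      unfold zz
      refine ContinuousAt.div (by fun_prop) (by fun_prop) ?_
      simpa using h0
    · exact Prod.ext (B7_inj c (hp' p hp1) (hp' p' hp2) (congrArg Prod.fst e))
        (Prod.ext_iff.1 e).2
  rw [B7_half q hq hc A hA fun p hp1 => (hp p hp1).1, ← hr.measure_preimage hA.nullMeasurableSet,
    ← hA', e1, Measure.prod_apply_symm mZ, Measure.prod_apply_symm mA',
    ← lintegral_const_mul' _ _ (by simp)]
  refine lintegral_congr fun e => ?_
  have e2 : (fun x => (x, e)) ⁻¹' (Prod.map zz id '' A') = zz '' ((fun x => (x, e)) ⁻¹' A') := by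
    ext z
    constructor
    · rintro ⟨⟨x, e'⟩, ha, h1⟩
      obtain ⟨h2, rfl⟩ := Prod.ext_iff.1 h1
      exact ⟨x, ha, h2⟩
    · rintro ⟨x, hx, rfl⟩
      exact ⟨(x, e), hx, rfl⟩
  rw [e2, (h c _ (measurable_prodMk_right mA') fun x hx => hp' _ hx).2]

end Pool.Agent.MP_ff5407_an.H58
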