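import Pool.Agent.MP_ff5407_an.H58.Spec

/-! The flat coordinate halves the area on a half plane. -/

open scoped ContDiff Topology Manifold NNReal ENNReal ComplexConjugate
open Set Filter MeasureTheory Complex

noncomputable section

namespace Pool.Agent.MP_ff5407_an.H58

theorem B7a_det (f : ℂ →L[ℝ] ℂ) :
    f.det = (f 1).re * (f I).im - (f I).re * (f 1).im := by
  rw [ContinuousLinearMap.det, ← LinearMap.det_toMatrix Complex.basisOneI, Matrix.det_fin_two]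
  simp [LinearMap.toMatrix_apply]

theorem B7a_norm (x : ℂ) (hx : x ≠ 0) :
    HasFDerivAt (fun y : ℂ => ‖y‖) (‖x‖⁻¹ • innerSL ℝ x) x := by
  have h0 : ‖x‖ ≠ 0 := by simpa using hx
  have h1 := (hasStrictFDerivAt_norm_sq x).hasFDerivAt.sqrt (pow_ne_zero 2 h0)
  simp only [Real.sqrt_sq (norm_nonneg _)] at h1
  refine h1.congr_fderiv ?_
  ext a
  simp
  field_simp

theorem B7a_der (x : ℂ) (hx : x ≠ 0) : ∃ f : ℂ →L[ℝ] ℂ, HasFDerivAt zz f x ∧ f.det = 1 / 2 := by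
  have h0 : ‖x‖ ≠ 0 := by simpa using hx
  have h1 : HasFDerivAt (fun y : ℂ => (2 * ‖y‖)⁻¹)
      ((-((2 * ‖x‖) ^ 2)⁻¹) • ((2 : ℝ) • (‖x‖⁻¹ • innerSL ℝ x))) x :=
    (hasDerivAt_inv (mul_ne_zero two_ne_zero h0)).comp_hasFDerivAt x
      ((B7a_norm x hx).const_mul 2)
  have h2 : HasFDerivAt (fun y : ℂ => y * y) _ x :=
    (hasFDerivAt_id (𝕜 := ℝ) x).mul (hasFDerivAt_id (𝕜 := ℝ) x)
  have h3 := h1.smul h2
  have e : zz = fun y : ℂ => (2 * ‖y‖)⁻¹ • (y * y) := by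
    funext y
    simp only [zz, Complex.real_smul]
    push_cast
    ring
  refine ⟨_, by rw [e]; exact h3, ?_⟩
  rw [B7a_det]
  have h4 : ‖x‖ ^ 2 = x.re ^ 2 + x.im ^ 2 := by
    rw [Complex.sq_norm, Complex.normSq_apply]
    ring
  generalize hk : -((2 * ‖x‖) ^ 2)⁻¹ = k
  generalize hp : (2 * ‖x‖)⁻¹ = p
  generalize hr : ‖x‖⁻¹ = r
  simp
  subst hk hp hr
  field_simp
  rw [show ‖x‖ ^ 6 = (‖x‖ ^ 2) ^ 3 by ring, h4]
  ring

theorem B7a_inj (c : ℂ) : InjOn zz {x | 0 < (x * conj c).re} := by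
  intro x hx y hy h
  simp only [mem_ofPred_eq] at hx hy
  have h1 : ‖x‖ = ‖y‖ := by
    have h2 := norm_zz x
    rw [h, norm_zz] at h2
    linarith
  have hx0 : x ≠ 0 := by
    rintro rfl
    simp at hx
  have h0 : (2 * ‖x‖ : ℂ) ≠ 0 := by simpa using hx0
  simp only [zz, ← h1] at h
  rw [div_left_inj' h0, sq_eq_sq_iff_eq_or_eq_neg] at h
  rcases h with h | h
  · exact h
  · rw [h, neg_mul, Complex.neg_re] at hx
    linarith

theorem rB7a : RB7a := by
  intro c B hB hc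
  have h0 : ∀ x ∈ B, x ≠ 0 := by
    rintro x hx rfl
    simpa using hc 0 hx
  have hi : InjOn zz B := (B7a_inj c).mono hc
  choose! f hf hd using B7a_der
  have h1 : ∀ x ∈ B, HasFDerivWithinAt zz (f x) B x := fun x hx =>
    (hf x (h0 x hx)).hasFDerivWithinAt
  refine ⟨measurable_image_of_fderivWithin hB h1 hi, ?_⟩
  rw [← lintegral_abs_det_fderiv_eq_addHaar_image volume hB h1 hi,
    setLIntegral_congr_fun hB (g := fun _ => (2⁻¹ : ℝ≥0∞)), setLIntegral_const]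
  intro x hx
  simp only [hd x (h0 x hx)]
  rw [abs_of_pos (by norm_num), one_div, ENNReal.ofReal_inv_of_pos two_pos, ENNReal.ofReal_ofNat]

end Pool.Agent.MP_ff5407_an.H58
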