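import Pool.Agent.MP_ff5407_an.H58.Spec

/-! The charts at the branch points are continuous and injective. -/

open scoped ContDiff Topology Manifold NNReal ENNReal ComplexConjugate
open Set Filter MeasureTheory Complex

noncomputable section

namespace Pool.Agent.MP_ff5407_an.H58

theorem C1a_pos {x : ℝ} (hx : |x| < 1) (h0 : x ≠ 0) : 0 < x * Real.sin (Real.pi * x) := by
  obtain ⟨h1, h2⟩ := abs_lt.1 hx
  rcases lt_or_gt_of_ne h0 with h | h
  · have : 0 < Real.sin (Real.pi * -x) :=
      Real.sin_pos_of_pos_of_lt_pi (mul_pos Real.pi_pos (by linarith))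
        (by nlinarith [Real.pi_pos])
    rw [mul_neg, Real.sin_neg] at this
    nlinarith
  · exact mul_pos h (Real.sin_pos_of_pos_of_lt_pi (mul_pos Real.pi_pos h)
      (by nlinarith [Real.pi_pos]))

theorem C1a_nonneg {x : ℝ} (hx : |x| < 1) : 0 ≤ x * Real.sin (Real.pi * x) := by
  by_cases h : x = 0
  · simp [h]
  · exact (C1a_pos hx h).le

theorem C1a_re {z : ℂ} (hz : ‖z‖ < 1) (h0 : z ≠ 0) : 0 < (FF z / z).re := by
  have hx : |z.re| < 1 := (Complex.abs_re_le_norm z).trans_lt hz
  have hy : |z.im| < 1 := (Complex.abs_im_le_norm z).trans_lt hz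
  have hn : 0 < normSq z := normSq_pos.2 h0
  have hs : 0 < z.re * Real.sin (Real.pi * z.re) + z.im * Real.sin (Real.pi * z.im) := by
    by_cases h : z.re = 0
    · have : z.im ≠ 0 := fun h' => h0 (Complex.ext h h')
      linarith [C1a_nonneg hx, C1a_pos hy this]
    · linarith [C1a_pos hx h, C1a_nonneg hy]
  have hre : (FF z).re = Real.sin (Real.pi * z.re) := by
    simp only [FF, add_re, ofReal_re, mul_re, I_re, I_im, ofReal_im]; ring
  have him : (FF z).im = Real.sin (Real.pi * z.im) := by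
    simp only [FF, add_im, ofReal_re, mul_im, I_re, I_im, ofReal_im]; ring
  rw [Complex.div_re, hre, him, ← add_div]
  exact div_pos (by linarith) hn

theorem C1a_contF : Continuous FF := by
  unfold FF; fun_prop

/-- The third coordinate. -/
def C1a_w (y : ℂ) : ℂ := (FF (y ^ 2) / y ^ 2) ^ ((2 : ℂ)⁻¹) * y

theorem C1a_sq (y : ℂ) : C1a_w y ^ 2 = FF (y ^ 2) := by
  rw [C1a_w, mul_pow, sq_root]
  by_cases h : y = 0
  · simp [h, FF]
  · field_simp

theorem C1a_contw {y : ℂ} (hy : ‖y‖ ^ 2 < 1) : ContinuousAt C1a_w y := by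
  by_cases h : y = 0
  · subst h
    have h0 : C1a_w 0 = 0 := by simp [C1a_w]
    rw [ContinuousAt, h0, tendsto_zero_iff_norm_tendsto_zero]
    have h1 : (fun y => ‖C1a_w y‖) = fun y => Real.sqrt ‖FF (y ^ 2)‖ := by
      funext y
      rw [← C1a_sq, norm_pow, Real.sqrt_sq (norm_nonneg _)]
    rw [h1]
    have h2 : Continuous fun y : ℂ => Real.sqrt ‖FF (y ^ 2)‖ :=
      (C1a_contF.comp (continuous_pow 2)).norm.sqrt
    have h3 := h2.tendsto 0
    simpa [FF] using h3
  · have hz : ‖y ^ 2‖ < 1 := by rwa [norm_pow]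
    have hq : ContinuousAt (fun y : ℂ => FF (y ^ 2) / y ^ 2) y :=
      ((C1a_contF.comp (continuous_pow 2)).continuousAt).div (continuous_pow 2).continuousAt
        (pow_ne_zero 2 h)
    exact (hq.cpow continuousAt_const (Or.inl (C1a_re hz (pow_ne_zero 2 h)))).mul continuousAt_id

theorem C1a_contJ (j : Fin 4) : Continuous (JJ j) := by
  fin_cases j
  · exact continuous_id
  · exact continuous_const.mul continuous_id
  · exact continuous_conj
  · exact continuous_const.mul continuous_conj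

theorem C1a_injJ (j : Fin 4) : Function.Injective (JJ j) := by
  intro a b h
  fin_cases j
  · simpa [JJ] using h
  · simpa [JJ] using h
  · exact (starRingEnd ℂ).injective (by simpa [JJ] using h)
  · exact (starRingEnd ℂ).injective (by simpa [JJ] using h)

theorem C1a_exp {x x' : ℝ} (hx : |x| < 1) (hx' : |x'| < 1)
    (h : exp (Real.pi * x * I) = exp (Real.pi * x' * I)) : x = x' := by
  obtain ⟨n, hn⟩ := Complex.exp_eq_exp_iff_exists_int.1 h
  have h1 := congrArg Complex.im hn
  simp only [mul_im, mul_re, ofReal_re, ofReal_im, I_re, I_im, add_im, intCast_re, intCast_im,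
    re_ofNat, im_ofNat] at h1
  have h2 : x = x' + 2 * n := by
    have : Real.pi * (x - x' - 2 * n) = 0 := by linarith
    rcases mul_eq_zero.1 this with h3 | h3
    · exact absurd h3 Real.pi_ne_zero
    · linarith
  obtain ⟨a1, a2⟩ := abs_lt.1 hx
  obtain ⟨b1, b2⟩ := abs_lt.1 hx'
  have h3 : (n : ℝ) < 1 := by linarith
  have h4 : (-1 : ℝ) < n := by linarith
  have h5 : n < 1 := by exact_mod_cast h3
  have h6 : -1 < n := by exact_mod_cast h4
  have h7 : n = 0 := by omega
  rw [h2, h7]; simp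

theorem C1a_e1 (j : Fin 4) : (e1 j : ℂ) ≠ 0 := by
  fin_cases j <;> simp [e1]

theorem C1a_e2 (j : Fin 4) : (e2 j : ℂ) ≠ 0 := by
  fin_cases j <;> simp [e2]

theorem rC1a : RC1a := by
  intro j
  constructor
  · intro y hy
    refine ContinuousAt.continuousWithinAt ?_
    rw [Topology.IsInducing.subtypeVal.continuousAt_iff]
    change ContinuousAt (fun y : ℂ => ((e1 j : ℂ) * exp (Real.pi * (y ^ 2).re * I),
      (e2 j : ℂ) * exp (Real.pi * (y ^ 2).im * I), JJ j (C1a_w y))) y
    refine ContinuousAt.prodMk (by fun_prop) (ContinuousAt.prodMk (by fun_prop) ?_)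
    exact (C1a_contJ j).continuousAt.comp (C1a_contw hy)
  · intro y hy y' hy' h
    have hz : ‖y ^ 2‖ < 1 := by rw [norm_pow]; exact hy
    have hz' : ‖y' ^ 2‖ < 1 := by rw [norm_pow]; exact hy'
    have h0 := congrArg Subtype.val h
    change ((e1 j : ℂ) * exp (Real.pi * (y ^ 2).re * I),
      (e2 j : ℂ) * exp (Real.pi * (y ^ 2).im * I), JJ j (C1a_w y)) =
      ((e1 j : ℂ) * exp (Real.pi * (y' ^ 2).re * I),
      (e2 j : ℂ) * exp (Real.pi * (y' ^ 2).im * I), JJ j (C1a_w y')) at h0
    simp only [Prod.mk.injEq] at h0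
    obtain ⟨h1, h2, h3⟩ := h0
    have hre := C1a_exp ((Complex.abs_re_le_norm _).trans_lt hz)
      ((Complex.abs_re_le_norm _).trans_lt hz') (mul_left_cancel₀ (C1a_e1 j) h1)
    have him := C1a_exp ((Complex.abs_im_le_norm _).trans_lt hz)
      ((Complex.abs_im_le_norm _).trans_lt hz') (mul_left_cancel₀ (C1a_e2 j) h2)
    have hsq : y ^ 2 = y' ^ 2 := Complex.ext hre him
    have hw := C1a_injJ j h3
    by_cases hy0 : y = 0
    · rw [hy0] at hsq ⊢
      exact (pow_eq_zero_iff two_ne_zero).1 (by simpa using hsq.symm) |>.symm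
    · have hne : FF (y ^ 2) / y ^ 2 ≠ 0 := fun h' => by
        have := C1a_re hz (pow_ne_zero 2 hy0)
        rw [h'] at this
        simp at this
      rw [C1a_w, C1a_w, ← hsq] at hw
      exact mul_left_cancel₀ (by simpa using hne) hw

end Pool.Agent.MP_ff5407_an.H58
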