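import Pool.Agent.MP_ff5407_an.H58.Spec

/-! Row C1b: the images of the four charts are open, cover the surface and overlap by
translations of the flat coordinate. -/

open scoped ContDiff Topology Manifold NNReal ENNReal ComplexConjugate
open Set Filter MeasureTheory Complex

noncomputable section

namespace Pool.Agent.MP_ff5407_an.H58

theorem C1b_e1 (j : Fin 4) : (e1 j : ℂ) * e1 j = 1 := by
  fin_cases j <;> simp [e1]

theorem C1b_e2 (j : Fin 4) : (e2 j : ℂ) * e2 j = 1 := by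
  fin_cases j <;> simp [e2]

theorem C1b_fst (j : Fin 4) (y : ℂ) :
    (Pm j y).1.1 = e1 j * exp (Real.pi * (y ^ 2).re * I) := rfl

theorem C1b_snd (j : Fin 4) (y : ℂ) :
    (Pm j y).1.2.1 = e2 j * exp (Real.pi * (y ^ 2).im * I) := rfl

theorem C1b_neg (j : Fin 4) (y : ℂ) : (Pm j (-y)).1.2.2 = -(Pm j y).1.2.2 := by
  change JJ j ((FF ((-y) ^ 2) / (-y) ^ 2) ^ ((2 : ℂ)⁻¹) * -y) =
    -JJ j ((FF (y ^ 2) / y ^ 2) ^ ((2 : ℂ)⁻¹) * y)
  rw [neg_sq, mul_neg]
  fin_cases j <;> simp [JJ]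

theorem C1b_surj (j : Fin 4) (t : Srf) (z : ℂ) (h1 : t.1.1 = e1 j * exp (Real.pi * z.re * I))
    (h2 : t.1.2.1 = e2 j * exp (Real.pi * z.im * I)) : ∃ y, ‖y‖ ^ 2 = ‖z‖ ∧ Pm j y = t := by
  obtain ⟨y, rfl⟩ : ∃ y : ℂ, y ^ 2 = z := ⟨_, sq_root z⟩
  have h3 : (Pm j y).1.2.2 ^ 2 = t.1.2.2 ^ 2 := by
    rw [(Pm j y).2.2.2, t.2.2.2, h1, h2, C1b_fst, C1b_snd]
  rcases sq_eq_sq_iff_eq_or_eq_neg.1 h3 with h | h
  · exact ⟨y, by simp, Subtype.ext (Prod.ext h1.symm (Prod.ext h2.symm h))⟩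
  · refine ⟨-y, by simp, Subtype.ext (Prod.ext ?_ (Prod.ext ?_ ?_))⟩
    · rw [C1b_fst, neg_sq, h1]
    · rw [C1b_snd, neg_sq, h2]
    · rw [C1b_neg, h, neg_neg]

theorem C1b_arg {s a : ℂ} (hs : s * s = 1) (ha : ‖a‖ = 1) :
    a = s * exp (Real.pi * ((arg (s * a) / Real.pi : ℝ) : ℂ) * I) := by
  have hn : ‖s‖ = 1 := by
    have h := congrArg norm hs
    rw [norm_mul, norm_one] at h
    nlinarith [norm_nonneg s]
  have h := norm_mul_exp_arg_mul_I (s * a)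
  rw [norm_mul, hn, ha] at h
  have hp : (Real.pi : ℂ) ≠ 0 := by simp
  have e : (Real.pi : ℂ) * ((arg (s * a) / Real.pi : ℝ) : ℂ) = arg (s * a) := by
    push_cast; field_simp
  rw [e]
  simp only [mul_one, ofReal_one, one_mul] at h
  rw [h, ← mul_assoc, hs, one_mul]

theorem C1b_exp {x : ℝ} (hx : |x| < 1) : arg (exp (Real.pi * x * I)) = Real.pi * x ∧
    exp (Real.pi * x * I) ∈ slitPlane := by
  have hp := Real.pi_pos
  obtain ⟨h1, h2⟩ := abs_lt.1 hx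
  have e : arg (exp (Real.pi * x * I)) = Real.pi * x := by
    rw [← ofReal_mul, exp_mul_I]
    exact arg_cos_add_sin_mul_I ⟨by nlinarith, by nlinarith⟩
  refine ⟨e, mem_slitPlane_iff_arg.2 ⟨?_, exp_ne_zero _⟩⟩
  rw [e]
  nlinarith

/-- The flat coordinate in the chart `j`. -/
def C1b_z (j : Fin 4) (t : Srf) : ℂ :=
  ((arg (e1 j * t.1.1) / Real.pi : ℝ) : ℂ) + ((arg (e2 j * t.1.2.1) / Real.pi : ℝ) : ℂ) * I

theorem C1b_z_surj (j : Fin 4) (t : Srf) : ∃ y, ‖y‖ ^ 2 = ‖C1b_z j t‖ ∧ Pm j y = t := by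
  refine C1b_surj j t _ ?_ ?_
  · have e : (C1b_z j t).re = arg (e1 j * t.1.1) / Real.pi := by
      simp only [C1b_z, add_re, ofReal_re, mul_re, I_re, I_im, ofReal_im]; ring
    rw [e]
    exact C1b_arg (C1b_e1 j) t.2.1
  · have e : (C1b_z j t).im = arg (e2 j * t.1.2.1) / Real.pi := by
      simp only [C1b_z, add_im, ofReal_re, mul_im, I_re, I_im, ofReal_im]; ring
    rw [e]
    exact C1b_arg (C1b_e2 j) t.2.2.1

theorem C1b_open (j : Fin 4) : IsOpen (Pm j '' {y | ‖y‖ ^ 2 < 17 / 20}) := by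
  have c1 : Continuous fun t : Srf => (e1 j : ℂ) * t.1.1 := by fun_prop
  have c2 : Continuous fun t : Srf => (e2 j : ℂ) * t.1.2.1 := by fun_prop
  have e : Pm j '' {y | ‖y‖ ^ 2 < 17 / 20} =
      {t : Srf | (e1 j : ℂ) * t.1.1 ∈ slitPlane ∧ (e2 j : ℂ) * t.1.2.1 ∈ slitPlane} ∩
        C1b_z j ⁻¹' Metric.ball 0 (17 / 20) := by
    ext t
    constructor
    · rintro ⟨y, hy, rfl⟩
      have hy' : ‖y ^ 2‖ < 17 / 20 := by rw [norm_pow]; exact hy
      have a1 := C1b_exp (x := (y ^ 2).re) ((abs_re_le_norm _).trans_lt (by linarith))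
      have a2 := C1b_exp (x := (y ^ 2).im) ((abs_im_le_norm _).trans_lt (by linarith))
      have b1 : (e1 j : ℂ) * (Pm j y).1.1 = exp (Real.pi * (y ^ 2).re * I) := by
        rw [C1b_fst, ← mul_assoc, C1b_e1, one_mul]
      have b2 : (e2 j : ℂ) * (Pm j y).1.2.1 = exp (Real.pi * (y ^ 2).im * I) := by
        rw [C1b_snd, ← mul_assoc, C1b_e2, one_mul]
      refine ⟨⟨b1 ▸ a1.2, b2 ▸ a2.2⟩, ?_⟩
      rw [mem_preimage, mem_ball_zero_iff, C1b_z, b1, b2, a1.1, a2.1,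
        mul_div_cancel_left₀ _ Real.pi_ne_zero, mul_div_cancel_left₀ _ Real.pi_ne_zero, re_add_im]
      exact hy'
    · rintro ⟨-, ht⟩
      obtain ⟨y, h1, h2⟩ := C1b_z_surj j t
      exact ⟨y, h1.trans_lt (mem_ball_zero_iff.1 ht), h2⟩
  rw [e]
  refine ContinuousOn.isOpen_inter_preimage (fun t ht => ContinuousAt.continuousWithinAt ?_)
    ((isOpen_slitPlane.preimage c1).inter (isOpen_slitPlane.preimage c2)) Metric.isOpen_ball
  have d1 : ContinuousAt (fun t : Srf => arg ((e1 j : ℂ) * t.1.1)) t :=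
    ContinuousAt.comp (f := fun t : Srf => (e1 j : ℂ) * t.1.1) (continuousAt_arg ht.1)
      c1.continuousAt
  have d2 : ContinuousAt (fun t : Srf => arg ((e2 j : ℂ) * t.1.2.1)) t :=
    ContinuousAt.comp (f := fun t : Srf => (e2 j : ℂ) * t.1.2.1) (continuousAt_arg ht.2)
      c2.continuousAt
  exact (continuous_ofReal.continuousAt.comp (d1.div_const _)).add
    ((continuous_ofReal.continuousAt.comp (d2.div_const _)).mul continuousAt_const)

theorem C1b_cov (t : Srf) : ∃ j y, ‖y‖ ^ 2 ≤ 3 / 4 ∧ Pm j y = t := by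
  have hj : ∃ j, 0 ≤ ((e1 j : ℂ) * t.1.1).re ∧ 0 ≤ ((e2 j : ℂ) * t.1.2.1).re := by
    rcases le_total 0 t.1.1.re with h1 | h1 <;> rcases le_total 0 t.1.2.1.re with h2 | h2
    · exact ⟨0, by simpa [e1] using h1, by simpa [e2] using h2⟩
    · exact ⟨2, by simpa [e1] using h1, by simpa [e2] using h2⟩
    · exact ⟨3, by simpa [e1] using h1, by simpa [e2] using h2⟩
    · exact ⟨1, by simpa [e1] using h1, by simpa [e2] using h2⟩
  obtain ⟨j, h1, h2⟩ := hj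
  obtain ⟨y, a1, a2⟩ := C1b_z_surj j t
  refine ⟨j, y, a1.trans_le ?_, a2⟩
  have hp := Real.pi_pos
  have b : ∀ w : ℂ, 0 ≤ w.re → (arg w / Real.pi) ^ 2 ≤ 1 / 4 := by
    intro w hw
    have := abs_le.1 (abs_arg_le_pi_div_two_iff.2 hw)
    rw [div_pow, div_le_iff₀ (by positivity)]
    nlinarith [this.1, this.2]
  refine abs_le_of_sq_le_sq' ?_ (by norm_num) |>.2
  rw [Complex.sq_norm, C1b_z, normSq_add_mul_I]
  linarith [b _ h1, b _ h2]

theorem C1b_int {s s' : ℂ} (hs : s * s = 1) (hs' : s' * s' = 1) {x x' : ℝ}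
    (h : s * exp (Real.pi * x * I) = s' * exp (Real.pi * x' * I)) :
    ∃ m : ℤ, x - x' = m ∧ (m = 0 → s = s') := by
  have h2 : exp (2 * (Real.pi * x * I)) = exp (2 * (Real.pi * x' * I)) := by
    rw [two_mul, two_mul, exp_add, exp_add]
    linear_combination (s * exp (Real.pi * x * I) + s' * exp (Real.pi * x' * I)) * h
      - exp (Real.pi * x * I) ^ 2 * hs + exp (Real.pi * x' * I) ^ 2 * hs'
  obtain ⟨m, hm⟩ := exp_eq_exp_iff_exists_int.1 h2
  have hp : (2 * Real.pi * I : ℂ) ≠ 0 := by simp [Real.pi_ne_zero]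
  have e : x - x' = m := by
    have : ((x : ℂ) - x') * (2 * Real.pi * I) = m * (2 * Real.pi * I) := by
      linear_combination hm
    exact_mod_cast mul_right_cancel₀ hp this
  refine ⟨m, e, fun h0 => ?_⟩
  rw [h0, Int.cast_zero, sub_eq_zero] at e
  rw [e] at h
  exact mul_right_cancel₀ (exp_ne_zero _) h

theorem rC1b : RC1b := by
  refine ⟨C1b_open, C1b_cov, fun j l y y' h => ?_⟩
  obtain ⟨m, m1, m2⟩ := C1b_int (C1b_e1 j) (C1b_e1 l) (congrArg (fun t : Srf => t.1.1) h)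
  obtain ⟨n, n1, n2⟩ := C1b_int (C1b_e2 j) (C1b_e2 l) (congrArg (fun t : Srf => t.1.2.1) h)
  by_cases h0 : m = 0 ∧ n = 0
  · left
    have a1 : e1 j = e1 l := by exact_mod_cast m2 h0.1
    have a2 : e2 j = e2 l := by exact_mod_cast n2 h0.2
    revert a1 a2
    fin_cases j <;> fin_cases l <;> simp [e1, e2] <;> norm_num
  · right
    refine ⟨?_, m, n, Complex.ext (by simpa using m1) (by simpa using n1)⟩
    have b : ‖y ^ 2 - y' ^ 2‖ ≤ ‖y‖ ^ 2 + ‖y'‖ ^ 2 := by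
      rw [← norm_pow, ← norm_pow]
      exact norm_sub_le _ _
    refine le_trans ?_ b
    rcases not_and_or.1 h0 with h1 | h1
    · refine le_trans ?_ (abs_re_le_norm _)
      rw [sub_re, m1]
      exact_mod_cast Int.one_le_abs h1
    · refine le_trans ?_ (abs_im_le_norm _)
      rw [sub_im, n1]
      exact_mod_cast Int.one_le_abs h1

end Pool.Agent.MP_ff5407_an.H58
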