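import Pool.Agent.MP_ff5407_an.H58.Spec

/-! Row C2: the cell structure of the surface. -/

open scoped ContDiff Topology Manifold NNReal ENNReal ComplexConjugate
open Set Filter MeasureTheory Complex Metric

noncomputable section

namespace Pool.Agent.MP_ff5407_an.H58

namespace C2A

/-! ### The circle -/

def ee (x : ℝ) : ℂ := exp (Real.pi * x * I)

theorem ee_re (x : ℝ) : (ee x).re = Real.cos (Real.pi * x) := by
  rw [ee, ← Complex.ofReal_mul]; exact Complex.exp_ofReal_mul_I_re _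

theorem ee_im (x : ℝ) : (ee x).im = Real.sin (Real.pi * x) := by
  rw [ee, ← Complex.ofReal_mul]; exact Complex.exp_ofReal_mul_I_im _

theorem ee_inj {x y : ℝ} (hx : x ∈ Icc (0 : ℝ) 1) (hy : y ∈ Icc (0 : ℝ) 1) (h : ee x = ee y) :
    x = y := by
  have h1 := congrArg Complex.re h
  rw [ee_re, ee_re] at h1
  have hp := Real.pi_pos
  have := Real.injOn_cos ⟨by nlinarith [hx.1], by nlinarith [hx.2]⟩
    ⟨by nlinarith [hy.1], by nlinarith [hy.2]⟩ h1
  exact mul_left_cancel₀ hp.ne' this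

theorem sin_zero {x : ℝ} (hx : x ∈ Ico (0 : ℝ) 1) (h : Real.sin (Real.pi * x) ≤ 0) : x = 0 := by
  by_contra h0
  have hp := Real.pi_pos
  have h1 : 0 < x := lt_of_le_of_ne hx.1 (Ne.symm h0)
  exact absurd (Real.sin_pos_of_pos_of_lt_pi (mul_pos hp h1) (by nlinarith [hx.2])) (not_lt.2 h)

theorem sin_nn {x : ℝ} (hx : x ∈ Ico (0 : ℝ) 1) : 0 ≤ Real.sin (Real.pi * x) :=
  Real.sin_nonneg_of_nonneg_of_le_pi (mul_nonneg Real.pi_pos.le hx.1)
    (by nlinarith [hx.2, Real.pi_pos])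

theorem ee_ne {x y : ℝ} (hx : x ∈ Ico (0 : ℝ) 1) (hy : y ∈ Ico (0 : ℝ) 1) : ee x ≠ -ee y := by
  intro h
  have h1 := congrArg Complex.im h
  rw [neg_im, ee_im, ee_im] at h1
  have a := sin_nn hx
  have b := sin_nn hy
  rw [sin_zero hx (by linarith), sin_zero hy (by linarith)] at h
  have h2 := congrArg Complex.re h
  rw [neg_re, ee_re] at h2
  norm_num at h2

theorem sgn_inj {e e' x y : ℝ} (he : e = 1 ∨ e = -1) (he' : e' = 1 ∨ e' = -1)
    (hx : x ∈ Ico (0 : ℝ) 1) (hy : y ∈ Ico (0 : ℝ) 1) (h : e * ee x = e' * ee y) : e = e' := by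
  rcases he with rfl | rfl <;> rcases he' with rfl | rfl
  · rfl
  · exact absurd (by simpa using h) (ee_ne hx hy)
  · exact absurd (by simpa using h.symm) (ee_ne hy hx)
  · rfl

theorem ex_ee (a : ℂ) (ha : ‖a‖ = 1) :
    ∃ e : ℝ, (e = 1 ∨ e = -1) ∧ ∃ x ∈ Ico (0 : ℝ) 1, a = e * ee x := by
  have hp := Real.pi_pos
  have h := Complex.norm_mul_exp_arg_mul_I a
  rw [ha, ofReal_one, one_mul] at h
  have hp' : (Real.pi : ℂ) ≠ 0 := by exact_mod_cast hp.ne'
  rcases lt_or_ge (arg a) 0 with h0 | h0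
  · refine ⟨-1, Or.inr rfl, arg a / Real.pi + 1, ⟨?_, ?_⟩, ?_⟩
    · have : -1 ≤ arg a / Real.pi := by
        rw [le_div_iff₀ hp]; linarith [neg_pi_lt_arg a]
      linarith
    · have : arg a / Real.pi < 0 := div_neg_of_neg_of_pos h0 hp
      linarith
    · have : (Real.pi : ℂ) * ((arg a / Real.pi + 1 : ℝ) : ℂ) * I = arg a * I + Real.pi * I := by
        push_cast; field_simp
      rw [ee, this, Complex.exp_add, h, Complex.exp_pi_mul_I]
      simp
  · rcases (arg_le_pi a).lt_or_eq with h1 | h1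
    · refine ⟨1, Or.inl rfl, arg a / Real.pi, ⟨div_nonneg h0 hp.le, (div_lt_one hp).2 h1⟩, ?_⟩
      have : (Real.pi : ℂ) * ((arg a / Real.pi : ℝ) : ℂ) * I = arg a * I := by
        push_cast; field_simp
      rw [ee, this, h]
      simp
    · refine ⟨-1, Or.inr rfl, 0, ⟨le_rfl, one_pos⟩, ?_⟩
      rw [h1, Complex.exp_pi_mul_I] at h
      simp [ee, ← h]

/-! ### The squares -/

theorem e1_sgn (j : Fin 4) : e1 j = 1 ∨ e1 j = -1 := by fin_cases j <;> simp [e1]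

theorem e2_sgn (j : Fin 4) : e2 j = 1 ∨ e2 j = -1 := by fin_cases j <;> simp [e2]

theorem e1_ne (j : Fin 4) : e1 j ≠ 0 := by rcases e1_sgn j with h | h <;> rw [h] <;> norm_num

theorem e2_ne (j : Fin 4) : e2 j ≠ 0 := by rcases e2_sgn j with h | h <;> rw [h] <;> norm_num

theorem e_inj {j l : Fin 4} (h1 : e1 j = e1 l) (h2 : e2 j = e2 l) : j = l := by
  fin_cases j <;> fin_cases l <;>
    first | rfl | (exfalso; norm_num [e1] at h1; done) | (exfalso; norm_num [e2] at h2)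

theorem e_surj {e e' : ℝ} (he : e = 1 ∨ e = -1) (he' : e' = 1 ∨ e' = -1) :
    ∃ j, e1 j = e ∧ e2 j = e' := by
  rcases he with rfl | rfl <;> rcases he' with rfl | rfl
  exacts [⟨0, rfl, rfl⟩, ⟨2, rfl, rfl⟩, ⟨3, rfl, rfl⟩, ⟨1, rfl, rfl⟩]

theorem JJ_neg (j : Fin 4) (w : ℂ) : JJ j (-w) = -JJ j w := by fin_cases j <;> simp [JJ]

theorem JJ_zero (j : Fin 4) {w : ℂ} (h : JJ j w = 0) : w = 0 := by
  fin_cases j <;> simpa [JJ] using h

theorem Sq1 (j : Fin 4) (σ : Bool) (z : ℂ) : (Sq j σ z).1.1 = e1 j * ee z.re := rfl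

theorem Sq2 (j : Fin 4) (σ : Bool) (z : ℂ) : (Sq j σ z).1.2.1 = e2 j * ee z.im := rfl

theorem Sq3t (j : Fin 4) (z : ℂ) : (Sq j true z).1.2.2 = JJ j (FF z ^ ((2 : ℂ)⁻¹)) := rfl

theorem Sq3f (j : Fin 4) (z : ℂ) : (Sq j false z).1.2.2 = -JJ j (FF z ^ ((2 : ℂ)⁻¹)) :=
  JJ_neg j _

theorem Sq_inj (j : Fin 4) (σ : Bool) : InjOn (Sq j σ) (Icc 0 1 ×ℂ Icc 0 1) := by
  intro z hz w hw h
  have h1 := congrArg (fun v : Srf => v.1.1) h
  have h2 := congrArg (fun v : Srf => v.1.2.1) h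
  simp only [Sq1, Sq2] at h1 h2
  exact Complex.ext
    (ee_inj hz.1 hw.1 (mul_left_cancel₀ (Complex.ofReal_ne_zero.2 (e1_ne j)) h1))
    (ee_inj hz.2 hw.2 (mul_left_cancel₀ (Complex.ofReal_ne_zero.2 (e2_ne j)) h2))

theorem sign_zero {j : Fin 4} {z : ℂ} (hz : z ∈ Ico (0 : ℝ) 1 ×ℂ Ico (0 : ℝ) 1)
    (h : Sq j true z = Sq j false z) : z = 0 := by
  have h1 := congrArg (fun v : Srf => v.1.2.2) h
  simp only [Sq3t, Sq3f] at h1
  have h2 : JJ j (FF z ^ ((2 : ℂ)⁻¹)) = 0 := by linear_combination h1 / 2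
  have h3 := sq_root (FF z)
  rw [JJ_zero j h2, FF] at h3
  have a := congrArg Complex.re h3
  have b := congrArg Complex.im h3
  simp only [ne_eq, OfNat.ofNat_ne_zero, not_false_eq_true, zero_pow, zero_re, add_re, ofReal_re,
    mul_re, I_re, mul_zero, ofReal_im, I_im, mul_one, sub_self, add_zero, zero_im, add_im, mul_im,
    zero_add] at a b
  exact Complex.ext (sin_zero hz.1 a.ge) (sin_zero hz.2 b.ge)

theorem key {j l : Fin 4} {σ τ : Bool} {z w : ℂ} (hz : z ∈ Ico (0 : ℝ) 1 ×ℂ Ico (0 : ℝ) 1)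
    (hw : w ∈ Ico (0 : ℝ) 1 ×ℂ Ico (0 : ℝ) 1) (h : Sq j σ z = Sq l τ w) :
    j = l ∧ z = w ∧ (σ = τ ∨ z = 0) := by
  have h1 := congrArg (fun v : Srf => v.1.1) h
  have h2 := congrArg (fun v : Srf => v.1.2.1) h
  simp only [Sq1, Sq2] at h1 h2
  obtain rfl : j = l := e_inj (sgn_inj (e1_sgn j) (e1_sgn l) hz.1 hw.1 h1)
    (sgn_inj (e2_sgn j) (e2_sgn l) hz.2 hw.2 h2)
  obtain rfl : z = w := Complex.ext
    (ee_inj (Ico_subset_Icc_self hz.1) (Ico_subset_Icc_self hw.1)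
      (mul_left_cancel₀ (Complex.ofReal_ne_zero.2 (e1_ne j)) h1))
    (ee_inj (Ico_subset_Icc_self hz.2) (Ico_subset_Icc_self hw.2)
      (mul_left_cancel₀ (Complex.ofReal_ne_zero.2 (e2_ne j)) h2))
  refine ⟨rfl, rfl, ?_⟩
  cases σ <;> cases τ
  exacts [Or.inl rfl, Or.inr (sign_zero hz h.symm), Or.inr (sign_zero hz h), Or.inl rfl]

theorem ex_Sq (v : Srf) : ∃ j σ, ∃ z ∈ Ico (0 : ℝ) 1 ×ℂ Ico (0 : ℝ) 1,
    (z = 0 → σ = true) ∧ Sq j σ z = v := by
  obtain ⟨⟨a, b, w⟩, ha, hb, hw⟩ := v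
  obtain ⟨e, he, x, hx, rfl⟩ := ex_ee a ha
  obtain ⟨e', he', y, hy, rfl⟩ := ex_ee b hb
  obtain ⟨j, rfl, rfl⟩ := e_surj he he'
  have h := (Sq j true ⟨x, y⟩).2.2.2
  rw [Sq1, Sq2, Sq3t] at h
  simp only at h hw
  have ht : JJ j (FF ⟨x, y⟩ ^ ((2 : ℂ)⁻¹)) = w → Sq j true ⟨x, y⟩ = ⟨_, ha, hb, hw⟩ :=
    fun c => Subtype.ext (Prod.ext rfl (Prod.ext rfl c))
  rcases sq_eq_sq_iff_eq_or_eq_neg.1 (h.trans hw.symm) with c | c
  · exact ⟨j, true, ⟨x, y⟩, ⟨hx, hy⟩, fun _ => rfl, ht c⟩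
  · by_cases h0 : (⟨x, y⟩ : ℂ) = 0
    · refine ⟨j, true, ⟨x, y⟩, ⟨hx, hy⟩, fun _ => rfl, ht ?_⟩
      have : JJ j (FF ⟨x, y⟩ ^ ((2 : ℂ)⁻¹)) = 0 := by
        rw [h0]; fin_cases j <;> simp [FF, JJ]
      rw [this] at c ⊢
      exact (neg_eq_zero.1 c.symm).symm
    · refine ⟨j, false, ⟨x, y⟩, ⟨hx, hy⟩, fun c => absurd c h0,
        Subtype.ext (Prod.ext rfl (Prod.ext rfl ?_))⟩
      rw [Sq3f, c, neg_neg]

/-! ### The cells -/

def co (a : Bool) (t : ℝ) : ℝ := if a then (t + 1) / 2 else 0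
def c0 {n : ℕ} (x : Fin n → ℝ) : ℝ := if h : 0 < n then x ⟨0, h⟩ else 0
def c1 {n : ℕ} (x : Fin n → ℝ) : ℝ := if h : 0 < n then x ⟨n - 1, by omega⟩ else 0
def par (n : ℕ) (f : Bool × Bool) (x : Fin n → ℝ) : ℂ := ⟨co f.1 (c0 x), co f.2 (c1 x)⟩
def dm (f : Bool × Bool) : ℕ := (if f.1 then 1 else 0) + (if f.2 then 1 else 0)

theorem co_mem (a : Bool) {t : ℝ} (ht : |t| ≤ 1) : co a t ∈ Icc (0 : ℝ) 1 := by
  obtain ⟨h1, h2⟩ := abs_le.1 ht
  unfold co
  split_ifs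
  · constructor <;> linarith
  · simp

theorem co_mem' (a : Bool) {t : ℝ} (ht : |t| < 1) :
    co a t ∈ Ico (0 : ℝ) 1 ∧ (co a t = 0 ↔ a = false) := by
  obtain ⟨h1, h2⟩ := abs_lt.1 ht
  cases a
  · simp [co]
  · refine ⟨⟨?_, ?_⟩, ?_⟩
    · simp only [co, if_true]; linarith
    · simp only [co, if_true]; linarith
    · simp only [co, if_true, Bool.true_eq_false, iff_false]
      intro h; linarith

theorem sin_co (a : Bool) (t : ℝ) (h : a = false ∨ |t| = 1) : Real.sin (Real.pi * co a t) = 0 := by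
  cases a
  · simp [co]
  · rcases h with h | h
    · cases h
    · rcases (abs_eq zero_le_one).1 h with h | h <;> simp [co, h]

theorem continuous_par (n : ℕ) (f : Bool × Bool) : Continuous (par n f) := by
  have h : par n f = fun x => Complex.equivRealProdCLM.symm (co f.1 (c0 x), co f.2 (c1 x)) := by
    funext x
    apply Complex.ext <;> simp [par]
  have a : ∀ a, Continuous (co a) := fun a => by unfold co; split_ifs <;> fun_prop
  have b : Continuous (c0 (n := n)) := by unfold c0; split_ifs <;> fun_prop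
  have c : Continuous (c1 (n := n)) := by unfold c1; split_ifs <;> fun_prop
  rw [h]
  exact Complex.equivRealProdCLM.symm.continuous.comp (((a _).comp b).prodMk ((a _).comp c))

theorem abs_c0 {n : ℕ} (x : Fin n → ℝ) : |c0 x| ≤ ‖x‖ := by
  unfold c0
  split_ifs
  · exact norm_le_pi_norm x _
  · simp

theorem abs_c1 {n : ℕ} (x : Fin n → ℝ) : |c1 x| ≤ ‖x‖ := by
  unfold c1
  split_ifs
  · exact norm_le_pi_norm x _
  · simp

theorem par_mem {n : ℕ} (f : Bool × Bool) {x : Fin n → ℝ}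
    (hx : x ∈ closedBall (0 : Fin n → ℝ) 1) : par n f x ∈ Icc (0 : ℝ) 1 ×ℂ Icc (0 : ℝ) 1 := by
  rw [mem_closedBall_zero_iff] at hx
  exact ⟨co_mem _ ((abs_c0 x).trans hx), co_mem _ ((abs_c1 x).trans hx)⟩

theorem par_mem' {n : ℕ} (f : Bool × Bool) {x : Fin n → ℝ} (hx : x ∈ ball (0 : Fin n → ℝ) 1) :
    par n f x ∈ Ico (0 : ℝ) 1 ×ℂ Ico (0 : ℝ) 1 ∧ ((par n f x).re = 0 ↔ f.1 = false) ∧
      ((par n f x).im = 0 ↔ f.2 = false) := by
  rw [mem_ball_zero_iff] at hx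
  have a := co_mem' f.1 ((abs_c0 x).trans_lt hx)
  have b := co_mem' f.2 ((abs_c1 x).trans_lt hx)
  exact ⟨⟨a.1, b.1⟩, a.2, b.2⟩

theorem coord {n : ℕ} {f : Bool × Bool} (hf : dm f = n) (j : Fin n) :
    (f.1 = true ∧ ∀ x : Fin n → ℝ, c0 x = x j) ∨ (f.2 = true ∧ ∀ x : Fin n → ℝ, c1 x = x j) := by
  obtain ⟨a, b⟩ := f
  cases a <;> cases b <;> subst hf
  · exact j.elim0
  · fin_cases j; exact Or.inr ⟨rfl, fun _ => rfl⟩
  · fin_cases j; exact Or.inl ⟨rfl, fun _ => rfl⟩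
  · fin_cases j
    exacts [Or.inl ⟨rfl, fun _ => rfl⟩, Or.inr ⟨rfl, fun _ => rfl⟩]

theorem par_inj {n : ℕ} {f : Bool × Bool} (hf : dm f = n) : Function.Injective (par n f) := by
  intro x y h
  funext j
  rcases coord hf j with ⟨h1, h2⟩ | ⟨h1, h2⟩
  · have := congrArg Complex.re h
    simp only [par, h1, co, h2, if_true] at this
    linarith
  · have := congrArg Complex.im h
    simp only [par, h1, co, h2, if_true] at this
    linarith

open Classical in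
/-- The face of the square that contains a point. -/
def face (z : ℂ) : Bool × Bool := (decide (z.re ≠ 0), decide (z.im ≠ 0))

theorem co_face {t : ℝ} (ht : t ∈ Ico (0 : ℝ) 1) (h : t ≠ 0) :
    |2 * t - 1| < 1 ∧ co true (2 * t - 1) = t := by
  have := lt_of_le_of_ne ht.1 (Ne.symm h)
  refine ⟨abs_lt.2 ⟨by linarith, by linarith [ht.2]⟩, ?_⟩
  simp [co]

theorem exists_par {w : ℂ} (hw : w ∈ Ico (0 : ℝ) 1 ×ℂ Ico (0 : ℝ) 1) {n : ℕ}
    (hn : dm (face w) = n) : ∃ x ∈ ball (0 : Fin n → ℝ) 1, par n (face w) x = w := by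
  by_cases h1 : w.re = 0 <;> by_cases h2 : w.im = 0
  · exact ⟨0, mem_ball_self one_pos, Complex.ext (by simp [par, face, co, h1])
      (by simp [par, face, co, h2])⟩
  · obtain rfl : 1 = n := by simpa [dm, face, h1, h2] using hn
    refine ⟨fun _ => 2 * w.im - 1, ?_, Complex.ext (by simp [par, face, co, h1])
      (by simp [par, face, co, h2, c1])⟩
    rw [mem_ball_zero_iff, pi_norm_lt_iff one_pos]
    exact fun _ => (co_face hw.2 h2).1
  · obtain rfl : 1 = n := by simpa [dm, face, h1, h2] using hn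
    refine ⟨fun _ => 2 * w.re - 1, ?_, Complex.ext (by simp [par, face, co, h1, c0])
      (by simp [par, face, co, h2])⟩
    rw [mem_ball_zero_iff, pi_norm_lt_iff one_pos]
    exact fun _ => (co_face hw.1 h1).1
  · obtain rfl : 2 = n := by simpa [dm, face, h1, h2] using hn
    refine ⟨![2 * w.re - 1, 2 * w.im - 1], ?_, Complex.ext (by simp [par, face, co, h1, c0])
      (by simp [par, face, co, h2, c1])⟩
    rw [mem_ball_zero_iff, pi_norm_lt_iff one_pos]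
    intro j
    fin_cases j
    exacts [(co_face hw.1 h1).1, (co_face hw.2 h2).1]

/-- The cells of dimension `n`. -/
abbrev Cell (n : ℕ) : Type :=
  {c : (Fin 4 × Bool) × Bool × Bool // dm c.2 = n ∧ (dm c.2 = 0 → c.1.2 = true)}

def chi (n : ℕ) (c : Cell n) (x : Fin n → ℝ) : Srf := Sq c.1.1.1 c.1.1.2 (par n c.1.2 x)

theorem chi_inj (n : ℕ) (c : Cell n) : InjOn (chi n c) (closedBall 0 1) :=
  fun _ hx _ hy h => par_inj c.2.1 (Sq_inj _ _ (par_mem _ hx) (par_mem _ hy) h)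

theorem chi_cont (H : RC2a) (n : ℕ) (c : Cell n) : ContinuousOn (chi n c) (closedBall 0 1) :=
  (H.1 _ _).comp (continuous_par n _).continuousOn fun _ hx => par_mem _ hx

def chiE (n : ℕ) (c : Cell n) : PartialEquiv (Fin n → ℝ) Srf :=
  ((chi_inj n c).mono ball_subset_closedBall).toPartialEquiv (chi n c) (ball 0 1)

theorem chiE_symm (H : RC2a) (n : ℕ) (c : Cell n) :
    ContinuousOn (chiE n c).symm (chiE n c).target := by
  rw [continuousOn_iff_isClosed]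
  intro t ht
  refine ⟨chi n c '' (t ∩ closedBall 0 1), ?_, ?_⟩
  · exact (((isCompact_closedBall 0 1).inter_left ht).image_of_continuousOn
      ((chi_cont H n c).mono inter_subset_right)).isClosed
  · ext y
    constructor
    · rintro ⟨h1, h2⟩
      exact ⟨⟨_, ⟨h1, ball_subset_closedBall ((chiE n c).map_target h2)⟩,
        (chiE n c).right_inv h2⟩, h2⟩
    · rintro ⟨⟨x, ⟨hx1, hx2⟩, hx⟩, h2⟩
      refine ⟨?_, h2⟩
      have : (chiE n c).symm y = x :=
        chi_inj n c (ball_subset_closedBall ((chiE n c).map_target h2)) hx2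
          (((chiE n c).right_inv h2).trans hx.symm)
      rw [mem_preimage, this]; exact hx1

open Classical in
/-- The dimension of the cell of a point. -/
def D (v : Srf) : ℕ := (if v.1.1.im = 0 then 0 else 1) + (if v.1.2.1.im = 0 then 0 else 1)

open Classical in
theorem D_Sq (j : Fin 4) (σ : Bool) (z : ℂ) : D (Sq j σ z) =
    (if Real.sin (Real.pi * z.re) = 0 then 0 else 1) +
      (if Real.sin (Real.pi * z.im) = 0 then 0 else 1) := by
  simp only [D, Sq1, Sq2, Complex.im_ofReal_mul, ee_im, mul_eq_zero, e1_ne, e2_ne, false_or]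

theorem cover (v : Srf) : ∃ c : Cell (D v), v ∈ chi _ c '' closedBall 0 1 := by
  obtain ⟨j, σ, z, hz, h0, rfl⟩ := ex_Sq v
  have a : Real.sin (Real.pi * z.re) = 0 ↔ z.re = 0 :=
    ⟨fun h => sin_zero hz.1 h.le, fun h => by simp [h]⟩
  have b : Real.sin (Real.pi * z.im) = 0 ↔ z.im = 0 :=
    ⟨fun h => sin_zero hz.2 h.le, fun h => by simp [h]⟩
  have e : dm (face z) = D (Sq j σ z) := by
    rw [D_Sq]
    simp only [a, b, dm, face, ne_eq, decide_not, Bool.not_eq_eq_eq_not, Bool.not_true,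
      decide_eq_false_iff_not, ite_not]
  obtain ⟨x, hx, e'⟩ := exists_par hz e
  refine ⟨⟨((j, σ), face z), e, fun h => h0 ?_⟩, x, ball_subset_closedBall hx, ?_⟩
  · by_cases h1 : z.re = 0 <;> by_cases h2 : z.im = 0 <;> simp [dm, face, h1, h2] at h
    exact Complex.ext h1 h2
  · simp only [chi]
    rw [e']

theorem D_lt {n : ℕ} (c : Cell n) {x : Fin n → ℝ} (hx : x ∈ sphere (0 : Fin n → ℝ) 1) :
    D (chi n c x) < n := by
  rw [mem_sphere_zero_iff_norm] at hx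
  obtain ⟨j, hj⟩ : ∃ j, |x j| = 1 := by
    by_contra h
    push Not at h
    have : ‖x‖ < 1 := (pi_norm_lt_iff one_pos).2 fun j =>
      lt_of_le_of_ne (hx ▸ norm_le_pi_norm x j) (h j)
    linarith
  obtain ⟨⟨p, f⟩, hf, hc⟩ := c
  rw [chi, D_Sq]
  simp only [par]
  have a1 := fun h => sin_co f.1 (c0 x) (Or.inl h)
  have a2 := fun h => sin_co f.2 (c1 x) (Or.inl h)
  simp only at hf
  rcases coord hf j with ⟨h1, h2⟩ | ⟨h1, h2⟩
  · rw [if_pos (sin_co _ _ (Or.inr (by rw [h2, hj])))]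
    rw [dm, if_pos h1] at hf
    rcases Bool.eq_false_or_eq_true f.2 with h | h
    · rw [if_pos h] at hf; split_ifs <;> omega
    · rw [if_pos (a2 h)]; omega
  · rw [if_pos (sin_co f.2 _ (Or.inr (by rw [h2, hj])))]
    rw [dm, if_pos h1] at hf
    rcases Bool.eq_false_or_eq_true f.1 with h | h
    · rw [if_pos h] at hf; split_ifs <;> omega
    · rw [if_pos (a1 h)]; omega

end C2A

open C2A in
theorem rC2 (h : RC2a) : RC2 := by
  have he : ∀ k, 3 ≤ k → IsEmpty (Cell k) := fun k hk =>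
    ⟨fun c => by
      have := c.2.1
      unfold dm at this
      split_ifs at this <;> omega⟩
  refine ⟨Topology.CWComplex.mkFinite univ Cell chiE (eventually_atTop.2 ⟨3, he⟩)
    (fun n => inferInstance) (fun _ _ => rfl) (chi_cont h) (chiE_symm h) ?_ ?_ ?_,
    fun n => (inferInstance : Finite (Cell n)), he, ?_⟩
  · rintro ⟨n, ⟨⟨j, σ⟩, f⟩, hf, hc⟩ - ⟨n', ⟨⟨j', σ'⟩, f'⟩, hf', hc'⟩ - hne
    rw [Function.onFun, disjoint_left]
    rintro y ⟨x, hx, e⟩ ⟨x', hx', e'⟩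
    apply hne
    obtain ⟨p1, p2, p3⟩ := par_mem' f hx
    obtain ⟨q1, q2, q3⟩ := par_mem' f' hx'
    obtain ⟨rfl, h1, h2⟩ := key p1 q1 (e.trans e'.symm)
    simp only at h1 h2 hf hf' hc hc'
    obtain rfl : f = f' := by
      rw [h1] at p2 p3
      exact Prod.ext (Bool.eq_iff_iff.2 (by
        rw [← Bool.not_eq_false, ← Bool.not_eq_false, ← p2, ← q2])) (Bool.eq_iff_iff.2 (by
        rw [← Bool.not_eq_false, ← Bool.not_eq_false, ← p3, ← q3]))
    obtain rfl : n = n' := hf.symm.trans hf'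
    obtain rfl : σ = σ' := by
      rcases h2 with h2 | h2
      · exact h2
      · have : dm f = 0 := by
          rw [h2] at p2 p3
          simp [dm, p2.1 rfl, p3.1 rfl]
        rw [hc this, hc' this]
    rfl
  · intro n c x hx
    obtain ⟨c', hc'⟩ := cover (chi n c x)
    exact mem_iUnion₂.2 ⟨_, D_lt c hx, mem_iUnion.2 ⟨c', hc'⟩⟩
  · refine eq_univ_of_forall fun v => ?_
    obtain ⟨c, hc⟩ := cover v
    exact mem_iUnion₂.2 ⟨_, c, hc⟩
  · change (Nat.card (Cell 0) : ℤ) - Nat.card (Cell 1) + Nat.card (Cell 2) = _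
    have a0 : Fintype.card (Cell 0) = 4 := by decide
    have a1 : Fintype.card (Cell 1) = 16 := by decide
    have a2 : Fintype.card (Cell 2) = 8 := by decide
    simp only [Nat.card_eq_fintype_card, a0, a1, a2]
    norm_num

end Pool.Agent.MP_ff5407_an.H58
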