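import Pool.Agent.MP_ff5407_an.H58.Spec

/-! Row C2a: the eight squares cover the surface, which is compact and connected. -/

open scoped ContDiff Topology Manifold NNReal ENNReal ComplexConjugate
open Set Filter MeasureTheory Complex

noncomputable section

namespace Pool.Agent.MP_ff5407_an.H58

theorem C2a_JJ_cont (j : Fin 4) : Continuous (JJ j) := by
  fin_cases j
  · exact continuous_id
  · exact continuous_const.mul continuous_id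
  · exact continuous_conj
  · exact continuous_const.mul continuous_conj

theorem C2a_JJ_neg (j : Fin 4) (w : ℂ) : JJ j (-w) = -JJ j w := by
  fin_cases j <;> simp [JJ]

theorem C2a_JJ_zero (j : Fin 4) : JJ j 0 = 0 := by
  fin_cases j <;> simp [JJ]

theorem C2a_root : ContinuousOn (fun z => FF z ^ ((2 : ℂ)⁻¹)) (Icc 0 1 ×ℂ Icc 0 1) := by
  intro z hz
  have hF : Continuous FF := by
    unfold FF
    fun_prop
  have h1 : 0 ≤ (FF z).re := by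
    have : (FF z).re = Real.sin (Real.pi * z.re) := by
      rw [FF, add_re, ofReal_re, re_ofReal_mul, I_re, mul_zero, add_zero]
    rw [this]
    refine Real.sin_nonneg_of_nonneg_of_le_pi (mul_nonneg Real.pi_pos.le hz.1.1) ?_
    exact mul_le_of_le_one_right Real.pi_pos.le hz.1.2
  have h2 := continuousAt_cpow_const_of_re_pos (z := FF z) (w := (2 : ℂ)⁻¹) (Or.inl h1) (by simp)
  exact (h2.comp hF.continuousAt).continuousWithinAt

theorem C2a_cont (j : Fin 4) (σ : Bool) : ContinuousOn (Sq j σ) (Icc 0 1 ×ℂ Icc 0 1) := by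
  refine Topology.IsInducing.subtypeVal.continuousOn_iff.mpr ?_
  have h1 : Continuous fun z : ℂ => (e1 j : ℂ) * exp (Real.pi * z.re * I) := by fun_prop
  have h2 : Continuous fun z : ℂ => (e2 j : ℂ) * exp (Real.pi * z.im * I) := by fun_prop
  cases σ
  · exact h1.continuousOn.prodMk (h2.continuousOn.prodMk
      ((C2a_JJ_cont j).comp_continuousOn C2a_root.neg))
  · exact h1.continuousOn.prodMk (h2.continuousOn.prodMk
      ((C2a_JJ_cont j).comp_continuousOn C2a_root))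

theorem C2a_arg0 (a : ℂ) (ha : ‖a‖ = 1) (h : 0 ≤ a.im) :
    ∃ X ∈ Icc (0 : ℝ) 1, a = exp (Real.pi * X * I) := by
  refine ⟨arg a / Real.pi, ⟨div_nonneg (arg_nonneg_iff.mpr h) Real.pi_pos.le,
    (div_le_one Real.pi_pos).mpr (arg_le_pi a)⟩, ?_⟩
  have h1 := norm_mul_exp_arg_mul_I a
  rw [ha, ofReal_one, one_mul] at h1
  rw [← ofReal_mul, mul_div_cancel₀ _ Real.pi_ne_zero, h1]

theorem C2a_arg (a : ℂ) (ha : ‖a‖ = 1) :
    ∃ X ∈ Icc (0 : ℝ) 1, ∃ s : ℝ, (s = 1 ∨ s = -1) ∧ a = s * exp (Real.pi * X * I) := by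
  rcases le_total 0 a.im with h | h
  · obtain ⟨X, hX, e⟩ := C2a_arg0 a ha h
    exact ⟨X, hX, 1, Or.inl rfl, by rw [← e]; simp⟩
  · obtain ⟨X, hX, e⟩ := C2a_arg0 (-a) (by rwa [norm_neg]) (by simpa using h)
    exact ⟨X, hX, -1, Or.inr rfl, by rw [← e]; simp⟩

theorem C2a_cover (v : Srf) : ∃ j σ, ∃ z ∈ Icc 0 1 ×ℂ Icc 0 1, Sq j σ z = v := by
  obtain ⟨⟨a, b, w⟩, ha, hb, hw⟩ := v
  obtain ⟨X, hX, s, hs, ea⟩ := C2a_arg a ha
  obtain ⟨X', hX', s', hs', eb⟩ := C2a_arg b hb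
  obtain ⟨j, h1, h2⟩ : ∃ j, e1 j = s ∧ e2 j = s' := by
    rcases hs with rfl | rfl <;> rcases hs' with rfl | rfl
    · exact ⟨0, rfl, rfl⟩
    · exact ⟨2, rfl, rfl⟩
    · exact ⟨3, rfl, rfl⟩
    · exact ⟨1, rfl, rfl⟩
  have hz : (⟨X, X'⟩ : ℂ) ∈ Icc (0 : ℝ) 1 ×ℂ Icc (0 : ℝ) 1 := ⟨hX, hX'⟩
  have f1 : (e1 j : ℂ) * exp (Real.pi * X * I) = a := by rw [h1, ← ea]
  have f2 : (e2 j : ℂ) * exp (Real.pi * X' * I) = b := by rw [h2, ← eb]
  have h3 : JJ j (FF ⟨X, X'⟩ ^ ((2 : ℂ)⁻¹)) ^ 2 =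
      (((e1 j : ℂ) * exp (Real.pi * X * I)).im : ℂ) +
        (((e2 j : ℂ) * exp (Real.pi * X' * I)).im : ℂ) * I := (Sq j true ⟨X, X'⟩).2.2.2
  rw [f1, f2] at h3
  have h4 : JJ j (FF ⟨X, X'⟩ ^ ((2 : ℂ)⁻¹)) ^ 2 = w ^ 2 := h3.trans hw.symm
  rcases sq_eq_sq_iff_eq_or_eq_neg.mp h4 with h | h
  · exact ⟨j, true, _, hz, Subtype.ext (Prod.ext f1 (Prod.ext f2 h))⟩
  · refine ⟨j, false, _, hz, Subtype.ext (Prod.ext f1 (Prod.ext f2 ?_))⟩
    change JJ j (-FF ⟨X, X'⟩ ^ ((2 : ℂ)⁻¹)) = w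
    rw [C2a_JJ_neg, h, neg_neg]

/-- The common corner of all squares. -/
def C2a_p0 : Srf := ⟨(1, 1, 0), by simp⟩

theorem C2a_corner (s : ℝ) (hs : s = 1 ∨ s = -1) : ∃ X ∈ Icc (0 : ℝ) 1,
    Real.sin (Real.pi * X) = 0 ∧ (s : ℂ) * exp (Real.pi * X * I) = 1 := by
  rcases hs with rfl | rfl
  · exact ⟨0, ⟨le_rfl, zero_le_one⟩, by simp, by simp⟩
  · exact ⟨1, ⟨zero_le_one, le_rfl⟩, by simp, by simp⟩

theorem C2a_mem (j : Fin 4) (σ : Bool) : C2a_p0 ∈ Sq j σ '' (Icc 0 1 ×ℂ Icc 0 1) := by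
  obtain ⟨X, hX, s1, f1⟩ := C2a_corner (e1 j) (by fin_cases j <;> simp [e1])
  obtain ⟨X', hX', s2, f2⟩ := C2a_corner (e2 j) (by fin_cases j <;> simp [e2])
  have hF : FF ⟨X, X'⟩ ^ ((2 : ℂ)⁻¹) = 0 := by
    rw [FF, s1, s2]
    simp
  refine ⟨⟨X, X'⟩, ⟨hX, hX'⟩, Subtype.ext (Prod.ext f1 (Prod.ext f2 ?_))⟩
  cases σ
  · change JJ j (-FF ⟨X, X'⟩ ^ ((2 : ℂ)⁻¹)) = 0
    rw [hF, neg_zero, C2a_JJ_zero]
  · change JJ j (FF ⟨X, X'⟩ ^ ((2 : ℂ)⁻¹)) = 0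
    rw [hF, C2a_JJ_zero]

theorem rC2a : RC2a := by
  have hK : IsCompact (Icc (0 : ℝ) 1 ×ℂ Icc (0 : ℝ) 1) := isCompact_Icc.reProdIm isCompact_Icc
  have hP : IsPreconnected (Icc (0 : ℝ) 1 ×ℂ Icc (0 : ℝ) 1) :=
    (((convex_Icc (0 : ℝ) 1).linear_preimage reLm).inter
      ((convex_Icc (0 : ℝ) 1).linear_preimage imLm)).isPreconnected
  refine ⟨C2a_cont, C2a_cover, ⟨?_⟩, ?_⟩
  · have h : (univ : Set Srf) = ⋃ p : Fin 4 × Bool, Sq p.1 p.2 '' (Icc 0 1 ×ℂ Icc 0 1) := by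
      refine (eq_univ_of_forall fun v => ?_).symm
      obtain ⟨j, σ, z, hz, e⟩ := C2a_cover v
      exact mem_iUnion.mpr ⟨(j, σ), z, hz, e⟩
    rw [h]
    exact isCompact_iUnion fun p => hK.image_of_continuousOn (C2a_cont p.1 p.2)
  · have h : IsPreconnected (univ : Set Srf) := by
      refine isPreconnected_of_forall C2a_p0 fun v _ => ?_
      obtain ⟨j, σ, z, hz, e⟩ := C2a_cover v
      exact ⟨_, subset_univ _, C2a_mem j σ, ⟨z, hz, e⟩, hP.image _ (C2a_cont j σ)⟩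
    exact { isPreconnected_univ := h, toNonempty := ⟨C2a_p0⟩ }

end Pool.Agent.MP_ff5407_an.H58
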