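import Pool.Agent.MP_ff5407_an.H58.Spec

/-! Row C3a: the changes of charts are holomorphic. -/

open scoped ContDiff Topology Manifold NNReal ENNReal ComplexConjugate
open Set Filter MeasureTheory Complex

noncomputable section

namespace Pool.Agent.MP_ff5407_an.H58

theorem C3a_int (m n : ℤ) (h : ‖(m : ℂ) + n * I‖ < 1) : (m : ℂ) + n * I = 0 := by
  have h1 := (abs_re_le_norm ((m : ℂ) + n * I)).trans_lt h
  have h2 := (abs_im_le_norm ((m : ℂ) + n * I)).trans_lt h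
  simp only [add_re, intCast_re, mul_re, I_re, mul_zero, intCast_im, I_im, mul_one, sub_self,
    add_zero, add_im, mul_im, zero_add] at h1 h2
  have h3 : |m| < 1 := by exact_mod_cast h1
  have h4 : |n| < 1 := by exact_mod_cast h2
  rw [Int.abs_lt_one_iff.1 h3, Int.abs_lt_one_iff.1 h4]
  simp

theorem C3a_an (f : ℂ → ℂ) (y κ : ℂ) (hc : ContinuousAt f y) (h0 : f y ≠ 0)
    (h : ∀ᶠ z in 𝓝 y, f z ^ 2 = z ^ 2 - κ) : AnalyticAt ℂ f y := by
  have hy : f y ^ 2 = y ^ 2 - κ := h.self_of_nhds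
  have h1 : (y ^ 2 - κ) / f y ^ 2 = 1 := by rw [← hy]; exact div_self (pow_ne_zero 2 h0)
  have ha : AnalyticAt ℂ (fun z : ℂ => (z ^ 2 - κ) / f y ^ 2) y := by fun_prop
  have hw : AnalyticAt ℂ (fun z : ℂ => f y * ((z ^ 2 - κ) / f y ^ 2) ^ ((2 : ℂ)⁻¹)) y := by
    refine analyticAt_const.mul (ha.cpow analyticAt_const ?_)
    rw [h1]; exact one_mem_slitPlane
  have hs : ∀ᶠ z in 𝓝 y, f z + f y * ((z ^ 2 - κ) / f y ^ 2) ^ ((2 : ℂ)⁻¹) ≠ 0 := by
    refine (hc.add hw.continuousAt).eventually_ne ?_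
    change f y + f y * ((y ^ 2 - κ) / f y ^ 2) ^ ((2 : ℂ)⁻¹) ≠ 0
    rw [h1, one_cpow, mul_one, ← two_mul]
    exact mul_ne_zero two_ne_zero h0
  refine hw.congr ?_
  filter_upwards [h, hs] with z hz hs
  have h2 : (((z ^ 2 - κ) / f y ^ 2) ^ ((2 : ℂ)⁻¹)) ^ 2 = (z ^ 2 - κ) / f y ^ 2 := by
    simp
  have h3 : (f y * ((z ^ 2 - κ) / f y ^ 2) ^ ((2 : ℂ)⁻¹)) ^ 2 = f z ^ 2 := by
    rw [mul_pow, h2, hz]; field_simp
  have h4 : (f z + f y * ((z ^ 2 - κ) / f y ^ 2) ^ ((2 : ℂ)⁻¹)) *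
      (f y * ((z ^ 2 - κ) / f y ^ 2) ^ ((2 : ℂ)⁻¹) - f z) = 0 := by
    linear_combination h3
  exact sub_eq_zero.1 ((mul_eq_zero.1 h4).resolve_left hs)

theorem rC3a : RC3a := by
  intro M _ P hP j l y hy hl
  have hs : ∀ j z, z ∈ (P j).source ↔ ‖z‖ ^ 2 < 17 / 20 := fun j z => by rw [hP.src]; rfl
  have hj : ∀ᶠ z in 𝓝 y, z ∈ (P j).source := (P j).open_source.mem_nhds ((hs j y).2 hy)
  by_cases hjl : j = l
  · subst hjl
    have he : (fun z => (P j).symm (P j z)) =ᶠ[𝓝 y] id := by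
      filter_upwards [hj] with z hz using (P j).left_inv hz
    exact ⟨contDiffAt_id.congr_of_eventuallyEq he, 1, one_ne_zero,
      (hasDerivAt_id y).congr_of_eventuallyEq he, by rw [mul_one]; exact he.self_of_nhds⟩
  · have hc1 : ContinuousAt (P j) y := (P j).continuousAt ((hs j y).2 hy)
    have hc : ContinuousAt (fun z => (P l).symm (P j z)) y :=
      ((P l).continuousAt_symm hl).comp hc1
    have ht : ∀ᶠ z in 𝓝 y, P j z ∈ (P l).target := hc1.eventually ((P l).open_target.mem_nhds hl)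
    have ho : ∀ᶠ z in 𝓝 y, 1 ≤ ‖z‖ ^ 2 + ‖(P l).symm (P j z)‖ ^ 2 ∧
        ∃ m n : ℤ, z ^ 2 - (P l).symm (P j z) ^ 2 = m + n * I := by
      filter_upwards [hj, ht] with z hz hz'
      exact (hP.ovl j l z _ ((hs j z).1 hz) ((hs l _).1 ((P l).map_target hz'))
        ((P l).right_inv hz').symm).resolve_left hjl
    obtain ⟨h1, m, n, hmn⟩ := ho.self_of_nhds
    have hT : ‖(P l).symm (P j y)‖ ^ 2 < 17 / 20 := (hs l _).1 ((P l).map_target hl)
    have h0 : (P l).symm (P j y) ≠ 0 := by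
      intro h; rw [h] at h1; simp at h1; nlinarith
    have hy0 : y ≠ 0 := by
      intro h
      have : ‖y‖ = 0 := by rw [h]; simp
      rw [this] at h1; nlinarith
    have hg : ContinuousAt (fun z => z ^ 2 - (P l).symm (P j z) ^ 2) y :=
      (continuousAt_id.pow 2).sub (hc.pow 2)
    have hb : ∀ᶠ z in 𝓝 y, (P l).symm (P j z) ^ 2 = z ^ 2 - (m + n * I) := by
      filter_upwards [ho, Metric.tendsto_nhds.1 hg 1 one_pos] with z hz hd
      obtain ⟨-, m', n', h'⟩ := hz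
      rw [dist_eq_norm, h', hmn] at hd
      have h5 : ((m' - m : ℤ) : ℂ) + (n' - n : ℤ) * I = m' + n' * I - (m + n * I) := by
        push_cast; ring
      have := C3a_int (m' - m) (n' - n) (by rw [h5]; exact hd)
      push_cast at this
      linear_combination -h' - this
    have ha := C3a_an _ y _ hc h0 hb
    have hd := ha.differentiableAt.hasDerivAt
    have he : (fun z => (P l).symm (P j z) ^ 2) =ᶠ[𝓝 y] fun z => z ^ 2 - (m + n * I) := hb
    have h2 := ((hasDerivAt_pow 2 y).sub_const ((m : ℂ) + n * I)).congr_of_eventuallyEq he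
    have h3 := (hd.pow 2).unique h2
    have h4 : (P l).symm (P j y) * deriv (fun z => (P l).symm (P j z)) y = y := by
      simp only [Nat.cast_ofNat, Nat.add_one_sub_one, pow_one] at h3
      linear_combination h3 / 2
    refine ⟨(ha.contDiffAt.restrict_scalars ℝ), _, ?_, hd, h4⟩
    intro h
    rw [h, mul_zero] at h4
    exact hy0 h4.symm

end Pool.Agent.MP_ff5407_an.H58
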