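import Pool.Agent.MP_ff5407_an.H58.Spec

/-! The smooth oriented atlas. -/

open scoped ContDiff Topology Manifold NNReal ENNReal ComplexConjugate
open Set Filter MeasureTheory Complex

noncomputable section

namespace Pool.Agent.MP_ff5407_an.H58

theorem C3b_det (f : ℂ → ℂ) (c y : ℂ) (hc : c ≠ 0) (h : HasDerivAt f c y) :
    0 < (fderiv ℝ f y).det := by
  rw [(h.hasFDerivAt.restrictScalars ℝ).fderiv, ContinuousLinearMap.det,
    ← LinearMap.det_toMatrix Complex.basisOneI, Matrix.det_fin_two]
  have h1 := Complex.normSq_pos.2 hc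
  rw [Complex.normSq_apply] at h1
  simpa [LinearMap.toMatrix_apply] using h1

theorem rC3b : RC3b := by
  intro M _ P hP hT
  have hcov : ∀ v : M, ∃ j, v ∈ (P j).target := by
    intro v
    obtain ⟨j, y, hy, rfl⟩ := hP.cov v
    exact ⟨j, (P j).map_source (by rw [hP.src, mem_setOf_eq]; linarith)⟩
  choose jj hjj using hcov
  let cs : ChartedSpace ℂ M :=
    { atlas := range fun j => (P j).symm
      chartAt := fun v => (P (jj v)).symm
      mem_chart_source := fun v => hjj v
      chart_mem_atlas := fun v => ⟨jj v, rfl⟩ }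
  have key : ∀ j l y, y ∈ ((P j).symm.symm.trans (P l).symm).source →
      ‖y‖ ^ 2 < 17 / 20 ∧ P j y ∈ (P l).target := by
    intro j l y hy
    rw [OpenPartialHomeomorph.symm_symm, OpenPartialHomeomorph.trans_source] at hy
    exact ⟨by have := hy.1; rwa [hP.src] at this, hy.2⟩
  refine ⟨cs, ⟨hP, ?_, ?_⟩, ?_, ?_⟩
  · rintro e ⟨j, rfl⟩
    exact ⟨j, rfl⟩
  · intro j
    change (P (jj (P j 0))).symm = _
    have h1 := hjj (P j 0)
    have h2 := (P (jj (P j 0))).map_target h1
    rw [hP.src] at h2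
    have h2' : ‖(P (jj (P j 0))).symm (P j 0)‖ ^ 2 < 17 / 20 := h2
    rcases hP.ovl j _ 0 _ (by norm_num) h2 ((P (jj (P j 0))).right_inv h1).symm with h | h
    · rw [← h]
    · have := h.1
      simp only [norm_zero] at this
      linarith
  · apply isManifold_of_contDiffOn
    rintro e e' ⟨j, rfl⟩ ⟨l, rfl⟩
    simp only [modelWithCornersSelf_coe, modelWithCornersSelf_coe_symm, range_id, inter_univ,
      preimage_id_eq, id_eq, Function.comp_id, Function.id_comp]
    intro y hy
    exact (hT j l y (key j l y hy).1 (key j l y hy).2).1.contDiffWithinAt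
  · rintro e ⟨j, rfl⟩ e' ⟨l, rfl⟩ y hy
    obtain ⟨-, c, hc, hd, -⟩ := hT j l y (key j l y hy).1 (key j l y hy).2
    exact C3b_det _ c y hc hd

end Pool.Agent.MP_ff5407_an.H58
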