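import Pool.Agent.MP_ff5407_an.H58.Spec

/-! Row `C3c`: position times velocity does not depend on the chart. -/

open scoped ContDiff Topology Manifold NNReal ENNReal ComplexConjugate
open Set Filter MeasureTheory Complex

noncomputable section

namespace Pool.Agent.MP_ff5407_an.H58

theorem rC3c : RC3c := by
  intro M _ _ _ P hC hT x x' v hx hx'
  obtain ⟨j, hj⟩ := hC.atl _ (chart_mem_atlas ℂ x)
  obtain ⟨l, hl⟩ := hC.atl _ (chart_mem_atlas ℂ x')
  have hcomp := tangentCoordChange_comp (I := 𝓘(ℝ, ℂ)) (w := v.1) (x := x) (y := x') (z := v.1)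
    (v := v.2) ⟨⟨by simp, by simpa using hx⟩, by simpa using hx'⟩
  rw [crd_eq, crd_eq]
  simp only
  rw [← hcomp]
  generalize tangentCoordChange 𝓘(ℝ, ℂ) v.1 x v.1 v.2 = w
  rw [hj] at hx
  rw [hl] at hx'
  have hx1 : v.1 ∈ (P j).target := hx
  have hx2 : v.1 ∈ (P l).target := hx'
  have hy : ‖(P j).symm v.1‖ ^ 2 < 17 / 20 := by
    have := (P j).map_target hx1
    rw [hC.src] at this
    exact this
  have he : P j ((P j).symm v.1) = v.1 := (P j).right_inv hx1
  obtain ⟨-, c, -, hd, hc⟩ := hT j l _ hy (by rw [he]; exact hx2)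
  rw [he] at hc
  have hf : tangentCoordChange 𝓘(ℝ, ℂ) x x' v.1 w = c * w := by
    rw [tangentCoordChange_def]
    simp only [extChartAt, hj, hl, modelWithCornersSelf_coe, range_id, fderivWithin_univ]
    have h2 := (hd.hasFDerivAt.restrictScalars ℝ).fderiv
    have h3 : (((P l).symm.extend 𝓘(ℝ, ℂ)) ∘ ((P j).symm.extend 𝓘(ℝ, ℂ)).symm) =
        fun z => (P l).symm (P j z) := rfl
    have h4 : ((P j).symm.extend 𝓘(ℝ, ℂ)) v.1 = (P j).symm v.1 := rfl
    rw [h3, h4, h2]
    simp [mul_comm]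
  rw [hf, hj, hl, ← mul_assoc, hc]

end Pool.Agent.MP_ff5407_an.H58
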