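import Pool.Agent.MP_ff5407_an.H58.Spec

/-! The metric on the surface. -/

open scoped ContDiff Topology Manifold NNReal ENNReal ComplexConjugate
open Set Filter MeasureTheory Complex

noncomputable section

namespace Pool.Agent.MP_ff5407_an.H58

/-- The Euclidean inner product of the plane. -/
def C4_ip : ℂ →L[ℝ] ℂ →L[ℝ] ℝ :=
  (ContinuousLinearMap.mul ℝ ℝ).bilinearComp reCLM reCLM +
    (ContinuousLinearMap.mul ℝ ℝ).bilinearComp imCLM imCLM

theorem C4_ip_apply (c : ℝ) (a b : ℂ) : (c • C4_ip) a b = c * (a.re * b.re + a.im * b.im) := by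
  simp [C4_ip, mul_add]

theorem C4_conf (nn : ℂ → ℝ) (y y' a a' b b' : ℂ) (h : nn y = 2 * ‖y‖) (h' : nn y' = 2 * ‖y'‖)
    (ha : y' * a' = y * a) (hb : y' * b' = y * b) : GG nn y a b = GG nn y' a' b' := by
  have k : ∀ y a b : ℂ, (2 * ‖y‖) ^ 2 * (a.re * b.re + a.im * b.im) =
      4 * ((y * a).re * (y * b).re + (y * a).im * (y * b).im) := by
    intro y a b
    rw [mul_pow, Complex.sq_norm, Complex.normSq_apply]
    simp only [mul_re, mul_im]
    ring
  unfold GG
  rw [h, h', k, k, ha, hb]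

theorem rC4 : RC4 := by
  intro M _ _ _ P β q H nn hC hI hR hg
  have hself : ∀ (p : M) (a : TangentSpace 𝓘(ℝ, ℂ) p), (crd p ⟨p, a⟩).2 = a := by
    intro p a
    rw [crd_eq]
    exact tangentCoordChange_self (I := 𝓘(ℝ, ℂ)) (mem_extChartAt_source p)
  refine ⟨⟨fun p => (nn (chartAt ℂ p p) ^ 2 • C4_ip : ℂ →L[ℝ] ℂ →L[ℝ] ℝ), ?_, ?_, fun _ => GG nn,
    ?_, fun x a b => (hg.c1 a b).contDiffOn, fun x a b y _ => hg.hol a b y⟩, fun _ => rfl⟩
  · intro p a b
    refine (C4_ip_apply _ a b).trans (Eq.trans ?_ (C4_ip_apply _ b a).symm)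
    ring
  · intro p a ha
    refine lt_of_lt_of_eq ?_ (C4_ip_apply _ a a).symm
    have h1 := Complex.normSq_pos.2 (show (a : ℂ) ≠ 0 from ha)
    rw [Complex.normSq_apply] at h1
    have := hR.pos (chartAt ℂ p p)
    positivity
  · intro x p hp a b
    refine (C4_ip_apply _ a b).trans ?_
    change GG nn (chartAt ℂ p p) a b = _
    by_cases h : chartAt ℂ x = chartAt ℂ p
    · rw [crd_congr h, hself, hself, h]
    · obtain ⟨j, hj⟩ := hC.atl _ (chart_mem_atlas ℂ p)
      obtain ⟨l, hl⟩ := hC.atl _ (chart_mem_atlas ℂ x)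
      have h1 : p ∈ (P j).target := by
        have := mem_chart_source ℂ p
        rw [hj] at this; exact this
      have h2 : p ∈ (P l).target := by rw [hl] at hp; exact hp
      have h3 := (P j).map_target h1
      have h4 := (P l).map_target h2
      rw [hC.src] at h3 h4
      have h5 := (hC.ovl j l _ _ h3 h4 (by rw [(P j).right_inv h1, (P l).right_inv h2])).resolve_left
        fun e => h (by rw [hj, hl, e])
      have h3' : ‖(P j).symm p‖ ^ 2 < 17 / 20 := h3
      have h4' : ‖(P l).symm p‖ ^ 2 < 17 / 20 := h4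
      have ia := hI p x ⟨p, a⟩ (mem_chart_source ℂ p) hp
      have ib := hI p x ⟨p, b⟩ (mem_chart_source ℂ p) hp
      rw [hself] at ia ib
      refine C4_conf nn _ _ _ _ _ _ (hR.flatn _ ?_) (hR.flatn _ ?_) ia ib
      · rw [hj]; linarith [h5.1]
      · rw [hl]; linarith [h5.1]

end Pool.Agent.MP_ff5407_an.H58
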