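import Pool.Agent.MP_ff5407_an.H58.Spec

/-! Row C5a: regularity of the metric in the conformal coordinate. -/

open scoped ContDiff Topology Manifold NNReal ENNReal ComplexConjugate
open Set Filter MeasureTheory Complex

noncomputable section

namespace Pool.Agent.MP_ff5407_an.H58

/-- local Hoelder continuity -/
def C5a_LH {V : Type} [NormedAddCommGroup V] (β : ℝ) (f : ℂ → V) (y : ℂ) : Prop :=
  ∃ C : ℝ, ∃ U ∈ 𝓝 y, ∀ a ∈ U, ∀ b ∈ U, ‖f a - f b‖ ≤ C * ‖a - b‖ ^ β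

theorem C5a_lip {V : Type} [NormedAddCommGroup V] [NormedSpace ℝ V] {f : ℂ → V}
    (h : ContDiff ℝ 1 f) (y : ℂ) :
    ∃ C : ℝ, 0 ≤ C ∧ ∃ U ∈ 𝓝 y, ∀ a ∈ U, ∀ b ∈ U, ‖f a - f b‖ ≤ C * ‖a - b‖ := by
  obtain ⟨K, U, hU, hK⟩ := (h.contDiffAt (x := y)).exists_lipschitzOnWith
  exact ⟨K, K.2, U, hU, fun a ha b hb => by simpa only [dist_eq_norm] using hK.dist_le_mul a ha b hb⟩

theorem C5a_c1 {V : Type} [NormedAddCommGroup V] [NormedSpace ℝ V] {β : ℝ} (h0 : 0 ≤ β)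
    (h1 : β ≤ 1) {f : ℂ → V} (h : ContDiff ℝ 1 f) (y : ℂ) : C5a_LH β f y := by
  obtain ⟨C, hC, U, hU, hK⟩ := C5a_lip h y
  refine ⟨C, U ∩ Metric.ball y (1 / 2), inter_mem hU (Metric.ball_mem_nhds y (by norm_num)),
    fun a ha b hb => (hK a ha.1 b hb.1).trans (mul_le_mul_of_nonneg_left ?_ hC)⟩
  have h2 : ‖a - b‖ ≤ 1 := by
    have h3 := dist_triangle_right a b y
    have h4 := Metric.mem_ball.1 ha.2
    have h5 := Metric.mem_ball.1 hb.2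
    rw [dist_eq_norm] at h3
    linarith
  have h6 := Real.rpow_le_rpow_of_exponent_ge' (norm_nonneg (a - b)) h2 h0 h1
  rwa [Real.rpow_one] at h6

theorem C5a_smul {V : Type} [NormedAddCommGroup V] [NormedSpace ℝ V] {β : ℝ} {f : ℂ → ℝ}
    {g : ℂ → V} {y : ℂ} (hf : C5a_LH β f y) (hg : C5a_LH β g y) (cf : Continuous f)
    (cg : Continuous g) : C5a_LH β (fun z => f z • g z) y := by
  obtain ⟨C, U, hU, hC⟩ := hf
  obtain ⟨D, W, hW, hD⟩ := hg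
  have b1 : {z | ‖f z‖ < ‖f y‖ + 1} ∈ 𝓝 y :=
    (isOpen_lt cf.norm continuous_const).mem_nhds (lt_add_one ‖f y‖)
  have b2 : {z | ‖g z‖ < ‖g y‖ + 1} ∈ 𝓝 y :=
    (isOpen_lt cg.norm continuous_const).mem_nhds (lt_add_one ‖g y‖)
  refine ⟨(‖f y‖ + 1) * D + C * (‖g y‖ + 1), _, inter_mem (inter_mem hU hW) (inter_mem b1 b2),
    fun a ha b hb => ?_⟩
  have e : f a • g a - f b • g b = f a • (g a - g b) + (f a - f b) • g b := by
    rw [smul_sub, sub_smul]; abel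
  have h1 := hC a ha.1.1 b hb.1.1
  have h2 := hD a ha.1.2 b hb.1.2
  have h3 : ‖f a‖ * ‖g a - g b‖ ≤ (‖f y‖ + 1) * (D * ‖a - b‖ ^ β) :=
    mul_le_mul (le_of_lt ha.2.1) h2 (norm_nonneg _) (by positivity)
  have h4 : ‖f a - f b‖ * ‖g b‖ ≤ C * ‖a - b‖ ^ β * (‖g y‖ + 1) :=
    mul_le_mul h1 (le_of_lt hb.2.2) (norm_nonneg _) ((norm_nonneg _).trans h1)
  rw [e]
  refine (norm_add_le _ _).trans ?_
  rw [norm_smul, norm_smul]
  linarith

theorem C5a_comp {β : ℝ} (h0 : 0 ≤ β) {q : ℝ → ℝ}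
    (hq : ∀ R : ℝ, ∃ C : ℝ, ∀ u ∈ Icc 0 R, ∀ v ∈ Icc 0 R, |q u - q v| ≤ C * |u - v| ^ β)
    {u : ℂ → ℝ} (hu : ContDiff ℝ 1 u) (hp : ∀ z, 0 ≤ u z) (y : ℂ) :
    C5a_LH β (fun z => q (u z)) y := by
  obtain ⟨K, hK, U, hU, h1⟩ := C5a_lip hu y
  obtain ⟨C, hC⟩ := hq (u y + 1)
  have b1 : {z | u z < u y + 1} ∈ 𝓝 y :=
    (isOpen_lt hu.continuous continuous_const).mem_nhds (lt_add_one (u y))
  refine ⟨|C| * K ^ β, _, inter_mem hU b1, fun a ha b hb => ?_⟩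
  refine (hC _ ⟨hp a, le_of_lt ha.2⟩ _ ⟨hp b, le_of_lt hb.2⟩).trans ?_
  rw [mul_assoc, ← Real.mul_rpow hK (norm_nonneg _)]
  exact mul_le_mul (le_abs_self C) (Real.rpow_le_rpow (abs_nonneg _) (h1 a ha.1 b hb.1) h0)
    (Real.rpow_nonneg (abs_nonneg _) _) (abs_nonneg _)

theorem C5a_inv {β : ℝ} {f : ℂ → ℝ} {y : ℂ} (hf : C5a_LH β f y) (h : ∀ z, 1 / 2 ≤ 1 + f z) :
    C5a_LH β (fun z => (1 + f z)⁻¹) y := by
  obtain ⟨C, U, hU, hC⟩ := hf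
  refine ⟨4 * C, U, hU, fun a ha b hb => ?_⟩
  have h1 := h a
  have h2 := h b
  have h3 := hC b hb a ha
  have p1 : 0 < 1 + f a := by linarith
  have p2 : 0 < 1 + f b := by linarith
  rw [norm_sub_rev b a] at h3
  rw [inv_sub_inv p1.ne' p2.ne', add_sub_add_left_eq_sub, norm_div, Real.norm_of_nonneg
    (mul_pos p1 p2).le, div_le_iff₀ (mul_pos p1 p2)]
  have h4 : 1 / 2 * (1 / 2) ≤ (1 + f a) * (1 + f b) := mul_le_mul h1 h2 (by norm_num) p1.le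
  have h5 : 0 ≤ C * ‖a - b‖ ^ β := (norm_nonneg _).trans h3
  nlinarith

theorem C5a_hol {V : Type} [NormedAddCommGroup V] {β : ℝ≥0} {f : ℂ → V} {y : ℂ}
    (hf : C5a_LH β f y) : ∃ C, ∃ U ∈ 𝓝 y, HolderOnWith C β f U := by
  obtain ⟨C, U, hU, hC⟩ := hf
  refine ⟨C.toNNReal, U, hU, fun a ha b hb => ?_⟩
  rw [edist_dist, edist_dist, dist_eq_norm, dist_eq_norm,
    ENNReal.ofReal_rpow_of_nonneg (norm_nonneg _) β.coe_nonneg]
  refine (ENNReal.ofReal_le_ofReal (hC a ha b hb)).trans (le_of_eq ?_)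
  rw [ENNReal.ofReal_mul' (Real.rpow_nonneg (norm_nonneg _) _)]
  rfl

theorem rC5a : RC5a := by
  intro β q E H nn hβ hP hR
  have h0 : (0 : ℝ) ≤ β := β.2
  have h1 : (β : ℝ) ≤ 1 := hβ
  have cu : Continuous fun y => ‖H.symm y‖ ^ 2 := H.symm.continuous.norm.pow 2
  have cq : Continuous fun y => q (‖H.symm y‖ ^ 2) := hP.cont.comp cu
  have cs : Continuous fun y => (1 + ‖H.symm y‖ ^ 2 • q (‖H.symm y‖ ^ 2))⁻¹ :=
    (continuous_const.add (cu.smul cq)).inv₀ fun y =>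
      ne_of_gt (lt_of_lt_of_le (by norm_num) (hP.lo _))
  have dn : Differentiable ℝ nn := fun y => (hR.der y).differentiableAt
  have ci : ContDiff ℝ 1 fun y : ℂ => innerSL ℝ y := (innerSL ℝ (E := ℂ)).contDiff
  have c1 : ContDiff ℝ 1 nn := by
    refine contDiff_one_iff_fderiv.2 ⟨dn, ?_⟩
    rw [funext fun y => (hR.der y).fderiv]
    exact ((cq.mul cs).mul (dn.continuous.pow 3)).neg.smul ci.continuous
  have c2 : ContDiff ℝ 1 fun y => ‖H.symm y‖ ^ 2 := by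
    have e : (fun y => ‖H.symm y‖ ^ 2) = fun y => nn y ^ 2 * ‖y‖ ^ 2 := funext fun y => by
      rw [hR.sym, norm_mul, mul_pow, norm_real, Real.norm_eq_abs, sq_abs]
    rw [e]
    exact (c1.pow 2).mul (contDiff_norm_sq ℝ)
  refine ⟨fun a b => (c1.pow 2).mul contDiff_const, fun a b y => C5a_hol ?_⟩
  have e : (fderiv ℝ fun y => GG nn y a b) = fun y =>
      (q (‖H.symm y‖ ^ 2) • (1 + ‖H.symm y‖ ^ 2 • q (‖H.symm y‖ ^ 2))⁻¹) •
        ((-2 * (a.re * b.re + a.im * b.im) * nn y ^ 4) • innerSL ℝ y) := by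
    funext y
    have h2 := (((hR.der y).pow 2).mul_const (a.re * b.re + a.im * b.im)).fderiv
    refine h2.trans ?_
    rw [smul_smul, smul_smul, smul_smul]
    congr 1
    simp only [SS, smul_eq_mul, nsmul_eq_mul, div_eq_mul_inv]
    push_cast
    ring
  have c3 : ContDiff ℝ 1 fun y => (-2 * (a.re * b.re + a.im * b.im) * nn y ^ 4) • innerSL ℝ y :=
    (contDiff_const.mul (c1.pow 4)).smul ci
  have l1 := C5a_comp h0 hP.hol c2 (fun z => sq_nonneg _) y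
  rw [e]
  exact C5a_smul (C5a_smul l1 (C5a_inv (C5a_smul (C5a_c1 h0 h1 c2 y) l1 cu cq)
    fun z => hP.lo _) cq cs) (C5a_c1 h0 h1 c3 y) (cq.smul cs) c3.continuous

end Pool.Agent.MP_ff5407_an.H58
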