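import Pool.Agent.MP_ff5407_an.H58.Spec

/-! The metric is smooth off a closed null set. -/

open scoped ContDiff Topology Manifold NNReal ENNReal ComplexConjugate
open Set Filter MeasureTheory Complex

noncomputable section

namespace Pool.Agent.MP_ff5407_an.H58

theorem C5b_null {E : Set ℝ} (hE : volume E = 0) : volume {x : ℂ | ‖x‖ ∈ E} = 0 := by
  have h1 : volume {z : ℂ | z.re ∈ E} = 0 := by
    have h0 : volume (E ×ˢ (univ : Set ℝ)) = 0 := by
      rw [Measure.volume_eq_prod, Measure.prod_prod, hE, zero_mul]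
    have := Complex.volume_preserving_equiv_real_prod.quasiMeasurePreserving.preimage_null h0
    convert this using 2
    ext z
    simp
  have hd : Differentiable ℝ fun z : ℂ => (z.re : ℂ) * exp (z.im * I) := by
    have h2 : Differentiable ℝ fun z : ℂ => (z.re : ℂ) :=
      ofRealCLM.differentiable.comp reCLM.differentiable
    have h3 : Differentiable ℝ fun z : ℂ => (z.im : ℂ) :=
      ofRealCLM.differentiable.comp imCLM.differentiable
    exact h2.mul (h3.mul_const I).cexp
  refine measure_mono_null (fun x hx => ?_)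
    (addHaar_image_eq_zero_of_differentiableOn_of_addHaar_eq_zero volume hd.differentiableOn h1)
  exact ⟨⟨‖x‖, arg x⟩, hx, Complex.norm_mul_exp_arg_mul_I x⟩

theorem C5b_smooth {β : ℝ} {q : ℝ → ℝ} {E : Set ℝ} {H : ℂ ≃ₜ ℂ} {nn : ℂ → ℝ} (hP : Prof β q E)
    (hR : Rad q H nn) {U : Set ℂ} (hU : IsOpen U) (hUE : ∀ y ∈ U, ‖H.symm y‖ ∉ E) (n : ℕ) :
    ContDiffOn ℝ n nn U := by
  induction n with
  | zero =>
    exact contDiffOn_zero.2 fun y _ => (hR.der y).continuousAt.continuousWithinAt
  | succ n ih =>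
    rw [Nat.cast_succ, contDiffOn_succ_iff_fderiv_of_isOpen hU]
    refine ⟨fun y _ => (hR.der y).differentiableAt.differentiableWithinAt, by simp, ?_⟩
    have e : fderiv ℝ nn = fun y => (-(q (‖H.symm y‖ ^ 2) / SS q (‖H.symm y‖ ^ 2) * nn y ^ 3)) •
        innerSL ℝ y := funext fun y => (hR.der y).fderiv
    rw [e]
    have hu : ContDiffOn ℝ n (fun y => ‖H.symm y‖ ^ 2) U := by
      have e2 : (fun y => ‖H.symm y‖ ^ 2) = fun y => nn y ^ 2 * ‖y‖ ^ 2 := by
        ext y
        rw [hR.sym, norm_mul, mul_pow, Complex.norm_real, Real.norm_eq_abs, sq_abs]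
      rw [e2]
      exact (ih.pow 2).mul (contDiff_norm_sq ℝ).contDiffOn
    have hq : ContDiffOn ℝ n (fun y => q (‖H.symm y‖ ^ 2)) U := by
      intro y hy
      have h1 : ContDiffAt ℝ ∞ q (‖H.symm y‖ ^ 2) := by
        refine hP.smooth _ fun b hb h => hUE y hy ?_
        have hb0 : 0 ≤ b := le_trans (by norm_num) (hP.sub hb).1
        rwa [← (pow_left_inj₀ hb0 (norm_nonneg _) two_ne_zero).1 h]
      exact (h1.of_le (by exact_mod_cast le_top)).comp_contDiffWithinAt y (hu y hy)
    have hS : ContDiffOn ℝ n (fun y => SS q (‖H.symm y‖ ^ 2)) U :=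
      contDiffOn_const.add (hu.mul hq)
    have hS0 : ∀ y ∈ U, SS q (‖H.symm y‖ ^ 2) ≠ 0 := fun y _ =>
      (lt_of_lt_of_le (by norm_num) (hP.lo _)).ne'
    exact ((hq.div hS hS0).mul (ih.pow 3)).neg.smul (innerSL ℝ).contDiff.contDiffOn

theorem rC5b : RC5b := by
  intro β q E H nn hP hR
  have hc : IsClosed {y | ‖H.symm y‖ ∈ E} := hP.closed.preimage H.symm.continuous.norm
  refine ⟨{y | ‖H.symm y‖ ∈ E}, hc, ?_, fun a b => ?_⟩
  · have hH : Differentiable ℝ H := by
      have e : (H : ℂ → ℂ) = fun x => (nn (H x))⁻¹ • x := by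
        ext x
        have h1 := hR.sym (H x)
        have h2 : (nn (H x) : ℂ) ≠ 0 := by exact_mod_cast (hR.pos _).ne'
        rw [H.symm_apply_apply] at h1
        rw [Complex.real_smul, Complex.ofReal_inv, eq_inv_mul_iff_mul_eq₀ h2]
        exact h1.symm
      rw [e]
      exact fun x => (hR.derH x).differentiableAt.smul differentiableAt_id
    refine measure_mono_null (fun y hy => ?_)
      (addHaar_image_eq_zero_of_differentiableOn_of_addHaar_eq_zero volume hH.differentiableOn
        (C5b_null hP.null))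
    exact ⟨H.symm y, hy, H.apply_symm_apply y⟩
  · have h1 : ContDiffOn ℝ ∞ nn {y | ‖H.symm y‖ ∈ E}ᶜ :=
      contDiffOn_infty.2 (C5b_smooth hP hR hc.isOpen_compl fun y hy => hy)
    exact (h1.pow 2).mul contDiffOn_const

end Pool.Agent.MP_ff5407_an.H58
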