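import Pool.Agent.MP_ff5407_an.H58.Spec

/-! Row C6: the Euler-Lagrange equation in the conformal coordinate is the model equation. -/

open scoped ContDiff Topology Manifold NNReal ENNReal ComplexConjugate
open Set Filter MeasureTheory Complex

noncomputable section

namespace Pool.Agent.MP_ff5407_an.H58

theorem C6_comp {P : ℝ → ℂ} {p : ℂ} {t : ℝ} :
    (∀ a : ℂ, HasDerivAt (fun s => (P s).re * a.re + (P s).im * a.im)
      (p.re * a.re + p.im * a.im) t) ↔ HasDerivAt P p t := by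
  constructor
  · intro h
    have h1 : HasDerivAt (fun s => (P s).re) p.re t := by simpa using h 1
    have h2 : HasDerivAt (fun s => (P s).im) p.im t := by simpa using h I
    have := h1.ofReal_comp.add (h2.ofReal_comp.mul_const I)
    rw [Complex.re_add_im] at this
    exact this.congr_of_eventuallyEq (.of_forall fun s => (Complex.re_add_im _).symm)
  · intro h a
    exact ((reCLM.hasFDerivAt.comp_hasDerivAt t h).mul_const _).add
      ((imCLM.hasFDerivAt.comp_hasDerivAt t h).mul_const _)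

theorem C6_inner (a b : ℂ) : innerSL ℝ a b = a.re * b.re + a.im * b.im := by
  simp [Complex.inner]
  ring

theorem C6_uu (p : Y) : uu p = p.1.re * (p.2 : ℂ).re + p.1.im * (p.2 : ℂ).im := by simp [uu]

theorem C6_model {q : ℝ → ℝ} {H : ℂ ≃ₜ ℂ} {nn : ℂ → ℝ} (hq : Pre q) (h : Rad q H nn) (γ : ℝ → Y)
    (t : ℝ) :
    (HasDerivAt (fun s => H (γ s).1) (((γ t).2 : ℂ) / nn (H (γ t).1)) t ∧
      HasDerivAt (fun s => (nn (H (γ s).1) : ℂ) * ((γ s).2 : ℂ))
        (-((q (‖(γ t).1‖ ^ 2) / SS q (‖(γ t).1‖ ^ 2) * nn (H (γ t).1) : ℝ) * (γ t).1)) t) ↔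
      Ode q γ t := by
  have e : ∀ x, x = nn (H x) * H x := fun x => by rw [← h.sym, H.symm_apply_apply]
  have n0 : ∀ y, nn y ≠ 0 := fun y => (h.pos y).ne'
  have n1 : ∀ y, (nn y : ℂ) ≠ 0 := fun y => ofReal_ne_zero.2 (n0 y)
  have s0 : SS q (‖(γ t).1‖ ^ 2) ≠ 0 := (lt_of_lt_of_le (by norm_num) (hq.lo _)).ne'
  obtain ⟨k, hk⟩ : ∃ k, k = q (‖(γ t).1‖ ^ 2) / SS q (‖(γ t).1‖ ^ 2) := ⟨_, rfl⟩
  have p := pos_eq (γ t)
  have dN : HasDerivAt (fun s => H (γ s).1) (((γ t).2 : ℂ) / nn (H (γ t).1)) t →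
      HasDerivAt (fun s => (nn (H (γ s).1) : ℂ))
        (-(k * nn (H (γ t).1) * uu (γ t) : ℝ)) t := fun d => by
    have := ((h.der (H (γ t).1)).comp_hasDerivAt t d).ofReal_comp
    rw [H.symm_apply_apply, ← hk] at this
    refine this.congr_deriv ?_
    have e1 := congrArg re (e (γ t).1)
    have e2 := congrArg im (e (γ t).1)
    have n := n0 (H (γ t).1)
    rw [re_ofReal_mul] at e1
    rw [im_ofReal_mul] at e2
    rw [← ofReal_neg, ofReal_inj, smul_apply, C6_inner, C6_uu, div_ofReal_re, div_ofReal_im,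
      smul_eq_mul, e1, e2]
    field_simp
  rw [Ode, W1, W2, ← hk]
  constructor
  · rintro ⟨d1, d2⟩
    refine ⟨?_, ?_⟩
    · refine (((dN d1).mul d1).congr_of_eventuallyEq
        (.of_forall fun s => e (γ s).1)).congr_deriv ?_
      have := e (γ t).1
      have n := n1 (H (γ t).1)
      push_cast
      field_simp
      linear_combination (k * uu (γ t)) * this
    · refine ((d2.div (dN d1) (n1 _)).congr_of_eventuallyEq
        (.of_forall fun s => (mul_div_cancel_left₀ _ (n1 _)).symm)).congr_deriv ?_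
      have n := n1 (H (γ t).1)
      push_cast
      field_simp
      linear_combination -k * p
  · rintro ⟨d1, d2⟩
    have d3 : HasDerivAt (fun s => H (γ s).1) (((γ t).2 : ℂ) / nn (H (γ t).1)) t := by
      have g := ((h.derH (γ t).1).comp_hasDerivAt t d1).ofReal_comp
      have g2 : (q (‖(γ t).1‖ ^ 2) * (nn (H (γ t).1))⁻¹) • innerSL ℝ (γ t).1
          (((γ t).2 : ℂ) - ((k * uu (γ t) : ℝ) : ℂ) * (γ t).1) =
          k * uu (γ t) * (nn (H (γ t).1))⁻¹ := by
        have m : ‖(γ t).1‖ ^ 2 = (γ t).1.re * (γ t).1.re + (γ t).1.im * (γ t).1.im := by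
          rw [Complex.sq_norm, Complex.normSq_apply]
        have m2 : q (‖(γ t).1‖ ^ 2) = k * (1 + ‖(γ t).1‖ ^ 2 * q (‖(γ t).1‖ ^ 2)) := by
          rw [hk, ← SS, div_mul_cancel₀ _ s0]
        rw [C6_inner, sub_re, sub_im, re_ofReal_mul, im_ofReal_mul, smul_eq_mul]
        have u := C6_uu (γ t)
        generalize q (‖(γ t).1‖ ^ 2) = Q at *
        linear_combination (nn (H (γ t).1))⁻¹ * uu (γ t) * m2 - Q * (nn (H (γ t).1))⁻¹ * u +
          Q * (nn (H (γ t).1))⁻¹ * k * uu (γ t) * m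
      rw [smul_apply, g2] at g
      refine ((g.mul d1).congr_of_eventuallyEq (.of_forall fun s => ?_)).congr_deriv ?_
      · simp only [Function.comp, Pi.mul_apply, ofReal_inv]
        rw [eq_inv_mul_iff_mul_eq₀ (n1 _), ← e]
      · simp only [Function.comp]
        push_cast
        ring
    refine ⟨d3, ?_⟩
    refine ((dN d3).mul d2).congr_deriv ?_
    push_cast
    linear_combination (k * nn (H (γ t).1)) * p

theorem rC6 : RC6 := by
  intro q H nn hq h y w γ t ev
  have e : ∀ x, x = nn (H x) * H x := fun x => by rw [← h.sym, H.symm_apply_apply]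
  obtain ⟨e1, e2⟩ := ev.self_of_nhds
  rw [← C6_model hq h, ← C6_comp (P := fun s => (nn (H (γ s).1) : ℂ) * ((γ s).2 : ℂ)), ← e2]
  refine and_congr (Filter.EventuallyEq.hasDerivAt_iff (ev.mono fun s hs => hs.1))
    (forall_congr' fun a => ?_)
  have d : HasFDerivAt (fun z => GG nn z (w t) (w t)) _ (y t) :=
    ((h.der (y t)).pow 2).mul_const _
  rw [d.fderiv]
  have n : ∀ y, nn y ≠ 0 := fun y => (h.pos y).ne'
  have k : (fun s => GG nn (y s) (w s) a) =ᶠ[𝓝 t] fun s =>
      ((nn (H (γ s).1) : ℂ) * ((γ s).2 : ℂ)).re * a.re +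
        ((nn (H (γ s).1) : ℂ) * ((γ s).2 : ℂ)).im * a.im := ev.mono fun s hs => by
    have := n (H (γ s).1)
    simp only [GG, hs.1, hs.2, div_ofReal_re, div_ofReal_im, re_ofReal_mul, im_ofReal_mul]
    field_simp
  rw [k.hasDerivAt_iff]
  refine iff_of_eq (congrArg (fun c => HasDerivAt _ c t) ?_)
  have u : ((γ t).2 : ℂ).re ^ 2 + ((γ t).2 : ℂ).im ^ 2 = 1 := by
    have := Circle.normSq_coe (γ t).2
    rwa [Complex.normSq_apply, ← sq, ← sq] at this
  have a1 := congrArg re (e (γ t).1)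
  have a2 := congrArg im (e (γ t).1)
  have := n (H (γ t).1)
  rw [re_ofReal_mul] at a1
  rw [im_ofReal_mul] at a2
  simp only [e1, e2, smul_apply, C6_inner, H.symm_apply_apply, smul_eq_mul, nsmul_eq_mul, neg_re,
    neg_im, re_ofReal_mul, im_ofReal_mul, div_ofReal_re, div_ofReal_im]
  generalize q (‖(γ t).1‖ ^ 2) / SS q (‖(γ t).1‖ ^ 2) = k
  rw [a1, a2]
  field_simp
  rw [u]
  push_cast
  ring

end Pool.Agent.MP_ff5407_an.H58
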