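import Pool.Agent.MP_ff5407_an.H58.Spec

/-! The charts of the unit tangent bundle. -/

open scoped ContDiff Topology Manifold NNReal ENNReal ComplexConjugate
open Set Filter MeasureTheory Complex

noncomputable section

namespace Pool.Agent.MP_ff5407_an.H58

theorem C7b_circ (w : ℂ) (c : ℝ) (hc : 0 < c) (h : c ^ 2 * (w.re * w.re + w.im * w.im) = 1) :
    ((Circle.exp (arg w) : Circle) : ℂ) = c * w := by
  have h1 : (c * ‖w‖) ^ 2 = 1 := by
    rw [mul_pow, Complex.sq_norm, Complex.normSq_apply]; exact h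
  have h2 : c * ‖w‖ = 1 := by
    have : 0 ≤ c * ‖w‖ := by positivity
    nlinarith
  have h3 := Complex.norm_mul_exp_arg_mul_I w
  have h4 : (c : ℂ) * (‖w‖ : ℂ) = 1 := by exact_mod_cast h2
  rw [Circle.coe_exp]
  linear_combination (c : ℂ) * h3 - exp (arg w * I) * h4

theorem C7b_unit (e : Circle) (c : ℝ) (hc : 0 < c) :
    c ^ 2 * (((e : ℂ) / c).re * ((e : ℂ) / c).re + ((e : ℂ) / c).im * ((e : ℂ) / c).im) = 1 := by
  have h := Circle.normSq_coe e
  rw [Complex.normSq_apply] at h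
  rw [Complex.div_ofReal_re, Complex.div_ofReal_im]
  field_simp
  linarith

theorem C7b_one {M : Type} [TopologicalSpace M] [ChartedSpace ℂ M] [IsManifold 𝓘(ℝ, ℂ) ∞ M]
    {β : ℝ≥0} {q : ℝ → ℝ} {H : ℂ ≃ₜ ℂ} {nn : ℂ → ℝ} (m : Met β M)
    (P : OpenPartialHomeomorph ℂ M) (hs : P.source = {y | ‖y‖ ^ 2 < 17 / 20})
    (hc : chartAt ℂ (P 0) = P.symm) (hR : Rad q H nn) (hm : ∀ x, m.G x = GG nn) :
    ∃ Q : OpenPartialHomeomorph Y m.SM, Q.source = {p | ‖p.1‖ < 17 / 10} ∧
      Q.target = {v | v.1.1 ∈ P.target} ∧ (∀ p : Y, ‖p.1‖ < 17 / 10 → (Q p).1.1 = P (H p.1)) ∧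
      ∀ p : Y, ‖p.1‖ < 17 / 10 → crd (P 0) (Q p).1 = (H p.1, (p.2 : ℂ) / nn (H p.1)) := by
  classical
  set T := trivializationAt ℂ (TangentSpace 𝓘(ℝ, ℂ)) (P 0) with hT
  have hb : T.baseSet = P.target := by
    rw [hT, TangentBundle.trivializationAt_baseSet, hc]; rfl
  have hnc : Continuous nn := continuous_iff_continuousAt.2 fun y => (hR.der y).continuousAt
  have hsrc : ∀ x : ℂ, ‖x‖ < 17 / 10 ↔ H x ∈ P.source := by
    intro x
    rw [hs, mem_setOf_eq, hR.lt x (17 / 10) (by norm_num)]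
    norm_num
  let f : Y → TangentBundle 𝓘(ℝ, ℂ) M := fun p =>
    T.toOpenPartialHomeomorph.symm (P (H p.1), (p.2 : ℂ) / nn (H p.1))
  have hf1 : ∀ p : Y, ‖p.1‖ < 17 / 10 → (f p).1 = P (H p.1) := fun p hp =>
    T.proj_symm_apply' (by rw [hb]; exact P.map_source ((hsrc _).1 hp))
  have hf2 : ∀ p : Y, ‖p.1‖ < 17 / 10 → crd (P 0) (f p) = (H p.1, (p.2 : ℂ) / nn (H p.1)) := by
    intro p hp
    have h1 : T (f p) = (P (H p.1), (p.2 : ℂ) / nn (H p.1)) :=
      T.apply_symm_apply' (by rw [hb]; exact P.map_source ((hsrc _).1 hp))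
    unfold crd
    rw [← hT, h1, hf1 p hp, hc, P.left_inv ((hsrc _).1 hp)]
  have hg : ∀ v : TangentBundle 𝓘(ℝ, ℂ) M, v.1 ∈ P.target →
      m.g v.1 v.2 v.2 = GG nn (crd (P 0) v).1 (crd (P 0) v).2 (crd (P 0) v).2 := by
    intro v hv
    rw [m.compat (P 0) v.1 (by rw [hc]; exact hv) v.2 v.2, hm]
    rfl
  have hu : ∀ p : Y, ‖p.1‖ < 17 / 10 → m.g (f p).1 (f p).2 (f p).2 = 1 := by
    intro p hp
    rw [hg _ (by rw [hf1 p hp]; exact P.map_source ((hsrc _).1 hp)), hf2 p hp]
    exact C7b_unit _ _ (hR.pos _)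
  have h0 : ‖((0, 1) : Y).1‖ < 17 / 10 := by norm_num
  let F : Y → m.SM := fun p => if h : ‖p.1‖ < 17 / 10 then ⟨f p, hu p h⟩ else ⟨f (0, 1), hu _ h0⟩
  have hF : ∀ p : Y, ‖p.1‖ < 17 / 10 → (F p).1 = f p := by
    intro p hp
    simp only [F, dif_pos hp]
  let G : m.SM → Y := fun v => (H.symm (P.symm v.1.1), Circle.exp (arg (crd (P 0) v.1).2))
  have hcr : ∀ v : TangentBundle 𝓘(ℝ, ℂ) M, (crd (P 0) v).1 = P.symm v.1 := by
    intro v
    unfold crd
    rw [hc]
  have hG : ∀ v : m.SM, v.1.1 ∈ P.target →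
      ((G v).2 : ℂ) = nn (P.symm v.1.1) * (crd (P 0) v.1).2 := by
    intro v hv
    have h1 := v.2
    rw [hg _ hv, hcr] at h1
    exact C7b_circ _ _ (hR.pos _) h1
  have hn0 : ∀ y, (nn y : ℂ) ≠ 0 := fun y => by exact_mod_cast (hR.pos y).ne'
  have hproj : Continuous fun v : m.SM => v.1.1 :=
    (FiberBundle.continuous_proj ℂ (TangentSpace 𝓘(ℝ, ℂ))).comp continuous_subtype_val
  have hGs : ∀ v : m.SM, v.1.1 ∈ P.target → ‖(G v).1‖ < 17 / 10 := by
    intro v hv
    rw [hsrc]
    simp only [G, Homeomorph.apply_symm_apply]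
    exact P.map_target hv
  refine ⟨{ toFun := F, invFun := G, source := {p | ‖p.1‖ < 17 / 10},
            target := {v | v.1.1 ∈ P.target}, map_source' := ?_, map_target' := hGs,
            left_inv' := ?_, right_inv' := ?_,
            open_source := isOpen_lt (by fun_prop) continuous_const,
            open_target := P.open_target.preimage hproj, continuousOn_toFun := ?_,
            continuousOn_invFun := ?_ }, rfl, rfl, ?_, ?_⟩
  · intro p hp
    change (F p).1.1 ∈ P.target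
    rw [hF p hp, hf1 p hp]
    exact P.map_source ((hsrc _).1 hp)
  · intro p hp
    have h1 : (F p).1.1 = P (H p.1) := by rw [hF p hp, hf1 p hp]
    have h2 : P.symm (F p).1.1 = H p.1 := by rw [h1, P.left_inv ((hsrc _).1 hp)]
    refine Prod.ext ?_ (Circle.ext ?_)
    · simp only [G, h2, Homeomorph.symm_apply_apply]
    · rw [hG _ (by rw [h1]; exact P.map_source ((hsrc _).1 hp)), h2, hF p hp, hf2 p hp]
      have := hn0 (H p.1)
      field_simp
  · intro v hv
    apply Subtype.ext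
    rw [hF _ (hGs v hv)]
    have h1 : H (G v).1 = P.symm v.1.1 := by simp only [G, Homeomorph.apply_symm_apply]
    have h2 : T v.1 = (P (H (G v).1), ((G v).2 : ℂ) / nn (H (G v).1)) := by
      rw [hG v hv, h1, P.right_inv hv]
      refine Prod.ext rfl ?_
      have := hn0 (P.symm v.1.1)
      change (crd (P 0) v.1).2 = _
      field_simp
    change T.toOpenPartialHomeomorph.symm _ = _
    rw [← h2]
    exact T.toOpenPartialHomeomorph.left_inv (T.mem_source.2 (by rw [hb]; exact hv))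
  · rw [Topology.IsInducing.subtypeVal.continuousOn_iff]
    refine ContinuousOn.congr (f := f) ?_ fun p hp => hF p hp
    refine T.toOpenPartialHomeomorph.continuousOn_symm.comp (ContinuousOn.prodMk ?_ ?_) ?_
    · exact P.continuousOn.comp (by fun_prop) fun p hp => (hsrc _).1 hp
    · refine ContinuousOn.div ?_ ?_ fun p _ => hn0 _
      · exact (continuous_subtype_val.comp continuous_snd).continuousOn
      · exact (Complex.continuous_ofReal.comp (hnc.comp (H.continuous.comp
          continuous_fst))).continuousOn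
    · intro p hp
      exact T.mem_target.2 (by rw [hb]; exact P.map_source ((hsrc _).1 hp))
  · have hP : ContinuousOn (fun v : m.SM => P.symm v.1.1) {v | v.1.1 ∈ P.target} :=
      P.continuousOn_symm.comp hproj.continuousOn fun v hv => hv
    refine ContinuousOn.prodMk (H.symm.continuous.comp_continuousOn hP) ?_
    have hi : Topology.IsInducing (fun e : Circle => (e : ℂ)) := Topology.IsInducing.subtypeVal
    refine hi.continuousOn_iff.2 ?_
    refine ContinuousOn.congr (f := fun v : m.SM => (nn (P.symm v.1.1) : ℂ) * (crd (P 0) v.1).2)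
      ?_ fun v hv => hG v hv
    refine ContinuousOn.mul ((Complex.continuous_ofReal.comp hnc).comp_continuousOn hP) ?_
    have h5 : ContinuousOn (fun v : m.SM => T v.1) {v | v.1.1 ∈ P.target} :=
      T.continuousOn.comp continuous_subtype_val.continuousOn fun v hv =>
        T.mem_source.2 (by rw [hb]; exact hv)
    exact h5.snd
  · intro p hp
    change (F p).1.1 = _
    rw [hF p hp, hf1 p hp]
  · intro p hp
    change crd (P 0) (F p).1 = _
    rw [hF p hp, hf2 p hp]

theorem rC7b : RC7b := by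
  intro M _ _ _ P β q H nn m hC hR hm
  choose Q h1 h2 h3 h4 using fun j => C7b_one m (P j) (hC.src j) (hC.ctr j) hR hm
  exact ⟨Q, h1, h2, h3, h4⟩

end Pool.Agent.MP_ff5407_an.H58
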