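import Pool.Agent.MP_ff5407_an.H58.Spec

/-! Row `C7c`: the charts of the unit tangent bundle form a phase space atlas. -/

open scoped ContDiff Topology Manifold NNReal ENNReal ComplexConjugate
open Set Filter MeasureTheory Complex

noncomputable section

namespace Pool.Agent.MP_ff5407_an.H58

theorem C7c_flat {q : ℝ → ℝ} {H : ℂ ≃ₜ ℂ} {nn : ℂ → ℝ} (hR : Rad q H nn) (p : Y)
    (h : 1 / 10 ≤ ‖H p.1‖ ^ 2) : H p.1 ^ 2 = zz p.1 ∧ ‖p.1‖ = 2 * ‖H p.1‖ ^ 2 ∧
      th p = 2 * (H p.1 * ((p.2 : ℂ) / nn (H p.1))) := by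
  have h1 : 1 / 5 ≤ ‖p.1‖ := by
    by_contra hc
    have := (hR.lt p.1 (1 / 5) le_rfl).1 (not_le.1 hc)
    linarith
  have h2 := hR.flat p.1 h1
  have h3 : ‖p.1‖ = 2 * ‖H p.1‖ ^ 2 := by
    rw [← norm_pow, h2, norm_zz]; ring
  refine ⟨h2, h3, ?_⟩
  have h4 := hR.sym (H p.1)
  rw [H.symm_apply_apply, hR.flatn _ h] at h4
  have h5 : ‖H p.1‖ ≠ 0 := by
    intro h0
    rw [h0] at h
    norm_num at h
  have h6 : (‖H p.1‖ : ℂ) ≠ 0 := by exact_mod_cast h5
  rw [th, h3, hR.flatn _ h]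
  generalize H p.1 = y at *
  rw [h4]
  push_cast
  field_simp

theorem rC7c : RC7c := by
  intro M _ _ _ P β q H nn m Q hC hI hR hQ
  have hs : ∀ (_ : Fin 4) (x : ℂ), ‖x‖ < 17 / 10 → ‖H x‖ ^ 2 < 17 / 20 := fun _ x hx => by
    have := (hR.lt x (17 / 10) (by norm_num)).1 hx
    linarith
  have hsrc : ∀ j (y : ℂ), ‖y‖ ^ 2 < 17 / 20 → y ∈ (P j).source := fun j y hy => by
    rw [hC.src]; exact hy
  refine ⟨hQ.src, fun v => ?_, fun j l p p' hp hp' h => ?_⟩
  · obtain ⟨j, y, hy, hv⟩ := hC.cov v.1.1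
    have hy' : y ∈ (P j).source := hsrc j y (by linarith)
    have ht : v ∈ (Q j).target := by
      rw [hQ.tgt]
      show v.1.1 ∈ (P j).target
      rw [← hv]
      exact (P j).map_source hy'
    have hp : ‖((Q j).symm v).1‖ < 17 / 10 := by
      have := (Q j).map_target ht
      rw [hQ.src] at this
      exact this
    have he : Q j ((Q j).symm v) = v := (Q j).right_inv ht
    have hb := hQ.base j _ hp
    rw [he, ← hv] at hb
    have := (P j).injOn hy' (hsrc j _ (hs j _ hp)) hb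
    refine ⟨j, _, (hR.le _ (3 / 2) (by norm_num)).2 ?_, he⟩
    rw [← this]
    linarith
  · have hb := hQ.base j p hp
    have hb' := hQ.base l p' hp'
    have h1 := hs j _ hp
    have h1' := hs l _ hp'
    rcases hC.ovl j l _ _ h1 h1' (by rw [← hb, ← hb', h]) with hjl | ⟨hsum, a, b, hab⟩
    · exact Or.inl hjl
    right
    obtain ⟨f1, f2, f3⟩ := C7c_flat hR p (by linarith)
    obtain ⟨g1, g2, g3⟩ := C7c_flat hR p' (by linarith)
    refine ⟨by linarith, ⟨a, b, by rw [← f1, ← g1, hab]⟩, ?_⟩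
    have k := hI (P j 0) (P l 0) (Q j p).1
      (by rw [hC.ctr, hb]; exact (P j).map_source (hsrc j _ h1))
      (by rw [hC.ctr, h, hb']; exact (P l).map_source (hsrc l _ h1'))
    rw [hQ.coord j p hp, h, hQ.coord l p' hp'] at k
    rw [f3, g3]
    exact congrArg (2 * ·) k.symm

end Pool.Agent.MP_ff5407_an.H58
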