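import Pool.Agent.MP_ff5407_an.H58.Spec

open scoped ContDiff Topology Manifold NNReal ENNReal ComplexConjugate
open Set Filter MeasureTheory Complex

noncomputable section

namespace Pool.Agent.MP_ff5407_an.H58

theorem C8_det (nn : ℂ → ℝ) (y : ℂ) :
    GG nn y 1 1 * GG nn y I I - GG nn y 1 I ^ 2 = nn y ^ 4 := by
  simp only [GG, one_re, one_im, I_re, I_im]
  ring

theorem rC8 : RC8 := by
  intro M _ _ _ P β q H nn m Q μ c hCA hG hQ hcone hmu
  have : BorelSpace m.SM := ⟨rfl⟩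
  refine ⟨c, fun x A hA hsrc => ?_⟩
  obtain ⟨j, hj⟩ := hCA.atl (chartAt ℂ x) (chart_mem_atlas ℂ x)
  have hcrd : crd x = crd (P j 0) := crd_congr (by rw [hj, hCA.ctr j])
  have htgt : ∀ v ∈ A, v ∈ (Q j).target := by
    intro v hv
    rw [hQ.tgt j]
    have := hsrc v hv
    rw [hj] at this
    simpa using this
  set A' : Set Y := (Q j).source ∩ Q j ⁻¹' A with hA'
  have hA'm : MeasurableSet A' := by
    have h1 : MeasurableSet ((Q j).source) := (Q j).open_source.measurableSet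
    have h2 : Measurable ((Q j).source.domRestrict (Q j)) :=
      (continuousOn_iff_continuous_domRestrict.1 (Q j).continuousOn).measurable
    have h3 := h1.subtype_image (h2 hA)
    have h4 : Subtype.val '' ((Q j).source.domRestrict (Q j) ⁻¹' A) = A' := by
      ext p
      constructor
      · rintro ⟨⟨p', hp'⟩, h, rfl⟩
        exact ⟨hp', h⟩
      · rintro ⟨hp, h⟩
        exact ⟨⟨p, hp⟩, h, rfl⟩
    rwa [h4] at h3
  have hlt : ∀ p ∈ A', ‖p.1‖ < 17 / 10 := by
    intro p hp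
    have := hp.1
    rwa [hQ.src j] at this
  have himg : Q j '' A' = A := by
    ext v
    constructor
    · rintro ⟨p, hp, rfl⟩
      exact hp.2
    · intro hv
      refine ⟨(Q j).symm v, ⟨(Q j).map_target (htgt v hv), ?_⟩, (Q j).right_inv (htgt v hv)⟩
      show Q j ((Q j).symm v) ∈ A
      rw [(Q j).right_inv (htgt v hv)]
      exact hv
  have hset : {z : ℂ × ℂ | ∃ v ∈ A, ∃ r ∈ Ioc (0 : ℝ) 1,
        z = ((crd x v.1).1, r • (crd x v.1).2)} =
      {z : ℂ × ℂ | ∃ p ∈ A', ∃ r ∈ Ioc (0 : ℝ) 1,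
        z = (H p.1, r • ((p.2 : ℂ) / nn (H p.1)))} := by
    ext z
    constructor
    · rintro ⟨v, hv, r, hr, rfl⟩
      rw [← himg] at hv
      obtain ⟨p, hp, rfl⟩ := hv
      refine ⟨p, hp, r, hr, ?_⟩
      rw [hcrd, hQ.coord j p (hlt p hp)]
    · rintro ⟨p, hp, r, hr, rfl⟩
      refine ⟨Q j p, hp.2, r, hr, ?_⟩
      rw [hcrd, hQ.coord j p (hlt p hp)]
  rw [hset, hG x]
  simp only [C8_det]
  rw [← hcone A' hA'm, ← hmu j A' hA'm hlt, himg]

end Pool.Agent.MP_ff5407_an.H58
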