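import Pool.Agent.MP_ff5407_an.H58.Spec

/-! The area measure of the model in the conformal coordinate. -/

open scoped ContDiff Topology Manifold NNReal ENNReal ComplexConjugate
open Set Filter MeasureTheory Complex

noncomputable section

namespace Pool.Agent.MP_ff5407_an.H58

theorem C8a_det (g c : ℝ) (x : ℂ) :
    (g • ContinuousLinearMap.id ℝ ℂ + ((c * g) • innerSL ℝ x).smulRight x).det =
      g ^ 2 * (1 + ‖x‖ ^ 2 * c) := by
  rw [ContinuousLinearMap.det, ← LinearMap.det_toMatrix Complex.basisOneI, Matrix.det_fin_two,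
    Complex.sq_norm, Complex.normSq_apply]
  simp [LinearMap.toMatrix_apply, Complex.inner]
  ring

theorem rC8a : RC8a := by
  intro q H nn hP hR
  have hH : (H : ℂ → ℂ) = fun x => (nn (H x))⁻¹ • x := by
    funext x
    have h := hR.sym (H x)
    rw [H.symm_apply_apply] at h
    have h0 : (nn (H x) : ℂ) ≠ 0 := by exact_mod_cast (hR.pos (H x)).ne'
    rw [Complex.real_smul, Complex.ofReal_inv, eq_inv_mul_iff_mul_eq₀ h0]
    exact h.symm
  have hD : ∀ x, HasFDerivAt H ((nn (H x))⁻¹ • ContinuousLinearMap.id ℝ ℂ +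
      ((q (‖x‖ ^ 2) * (nn (H x))⁻¹) • innerSL ℝ x).smulRight x) x := fun x => by
    have h := (hR.derH x).smul (hasFDerivAt_id x)
    exact h.congr_of_eventuallyEq (Eventually.of_forall fun z => congrFun hH z)
  ext B hB
  have hA : MeasurableSet (H ⁻¹' B) := H.continuous.measurable hB
  rw [Measure.map_apply H.continuous.measurable hB, withDensity_apply _ hA, withDensity_apply _ hB]
  have h1 := lintegral_image_eq_lintegral_abs_det_fderiv_mul volume hA
    (fun x _ => (hD x).hasFDerivWithinAt) H.injective.injOn fun y => ENNReal.ofReal (nn y ^ 2)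
  rw [H.surjective.image_preimage] at h1
  rw [h1]
  refine lintegral_congr fun x => ?_
  have h2 := hP.lo (‖x‖ ^ 2)
  have h3 := (hR.pos (H x)).ne'
  rw [C8a_det, ← ENNReal.ofReal_mul (abs_nonneg _), ← SS,
    abs_of_nonneg (mul_nonneg (sq_nonneg _) (by linarith))]
  congr 1
  field_simp

end Pool.Agent.MP_ff5407_an.H58
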