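import Pool.Agent.MP_ff5407_an.H58.Spec

/-! Row C8b: the model measure is the cone measure. -/

open scoped ContDiff Topology Manifold NNReal ENNReal ComplexConjugate Pointwise
open Set Filter MeasureTheory Complex

noncomputable section

namespace Pool.Agent.MP_ff5407_an.H58

theorem C8b_set (H : ℂ ≃ₜ ℂ) (nn : ℂ → ℝ) (hpos : ∀ y, 0 < nn y) (A : Set Y) :
    {z : ℂ × ℂ | ∃ p ∈ A, ∃ r ∈ Ioc (0 : ℝ) 1, z = (H p.1, r • ((p.2 : ℂ) / nn (H p.1)))} =
      {z : ℂ × ℂ | z.2 ≠ 0 ∧ nn z.1 * ‖z.2‖ ≤ 1 ∧ (H.symm z.1, Circle.exp (arg z.2)) ∈ A} := by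
  ext z
  constructor
  · rintro ⟨p, hp, r, hr, rfl⟩
    have hn := hpos (H p.1)
    have e : r • ((p.2 : ℂ) / nn (H p.1)) = ((r / nn (H p.1) : ℝ) : ℂ) * p.2 := by
      rw [Complex.real_smul]; push_cast; ring
    have hq : 0 < r / nn (H p.1) := div_pos hr.1 hn
    refine ⟨?_, ?_, ?_⟩
    · dsimp only
      rw [e]
      exact mul_ne_zero (by exact_mod_cast hq.ne') (Circle.coe_ne_zero _)
    · dsimp only
      rw [e, norm_mul, Circle.norm_coe, Complex.norm_real, Real.norm_of_nonneg hq.le, mul_one,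
        mul_div_cancel₀ _ hn.ne']
      exact hr.2
    · dsimp only
      rw [e, Complex.arg_real_mul _ hq, Circle.exp_arg, H.symm_apply_apply]
      exact hp
  · rintro ⟨h0, h1, h2⟩
    have hn := hpos z.1
    refine ⟨_, h2, nn z.1 * ‖z.2‖, ⟨mul_pos hn (norm_pos_iff.2 h0), h1⟩, ?_⟩
    ext
    · simp
    · dsimp only
      rw [H.apply_symm_apply, Complex.real_smul, Circle.coe_exp]
      have hn' : (nn z.1 : ℂ) ≠ 0 := by exact_mod_cast hn.ne'
      conv_lhs => rw [← Complex.norm_mul_exp_arg_mul_I z.2]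
      push_cast
      field_simp

theorem C8b_slice (H : ℂ ≃ₜ ℂ) (nn : ℂ → ℝ) (A : Set Y) (y : ℂ) :
    Prod.mk y ⁻¹' {z : ℂ × ℂ | ∃ p ∈ A, ∃ r ∈ Ioc (0 : ℝ) 1,
      z = (H p.1, r • ((p.2 : ℂ) / nn (H p.1)))} =
      (nn y)⁻¹ • {z : ℂ | ∃ e ∈ Prod.mk (H.symm y) ⁻¹' A, ∃ r ∈ Ioc (0 : ℝ) 1,
        z = r • (e : ℂ)} := by
  ext w
  constructor
  · rintro ⟨p, hp, r, hr, h⟩
    obtain ⟨rfl, rfl⟩ := Prod.mk.inj h
    refine ⟨r • (p.2 : ℂ), ⟨p.2, ?_, r, hr, rfl⟩, ?_⟩
    · simpa using hp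
    · simp only [Complex.real_smul]; push_cast; ring
  · rintro ⟨_, ⟨e, he, r, hr, rfl⟩, rfl⟩
    refine ⟨(H.symm y, e), he, r, hr, ?_⟩
    ext
    · simp
    · simp only [Complex.real_smul, H.apply_symm_apply]; push_cast; ring

theorem rC8b (h : RC8a) : RC8b := by
  intro q H nn hP hR hC A hA
  have := hC.fin
  have hcont : Continuous nn := continuous_iff_continuousAt.2 fun y => (hR.der y).continuousAt
  have hmeas : Measurable nn := hcont.measurable
  set S : Set (ℂ × ℂ) := {z : ℂ × ℂ | ∃ p ∈ A, ∃ r ∈ Ioc (0 : ℝ) 1,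
    z = (H p.1, r • ((p.2 : ℂ) / nn (H p.1)))} with hS
  have hSm : MeasurableSet S := by
    rw [hS, C8b_set H nn hR.pos A]
    have m1 : MeasurableSet {z : ℂ × ℂ | z.2 = 0} :=
      measurableSet_eq_fun measurable_snd measurable_const
    have m2 : MeasurableSet {z : ℂ × ℂ | nn z.1 * ‖z.2‖ ≤ 1} :=
      measurableSet_le ((hmeas.comp measurable_fst).mul measurable_snd.norm) measurable_const
    have m3 : MeasurableSet {z : ℂ × ℂ | (H.symm z.1, Circle.exp (arg z.2)) ∈ A} :=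
      ((H.symm.continuous.measurable.comp measurable_fst).prodMk
        (Circle.exp.continuous.measurable.comp (Complex.measurable_arg.comp measurable_snd))) hA
    exact m1.compl.inter (m2.inter m3)
  have hg : Measurable fun x : ℂ => cm (Prod.mk x ⁻¹' A) := measurable_measure_prodMk_left hA
  have hg' : Measurable fun y : ℂ => cm (Prod.mk (H.symm y) ⁻¹' A) :=
    hg.comp H.symm.continuous.measurable
  have hf2 : Measurable fun y : ℂ => ENNReal.ofReal (nn y ^ 2) :=
    (hmeas.pow_const 2).ennreal_ofReal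
  have hf4 : Measurable fun z : ℂ × ℂ => ENNReal.ofReal (nn z.1 ^ 4) :=
    ((hmeas.comp measurable_fst).pow_const 4).ennreal_ofReal
  have e1 : mm q A = ∫⁻ y, ENNReal.ofReal (nn y ^ 2) * cm (Prod.mk (H.symm y) ⁻¹' A) := by
    have := lintegral_withDensity_eq_lintegral_mul volume hf2 hg'
    simp only [Pi.mul_apply] at this
    rw [← this, ← h q H nn hP hR, lintegral_map hg' H.continuous.measurable, mm,
      Measure.prod_apply hA]
    simp only [H.symm_apply_apply]
  rw [e1, ← lintegral_indicator hSm, Measure.volume_eq_prod,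
    lintegral_prod _ (hf4.indicator hSm).aemeasurable]
  refine lintegral_congr fun y => ?_
  have e2 : (fun w : ℂ => S.indicator (fun z : ℂ × ℂ => ENNReal.ofReal (nn z.1 ^ 4)) (y, w)) =
      (Prod.mk y ⁻¹' S).indicator fun _ => ENNReal.ofReal (nn y ^ 4) := by
    funext w
    by_cases hw : (y, w) ∈ S
    · rw [indicator_of_mem hw, indicator_of_mem (show w ∈ Prod.mk y ⁻¹' S from hw)]
    · rw [indicator_of_notMem hw, indicator_of_notMem (show w ∉ Prod.mk y ⁻¹' S from hw)]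
  rw [e2, lintegral_indicator_const (measurable_prodMk_left hSm), hS, C8b_slice,
    Measure.addHaar_smul, ← hC.cone _ (measurable_prodMk_left hA), Complex.finrank_real_complex,
    ← mul_assoc, ← ENNReal.ofReal_mul (by positivity)]
  congr 2
  have hn := hR.pos y
  rw [abs_of_nonneg (by positivity)]
  field_simp

end Pool.Agent.MP_ff5407_an.H58
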