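import Pool.Agent.MP_ff5407_an.H58.Spec

/-! Row C9: geodesics are the solutions of the model equation. -/

open scoped ContDiff Topology Manifold NNReal ENNReal ComplexConjugate
open Set Filter MeasureTheory Complex

noncomputable section

namespace Pool.Agent.MP_ff5407_an.H58

theorem C9_key {M : Type} [TopologicalSpace M] [ChartedSpace ℂ M] [IsManifold 𝓘(ℝ, ℂ) ∞ M]
    {P : Fin 4 → OpenPartialHomeomorph ℂ M} {β : ℝ≥0} {q : ℝ → ℝ} {H : ℂ ≃ₜ ℂ} {nn : ℂ → ℝ}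
    {m : Met β M} {Q : Fin 4 → OpenPartialHomeomorph Y m.SM} (hP : CA P)
    (hG : ∀ x, m.G x = GG nn) (hQ : QF P H nn m Q) (hE : EL q H nn) (V : ℝ → m.SM)
    (hV : Continuous V) (t : ℝ) : ∃ j, V t ∈ (Q j).target ∧
      ((HasDerivAt (fun s => (crd (V t).1.1 (V s).1).1) (crd (V t).1.1 (V t).1).2 t ∧
        ∀ a : ℂ, HasDerivAt
          (fun s => m.G (V t).1.1 (crd (V t).1.1 (V s).1).1 (crd (V t).1.1 (V s).1).2 a)
          (1 / 2 * fderiv ℝ (fun y => m.G (V t).1.1 y (crd (V t).1.1 (V t).1).2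
            (crd (V t).1.1 (V t).1).2) (crd (V t).1.1 (V t).1).1 a) t) ↔
        Ode q (fun s => (Q j).symm (V s)) t) := by
  obtain ⟨j, hj⟩ := hP.atl _ (chart_mem_atlas ℂ (V t).1.1)
  have hc : crd (V t).1.1 = crd (P j 0) := crd_congr (hj.trans (hP.ctr j).symm)
  have ht : V t ∈ (Q j).target := by
    rw [hQ.tgt j]
    have := mem_chart_source ℂ (V t).1.1
    rw [hj] at this
    exact this
  refine ⟨j, ht, ?_⟩
  rw [hc, hG]
  refine hE (fun s => (crd (P j 0) (V s).1).1) (fun s => (crd (P j 0) (V s).1).2)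
    (fun s => (Q j).symm (V s)) t ?_
  filter_upwards [hV.continuousAt.preimage_mem_nhds ((Q j).open_target.mem_nhds ht)] with s hs
  have h1 : (Q j).symm (V s) ∈ (Q j).source := (Q j).map_target hs
  rw [hQ.src j] at h1
  have h2 := hQ.coord j _ h1
  rw [(Q j).right_inv hs] at h2
  rw [h2]
  exact ⟨rfl, rfl⟩

theorem rC9 : RC9 := by
  intro M _ _ _ P β q H nn m Q hP hG hQ hE
  refine ⟨fun V hV => ⟨hV.1, fun t => ?_⟩, fun V hV => ⟨hV.1, fun t => ?_⟩⟩
  · obtain ⟨j, h1, h2⟩ := C9_key hP hG hQ hE V hV.1 t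
    exact h2.2 (hV.2 t j h1)
  · obtain ⟨j, h1, h2⟩ := C9_key hP hG hQ hE V hV.1 t
    exact ⟨j, h1, h2.1 (hV.2 t)⟩

end Pool.Agent.MP_ff5407_an.H58
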