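import Pool.Agent.MP_ff5407_an.H58.Spec

/-!
Row D0: the abstract phase space is compact and second countable.
-/

open scoped ContDiff Topology Manifold NNReal ENNReal ComplexConjugate
open Set Filter MeasureTheory Complex

noncomputable section

namespace Pool.Agent.MP_ff5407_an.H58

theorem rD0 : RD0 := by
  intro X _ Q hQ
  have hK : IsCompact (Metric.closedBall (0 : ℂ) (3 / 2) ×ˢ (univ : Set Circle)) :=
    (isCompact_closedBall _ _).prod isCompact_univ
  have hsub : ∀ j, Metric.closedBall (0 : ℂ) (3 / 2) ×ˢ (univ : Set Circle) ⊆ (Q j).source := by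
    intro j p hp
    rw [hQ.src j]
    have := mem_closedBall_zero_iff.1 hp.1
    show ‖p.1‖ < 17 / 10
    linarith
  constructor
  · refine ⟨?_⟩
    have h1 : IsCompact (⋃ j, Q j '' (Metric.closedBall (0 : ℂ) (3 / 2) ×ˢ (univ : Set Circle))) :=
      isCompact_iUnion fun j => hK.image_of_continuousOn ((Q j).continuousOn.mono (hsub j))
    convert h1 using 1
    symm
    refine eq_univ_of_forall fun v => ?_
    obtain ⟨j, p, hp, rfl⟩ := hQ.cov v
    exact mem_iUnion.2 ⟨j, p, ⟨mem_closedBall_zero_iff.2 hp, mem_univ _⟩, rfl⟩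
  · have : ∀ j, SecondCountableTopology (Q j).target := fun j =>
      (Q j).toHomeomorphSourceTarget.symm.secondCountableTopology
    refine TopologicalSpace.secondCountableTopology_of_countable_cover
      (U := fun j => (Q j).target) (fun j => (Q j).open_target) ?_
    refine eq_univ_of_forall fun v => ?_
    obtain ⟨j, p, hp, rfl⟩ := hQ.cov v
    exact mem_iUnion.2 ⟨j, (Q j).map_source
      (hsub j ⟨mem_closedBall_zero_iff.2 hp, mem_univ _⟩)⟩

end Pool.Agent.MP_ff5407_an.H58
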