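import Pool.Agent.MP_ff5407_an.H58.Spec

/-! Row D1: a local flow with uniform time extends to a flow. -/

open scoped ContDiff Topology Manifold NNReal ENNReal ComplexConjugate
open Set Filter MeasureTheory Complex

noncomputable section

namespace Pool.Agent.MP_ff5407_an.H58

section

variable {X : Type} {F : ℝ → X → X} {τ : ℝ}

theorem D1_iter (h0 : ∀ x, F 0 x = x)
    (h : ∀ s t x, |s| ≤ τ → |t| ≤ τ → |s + t| ≤ τ → F (s + t) x = F s (F t x)) (u : ℝ) (m : ℕ)
    (hm : m * |u| ≤ τ) : (F u)^[m] = F (m * u) := by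
  have := abs_nonneg u
  induction m with
  | zero => funext x; simp [h0]
  | succ m ih =>
    push_cast at hm ⊢
    have m0 : 0 ≤ m * |u| := by positivity
    funext x
    rw [Function.iterate_succ_apply', ih (by linarith), add_one_mul, add_comm, h _ _ _ (by linarith)
      (by rw [abs_mul, Nat.abs_cast]; linarith)
      ((abs_add_le _ _).trans (by rw [abs_mul, Nat.abs_cast]; linarith))]

theorem D1_div {t : ℝ} {n : ℕ} (hn : 0 < n) (h : |t| ≤ n * τ) : |t / n| ≤ τ := by
  rwa [abs_div, Nat.abs_cast, div_le_iff₀' (Nat.cast_pos.2 hn)]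

theorem D1_ind (h0 : ∀ x, F 0 x = x)
    (h : ∀ s t x, |s| ≤ τ → |t| ≤ τ → |s + t| ≤ τ → F (s + t) x = F s (F t x)) {t : ℝ} {n m : ℕ}
    (hn : 0 < n) (hm : 0 < m) (h1 : |t| ≤ n * τ) :
    (F (t / n))^[n] = (F (t / (m * n : ℕ)))^[m * n] := by
  have m0 : (m : ℝ) ≠ 0 := Nat.cast_ne_zero.2 hm.ne'
  have e : m * (t / (m * n : ℕ)) = t / n := by
    push_cast
    field_simp
  rw [Function.iterate_mul, D1_iter h0 h _ m, e]
  rw [← Nat.abs_cast m, ← abs_mul, e]
  exact D1_div hn h1

end

theorem rD1 : RD1 := by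
  intro X _ F τ hτ hc h0 h
  have ex : ∀ t : ℝ, ∃ n : ℕ, 0 < n ∧ |t| < n * τ := fun t => by
    obtain ⟨n, hn⟩ := exists_nat_gt (|t| / τ)
    rw [div_lt_iff₀ hτ] at hn
    exact ⟨n + 1, n.succ_pos, by push_cast; linarith⟩
  choose N N0 N1 using ex
  have hG : ∀ (t : ℝ) (n : ℕ), 0 < n → |t| ≤ n * τ →
      (F (t / N t))^[N t] = (F (t / n))^[n] := fun t n hn ht => by
    rw [D1_ind h0 h (N0 t) hn (N1 t).le, D1_ind h0 h hn (N0 t) ht, mul_comm]
  refine ⟨⟨fun t => (F (t / N t))^[N t], continuous_iff_continuousAt.2 fun z => ?_,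
    fun s t x => ?_, fun x => ?_⟩, fun t x ht => ?_⟩
  · have o : IsOpen {w : ℝ × X | |w.1| < N z.1 * τ} := isOpen_lt (by fun_prop) continuous_const
    have k : ∀ m : ℕ, ContinuousOn (fun w : ℝ × X => (F (w.1 / N z.1))^[m] w.2)
        {w : ℝ × X | |w.1| < N z.1 * τ} := fun m => by
      induction m with
      | zero => exact continuousOn_snd
      | succ m ih =>
        simp only [Function.iterate_succ_apply']
        exact hc.comp ((continuousOn_fst.div_const _).prodMk ih) fun w hw =>
          ⟨abs_le.1 (D1_div (N0 _) hw.le), trivial⟩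
    refine ((k (N z.1)).congr fun w hw => ?_).continuousAt (o.mem_nhds (N1 z.1))
    exact congrFun (hG w.1 _ (N0 _) hw.le) w.2
  · have a := N1 (|s| + |t|)
    have n0 := N0 (|s| + |t|)
    have b := abs_nonneg s
    have c := abs_nonneg t
    rw [abs_of_nonneg (add_nonneg b c)] at a
    generalize N (|s| + |t|) = n at a n0
    have d := (abs_add_le s t).trans a.le
    have s1 := D1_div n0 (show |s| ≤ n * τ by linarith)
    have t1 := D1_div n0 (show |t| ≤ n * τ by linarith)
    have d1 := D1_div n0 d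
    rw [add_div] at d1
    have e : F ((s + t) / n) = F (s / n) ∘ F (t / n) := funext fun y => by
      rw [add_div]; exact h _ _ y s1 t1 d1
    have cm : Function.Commute (F (s / n)) (F (t / n)) := fun y => by
      rw [← h _ _ y s1 t1 d1, add_comm, h _ _ y t1 s1 (by rwa [add_comm])]
    rw [hG _ n n0 d, hG s n n0 (by linarith), hG t n n0 (by linarith), e, cm.comp_iterate]
    rfl
  · rw [zero_div]
    exact Function.iterate_fixed (h0 x) _
  · simpa using congrFun (hG t 1 one_pos (by simpa using ht)) x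

end Pool.Agent.MP_ff5407_an.H58
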