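import Pool.Agent.MP_ff5407_an.H58.Spec

open scoped ContDiff Topology Manifold NNReal ENNReal ComplexConjugate
open Set Filter MeasureTheory Complex

noncomputable section

namespace Pool.Agent.MP_ff5407_an.H58

theorem D2_cont {q : ℝ → ℝ} {γ : ℝ → Y} {t : ℝ} (h : Ode q γ t) : ContinuousAt γ t := by
  have h1 : ContinuousAt (fun s => (γ s).1) t := h.1.continuousAt
  have h2 : ContinuousAt (fun s => ((γ s).2 : ℂ)) t := h.2.continuousAt
  have h3 : ContinuousAt (fun s => (γ s).2) t := by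
    have he : Topology.IsInducing (fun z : Circle => (z : ℂ)) := Topology.IsInducing.subtypeVal
    exact he.continuousAt_iff.2 h2
  exact h1.prodMk h3

theorem D2_congr {q : ℝ → ℝ} {γ g : ℝ → Y} {t : ℝ} (h : Ode q γ t) (e : g =ᶠ[𝓝 t] γ) :
    Ode q g t := by
  have e0 : g t = γ t := e.eq_of_nhds
  refine ⟨?_, ?_⟩
  · rw [e0]
    exact h.1.congr_of_eventuallyEq (e.mono fun s hs => by simp only [hs])
  · rw [e0]
    exact h.2.congr_of_eventuallyEq (e.mono fun s hs => by simp only [hs])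

theorem D2_zz {x : ℂ} (hx : x ≠ 0) : ContinuousAt zz x := by
  unfold zz
  refine ContinuousAt.div (by fun_prop) (by fun_prop) ?_
  have : ‖x‖ ≠ 0 := by simpa using hx
  simpa using hx

theorem D2_gauss (m n m' n' : ℤ) (h : ‖((m : ℂ) + n * I) - (m' + n' * I)‖ < 1) :
    ((m : ℂ) + n * I) = m' + n' * I := by
  have h1 := (Complex.abs_re_le_norm (((m : ℂ) + n * I) - (m' + n' * I))).trans_lt h
  have h2 := (Complex.abs_im_le_norm (((m : ℂ) + n * I) - (m' + n' * I))).trans_lt h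
  simp at h1 h2
  have a1 : |m - m'| < 1 := by exact_mod_cast h1
  have a2 : |n - n'| < 1 := by exact_mod_cast h2
  have b1 : m = m' := by have := Int.abs_lt_one_iff.1 a1; omega
  have b2 : n = n' := by have := Int.abs_lt_one_iff.1 a2; omega
  rw [b1, b2]

theorem rD2 : RD2 := by
  intro X _ Q q hP hF j l γ t ht hl hO
  have hγ : ContinuousAt γ t := D2_cont hO
  have hs : γ t ∈ (Q j).source := by rw [hP.src]; exact ht
  have hQ : ContinuousAt (fun s => Q j (γ s)) t :=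
    ContinuousAt.comp (f := γ) ((Q j).continuousAt hs) hγ
  set g : ℝ → Y := fun s => (Q l).symm (Q j (γ s)) with hg
  have hgc : ContinuousAt g t :=
    ContinuousAt.comp (f := fun s => Q j (γ s)) ((Q l).symm.continuousAt hl) hQ
  have e1 : ∀ᶠ s in 𝓝 t, γ s ∈ (Q j).source := hγ.eventually ((Q j).open_source.mem_nhds hs)
  have e2 : ∀ᶠ s in 𝓝 t, Q j (γ s) ∈ (Q l).target :=
    hQ.eventually ((Q l).open_target.mem_nhds hl)
  by_cases hjl : j = l
  · subst hjl
    exact D2_congr hO (e1.mono fun s h => (Q j).left_inv h)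
  have e3 : ∀ᶠ s in 𝓝 t, (‖(γ s).1‖ < 17 / 10 ∧ ‖(g s).1‖ < 17 / 10) ∧
      2 ≤ ‖(γ s).1‖ + ‖(g s).1‖ ∧
      (∃ m n : ℤ, zz (γ s).1 - zz (g s).1 = m + n * I) ∧ th (γ s) = th (g s) := by
    filter_upwards [e1, e2] with s h1 h2
    have a1 : ‖(γ s).1‖ < 17 / 10 := by rw [hP.src] at h1; exact h1
    have a2 : ‖(g s).1‖ < 17 / 10 := by
      have := (Q l).map_target h2
      rw [hP.src] at this
      exact this
    refine ⟨⟨a1, a2⟩, (hP.ovl j l (γ s) (g s) a1 a2 ?_).resolve_left hjl⟩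
    exact ((Q l).right_inv h2).symm
  obtain ⟨⟨a1, a2⟩, a3, ⟨m0, n0, a4⟩, a5⟩ := e3.self_of_nhds
  have n1 : 1 / 5 ≤ ‖(γ t).1‖ := by linarith
  have n2 : 1 / 5 ≤ ‖(g t).1‖ := by linarith
  have z1 : (γ t).1 ≠ 0 := by
    intro h; rw [h, norm_zero] at n1; norm_num at n1
  have z2 : (g t).1 ≠ 0 := by
    intro h; rw [h, norm_zero] at n2; norm_num at n2
  have c1 : ContinuousAt (fun s => zz (γ s).1 - zz (g s).1) t :=
    (ContinuousAt.comp (f := fun s => (γ s).1) (D2_zz z1) hγ.fst).sub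
      (ContinuousAt.comp (f := fun s => (g s).1) (D2_zz z2) hgc.fst)
  have e4 : ∀ᶠ s in 𝓝 t, ‖(zz (γ s).1 - zz (g s).1) - (zz (γ t).1 - zz (g t).1)‖ < 1 := by
    have := (Metric.tendsto_nhds.1 c1) 1 one_pos
    simpa only [dist_eq_norm] using this
  have e5 : (fun s => zz (g s).1) =ᶠ[𝓝 t] fun s => zz (γ s).1 - (m0 + n0 * I) := by
    filter_upwards [e3, e4] with s h1 h2
    obtain ⟨-, -, ⟨m, n, h3⟩, -⟩ := h1
    rw [h3, a4] at h2
    have := D2_gauss m n m0 n0 h2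
    rw [← this, ← h3]
    ring
  have e6 : (fun s => th (g s)) =ᶠ[𝓝 t] fun s => th (γ s) := e3.mono fun s h => h.2.2.2.symm
  obtain ⟨d1, d2⟩ := (hF γ t hγ n1).1 hO
  refine (hF g t hgc n2).2 ⟨?_, d2.congr_of_eventuallyEq e6⟩
  rw [← a5]
  exact (d1.sub_const _).congr_of_eventuallyEq e5

end Pool.Agent.MP_ff5407_an.H58
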