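import Pool.Agent.MP_ff5407_an.H58.Spec

/-! The model flow is compatible with the transition maps. -/

open scoped ContDiff Topology Manifold NNReal ENNReal ComplexConjugate
open Set Filter MeasureTheory Complex

noncomputable section

namespace Pool.Agent.MP_ff5407_an.H58

theorem rD3 : RD3 := by
  intro X _ _ Q q hQ hF hU hT j l p p' T h0 hI
  have hc : ∀ p, Continuous fun s => psi q s p := fun p =>
    hF.cont.comp (f := fun s => (s, p)) (by fun_prop)
  have hs : ∀ j (p : Y), ‖p.1‖ < 17 / 10 → p ∈ (Q j).source := fun j p h => hQ.src j ▸ h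
  have ha : ∀ j p s, ‖(psi q s p).1‖ < 17 / 10 → ContinuousAt (fun s => Q j (psi q s p)) s :=
    fun j p s h => ContinuousAt.comp (f := fun s => psi q s p) ((Q j).continuousAt (hs j _ h))
      (hc p).continuousAt
  have key : ∀ s ∈ uIcc 0 T, Q j (psi q s p) = Q l (psi q s p') →
      ∀ᶠ t in 𝓝 s, Q j (psi q t p) = Q l (psi q t p') := by
    intro s h e
    obtain ⟨h1, h2⟩ := hI s h
    have e1 : ∀ᶠ t in 𝓝 s, ‖(psi q t p).1‖ < 17 / 10 :=
      (hc p).fst.norm.continuousAt.eventually_lt_const h1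
    have e2 : ∀ᶠ t in 𝓝 s, Q j (psi q t p) ∈ (Q l).target :=
      (ha j p s h1).eventually_mem ((Q l).open_target.mem_nhds (e ▸ (Q l).map_source (hs l _ h2)))
    obtain ⟨a, b, hab, hsub⟩ := mem_nhds_iff_exists_Ioo_subset.1 (e1.and e2)
    filter_upwards [isOpen_Ioo.mem_nhds hab] with t ht
    have := hU (fun s => (Q l).symm (Q j (psi q s p))) a b
      (fun t ht => hT j l (fun s => psi q s p) t (hsub ht).1 (hsub ht).2 (hF.ode p t)) s hab t ht
    rw [e, (Q l).left_inv (hs l _ h2), ← hF.add, sub_add_cancel] at this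
    rw [← this, (Q l).right_inv (hsub ht).2]
  have hsub : uIcc 0 T ⊆ {s | ∀ᶠ t in 𝓝 s, Q j (psi q t p) = Q l (psi q t p')} := by
    refine isPreconnected_uIcc.subset_of_closure_inter_subset isOpen_setOfPred_eventually_nhds
      ⟨0, left_mem_uIcc, key 0 left_mem_uIcc (by rwa [hF.zero, hF.zero])⟩ fun s h => key s h.2 ?_
    exact tendsto_nhds_unique_of_frequently_eq (ha j p s (hI s h.2).1).tendsto
      (ha l p' s (hI s h.2).2).tendsto
      ((mem_closure_iff_frequently.1 h.1).mono fun t ht =>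
        Eventually.self_of_nhds (p := fun t => Q j (psi q t p) = Q l (psi q t p')) ht)
  exact Eventually.self_of_nhds (p := fun t => Q j (psi q t p) = Q l (psi q t p'))
    (hsub right_mem_uIcc)

end Pool.Agent.MP_ff5407_an.H58
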