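import Pool.Agent.MP_ff5407_an.H58.Spec

/-! Row D4: the local flows in the charts glue to a global flow. -/

open scoped ContDiff Topology Manifold NNReal ENNReal ComplexConjugate
open Set Filter MeasureTheory Complex

noncomputable section

namespace Pool.Agent.MP_ff5407_an.H58

theorem D4_abs {s t : ℝ} (hs : s ∈ uIcc 0 t) : |s| ≤ |t| := by
  rcases mem_uIcc.1 hs with h | h
  · rw [abs_of_nonneg h.1]; exact h.2.trans (le_abs_self t)
  · rw [abs_of_nonpos h.2]; exact (neg_le_neg h.1).trans (neg_le_abs t)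

theorem D4_norm {q : ℝ → ℝ} (hF : Fl q) (s : ℝ) (p : Y) :
    ‖(psi q s p).1‖ ≤ ‖p.1‖ + 2 * |s| := by
  have h := (abs_le.1 (hF.speed s p)).2
  linarith

theorem D4_step {δ s : ℝ} {k n : ℕ} (hk : k + 1 ≤ n) (hs : s ∈ uIcc 0 δ) :
    s + k * δ ∈ uIcc 0 (n * δ) := by
  have hk' : (k : ℝ) + 1 ≤ n := by exact_mod_cast hk
  have hk0 : (0 : ℝ) ≤ k := Nat.cast_nonneg k
  rcases mem_uIcc.1 hs with h | h
  · have hδ : 0 ≤ δ := h.1.trans h.2
    refine mem_uIcc.2 (Or.inl ⟨?_, ?_⟩)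
    · have := mul_nonneg hk0 hδ
      linarith [h.1]
    · have := mul_le_mul_of_nonneg_right hk' hδ
      linarith [h.2]
  · have hδ : δ ≤ 0 := h.1.trans h.2
    refine mem_uIcc.2 (Or.inr ⟨?_, ?_⟩)
    · have := mul_le_mul_of_nonpos_right hk' hδ
      linarith [h.1]
    · have := mul_nonpos_of_nonneg_of_nonpos hk0 hδ
      linarith [h.2]

theorem D4_comp {Z : Type} [TopologicalSpace Z] {ψ : ℝ → Y → Y}
    (hψ : Continuous fun z : ℝ × Y => ψ z.1 z.2) {a : Z → ℝ} {b : Z → Y} {z0 : Z}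
    (h : ContinuousAt (fun z => (a z, b z)) z0) : ContinuousAt (fun z => ψ (a z) (b z)) z0 :=
  ContinuousAt.comp (f := fun z => (a z, b z)) hψ.continuousAt h

theorem rD4 (h : RD1) : RD4 := by
  intro X _ Q q hP hF hT
  choose J P hP1 hP2 using hP.cov
  set F : ℝ → X → X := fun t v => Q (J v) (psi q t (P v)) with hFdef
  have key : ∀ (t : ℝ) (j : Fin 4) (p : Y), |t| ≤ 1 / 20 →
      (∀ s ∈ uIcc 0 t, ‖(psi q s p).1‖ < 17 / 10) → F t (Q j p) = Q j (psi q t p) := by
    intro t j p ht hp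
    refine hT (J (Q j p)) j (P (Q j p)) p t (hP2 _) fun s hs => ⟨?_, hp s hs⟩
    have h1 := D4_norm hF s (P (Q j p))
    have h2 := D4_abs hs
    have h3 := hP1 (Q j p)
    linarith
  have hsrc : ∀ (j : Fin 4) (p : Y), ‖p.1‖ < 17 / 10 → p ∈ (Q j).source := by
    intro j p hp
    rw [hP.src j]
    exact hp
  have hcont : ContinuousOn (fun z : ℝ × X => F z.1 z.2) (Icc (-(1 / 20)) (1 / 20) ×ˢ univ) := by
    rintro ⟨t0, v0⟩ ⟨ht0, -⟩
    have ht0' : |t0| ≤ 1 / 20 := abs_le.2 ht0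
    have hp0 : P v0 ∈ (Q (J v0)).source := hsrc _ _ (by linarith [hP1 v0])
    have hv0 : v0 ∈ (Q (J v0)).target := by
      have := (Q (J v0)).map_source hp0
      rwa [hP2] at this
    have hsy : (Q (J v0)).symm v0 = P v0 := by
      have := (Q (J v0)).left_inv hp0
      rwa [hP2] at this
    have hc1 : ContinuousAt (Q (J v0)).symm v0 := (Q (J v0)).continuousAt_symm hv0
    have hc2 : ContinuousAt (fun z : ℝ × X => psi q z.1 ((Q (J v0)).symm z.2)) (t0, v0) := by
      have h1 : ContinuousAt (fun z : ℝ × X => (z.1, (Q (J v0)).symm z.2)) (t0, v0) :=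
        continuousAt_fst.prodMk (ContinuousAt.comp (f := Prod.snd) hc1 continuousAt_snd)
      exact D4_comp hF.cont h1
    have hc3 : ContinuousAt
        (fun z : ℝ × X => Q (J v0) (psi q z.1 ((Q (J v0)).symm z.2))) (t0, v0) := by
      refine ContinuousAt.comp (g := Q (J v0)) ((Q (J v0)).continuousAt (hsrc _ _ ?_)) hc2
      have h1 := D4_norm hF t0 ((Q (J v0)).symm v0)
      rw [hsy] at h1
      have h3 := hP1 v0
      show ‖(psi q t0 ((Q (J v0)).symm v0)).1‖ < 17 / 10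
      rw [hsy]
      linarith
    have hn : ∀ᶠ v in 𝓝 v0, v ∈ (Q (J v0)).target ∧ ‖((Q (J v0)).symm v).1‖ < 31 / 20 := by
      refine ((Q (J v0)).open_target.eventually_mem hv0).and ?_
      have h1 : ContinuousAt (fun v => ‖((Q (J v0)).symm v).1‖) v0 := hc1.fst.norm
      refine h1.eventually_lt continuousAt_const ?_
      show ‖((Q (J v0)).symm v0).1‖ < 31 / 20
      rw [hsy]
      linarith [hP1 v0]
    have hev : ∀ᶠ z in 𝓝[Icc (-(1 / 20 : ℝ)) (1 / 20) ×ˢ univ] (t0, v0),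
        F z.1 z.2 = Q (J v0) (psi q z.1 ((Q (J v0)).symm z.2)) := by
      have h1 : ∀ᶠ z : ℝ × X in 𝓝 (t0, v0),
          z.2 ∈ (Q (J v0)).target ∧ ‖((Q (J v0)).symm z.2).1‖ < 31 / 20 :=
        (continuousAt_snd (p := (t0, v0))).eventually hn
      filter_upwards [self_mem_nhdsWithin, nhdsWithin_le_nhds h1] with z hz hz'
      have hz1 : |z.1| ≤ 1 / 20 := abs_le.2 hz.1
      have h2 := key z.1 (J v0) ((Q (J v0)).symm z.2) hz1 fun s hs => by
        have h3 := D4_norm hF s ((Q (J v0)).symm z.2)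
        have h4 := D4_abs hs
        linarith [hz'.2]
      rwa [(Q (J v0)).right_inv hz'.1] at h2
    refine hc3.continuousWithinAt.congr_of_eventuallyEq hev ?_
    show F t0 v0 = Q (J v0) (psi q t0 ((Q (J v0)).symm v0))
    rw [hsy]
  have hzero : ∀ x, F 0 x = x := by
    intro x
    show Q (J x) (psi q 0 (P x)) = x
    rw [hF.zero, hP2]
  have hadd : ∀ s t x, |s| ≤ 1 / 20 → |t| ≤ 1 / 20 → |s + t| ≤ 1 / 20 →
      F (s + t) x = F s (F t x) := by
    intro s t x hs ht hst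
    have h2 := key s (J x) (psi q t (P x)) hs fun s' hs' => by
      rw [← hF.add]
      have h3 := D4_norm hF (s' + t) (P x)
      have h4 : |s' + t| ≤ 1 / 20 := by
        rw [abs_le] at ht hst ⊢
        rcases mem_uIcc.1 hs' with h | h <;> constructor <;> linarith [h.1, h.2]
      linarith [hP1 x]
    show Q (J x) (psi q (s + t) (P x)) = F s (Q (J x) (psi q t (P x)))
    rw [h2, hF.add]
  obtain ⟨Φ, hΦ⟩ := h X F (1 / 20) (by norm_num) hcont hzero hadd
  refine ⟨Φ, fun j p T hp => ?_⟩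
  obtain ⟨m, hm⟩ := exists_nat_ge (20 * |T|)
  have hn0 : (0 : ℝ) < (m + 1 : ℕ) := by positivity
  set δ : ℝ := T / (m + 1 : ℕ) with hδ
  have hTδ : ((m + 1 : ℕ) : ℝ) * δ = T := by rw [hδ]; field_simp
  have hδ1 : |δ| ≤ 1 / 20 := by
    rw [hδ, abs_div, abs_of_pos hn0, div_le_iff₀ hn0]
    push_cast
    linarith
  have ind : ∀ k : ℕ, k ≤ m + 1 → Φ (k * δ) (Q j p) = Q j (psi q (k * δ) p) := by
    intro k
    induction k with
    | zero =>
      intro _
      simp [hF.zero]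
    | succ k ih =>
      intro hk
      have e : ((k + 1 : ℕ) : ℝ) * δ = δ + k * δ := by push_cast; ring
      rw [e, Φ.map_add, ih (by omega), hΦ _ _ hδ1, hF.add]
      refine key δ j _ hδ1 fun s hs => ?_
      rw [← hF.add]
      refine hp _ ?_
      rw [← hTδ]
      exact D4_step hk hs
  have := ind (m + 1) le_rfl
  rwa [hTδ] at this

end Pool.Agent.MP_ff5407_an.H58
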