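import Pool.Agent.MP_ff5407_an.H58.Spec

/-! The changes of charts of the phase space preserve the model measure. -/

open scoped ContDiff Topology Manifold NNReal ENNReal ComplexConjugate
open Set Filter MeasureTheory Complex

noncomputable section

namespace Pool.Agent.MP_ff5407_an.H58

theorem D6_shift (h : CM) (k : ℂ) (S : Set Y) :
    (volume.prod cm) ((fun p : Y => (p.1 + k, p.2)) ⁻¹' S) = (volume.prod cm) S := by
  have := h.fin
  have hp : MeasurePreserving
      ((MeasurableEquiv.addRight k).prodCongr (MeasurableEquiv.refl Circle))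
      (volume.prod cm) (volume.prod cm) :=
    (measurePreserving_add_right (volume : Measure ℂ) k).prod (MeasurePreserving.id cm)
  exact hp.measure_preimage_equiv S

def D6_c : Fin 4 → ℂ := ![1, -1, I, -I]

theorem D6_half (x : ℂ) (hx : x ≠ 0) : ∃ a, 0 < (x * conj (D6_c a)).re := by
  by_contra hc
  push Not at hc
  have h0 := hc 0
  have h1 := hc 1
  have h2 := hc 2
  have h3 := hc 3
  simp [D6_c] at h0 h1 h2 h3
  exact hx (Complex.ext (le_antisymm h0 h1) (le_antisymm h2 h3))

theorem D6_zz : Measurable zz := by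
  unfold zz
  fun_prop

theorem D6_piece {q : ℝ → ℝ} (h : CM) (hF : FlatM q) (T : Y → Y) (B : Set Y) (k c c' : ℂ)
    (hB : MeasurableSet B) (hT : MeasurableSet (T '' B))
    (h1 : ∀ p ∈ B, 1 / 5 ≤ ‖p.1‖ ∧ 0 < (p.1 * conj c).re)
    (h2 : ∀ p ∈ B, 1 / 5 ≤ ‖(T p).1‖ ∧ 0 < ((T p).1 * conj c').re)
    (h3 : ∀ p ∈ B, zz p.1 - zz (T p).1 = k ∧ th p = th (T p)) : mm q (T '' B) = mm q B := by
  have key : ∀ p ∈ B, ((Zf (T p)).1 + k, (Zf (T p)).2) = Zf p := by
    intro p hp
    have n1 : p.1 ≠ 0 := by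
      intro e
      have := (h1 p hp).1
      rw [e, norm_zero] at this
      linarith
    have n2 : (T p).1 ≠ 0 := by
      intro e
      have := (h2 p hp).1
      rw [e, norm_zero] at this
      linarith
    refine Prod.ext ?_ (Circle.ext ?_)
    · show zz (T p).1 + k = zz p.1
      rw [← (h3 p hp).1]; ring
    · show ((Zf (T p)).2 : ℂ) = (Zf p).2
      rw [Zf_snd _ n1, Zf_snd _ n2, (h3 p hp).2]
  rw [hF c B hB h1, hF c' (T '' B) hT (by rintro _ ⟨p, hp, rfl⟩; exact h2 p hp),
    ← D6_shift h k (Zf '' B)]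
  congr 1
  ext y
  constructor
  · rintro ⟨_, ⟨p, hp, rfl⟩, rfl⟩
    exact ⟨p, hp, (key p hp).symm⟩
  · rintro ⟨p, hp, e⟩
    refine ⟨T p, ⟨p, hp, rfl⟩, ?_⟩
    rw [← key p hp] at e
    have e1 := congrArg Prod.fst e
    have e2 := congrArg Prod.snd e
    exact Prod.ext (add_right_cancel e1) e2

theorem D6_img (T : OpenPartialHomeomorph Y Y) (B : Set Y) (hB : MeasurableSet B)
    (hs : B ⊆ T.source) : MeasurableSet (T '' B) :=
  hB.image_of_continuousOn_injOn (T.continuousOn.mono hs) (T.injOn.mono hs)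

theorem D6_glue (μ : Measure Y) (T : OpenPartialHomeomorph Y Y) (A : Set Y) (hA : MeasurableSet A)
    (hs : A ⊆ T.source) {ι : Type} [Countable ι] [Nonempty ι] (U : ι → Set Y)
    (hU : ∀ i, MeasurableSet (U i)) (hc : ∀ p ∈ A, ∃ i, p ∈ U i)
    (hp : ∀ i B, MeasurableSet B → B ⊆ A → B ⊆ U i → μ (T '' B) = μ B) : μ (T '' A) = μ A := by
  obtain ⟨e, he⟩ := exists_surjective_nat ι
  set P : ℕ → Set Y := fun n => A ∩ disjointed (fun n => U (e n)) n with hP
  have hm : ∀ n, MeasurableSet (P n) := fun n =>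
    hA.inter (MeasurableSet.disjointed (fun n => hU (e n)) n)
  have hsub : ∀ n, P n ⊆ A := fun n => inter_subset_left
  have hd : Pairwise (Function.onFun Disjoint P) := fun a b hab =>
    (disjoint_disjointed (fun n => U (e n)) hab).mono inter_subset_right inter_subset_right
  have hu : A = ⋃ n, P n := by
    rw [hP, ← inter_iUnion, iUnion_disjointed]
    refine (inter_eq_left.mpr fun p hp => ?_).symm
    obtain ⟨i, hi⟩ := hc p hp
    obtain ⟨n, rfl⟩ := he i
    exact mem_iUnion.mpr ⟨n, hi⟩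
  have hd' : Pairwise (Function.onFun Disjoint fun n => T '' P n) := fun a b hab =>
    (hd hab).image (T.injOn.mono hs) (hsub a) (hsub b)
  calc μ (T '' A) = μ (⋃ n, T '' P n) := by rw [← image_iUnion, ← hu]
    _ = ∑' n, μ (T '' P n) :=
        measure_iUnion hd' fun n => D6_img T _ (hm n) ((hsub n).trans hs)
    _ = ∑' n, μ (P n) := tsum_congr fun n =>
        hp (e n) _ (hm n) (hsub n) (inter_subset_right.trans (disjointed_subset _ n))
    _ = μ A := by rw [← measure_iUnion hd hm, ← hu]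

theorem rD6 : RD6 := by
  classical
  intro X _ Q q hQ hC hF j l A hA hAs
  by_cases hjl : j = l
  · subst hjl
    congr 1
    refine (image_congr fun p hp => ?_).trans (image_id' A)
    exact (Q j).left_inv (by rw [hQ.src]; exact (hAs p hp).1)
  set T : OpenPartialHomeomorph Y Y := (Q j).trans (Q l).symm with hT
  have hs : A ⊆ T.source := fun p hp => by
    rw [hT, OpenPartialHomeomorph.trans_source]
    exact ⟨by rw [hQ.src]; exact (hAs p hp).1, (hAs p hp).2⟩
  have hov : ∀ p ∈ A, ‖(T p).1‖ < 17 / 10 ∧ 2 ≤ ‖p.1‖ + ‖(T p).1‖ ∧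
      (∃ m n : ℤ, zz p.1 - zz (T p).1 = m + n * I) ∧ th p = th (T p) := by
    intro p hp
    have a1 : T p ∈ (Q l).source := (Q l).map_target (hAs p hp).2
    rw [hQ.src] at a1
    have a2 : Q j p = Q l (T p) := ((Q l).right_inv (hAs p hp).2).symm
    exact ⟨a1, (hQ.ovl j l p (T p) (hAs p hp).1 a1 a2).resolve_left hjl⟩
  set T' : Y → Y := T.source.piecewise T id with hT'
  have hm : Measurable T' :=
    T.continuousOn.measurable_piecewise continuousOn_id T.open_source.measurableSet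
  have hTT : ∀ p ∈ A, T' p = T p := fun p hp => piecewise_eq_of_mem _ _ _ (hs hp)
  have hz := D6_zz
  refine D6_glue (mm q) T A hA hs (ι := (ℤ × ℤ) × Fin 4 × Fin 4)
    (fun i => {p | zz p.1 - zz (T' p).1 = i.1.1 + i.1.2 * I} ∩
      ({p | 0 < (p.1 * conj (D6_c i.2.1)).re} ∩ {p | 0 < ((T' p).1 * conj (D6_c i.2.2)).re}))
    (fun i => ?_) (fun p hp => ?_) fun i B hB hBA hBU => ?_
  · refine (measurableSet_eq_fun (by fun_prop) measurable_const).inter
      ((measurableSet_lt measurable_const (by fun_prop)).inter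
        (measurableSet_lt measurable_const (by fun_prop)))
  · obtain ⟨a1, a2, ⟨m, n, a3⟩, -⟩ := hov p hp
    have a4 := (hAs p hp).1
    obtain ⟨a, ha⟩ := D6_half p.1 (by intro e; rw [e, norm_zero] at a2; linarith)
    obtain ⟨b, hb⟩ := D6_half (T p).1 (by intro e; rw [e, norm_zero] at a2; linarith)
    refine ⟨((m, n), a, b), ?_, ha, ?_⟩
    · show zz p.1 - zz (T' p).1 = _
      rw [hTT p hp]; exact a3
    · show 0 < ((T' p).1 * _).re
      rw [hTT p hp]; exact hb
  · refine D6_piece hC hF T B (i.1.1 + i.1.2 * I) (D6_c i.2.1) (D6_c i.2.2) hB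
      (D6_img T B hB (hBA.trans hs)) (fun p hp => ?_) (fun p hp => ?_) fun p hp => ?_
    · obtain ⟨a1, a2, -⟩ := hov p (hBA hp)
      exact ⟨by linarith, (hBU hp).2.1⟩
    · obtain ⟨a1, a2, -⟩ := hov p (hBA hp)
      have a4 := (hAs p (hBA hp)).1
      refine ⟨by linarith, ?_⟩
      rw [← hTT p (hBA hp)]
      exact (hBU hp).2.2
    · refine ⟨?_, (hov p (hBA hp)).2.2.2⟩
      rw [← hTT p (hBA hp)]
      exact (hBU hp).1

end Pool.Agent.MP_ff5407_an.H58
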