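import Pool.Agent.MP_ff5407_an.H58.Spec

open scoped ContDiff Topology Manifold NNReal ENNReal ComplexConjugate
open Set Filter MeasureTheory Complex

noncomputable section

namespace Pool.Agent.MP_ff5407_an.H58

theorem D7_part {X : Type} [MeasurableSpace X] (U : Fin 4 → Set X)
    (hU : ∀ j, MeasurableSet (U j)) (hc : ∀ v, ∃ j, v ∈ U j) :
    ∃ Z : Fin 4 → Set X, (∀ j, MeasurableSet (Z j)) ∧ (∀ j, Z j ⊆ U j) ∧
      Pairwise (Function.onFun Disjoint Z) ∧ ⋃ j, Z j = univ := by
  refine ⟨disjointed U, fun j => ?_, fun j => disjointed_le U j, disjoint_disjointed U, ?_⟩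
  · exact disjointedRec (p := fun s => MeasurableSet s) (fun t i ht => ht.diff (hU i)) (hU j)
  · rw [iUnion_disjointed]
    exact eq_univ_of_forall fun v => mem_iUnion.2 (hc v)

theorem D7_ext {A B : Type} [TopologicalSpace A] [MeasurableSpace A] [BorelSpace A]
    [TopologicalSpace B] [MeasurableSpace B] [BorelSpace B] (e : OpenPartialHomeomorph A B)
    (b : B) : ∃ f : A → B, Measurable f ∧ ∀ x ∈ e.source, f x = e x := by
  classical
  refine ⟨e.source.piecewise e (fun _ => b), ?_, fun x hx => piecewise_eq_of_mem _ _ _ hx⟩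
  exact ContinuousOn.measurable_piecewise e.continuousOn continuousOn_const
    e.open_source.measurableSet

theorem D7_img {X : Type} [TopologicalSpace X] [MeasurableSpace X] [BorelSpace X]
    (e : OpenPartialHomeomorph Y X) (A : Set Y) (hA : MeasurableSet A) (hs : A ⊆ e.source) :
    MeasurableSet (e '' A) := by
  obtain ⟨g, hg, hge⟩ := D7_ext e.symm ((0 : ℂ), (1 : Circle))
  have : e '' A = e.target ∩ g ⁻¹' A := by
    ext v
    constructor
    · rintro ⟨p, hp, rfl⟩
      have h1 := e.map_source (hs hp)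
      refine ⟨h1, ?_⟩
      rw [mem_preimage, hge _ (by simpa using h1), e.left_inv (hs hp)]
      exact hp
    · rintro ⟨h1, h2⟩
      rw [mem_preimage, hge _ (by simpa using h1)] at h2
      exact ⟨_, h2, e.right_inv h1⟩
  rw [this]
  exact e.open_target.measurableSet.inter (hg hA)

theorem rD7 (h : RD0) : RD7 := by
  intro X _ _ _ Q q hP hM hT
  have hsrc : ∀ j p, ‖p.1‖ < 17 / 10 → p ∈ (Q j).source := fun j p hp => by
    rw [hP.src j]; exact hp
  have hsrc' : ∀ j p, p ∈ (Q j).source → ‖p.1‖ < 17 / 10 := fun j p hp => by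
    rw [hP.src j] at hp; exact hp
  have hcov : ∀ v, ∃ j, v ∈ (Q j).target := by
    intro v
    obtain ⟨j, p, hp, rfl⟩ := hP.cov v
    exact ⟨j, (Q j).map_source (hsrc j p (by linarith))⟩
  obtain ⟨Z, hZm, hZs, hZd, hZu⟩ :=
    D7_part (fun j => (Q j).target) (fun j => (Q j).open_target.measurableSet) hcov
  choose f hf hfe using fun j => D7_ext (Q j) (Q 0 ((0 : ℂ), (1 : Circle)))
  set S : Set Y := {p | ‖p.1‖ < 17 / 10} with hS
  have hSm : MeasurableSet S := by
    rw [hS, ← hP.src 0]; exact (Q 0).open_source.measurableSet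
  set μ0 : Measure X := ∑ j, (Measure.map (f j) ((mm q).restrict S)).restrict (Z j) with hμ0
  have happ : ∀ B : Set X, MeasurableSet B →
      μ0 B = ∑ j, mm q (f j ⁻¹' (B ∩ Z j) ∩ S) := by
    intro B hB
    rw [hμ0, Measure.finsetSum_apply]
    refine Finset.sum_congr rfl fun j _ => ?_
    rw [Measure.restrict_apply hB, Measure.map_apply (hf j) (hB.inter (hZm j)),
      Measure.restrict_apply (hf j (hB.inter (hZm j)))]
  have key : ∀ l (A : Set Y), MeasurableSet A → (∀ p ∈ A, ‖p.1‖ < 17 / 10) →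
      μ0 (Q l '' A) = mm q A := by
    intro l A hA hAs
    have hAs' : A ⊆ (Q l).source := fun p hp => hsrc l p (hAs p hp)
    rw [happ _ (D7_img (Q l) A hA hAs')]
    have h1 : ∀ j, mm q (f j ⁻¹' (Q l '' A ∩ Z j) ∩ S) = mm q (A ∩ f l ⁻¹' Z j) := by
      intro j
      have h2 := hT l j (A ∩ f l ⁻¹' Z j) (hA.inter (hf l (hZm j))) (by
        rintro p ⟨hp, hz⟩
        refine ⟨hAs p hp, ?_⟩
        rw [mem_preimage, hfe l p (hAs' hp)] at hz
        exact hZs j hz)
      rw [← h2]
      congr 1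
      ext p'
      constructor
      · rintro ⟨h3, h4⟩
        have h5 := hsrc j p' h4
        rw [mem_preimage, hfe j p' h5] at h3
        obtain ⟨⟨p, hp, hpe⟩, hz⟩ := h3
        refine ⟨p, ⟨hp, ?_⟩, ?_⟩
        · rw [mem_preimage, hfe l p (hAs' hp), hpe]; exact hz
        · simp only [hpe]
          exact (Q j).left_inv h5
      · rintro ⟨p, ⟨hp, hz⟩, rfl⟩
        rw [mem_preimage, hfe l p (hAs' hp)] at hz
        have h5 : Q l p ∈ (Q j).target := hZs j hz
        have h6 := (Q j).map_target h5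
        refine ⟨?_, hsrc' j _ h6⟩
        rw [mem_preimage, hfe j _ h6, (Q j).right_inv h5]
        exact ⟨⟨p, hp, rfl⟩, hz⟩
    simp only [h1]
    have h7 : A = ⋃ j, A ∩ f l ⁻¹' Z j := by
      rw [← inter_iUnion, ← preimage_iUnion, hZu]; simp
    conv_rhs => rw [h7]
    rw [measure_iUnion ?_ fun j => hA.inter (hf l (hZm j)), tsum_fintype]
    intro i j hij
    exact ((hZd hij).preimage (f l)).mono inter_subset_right inter_subset_right
  have hfin : μ0 univ ≠ ⊤ := by
    rw [happ _ MeasurableSet.univ]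
    refine ENNReal.sum_ne_top.2 fun j _ => ?_
    exact ne_top_of_le_ne_top hM.fin (measure_mono inter_subset_right)
  have hpos : μ0 univ ≠ 0 := by
    intro h0
    have h1 := key 0 S hSm fun p hp => hp
    have h2 : μ0 (Q 0 '' S) = 0 := measure_mono_null (subset_univ _) h0
    exact hM.pos (h1 ▸ h2)
  refine ⟨(μ0 univ)⁻¹ • μ0, ((μ0 univ)⁻¹).toNNReal, ⟨?_⟩, ?_⟩
  · rw [Measure.smul_apply, smul_eq_mul, ENNReal.inv_mul_cancel hpos hfin]
  · intro j A hA hAs
    rw [Measure.smul_apply, smul_eq_mul, key j A hA hAs,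
      ENNReal.coe_toNNReal (ENNReal.inv_ne_top.2 hpos)]

end Pool.Agent.MP_ff5407_an.H58
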