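import Pool.Agent.MP_ff5407_an.H58.Spec

open scoped ContDiff Topology Manifold NNReal ENNReal ComplexConjugate
open Set Filter MeasureTheory Complex

noncomputable section

namespace Pool.Agent.MP_ff5407_an.H58

theorem D8_part {X : Type} [MeasurableSpace X] (U : Fin 4 → Set X)
    (hU : ∀ j, MeasurableSet (U j)) (hc : ∀ v, ∃ j, v ∈ U j) :
    ∃ Z : Fin 4 → Set X, (∀ j, MeasurableSet (Z j)) ∧ (∀ j, Z j ⊆ U j) ∧
      Pairwise (Function.onFun Disjoint Z) ∧ ⋃ j, Z j = univ := by
  refine ⟨disjointed U, fun j => ?_, fun j => disjointed_le U j, disjoint_disjointed U, ?_⟩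
  · exact disjointedRec (p := fun s => MeasurableSet s) (fun t i ht => ht.diff (hU i)) (hU j)
  · rw [iUnion_disjointed]
    exact eq_univ_of_forall fun v => mem_iUnion.2 (hc v)

theorem D8_ext {A B : Type} [TopologicalSpace A] [MeasurableSpace A] [BorelSpace A]
    [TopologicalSpace B] [MeasurableSpace B] [BorelSpace B] (e : OpenPartialHomeomorph A B)
    (b : B) : ∃ f : A → B, Measurable f ∧ ∀ x ∈ e.source, f x = e x := by
  classical
  refine ⟨e.source.piecewise e (fun _ => b), ?_, fun x hx => piecewise_eq_of_mem _ _ _ hx⟩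
  exact ContinuousOn.measurable_piecewise e.continuousOn continuousOn_const
    e.open_source.measurableSet

theorem D8_img {X : Type} [TopologicalSpace X] [MeasurableSpace X] [BorelSpace X]
    (e : OpenPartialHomeomorph Y X) (A : Set Y) (hA : MeasurableSet A) (hs : A ⊆ e.source) :
    MeasurableSet (e '' A) := by
  obtain ⟨g, hg, hge⟩ := D8_ext e.symm ((0 : ℂ), (1 : Circle))
  have : e '' A = e.target ∩ g ⁻¹' A := by
    ext v
    constructor
    · rintro ⟨p, hp, rfl⟩
      have h1 := e.map_source (hs hp)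
      refine ⟨h1, ?_⟩
      rw [mem_preimage, hge _ (by simpa using h1), e.left_inv (hs hp)]
      exact hp
    · rintro ⟨h1, h2⟩
      rw [mem_preimage, hge _ (by simpa using h1)] at h2
      exact ⟨_, h2, e.right_inv h1⟩
  rw [this]
  exact e.open_target.measurableSet.inter (hg hA)

theorem D8_small {X : Type} [TopologicalSpace X] [MeasurableSpace X] [BorelSpace X]
    (Q : Fin 4 → OpenPartialHomeomorph Y X) (q : ℝ → ℝ) (Φ : Flow ℝ X) (μ : Measure X) (c : ℝ≥0)
    (hP : Ph Q) (hF : Fl q) (hM : MM q) (hL : Loc q Q Φ) (hμ : Mu q Q μ c) (s : ℝ)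
    (hs : |s| ≤ 1 / 40) : MeasurePreserving (Φ s) μ μ := by
  have hsrc : ∀ j p, ‖p.1‖ < 17 / 10 → p ∈ (Q j).source := fun j p hp => by
    rw [hP.src j]; exact hp
  have hΦm : Measurable (Φ s) := (Φ.continuous continuous_const continuous_id).measurable
  have hKm : MeasurableSet {p : Y | ‖p.1‖ ≤ 3 / 2} :=
    (isClosed_le (continuous_fst.norm) continuous_const).measurableSet
  have hKs : ∀ j, {p : Y | ‖p.1‖ ≤ 3 / 2} ⊆ (Q j).source := fun j p hp =>
    hsrc j p (by have : ‖p.1‖ ≤ 3 / 2 := hp; linarith)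
  obtain ⟨Z, hZm, hZs, hZd, hZu⟩ :=
    D8_part (fun j => Q j '' {p : Y | ‖p.1‖ ≤ 3 / 2})
      (fun j => D8_img (Q j) _ hKm (hKs j)) (fun v => by
        obtain ⟨j, p, hp, rfl⟩ := hP.cov v
        exact ⟨j, p, hp, rfl⟩)
  choose f hf hfe using fun j => D8_ext (Q j) (Q 0 ((0 : ℂ), (1 : Circle)))
  have hloc : ∀ j (p : Y) (T : ℝ), |T| ≤ 1 / 40 → ‖p.1‖ ≤ 31 / 20 →
      Φ T (Q j p) = Q j (psi q T p) := by
    intro j p T hT hp
    refine hL j p T fun σ hσ => ?_
    have h1 : |σ| ≤ |T| := by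
      have := abs_sub_left_of_mem_uIcc hσ
      simpa using this
    have h2 := (abs_le.1 (hF.speed σ p)).2
    linarith
  have one : ∀ j (B : Set X), MeasurableSet B → B ⊆ Q j '' {p : Y | ‖p.1‖ ≤ 3 / 2} →
      μ (Φ s ⁻¹' B) = μ B := by
    intro j B hB hBs
    set B' : Set Y := {p : Y | ‖p.1‖ ≤ 3 / 2} ∩ f j ⁻¹' B with hB'
    have hB'm : MeasurableSet B' := hKm.inter (hf j hB)
    have e1 : B = Q j '' B' := by
      ext v
      constructor
      · intro hv
        obtain ⟨p, hp, rfl⟩ := hBs hv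
        exact ⟨p, ⟨hp, by rw [mem_preimage, hfe j p (hKs j hp)]; exact hv⟩, rfl⟩
      · rintro ⟨p, ⟨hp, hv⟩, rfl⟩
        rw [mem_preimage, hfe j p (hKs j hp)] at hv
        exact hv
    have hb : ∀ p ∈ psi q s ⁻¹' B', ‖p.1‖ ≤ 31 / 20 := by
      intro p hp
      have h1 : ‖(psi q s p).1‖ ≤ 3 / 2 := hp.1
      have h2 := (abs_le.1 (hF.speed s p)).1
      linarith
    have e2 : Φ s ⁻¹' B = Q j '' (psi q s ⁻¹' B') := by
      ext v
      constructor
      · intro hv
        rw [mem_preimage, e1] at hv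
        obtain ⟨p, hp, hpe⟩ := hv
        have h1 : ‖p.1‖ ≤ 3 / 2 := hp.1
        refine ⟨psi q (-s) p, ?_, ?_⟩
        · rw [mem_preimage, ← hF.add, add_neg_cancel, hF.zero]; exact hp
        · rw [← hloc j p (-s) (by rwa [abs_neg]) (by linarith), hpe, ← Φ.map_add, neg_add_cancel,
            Φ.map_zero_apply]
      · rintro ⟨p, hp, rfl⟩
        rw [mem_preimage, hloc j p s hs (hb p hp), e1]
        exact ⟨_, hp, rfl⟩
    have hpm : Measurable (psi q s) := (hM.inv s).measurable
    rw [e2, hμ j _ (hpm hB'm) (fun p hp => by linarith [hb p hp]),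
      (hM.inv s).measure_preimage hB'm.nullMeasurableSet]
    conv_rhs => rw [e1]
    rw [hμ j _ hB'm (fun p hp => by have : ‖p.1‖ ≤ 3 / 2 := hp.1; linarith)]
  refine ⟨hΦm, Measure.ext fun A hA => ?_⟩
  rw [Measure.map_apply hΦm hA]
  have h7 : A = ⋃ j, A ∩ Z j := by
    rw [← inter_iUnion, hZu]; simp
  have hd : Pairwise (Function.onFun Disjoint fun j => A ∩ Z j) := fun i j hij =>
    (hZd hij).mono inter_subset_right inter_subset_right
  rw [h7, preimage_iUnion, measure_iUnion hd fun j => hA.inter (hZm j),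
    measure_iUnion (fun i j hij => (hd hij).preimage (Φ s)) fun j => hΦm (hA.inter (hZm j))]
  exact tsum_congr fun j => one j _ (hA.inter (hZm j)) (inter_subset_right.trans (hZs j))

theorem rD8 : RD8 := by
  intro X _ _ _ Q q Φ μ c hP hF hM hL hμ t
  obtain ⟨n, hn⟩ := exists_nat_gt (40 * |t|)
  have hn0 : (0 : ℝ) < n := lt_of_le_of_lt (by positivity) hn
  have hs : |t / n| ≤ 1 / 40 := by
    rw [abs_div, abs_of_pos hn0, div_le_iff₀ hn0]; linarith
  have h1 := D8_small Q q Φ μ c hP hF hM hL hμ (t / n) hs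
  have h2 : ∀ k : ℕ, MeasurePreserving (Φ (k * (t / n))) μ μ := by
    intro k
    induction k with
    | zero =>
      have : (Φ (((0 : ℕ) : ℝ) * (t / n)) : X → X) = id := by
        funext x; simp
      rw [this]; exact MeasurePreserving.id μ
    | succ k ih =>
      have : (Φ (((k + 1 : ℕ) : ℝ) * (t / n)) : X → X) = Φ (t / n) ∘ Φ (k * (t / n)) := by
        funext x
        rw [Function.comp_apply, ← Φ.map_add]
        congr 1
        push_cast; ring
      rw [this]; exact h1.comp ih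
  have h3 := h2 n
  rwa [mul_div_cancel₀ _ hn0.ne'] at h3

end Pool.Agent.MP_ff5407_an.H58
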