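import Pool.Agent.MP_ff5407_an.H58.Spec

/-! The number of words in a Hamming ball. -/

open scoped ContDiff Topology Manifold NNReal ENNReal ComplexConjugate
open Set Filter MeasureTheory Complex

noncomputable section

namespace Pool.Agent.MP_ff5407_an.H58

theorem rE1 : RE1 := by
  intro n k m w0 l hl hl1
  have h1 : ∀ w : Fin n → Fin k, l ^ (Finset.univ.filter fun i => w i ≠ w0 i).card =
      ∏ i, (if w i ≠ w0 i then l else 1) := by
    intro w
    rw [Finset.prod_ite, Finset.prod_const, Finset.prod_const_one, mul_one]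
  have h2 : ∑ w : Fin n → Fin k, ∏ i, (if w i ≠ w0 i then l else 1) =
      ∏ i, ∑ a : Fin k, (if a ≠ w0 i then l else 1) := by
    rw [Finset.prod_univ_sum, Fintype.piFinset_univ]
  have h3 : ∀ i, ∑ a : Fin k, (if a ≠ w0 i then l else 1) ≤ 1 + k * l := by
    intro i
    calc ∑ a : Fin k, (if a ≠ w0 i then l else 1)
        ≤ ∑ a : Fin k, ((if a = w0 i then 1 else 0) + l) := by
          refine Finset.sum_le_sum fun a _ => ?_
          by_cases h : a = w0 i
          · simp [h, hl.le]
          · simp [h]
      _ = 1 + k * l := by simp [Finset.sum_add_distrib]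
  rw [le_div_iff₀ (pow_pos hl m), ← nsmul_eq_mul, ← Finset.sum_const]
  calc ∑ _w ∈ (Finset.univ.filter fun w : Fin n → Fin k =>
        (Finset.univ.filter fun i => w i ≠ w0 i).card ≤ m), l ^ m
      ≤ ∑ w ∈ (Finset.univ.filter fun w : Fin n → Fin k =>
        (Finset.univ.filter fun i => w i ≠ w0 i).card ≤ m),
          l ^ (Finset.univ.filter fun i => w i ≠ w0 i).card :=
        Finset.sum_le_sum fun w hw => pow_le_pow_of_le_one hl.le hl1 (Finset.mem_filter.mp hw).2
    _ ≤ ∑ w : Fin n → Fin k, l ^ (Finset.univ.filter fun i => w i ≠ w0 i).card :=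
        Finset.sum_le_sum_of_subset_of_nonneg (Finset.filter_subset _ _) fun _ _ _ => by positivity
    _ = ∏ i, ∑ a : Fin k, (if a ≠ w0 i then l else 1) := by rw [← h2]; simp only [h1]
    _ ≤ ∏ _i : Fin n, (1 + k * l) :=
        Finset.prod_le_prod (fun i _ => Finset.sum_nonneg fun a _ => by split_ifs <;> positivity)
          fun i _ => h3 i
    _ = (1 + k * l) ^ n := by simp

end Pool.Agent.MP_ff5407_an.H58
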