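import Pool.Agent.MP_ff5407_an.H58.Spec

/-! Row E2: an entropy bound for a distribution concentrated on a small set. -/

open scoped ContDiff Topology Manifold NNReal ENNReal ComplexConjugate
open Set Filter MeasureTheory Complex

noncomputable section

namespace Pool.Agent.MP_ff5407_an.H58

theorem E2_pt (p N : ℝ) (hp : 0 ≤ p) (hN : 0 < N) :
    Real.negMulLog p ≤ p * Real.log N + 1 / N := by
  rcases hp.eq_or_lt with h | h
  · subst h
    simp [hN.le]
  · have h1 : Real.log (1 / (p * N)) ≤ 1 / (p * N) - 1 :=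
      Real.log_le_sub_one_of_pos (by positivity)
    rw [one_div, Real.log_inv, Real.log_mul h.ne' hN.ne'] at h1
    have h2 := mul_le_mul_of_nonneg_left h1 hp
    have h3 : p * ((p * N)⁻¹ - 1) = 1 / N - p := by field_simp
    rw [h3] at h2
    simp only [Real.negMulLog]
    nlinarith

theorem E2_sum {W : Type} (p : W → ℝ) (A : Finset W) (N : ℝ) (hp : ∀ w, 0 ≤ p w) (hN : 0 < N)
    (hA : (A.card : ℝ) ≤ N) :
    ∑ w ∈ A, Real.negMulLog (p w) ≤ (∑ w ∈ A, p w) * Real.log N + 1 := by
  have h1 : ∑ w ∈ A, Real.negMulLog (p w) ≤ ∑ w ∈ A, (p w * Real.log N + 1 / N) :=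
    Finset.sum_le_sum fun w _ => E2_pt _ _ (hp w) hN
  rw [Finset.sum_add_distrib, ← Finset.sum_mul, Finset.sum_const, nsmul_eq_mul] at h1
  have h2 : (A.card : ℝ) * (1 / N) ≤ 1 := by
    rw [mul_one_div, div_le_one hN]
    exact hA
  linarith

theorem rE2 : RE2 := by
  classical
  intro W _ p Ω N θ hp hsum hN hΩ hθ
  have hne : Nonempty W := by
    by_contra h
    rw [not_nonempty_iff] at h
    simp at hsum
  have hM : (1 : ℝ) ≤ Fintype.card W := by exact_mod_cast Fintype.card_pos
  have h1 := E2_sum p Ω N hp (by linarith) hΩ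
  have h2 := E2_sum p Ωᶜ (Fintype.card W) hp (by linarith)
    (by exact_mod_cast Finset.card_le_univ _)
  have h3 := Finset.sum_add_sum_compl Ω p
  have h4 := Finset.sum_add_sum_compl Ω fun w => Real.negMulLog (p w)
  have h5 : 0 ≤ ∑ w ∈ Ωᶜ, p w := Finset.sum_nonneg fun w _ => hp w
  have h6 : 0 ≤ Real.log N := Real.log_nonneg hN
  have h7 : 0 ≤ Real.log (Fintype.card W) := Real.log_nonneg hM
  have h8 : (∑ w ∈ Ω, p w) * Real.log N ≤ 1 * Real.log N :=
    mul_le_mul_of_nonneg_right (by linarith) h6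
  have h9 : (∑ w ∈ Ωᶜ, p w) * Real.log (Fintype.card W) ≤ θ * Real.log (Fintype.card W) :=
    mul_le_mul_of_nonneg_right (by linarith) h7
  linarith

end Pool.Agent.MP_ff5407_an.H58
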