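import Pool.Agent.MP_ff5407_an.H58.Spec

/-! Subexponential Bowen covers give zero entropy. -/

open scoped ContDiff Topology Manifold NNReal ENNReal ComplexConjugate
open Set Filter MeasureTheory Complex

noncomputable section

namespace Pool.Agent.MP_ff5407_an.H58

theorem E3_est (h1 : RE1) (h2 : RE2) {X : Type} [TopologicalSpace X] [T2Space X] [CompactSpace X]
    [SecondCountableTopology X] [MeasurableSpace X] [BorelSpace X] (μ : Measure X)
    [IsProbabilityMeasure μ] {T : X → X} (hT : MeasurePreserving T μ μ) (hB : Bow μ T) {k : ℕ}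
    {P : X → Fin k} (hP : Measurable P) {θ : ℝ} (h0 : 0 < θ) (hθ : θ ≤ 1) : ∀ᶠ n : ℕ in atTop,
    ∑ w : Fin n → Fin k, Real.negMulLog (μ.real {x | ∀ i : Fin n, P (T^[i] x) = w i}) ≤
      2 + n * (θ + k * θ + 2 * Real.negMulLog θ + 2 * θ * Real.log k) := by
  classical
  choose K hK1 hK2 hK3 using fun j : Fin k => (hP (measurableSet_singleton j)).exists_isClosed_sdiff_lt
    (μ := μ) (measure_ne_top _ _) (ε := ENNReal.ofReal (θ ^ 2 / (k + 1)))
    (ENNReal.ofReal_pos.2 (by positivity)).ne'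
  obtain ⟨Z, hZ⟩ : ∃ Z : Set X, Z = (⋃ j, K j)ᶜ := ⟨_, rfl⟩
  have mZ : MeasurableSet Z := hZ ▸ (MeasurableSet.iUnion fun j => (hK2 j).measurableSet).compl
  have sZ : μ.real Z ≤ θ ^ 2 := by
    have a1 : Z ⊆ ⋃ j, (P ⁻¹' {j} \ K j) := fun x hx =>
      mem_iUnion.2 ⟨P x, rfl, fun h => (hZ ▸ hx : x ∈ (⋃ j, K j)ᶜ) (mem_iUnion.2 ⟨_, h⟩)⟩
    refine (measureReal_mono a1).trans ((measureReal_iUnion_fintype_le _).trans
      ((Finset.sum_le_card_nsmul _ _ (θ ^ 2 / (k + 1)) fun j _ =>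
        ENNReal.toReal_le_of_le_ofReal (by positivity) (hK3 j).le).trans ?_))
    rw [Finset.card_fin, nsmul_eq_mul, ← mul_div_assoc, div_le_iff₀ (by positivity)]
    nlinarith [sq_nonneg θ]
  have hR : IsOpen {z : X × X | ∀ j l, j ≠ l → ¬ (z.1 ∈ K j ∧ z.2 ∈ K l)} := by
    simp only [ofPred_forall]
    exact isOpen_iInter_of_finite fun j => isOpen_iInter_of_finite fun l =>
      isOpen_iInter_of_finite fun _ => ((hK2 j).prod (hK2 l)).isOpen_compl
  filter_upwards [hB _ hR (fun x j l hjl h => hjl ((hK1 j h.1).symm.trans (hK1 l h.2))) θ h0,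
    eventually_gt_atTop 0] with n ⟨𝓑, b1, b2, b3⟩ hn
  have n0 : (0 : ℝ) < n := by exact_mod_cast hn
  obtain ⟨J, hJ⟩ : ∃ J : X → ℝ, J = fun x => ∑ i : Fin n, (T^[i] ⁻¹' Z).indicator 1 x := ⟨_, rfl⟩
  have mi : ∀ i : Fin n, MeasurableSet (T^[i] ⁻¹' Z) := fun i => (hT.iterate i).measurable mZ
  have sJ : μ.real {x | θ * n ≤ J x} ≤ θ := by
    have ii : ∀ i : Fin n, Integrable ((T^[i] ⁻¹' Z).indicator (1 : X → ℝ)) μ := fun i =>
      (integrable_const 1).indicator (mi i)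
    have := mul_meas_ge_le_integral_of_nonneg (μ := μ) (f := J)
      (.of_forall fun x => hJ ▸ Finset.sum_nonneg fun i _ => indicator_nonneg (fun _ _ => zero_le_one) _)
      (hJ ▸ integrable_finsetSum _ fun i _ => ii i) (θ * n)
    rw [hJ, integral_finsetSum _ fun i _ => ii i] at this
    simp only [integral_indicator_one (mi _),
      (hT.iterate _).measureReal_preimage mZ.nullMeasurableSet, Finset.sum_const, Finset.card_fin,
      nsmul_eq_mul] at this
    refine le_of_mul_le_mul_left ?_ (mul_pos h0 n0)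
    rw [hJ]
    nlinarith [mul_le_mul_of_nonneg_left sZ n0.le]
  obtain ⟨nm, hnm⟩ : ∃ nm : X → Fin n → Fin k, nm = fun x (i : Fin n) => P (T^[i] x) := ⟨_, rfl⟩
  have mn : Measurable nm := hnm ▸ measurable_pi_lambda _ fun i => hP.comp (hT.iterate i).measurable
  have ep : ∀ w : Fin n → Fin k, {x | ∀ i : Fin n, P (T^[i] x) = w i} = nm ⁻¹' {w} := fun w => by
    ext x; simp [hnm, funext_iff]
  have es : ∀ s : Finset (Fin n → Fin k), ∑ w ∈ s, μ.real (nm ⁻¹' {w}) = μ.real (nm ⁻¹' s) :=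
    fun s => sum_measureReal_preimage_singleton s fun w _ => mn (measurableSet_singleton w)
  obtain ⟨m, hm⟩ : ∃ m : ℕ, m = ⌊2 * θ * n⌋₊ := ⟨_, rfl⟩
  let Ω : Set X → Finset (Fin n → Fin k) := fun B =>
    Finset.univ.filter fun w => ∃ x ∈ B, J x < θ * n ∧ nm x = w
  have p1 : 1 ≤ (1 + k * θ) ^ n := one_le_pow₀ (le_add_of_nonneg_right (by positivity))
  have p2 : 1 ≤ (1 + k * θ) ^ n / θ ^ m := by
    rw [one_le_div (by positivity)]
    exact (pow_le_one₀ h0.le hθ).trans p1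
  have cB : ∀ B ∈ 𝓑, ((Ω B).card : ℝ) ≤ (1 + k * θ) ^ n / θ ^ m := by
    intro B hB
    rcases (Ω B).eq_empty_or_nonempty with h | ⟨_, h⟩
    · rw [h, Finset.card_empty, Nat.cast_zero]; positivity
    obtain ⟨y, hy, hy', -⟩ := (Finset.mem_filter.1 h).2
    refine le_trans (Nat.cast_le.2 (Finset.card_le_card fun w hw => ?_)) (h1 n k m (nm y) θ h0 hθ)
    obtain ⟨x, hx, hx', rfl⟩ := (Finset.mem_filter.1 hw).2
    refine Finset.mem_filter.2 ⟨Finset.mem_univ _, hm ▸ Nat.le_floor (le_trans ?_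
      (by linarith : J x + J y ≤ 2 * θ * n))⟩
    rw [hJ, ← Finset.sum_add_distrib, Finset.card_filter, Nat.cast_sum]
    refine Finset.sum_le_sum fun i _ => ?_
    by_cases c1 : T^[i] x ∈ Z <;> by_cases c2 : T^[i] y ∈ Z <;> split_ifs with c3 <;>
      simp [c1, c2]
    simp only [hZ, mem_compl_iff, not_not, mem_iUnion] at c1 c2
    obtain ⟨j, c1⟩ := c1
    obtain ⟨l, c2⟩ := c2
    refine (b3 B hB x hx y hy i i.2 j l (fun e => c3 ?_) ⟨c1, c2⟩).elim
    rw [hnm]
    exact (hK1 j c1).trans (e.trans (Eq.symm (hK1 l c2)))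
  have e1 : 1 ≤ Real.exp (θ * n) := Real.one_le_exp (by positivity)
  have key := h2 (Fin n → Fin k) (fun w => μ.real (nm ⁻¹' {w})) (𝓑.biUnion Ω)
    (Real.exp (θ * n) * ((1 + k * θ) ^ n / θ ^ m)) (2 * θ) (fun _ => measureReal_nonneg)
    (by rw [es]; simp) (one_le_mul_of_one_le_of_one_le e1 p2) (by
      refine (Nat.cast_le.2 Finset.card_biUnion_le).trans ?_
      rw [Nat.cast_sum]
      refine (Finset.sum_le_card_nsmul _ _ _ cB).trans ?_
      rw [nsmul_eq_mul]
      gcongr) (by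
      have a1 : (nm ⁻¹' (𝓑.biUnion Ω : Finset _))ᶜ ⊆ (⋃ B ∈ 𝓑, B)ᶜ ∪ {x | θ * n ≤ J x} := by
        intro x hx
        by_contra hc
        simp only [mem_union, mem_compl_iff, not_or, not_not, mem_iUnion, mem_ofPred_eq,
          not_le] at hc
        obtain ⟨⟨B, hB, hxB⟩, hc⟩ := hc
        exact hx (Finset.mem_coe.2 (Finset.mem_biUnion.2
          ⟨B, hB, Finset.mem_filter.2 ⟨Finset.mem_univ _, x, hxB, hc, rfl⟩⟩))
      have a2 := (measureReal_mono a1 (measure_ne_top μ _)).trans (measureReal_union_le _ _)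
      have a3 : μ.real (⋃ B ∈ 𝓑, B)ᶜ ≤ θ := ENNReal.toReal_le_of_le_ofReal h0.le b2
      rw [probReal_compl_eq_one_sub (mn (Finset.measurableSet _))] at a2
      rw [es]
      linarith)
  simp only [ep]
  refine key.trans ?_
  rw [Real.log_mul (by positivity) (by positivity), Real.log_exp,
    Real.log_div (by positivity) (by positivity), Real.log_pow, Real.log_pow, Fintype.card_fun,
    Fintype.card_fin, Fintype.card_fin, Nat.cast_pow, Real.log_pow, Real.negMulLog]
  have c1 := mul_le_mul_of_nonneg_left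
    (Real.log_le_sub_one_of_pos (by positivity : 0 < 1 + k * θ)) n0.le
  have c2 := mul_le_mul_of_nonneg_right (hm ▸ Nat.floor_le (by positivity) : (m : ℝ) ≤ 2 * θ * n)
    (neg_nonneg.2 (Real.log_nonpos h0.le hθ))
  linarith

theorem rE3 (h1 : RE1) (h2 : RE2) : RE3 := by
  intro X _ _ _ _ _ _ μ _ T hT hB k P hP
  refine tendsto_order.2 ⟨fun a ha => .of_forall fun n => ha.trans_le (div_nonneg
    (Finset.sum_nonneg fun w _ => Real.negMulLog_nonneg measureReal_nonneg measureReal_le_one)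
    n.cast_nonneg), fun a ha => ?_⟩
  have c : Continuous fun θ : ℝ => θ + k * θ + 2 * Real.negMulLog θ + 2 * θ * Real.log k := by
    have := Real.continuous_negMulLog
    fun_prop
  obtain ⟨θ, t1, t2, t3⟩ := ((((c.tendsto' 0 0 (by simp)).eventually_lt_const
    (half_pos ha)).filter_mono nhdsWithin_le_nhds).and (Ioc_mem_nhdsGT one_pos)).exists
  filter_upwards [E3_est h1 h2 μ hT hB hP t2 t3, eventually_gt_atTop 0,
    (tendsto_const_div_atTop_nhds_zero_nat (2 : ℝ)).eventually_lt_const (half_pos ha)] with n a1 a2 a3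
  have n0 : (0 : ℝ) < n := by exact_mod_cast a2
  rw [div_lt_iff₀ n0] at a3 ⊢
  nlinarith [mul_lt_mul_of_pos_left t1 n0]

end Pool.Agent.MP_ff5407_an.H58
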