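import Pool.Agent.MP_ff5407_an.H58.Spec

/-! Row `F0`: exit from the cap, safe times, uniform continuity of the model flow. -/

open scoped ContDiff Topology Manifold NNReal ENNReal ComplexConjugate
open Set Filter MeasureTheory Complex

noncomputable section

namespace Pool.Agent.MP_ff5407_an.H58

theorem F0_cap {q : ℝ → ℝ} (hq : Pre q) (hb : Bas q) (hf : Fl q) : Cap q := by
  obtain ⟨K, hK⟩ := hq.hi
  have hK0 : 0 ≤ K := by linarith [hq.lo 0, hK 0]
  refine ⟨2 * K, fun p hp => ?_⟩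
  have hn := norm_sq_eq p
  have h0 := norm_nonneg p.1
  have hpos : 0 < 1 - xi p ^ 2 := by nlinarith [sq_nonneg (uu p)]
  obtain ⟨u1, hu1, hu2⟩ : ∃ u1 : ℝ, 0 < u1 ∧ u1 ^ 2 = 1 - xi p ^ 2 :=
    ⟨√(1 - xi p ^ 2), Real.sqrt_pos.2 hpos, Real.sq_sqrt hpos.le⟩
  have hab : |uu p| ≤ u1 := abs_le_of_sq_le_sq' (by nlinarith) hu1.le |> abs_le.2
  obtain ⟨ha, hc⟩ := abs_le.1 hab
  have hle : u1 ≤ 1 := by nlinarith [sq_nonneg (xi p)]
  obtain ⟨t, ht⟩ : ∃ t, t = tau q (xi p) u1 - tau q (xi p) (uu p) := ⟨_, rfl⟩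
  have ht0 : 0 ≤ t := by rw [ht]; exact sub_nonneg.2 ((hb.mono _).monotone hc)
  have hut : uu (psi q t p) = u1 := by rw [hf.uu_eq, ht, add_sub_cancel, hb.ut_tau]
  have hone : ‖(psi q t p).1‖ = 1 := by
    have h := norm_sq_eq (psi q t p)
    rw [hut, hf.xi_eq, hu2, sub_add_cancel] at h
    exact (pow_eq_one_iff_of_nonneg (norm_nonneg _) two_ne_zero).1 h
  refine ⟨t, ⟨?_, ?_⟩, fun s hs => ?_, hone, by rw [hut]; exact hu1⟩
  · have h := hf.speed t p
    rw [hone, abs_of_nonneg ht0] at h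
    linarith [(abs_le.1 h).2]
  · have h := image_sub_le_mul_sub_of_deriv_le (f := tau q (xi p)) (C := K)
      (fun u => (hb.d_tau _ u).differentiableAt)
      (fun u => by rw [(hb.d_tau _ u).deriv]; exact hK _) hc
    rw [ht]
    nlinarith
  · have h1 := hf.mono p 0 s hs.1
    have h2 := hf.mono p s t hs.2
    have h := norm_sq_eq (psi q s p)
    rw [hf.zero] at h1
    rw [hut] at h2
    rw [hf.xi_eq] at h
    exact abs_le_of_sq_le_sq' (by nlinarith) zero_le_one |>.2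

theorem F0_safe {q : ℝ → ℝ} (hf : Fl q) (hc : Cap q) : Safe q := by
  obtain ⟨L, hL⟩ := hc
  refine ⟨⌊20 * L⌋₊, fun p hp => ?_⟩
  by_cases h : 2 / 5 ≤ ‖p.1‖
  · refine ⟨0, Nat.zero_le _, fun s hs => ?_, ?_⟩
    · have : s = 0 := le_antisymm (by simpa using hs.2) hs.1
      rw [this, hf.zero]; exact hp
    · rw [Nat.cast_zero, zero_div, hf.zero]; exact h
  · obtain ⟨t, ht, h1, h2, -⟩ := hL p (by linarith [not_le.1 h])
    have a1 := Nat.floor_le (a := 20 * t) (by linarith [ht.1])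
    have a2 := Nat.lt_floor_add_one (20 * t)
    refine ⟨⌊20 * t⌋₊, Nat.floor_le_floor (by linarith [ht.2]), fun s hs => ?_, ?_⟩
    · linarith [h1 s ⟨hs.1, by linarith [hs.2]⟩]
    · have h3 := hf.speed (t - ⌊20 * t⌋₊ / 20) (psi q (⌊20 * t⌋₊ / 20) p)
      rw [← hf.add, sub_add_cancel, h2, abs_of_nonneg (a := t - _) (by linarith)] at h3
      linarith [(abs_le.1 h3).2]

theorem F0_uc {q : ℝ → ℝ} (hf : Fl q) : UC q := by
  intro L η hη
  have hK : IsCompact (Icc (0 : ℝ) L ×ˢ (Metric.closedBall (0 : ℂ) 3 ×ˢ (univ : Set Circle))) :=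
    isCompact_Icc.prod ((isCompact_closedBall _ _).prod isCompact_univ)
  obtain ⟨δ, hδ, h⟩ := Metric.uniformContinuousOn_iff_le.1
    (hK.uniformContinuousOn_of_continuous hf.cont.continuousOn) η hη
  refine ⟨min δ 1, lt_min hδ one_pos, fun p p' hp hd s hs => ?_⟩
  have h1 : dist p.1 p'.1 ≤ 1 :=
    (le_max_left _ _).trans ((Prod.dist_eq (x := p) (y := p')) ▸ hd.trans (min_le_right _ _))
  have h2 : ‖p'.1‖ ≤ 3 := by
    rw [dist_eq_norm] at h1
    linarith [norm_sub_norm_le p'.1 p.1, norm_sub_rev p.1 p'.1]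
  refine h (s, p) ⟨hs, mem_closedBall_zero_iff.2 (by linarith), trivial⟩ (s, p')
    ⟨hs, mem_closedBall_zero_iff.2 h2, trivial⟩ ?_
  rw [dist_prod_same_left]
  exact hd.trans (min_le_left _ _)

theorem rF0 : RF0 := fun _ hq hb hf =>
  ⟨F0_cap hq hb hf, F0_safe hf (F0_cap hq hb hf), F0_uc hf⟩

end Pool.Agent.MP_ff5407_an.H58
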