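import Pool.Agent.MP_ff5407_an.H58.Spec

/-! Row F1: one step of the tracking argument in the model. -/

open scoped ContDiff Topology Manifold NNReal ENNReal ComplexConjugate
open Set Filter MeasureTheory Complex

noncomputable section

namespace Pool.Agent.MP_ff5407_an.H58

theorem F1_lin {e z z' w w' : ℂ} {a b s t : ℝ} (he : ‖e‖ = 1) (hz : ‖z - z'‖ ≤ a)
    (hw : ‖w - w'‖ ≤ b) (s0 : 0 ≤ s) (st : s ≤ t) :
    ‖e * (z + s * w) - e * (z' + s * w')‖ ≤ a + t * b ∧ ‖e * w - e * w'‖ ≤ b := by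
  constructor
  · have h : e * (z + s * w) - e * (z' + s * w') = e * ((z - z') + s * (w - w')) := by ring
    rw [h, norm_mul, he, one_mul]
    refine (norm_add_le _ _).trans (add_le_add hz ?_)
    rw [norm_mul, Complex.norm_real, Real.norm_of_nonneg s0]
    exact mul_le_mul st hw (norm_nonneg _) (s0.trans st)
  · rw [← mul_sub, norm_mul, he, one_mul]; exact hw

theorem F1_norm (x y : Y) : |‖x.1‖ - ‖y.1‖| ≤ dist x y := by
  refine (abs_norm_sub_norm_le _ _).trans ?_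
  rw [← dist_eq_norm, Prod.dist_eq]
  exact le_max_left _ _

theorem F1_xi (x : Y) : |xi x| ≤ ‖x.1‖ :=
  abs_le_of_sq_le_sq' (by rw [norm_sq_eq, sq_abs]; nlinarith [sq_nonneg (uu x)]) (norm_nonneg _) |>.2

theorem F1_uu (x : Y) : |uu x| ≤ ‖x.1‖ :=
  abs_le_of_sq_le_sq' (by rw [norm_sq_eq, sq_abs]; nlinarith [sq_nonneg (xi x)]) (norm_nonneg _) |>.2

theorem F1_flat {q : ℝ → ℝ} (hA : FlatA q) {p p' : Y} {a b t : ℝ} (t0 : 0 ≤ t) (hc : Cl a b p p')
    (h : ∀ s ∈ Icc 0 t, 1 / 5 ≤ ‖(psi q s p).1‖) (h' : ∀ s ∈ Icc 0 t, 1 / 5 ≤ ‖(psi q s p').1‖) :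
    ‖zz (psi q t p).1 - zz (psi q t p').1‖ ≤ a + t * b ∧
      ‖th (psi q t p) - th (psi q t p')‖ ≤ b := by
  obtain ⟨e1, e2⟩ := hA p t t0 h
  obtain ⟨e3, e4⟩ := hA p' t t0 h'
  rw [e1, e2, e3, e4]
  simpa using F1_lin (e := 1) norm_one hc.1 hc.2.1 t0 le_rfl

theorem rF1 : RF1 := by
  intro β q E hP hF hA hB hL ⟨L, hC⟩ hU
  obtain ⟨δ, δ0, hδ⟩ := hU (max L (1 / 20)) (1 / 1000) (by norm_num)
  refine ⟨max L (1 / 20), min δ (1 / 100000) / 100, by positivity, fun p p1 p2 => ?_⟩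
  have key : ∀ t ∈ Icc (1 / 20) (max L (1 / 20)), (∀ s ∈ Icc 0 t, ‖(psi q s p).1‖ ≤ 8 / 5) →
      1 / 2 ≤ ‖(psi q t p).1‖ → ∀ (p' : Y) (a b : ℝ), Cl a b p p' →
      a + b ≤ min δ (1 / 100000) / 100 → dist p p' ≤ 1 / 100000 ∧
        (∀ s ∈ Icc 0 t, dist (psi q s p) (psi q s p') ≤ 1 / 1000) ∧
        (∀ s ∈ Icc 0 t, ‖(psi q s p').1‖ < 17 / 10) ∧
        0 < ((psi q t p).1 * conj (psi q t p').1).re := by
    intro t ht h1 h2 p' a b hc hab
    have d1 := hL.of_cl p p' a b (by linarith) (by linarith) hc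
    have d2 : dist p p' ≤ min δ (1 / 100000) := by linarith
    have d3 : ∀ s ∈ Icc 0 t, dist (psi q s p) (psi q s p') ≤ 1 / 1000 := fun s hs =>
      hδ p p' (by linarith) (d2.trans (min_le_left _ _)) s ⟨hs.1, hs.2.trans ht.2⟩
    have t0 : t ∈ Icc 0 t := ⟨by linarith [ht.1], le_rfl⟩
    refine ⟨d2.trans (min_le_right _ _), d3, fun s hs => ?_,
      (hL.to_cl _ _ _ (by linarith) (by linarith [h1 t t0]) (d3 t t0) (by norm_num)).2.2⟩
    have := abs_le.1 ((F1_norm _ _).trans (d3 s hs))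
    linarith [h1 s hs, this.1]
  rcases lt_or_ge (3 / 5) ‖p.1‖ with h | h
  · have ht : (1 / 20 : ℝ) ∈ Icc (1 / 20) (max L (1 / 20)) := ⟨le_rfl, le_max_right _ _⟩
    have sp : ∀ s ∈ Icc (0 : ℝ) (1 / 20), 1 / 2 ≤ ‖(psi q s p).1‖ ∧ ‖(psi q s p).1‖ ≤ 8 / 5 := by
      intro s hs
      have := abs_le.1 (hF.speed s p)
      rw [abs_of_nonneg hs.1] at this
      constructor <;> linarith [hs.2, this.1, this.2]
    have h2 := (sp _ ⟨by norm_num, le_rfl⟩).1
    refine ⟨1 / 20, ht, fun s hs => (sp s hs).2, h2, fun p' a b ε hc hab _ => ?_⟩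
    obtain ⟨-, k2, k3, k4⟩ := key _ ht (fun s hs => (sp s hs).2) h2 p' a b hc hab
    obtain ⟨f1, f2⟩ := F1_flat hA (t := 1 / 20) (by norm_num) hc
      (fun s hs => by linarith [(sp s hs).1]) fun s hs => by
        have := abs_le.1 ((F1_norm _ _).trans (k2 s hs))
        linarith [(sp s hs).1, this.2]
    exact ⟨k3, f1, f2, k4⟩
  obtain ⟨t, ht0, c1, c2, c3⟩ := hC p h
  have ht : t ∈ Icc (1 / 20) (max L (1 / 20)) :=
    ⟨by linarith [ht0.1], ht0.2.trans (le_max_left _ _)⟩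
  have t0 : 0 ≤ t := by linarith [ht0.1]
  have c4 : ∀ s ∈ Icc 0 t, ‖(psi q s p).1‖ ≤ 8 / 5 := fun s hs => by linarith [c1 s hs]
  refine ⟨t, ht, c4, by linarith, fun p' a b ε hc hab hfar => ?_⟩
  obtain ⟨k1, k2, k3, k4⟩ := key _ ht c4 (by linarith) p' a b hc hab
  suffices hs : ‖zz (psi q t p).1 - zz (psi q t p').1‖ ≤ a + t * b ∧
      ‖th (psi q t p) - th (psi q t p')‖ ≤ b from ⟨k3, hs.1, hs.2, k4⟩
  have x1 := hL.xi_le p p' (by linarith)
  have u1 := abs_le.1 (hL.uu_le p p' (by linarith))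
  have x2 := abs_le.1 ((abs_abs_sub_abs_le_abs_sub _ _).trans x1)
  rcases le_or_gt (1 / 4) |xi p| with hx | hx
  · refine F1_flat hA t0 hc (fun s _ => ?_) fun s _ => ?_
    · have := F1_xi (psi q s p)
      rw [hF.xi_eq] at this
      linarith
    · have := F1_xi (psi q s p')
      rw [hF.xi_eq] at this
      linarith [x2.2]
  have x3 : xi p ^ 2 ≤ 1 / 16 := by
    rw [← sq_abs]; nlinarith [abs_nonneg (xi p)]
  have n1 := norm_sq_eq p
  have u2 : 9 / 100 ≤ uu p ^ 2 := by nlinarith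
  rcases le_total 0 (uu p) with hu | hu
  · have u3 : 3 / 10 ≤ uu p := by nlinarith
    refine F1_flat hA t0 hc (fun s hs => ?_) fun s hs => ?_
    · have := hF.mono p 0 s hs.1
      rw [hF.zero] at this
      linarith [F1_uu (psi q s p), le_abs_self (uu (psi q s p))]
    · have := hF.mono p' 0 s hs.1
      rw [hF.zero] at this
      linarith [F1_uu (psi q s p'), le_abs_self (uu (psi q s p')), u1.2]
  have u3 : uu p ≤ -(3 / 10) := by nlinarith
  obtain ⟨⟨g1, g2⟩, g3⟩ := hfar h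
  have g4 := abs_le.1 g3
  have g5 := abs_le.1 ((abs_abs_sub_abs_le_abs_sub _ _).trans g3)
  have s1 : 0 < xi p * xi p' := by
    rcases le_total 0 (xi p) with k | k
    · rw [abs_of_nonneg k] at g1
      exact mul_pos (by linarith [g4.1, g4.2]) (by linarith [g4.2])
    · rw [abs_of_nonpos k] at g1
      exact mul_pos_of_neg_of_neg (by linarith [g4.1, g4.2]) (by linarith [g4.1])
  obtain ⟨eD, eT⟩ := hP.lens _ _ s1 fun b hb => by
    rcases lt_abs.1 (g2 b hb) with k | k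
    · constructor <;> intro k' <;> linarith [g5.1, g5.2]
    · constructor <;> intro k' <;> linarith [g5.1, g5.2]
  have tt : t ∈ Icc 0 t := ⟨t0, le_rfl⟩
  have n2 := norm_sq_eq (psi q t p)
  rw [c2, hF.xi_eq] at n2
  have u4 : 9 / 10 ≤ uu (psi q t p) := by nlinarith
  have u5 := abs_le.1 (hL.uu_le (psi q t p) (psi q t p') (by linarith))
  have n3 := abs_le.1 ((F1_norm _ _).trans (k2 t tt))
  have n4 := abs_le.1 ((F1_norm _ _).trans k1)
  obtain ⟨b1, b2, b3, b4⟩ := hB p t t0 (by linarith) (by linarith) (left_ne_zero_of_mul s1.ne') hu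
    c3.le
  obtain ⟨-, -, b5, b6⟩ := hB p' t t0 (by linarith [n4.2]) (by linarith [n3.2])
    (right_ne_zero_of_mul s1.ne') (by linarith [u1.1]) (by linarith [u5.2, k2 t tt])
  rw [b3, b4, b5, b6, ← eD, ← eT, ← Complex.ofReal_sub]
  refine F1_lin ?_ hc.1 hc.2.1 (by linarith) (by linarith)
  have : (2 * DD q (xi p) : ℂ) = ((2 * DD q (xi p) : ℝ) : ℂ) := by push_cast; rfl
  rw [this]
  exact Complex.norm_exp_ofReal_mul_I _

end Pool.Agent.MP_ff5407_an.H58
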