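import Pool.Agent.MP_ff5407_an.H58.Spec

/-!
Row F2: comparison of the distance of the model with the flat coordinates.
-/

open scoped ContDiff Topology Manifold NNReal ENNReal ComplexConjugate
open Set Filter MeasureTheory Complex

noncomputable section

namespace Pool.Agent.MP_ff5407_an.H58

theorem F2_pol (p : Y) (h : p.1 ≠ 0) : ∃ u : ℂ, ‖u‖ = 1 ∧ p.1 = (‖p.1‖ : ℝ) * u ∧
    zz p.1 = p.1 * u / 2 ∧ th p = (p.2 : ℂ) * u := by
  have h1 : (‖p.1‖ : ℂ) ≠ 0 := by simpa using h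
  have h2 : ‖p.1‖ ≠ 0 := by simpa using h
  refine ⟨p.1 / (‖p.1‖ : ℝ), ?_, ?_, ?_, ?_⟩
  · rw [norm_div, Complex.norm_real, norm_norm, div_self h2]
  · field_simp
  · unfold zz
    field_simp
  · unfold th
    ring

theorem F2_dist (p p' : Y) :
    dist p p' = max ‖p.1 - p'.1‖ ‖(p.2 : ℂ) - (p'.2 : ℂ)‖ := by
  rw [Prod.dist_eq, dist_eq_norm, ← dist_eq_norm (p.2 : ℂ)]
  rfl

theorem F2_pair (p p' : Y) (h : ‖p.1‖ ≤ 2) :
    ‖p.1 * conj (p.2 : ℂ) - p'.1 * conj (p'.2 : ℂ)‖ ≤ 100 * dist p p' := by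
  have d1 : ‖p.1 - p'.1‖ ≤ dist p p' := by rw [F2_dist]; exact le_max_left _ _
  have d2 : ‖(p.2 : ℂ) - (p'.2 : ℂ)‖ ≤ dist p p' := by rw [F2_dist]; exact le_max_right _ _
  have e : p.1 * conj (p.2 : ℂ) - p'.1 * conj (p'.2 : ℂ) =
      p.1 * conj ((p.2 : ℂ) - (p'.2 : ℂ)) + (p.1 - p'.1) * conj (p'.2 : ℂ) := by
    rw [map_sub]; ring
  have h0 : 0 ≤ dist p p' := dist_nonneg
  rw [e]
  refine (norm_add_le _ _).trans ?_
  rw [norm_mul, norm_mul, Complex.norm_conj, Complex.norm_conj, Circle.norm_coe, mul_one]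
  have : ‖p.1‖ * ‖(p.2 : ℂ) - (p'.2 : ℂ)‖ ≤ 2 * dist p p' := by gcongr
  linarith

theorem F2_of_cl (p p' : Y) (a b : ℝ) (h1 : 1 / 5 ≤ ‖p.1‖) (h2 : ‖p.1‖ ≤ 2) (h : Cl a b p p') :
    dist p p' ≤ 100 * (a + b) := by
  obtain ⟨ha, hb, hre⟩ := h
  have hp : p.1 ≠ 0 := by
    intro h0
    rw [h0, norm_zero] at h1
    norm_num at h1
  have hp' : p'.1 ≠ 0 := by
    intro h0
    simp [h0] at hre
  obtain ⟨u, hu, ex, ez, et⟩ := F2_pol p hp
  obtain ⟨u', hu', ex', ez', et'⟩ := F2_pol p' hp'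
  have a0 : 0 ≤ a := (norm_nonneg _).trans ha
  have b0 : 0 ≤ b := (norm_nonneg _).trans hb
  have hn : |‖p.1‖ - ‖p'.1‖| ≤ 2 * a := by
    have := abs_norm_sub_norm_le (zz p.1) (zz p'.1)
    rw [norm_zz, norm_zz, ← sub_div, abs_div, abs_two] at this
    linarith
  have hn' : 0 < ‖p'.1‖ := norm_pos_iff.2 hp'
  set n := ‖p.1‖ with hndef
  set n' := ‖p'.1‖ with hn'def
  have n0 : 0 < n := by linarith
  have hru : 0 < (u * conj u').re := by
    have e : p.1 * conj p'.1 = ((n * n' : ℝ) : ℂ) * (u * conj u') := by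
      conv_lhs => rw [ex, ex']
      rw [map_mul, Complex.conj_ofReal]
      push_cast
      ring
    rw [e, Complex.re_ofReal_mul] at hre
    exact (mul_pos_iff_of_pos_left (mul_pos n0 hn')).1 hre
  have hsum : 1 ≤ ‖u + u'‖ := by
    have e : ‖u + u'‖ ^ 2 = 2 + 2 * (u * conj u').re := by
      rw [Complex.sq_norm, Complex.normSq_add, ← Complex.sq_norm, ← Complex.sq_norm, hu, hu']
      ring
    nlinarith [norm_nonneg (u + u')]
  have hsq : n * (‖u - u'‖ * ‖u + u'‖) ≤ 4 * a := by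
    have e : (n : ℂ) * ((u - u') * (u + u')) =
        2 * (zz p.1 - zz p'.1) - ((n - n' : ℝ) : ℂ) * (u' * u') := by
      rw [ez, ez']
      conv_rhs => rw [ex, ex']
      push_cast
      ring
    have e2 := congrArg norm e
    rw [norm_mul, norm_mul, Complex.norm_real, Real.norm_eq_abs, abs_of_pos n0] at e2
    rw [e2]
    refine (norm_sub_le _ _).trans ?_
    rw [norm_mul, norm_mul, norm_mul, hu', Complex.norm_real, Real.norm_eq_abs]
    simp only [Complex.norm_ofNat, mul_one]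
    linarith
  have huu : ‖u - u'‖ ≤ 20 * a := by
    have t0 := norm_nonneg (u - u')
    have t1 : ‖u - u'‖ ≤ ‖u - u'‖ * ‖u + u'‖ := le_mul_of_one_le_right t0 hsum
    have t2 : 1 / 5 * ‖u - u'‖ ≤ n * (‖u - u'‖ * ‖u + u'‖) := by gcongr
    linarith
  rw [F2_dist, max_le_iff]
  constructor
  · have e : p.1 - p'.1 = (n : ℂ) * (u - u') + ((n - n' : ℝ) : ℂ) * u' := by
      conv_lhs => rw [ex, ex']
      push_cast
      ring
    rw [e]
    refine (norm_add_le _ _).trans ?_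
    rw [norm_mul, norm_mul, hu', Complex.norm_real, Complex.norm_real, Real.norm_eq_abs,
      Real.norm_eq_abs, abs_of_pos n0]
    have : n * ‖u - u'‖ ≤ 2 * (20 * a) := by gcongr
    linarith
  · have e : ((p.2 : ℂ) - (p'.2 : ℂ)) * u' = (th p - th p') - (p.2 : ℂ) * (u - u') := by
      rw [et, et']
      ring
    have e2 := congrArg norm e
    rw [norm_mul, hu', mul_one] at e2
    rw [e2]
    refine (norm_sub_le _ _).trans ?_
    rw [norm_mul, Circle.norm_coe]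
    linarith

theorem F2_to_cl (p p' : Y) (r : ℝ) (h1 : 2 / 5 ≤ ‖p.1‖) (h2 : ‖p.1‖ ≤ 2) (hd : dist p p' ≤ r)
    (hr : r ≤ 1 / 10) : Cl (100 * r) (100 * r) p p' := by
  rw [F2_dist, max_le_iff] at hd
  obtain ⟨d1, d2⟩ := hd
  have r0 : 0 ≤ r := (norm_nonneg _).trans d1
  have hn : |‖p.1‖ - ‖p'.1‖| ≤ r := (abs_norm_sub_norm_le _ _).trans d1
  have hp : p.1 ≠ 0 := by
    intro h0
    rw [h0, norm_zero] at h1
    norm_num at h1
  have hp' : p'.1 ≠ 0 := by
    intro h0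
    rw [h0, norm_zero, sub_zero, abs_norm] at hn
    linarith
  obtain ⟨u, hu, ex, ez, et⟩ := F2_pol p hp
  obtain ⟨u', hu', ex', ez', et'⟩ := F2_pol p' hp'
  have hre : 0 < (p.1 * conj p'.1).re := by
    have e : p.1 * conj p'.1 = ((‖p.1‖ ^ 2 : ℝ) : ℂ) - p.1 * conj (p.1 - p'.1) := by
      rw [map_sub, mul_sub, Complex.mul_conj, Complex.sq_norm]
      ring
    have t := Complex.re_le_norm (p.1 * conj (p.1 - p'.1))
    rw [norm_mul, Complex.norm_conj] at t
    rw [e, Complex.sub_re, Complex.ofReal_re]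
    have : ‖p.1‖ * ‖p.1 - p'.1‖ ≤ ‖p.1‖ * (1 / 10) := by gcongr; linarith
    nlinarith
  set n := ‖p.1‖ with hndef
  set n' := ‖p'.1‖ with hn'def
  have n0 : 0 < n := by linarith
  have huu : ‖u - u'‖ ≤ 5 * r := by
    have e : (n : ℂ) * (u - u') = (p.1 - p'.1) - ((n - n' : ℝ) : ℂ) * u' := by
      conv_rhs => rw [ex, ex']
      push_cast
      ring
    have e2 := congrArg norm e
    rw [norm_mul, Complex.norm_real, Real.norm_eq_abs, abs_of_pos n0] at e2
    have t := norm_sub_le (p.1 - p'.1) (((n - n' : ℝ) : ℂ) * u')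
    rw [norm_mul, hu', Complex.norm_real, Real.norm_eq_abs, ← e2] at t
    have t2 : 2 / 5 * ‖u - u'‖ ≤ n * ‖u - u'‖ := by gcongr
    linarith
  refine ⟨?_, ?_, hre⟩
  · have e : zz p.1 - zz p'.1 = (p.1 * (u - u') + (p.1 - p'.1) * u') / 2 := by
      rw [ez, ez']
      ring
    have t := norm_add_le (p.1 * (u - u')) ((p.1 - p'.1) * u')
    rw [norm_mul, norm_mul, hu'] at t
    have : ‖p.1‖ * ‖u - u'‖ ≤ 2 * (5 * r) := by gcongr
    rw [e, norm_div, Complex.norm_ofNat]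
    linarith
  · have e : th p - th p' = (p.2 : ℂ) * (u - u') + ((p.2 : ℂ) - (p'.2 : ℂ)) * u' := by
      rw [et, et']
      ring
    rw [e]
    refine (norm_add_le _ _).trans ?_
    rw [norm_mul, norm_mul, hu', Circle.norm_coe]
    linarith

theorem rF2 : RF2 := by
  refine ⟨F2_of_cl, F2_to_cl, fun p p' h => ?_, fun p p' h => ?_⟩
  · refine le_trans ?_ (F2_pair p p' h)
    refine le_trans (le_of_eq ?_) (Complex.abs_im_le_norm _)
    rw [Complex.sub_im, abs_sub_comm]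
    unfold xi
    congr 1
    ring
  · refine le_trans ?_ (F2_pair p p' h)
    refine le_trans (le_of_eq ?_) (Complex.abs_re_le_norm _)
    rw [Complex.sub_re]
    rfl

end Pool.Agent.MP_ff5407_an.H58
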