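import Pool.Agent.MP_ff5407_an.H58.Spec

/-!
Row F3: tracking of two nearby orbits, obtained by iterating the one-step lemma and the change of
chart.
-/

open scoped ContDiff Topology Manifold NNReal ENNReal ComplexConjugate
open Set Filter MeasureTheory Complex

noncomputable section

namespace Pool.Agent.MP_ff5407_an.H58

/-- The state carried along the induction. -/
def F3_State {X : Type} [TopologicalSpace X] (Q : Fin 4 → OpenPartialHomeomorph Y X)
    (Φ : Flow ℝ X) (r : ℝ) (v v' : X) (t' : ℝ) : Prop :=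
  ∃ l p1 p1', 2 / 5 ≤ ‖(p1 : Y).1‖ ∧ ‖p1.1‖ ≤ 3 / 2 ∧ Cl (r + t' * r) r p1 p1' ∧
    Φ t' v = Q l p1 ∧ Φ t' v' = Q l p1'

theorem rF3 : RF3 := by
  intro X _ Q q E Φ hLip hStep hSw hLoc
  obtain ⟨L, δ, hδ, hS⟩ := hStep
  obtain ⟨δ', hδ', hW⟩ := hSw
  refine ⟨L, min δ δ', lt_min hδ hδ', ?_⟩
  intro T ε r j p p' hp1 hp2 hcl hrδ hrε hgood t ht
  have hr : 0 ≤ r := le_trans (norm_nonneg _) hcl.1
  have hrδ1 : (T + 2) * r ≤ δ := le_trans hrδ (min_le_left _ _)
  have hrδ2 : (T + 2) * r ≤ δ' := le_trans hrδ (min_le_right _ _)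
  have hmono : ∀ s : ℝ, s ≤ T → r + s * r + r ≤ (T + 2) * r := by
    intro s hs
    have := mul_le_mul_of_nonneg_right hs hr
    linarith
  have key : ∀ (k : ℕ) (t' : ℝ), F3_State Q Φ r (Q j p) (Q j p') t' → 0 ≤ t' → t' ≤ t →
      t - t' ≤ k / 20 →
      ∃ t'', t - L ≤ t'' ∧ t'' ≤ t ∧ F3_State Q Φ r (Q j p) (Q j p') t'' := by
    intro k
    induction k with
    | zero =>
      intro t' hst h0 h1 h2
      obtain ⟨l, p1, p1', a1, a2, a3, a4, a5⟩ := hst
      obtain ⟨t0, ht0, -⟩ := hS p1 a1 a2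
      refine ⟨t', ?_, h1, l, p1, p1', a1, a2, a3, a4, a5⟩
      have := ht0.1
      have := ht0.2
      simp only [Nat.cast_zero, zero_div] at h2
      linarith
    | succ k ih =>
      intro t' hst h0 h1 h2
      obtain ⟨l, p1, p1', a1, a2, a3, a4, a5⟩ := hst
      obtain ⟨t0, ht0, b1, b2, b3⟩ := hS p1 a1 a2
      have ht01 := ht0.1
      have ht02 := ht0.2
      by_cases hc : t < t' + t0
      · exact ⟨t', by linarith, h1, l, p1, p1', a1, a2, a3, a4, a5⟩
      · push Not at hc
        have ht'T : t' ≤ T := le_trans h1 ht.2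
        have ht0p : 0 ≤ t0 := by linarith
        have hab : r + t' * r + r ≤ δ := le_trans (hmono t' ht'T) hrδ1
        have hfar : ‖p1.1‖ ≤ 3 / 5 → far E ε (xi p1) ∧ |xi p1 - xi p1'| ≤ ε := by
          intro h35
          refine ⟨hgood t' ⟨h0, ht'T⟩ l p1 h35 a4, ?_⟩
          have c1 := hLip.xi_le p1 p1' (by linarith)
          have c2 := hLip.of_cl p1 p1' _ _ (by linarith) (by linarith) a3
          have c3 := hmono t' ht'T
          linarith
        obtain ⟨d1, d2⟩ := b3 p1' _ _ ε a3 hab hfar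
        have hu : uIcc (0 : ℝ) t0 = Icc 0 t0 := uIcc_of_le ht0p
        have e1 : Φ t0 (Q l p1) = Q l (psi q t0 p1) := by
          refine hLoc l p1 t0 ?_
          intro s hs
          rw [hu] at hs
          have := b1 s hs
          linarith
        have e2 : Φ t0 (Q l p1') = Q l (psi q t0 p1') := by
          refine hLoc l p1' t0 ?_
          intro s hs
          rw [hu] at hs
          exact d1 s hs
        obtain ⟨l', p2, f1, f2, f3, f4⟩ := hW l (psi q t0 p1) b2 (b1 t0 ⟨ht0p, le_rfl⟩)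
        have hsum : t' + t0 ≤ T := le_trans hc ht.2
        have hab' : r + t' * r + t0 * r + r ≤ δ' := by
          have := hmono (t' + t0) hsum
          have h3 : (t' + t0) * r = t' * r + t0 * r := by ring
          linarith
        obtain ⟨p2', g1, g2⟩ := f4 (psi q t0 p1') _ _ d2 hab'
        refine ih (t' + t0) ⟨l', p2, p2', f1, f2, ?_, ?_, ?_⟩ (by linarith) hc ?_
        · have h3 : r + (t' + t0) * r = r + t' * r + t0 * r := by ring
          rw [h3]
          exact g2
        · rw [add_comm t' t0, Flow.map_add, a4, e1, f3]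
        · rw [add_comm t' t0, Flow.map_add, a5, e2, g1]
        · push_cast at h2
          linarith
  have h0 : F3_State Q Φ r (Q j p) (Q j p') 0 := by
    refine ⟨j, p, p', hp1, hp2, ?_, Flow.map_zero_apply _ _, Flow.map_zero_apply _ _⟩
    have h3 : r + 0 * r = r := by ring
    rw [h3]
    exact hcl
  obtain ⟨k, hk⟩ := exists_nat_ge (20 * t)
  obtain ⟨t'', k1, k2, l, p1, p1', a1, a2, a3, a4, a5⟩ :=
    key k 0 h0 le_rfl ht.1 (by linarith)
  refine ⟨t'', ⟨k1, k2⟩, l, p1, p1', a2, ?_, a4, a5⟩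
  have c2 := hLip.of_cl p1 p1' _ _ (by linarith) (by linarith) a3
  have c3 := hmono t'' (le_trans k2 ht.2)
  linarith

end Pool.Agent.MP_ff5407_an.H58
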