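import Pool.Agent.MP_ff5407_an.H58.Spec

/-! Change of chart for a pair of close points. -/

open scoped ContDiff Topology Manifold NNReal ENNReal ComplexConjugate
open Set Filter MeasureTheory Complex

noncomputable section

namespace Pool.Agent.MP_ff5407_an.H58

theorem F3a_cpt (r : ℝ) : IsCompact {p : Y | ‖p.1‖ ≤ r} := by
  have h : {p : Y | ‖p.1‖ ≤ r} = Metric.closedBall (0 : ℂ) r ×ˢ (univ : Set Circle) := by
    ext p; simp
  rw [h]
  exact (isCompact_closedBall _ _).prod isCompact_univ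

theorem F3a_unif {X : Type} [TopologicalSpace X] [T2Space X]
    {Q : Fin 4 → OpenPartialHomeomorph Y X} (hQ : Ph Q) (j l : Fin 4) (η : ℝ) (hη : 0 < η) :
    ∃ d : ℝ, 0 < d ∧ ∀ p p1 : Y, ‖p.1‖ ≤ 8 / 5 → ‖p1.1‖ ≤ 3 / 2 → Q l p1 = Q j p →
      ∀ p', dist p p' ≤ d → ‖p'.1‖ < 17 / 10 ∧ ∃ p1' : Y, ‖p1'.1‖ < 17 / 10 ∧
        Q l p1' = Q j p' ∧ dist p1 p1' ≤ η := by
  have hs : ∀ (i : Fin 4) (r : ℝ), r < 17 / 10 → {p : Y | ‖p.1‖ ≤ r} ⊆ (Q i).source :=
    fun i r hr p hp => by rw [hQ.src]; exact lt_of_le_of_lt hp hr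
  have h1 : IsCompact (Q l '' {p : Y | ‖p.1‖ ≤ 3 / 2}) :=
    (F3a_cpt _).image_of_continuousOn ((Q l).continuousOn.mono (hs l _ (by norm_num)))
  set K := {p : Y | ‖p.1‖ ≤ 8 / 5} ∩ Q j ⁻¹' (Q l '' {p : Y | ‖p.1‖ ≤ 3 / 2}) with hK
  have h2 : IsCompact K := (F3a_cpt (8 / 5)).of_isClosed_subset
    (((Q j).continuousOn.mono (hs j _ (by norm_num))).preimage_isClosed_of_isClosed
      (F3a_cpt _).isClosed h1.isClosed) inter_subset_left
  set T := (Q j).trans (Q l).symm with hT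
  have hKT : K ⊆ T.source := by
    rintro p ⟨hp, p1, hp1, he⟩
    refine ⟨hs j _ (by norm_num) hp, ?_⟩
    show Q j p ∈ (Q l).target
    rw [← he]
    exact (Q l).map_source (hs l _ (by norm_num) hp1)
  obtain ⟨d1, hd1, h3⟩ := h2.exists_cthickening_subset_open T.open_source hKT
  have h4 := h2.uniformContinuousAt_of_continuousAt T
    (fun p hp => T.continuousAt (hKT hp)) (Metric.dist_mem_uniformity hη)
  obtain ⟨d2, hd2, h5⟩ := Metric.mem_uniformity_dist.mp h4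
  refine ⟨min d1 (d2 / 2), by positivity, fun p p1 hp hp1 he p' hd => ?_⟩
  have hpK : p ∈ K := ⟨hp, p1, hp1, he⟩
  have h6 : p' ∈ T.source := h3 (Metric.mem_cthickening_of_dist_le p' p d1 K hpK
    (by rw [dist_comm]; exact hd.trans (min_le_left _ _)))
  have h7 : Q j p' ∈ (Q l).target := h6.2
  have h8 : dist (T p) (T p') < η :=
    h5 (a := p) (b := p') (hd.trans_lt ((min_le_right _ _).trans_lt (by linarith))) hpK
  have h9 : T p = p1 := by
    show (Q l).symm (Q j p) = p1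
    rw [← he, (Q l).left_inv (hs l _ (by norm_num) hp1)]
  refine ⟨by simpa [hQ.src] using h6.1, T p', ?_, (Q l).right_inv h7, h9 ▸ h8.le⟩
  have := (Q l).map_target h7
  rw [hQ.src] at this
  exact this

theorem rF3a : RF3a := by
  intro X _ _ Q hQ hL
  choose d hd0 hd using fun x : Fin 4 × Fin 4 => F3a_unif hQ x.1 x.2 (1 / 1000) (by norm_num)
  obtain ⟨x0, hx0⟩ := Finite.exists_min d
  have hx := hd0 x0
  refine ⟨min (d x0 / 100) (1 / 10), by positivity, fun j p hp0 hp => ?_⟩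
  by_cases h : ‖p.1‖ ≤ 3 / 2
  · exact ⟨j, p, by linarith, h, rfl, fun p' a b hc _ => ⟨p', rfl, hc⟩⟩
  obtain ⟨l, p1, hp1, he⟩ := hQ.cov (Q j p)
  have hjl : j ≠ l := by
    rintro rfl
    have := (Q j).injOn (x₁ := p1) (by rw [hQ.src]; show ‖p1.1‖ < _; linarith) (x₂ := p)
      (by rw [hQ.src]; show ‖p.1‖ < _; linarith) he
    exact h (this ▸ hp1)
  obtain ⟨h1, ⟨m, n, h2⟩, h3⟩ :=
    (hQ.ovl j l p p1 (by linarith) (by linarith) he.symm).resolve_left hjl
  refine ⟨l, p1, by linarith, hp1, he, fun p' a b hc hab => ?_⟩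
  have hb : 0 ≤ b := (norm_nonneg _).trans hc.2.1
  have h4 := hab.trans (min_le_left _ _)
  have h5 := hab.trans (min_le_right _ _)
  have h6 := hL.of_cl p p' a b (by linarith) (by linarith) hc
  have h7 := hx0 (j, l)
  obtain ⟨h8, p1', h9, he', h10⟩ := hd (j, l) p p1 hp hp1 he p' (by linarith)
  obtain ⟨-, ⟨m', n', h2'⟩, h3'⟩ := (hQ.ovl j l p' p1' h8 h9 he'.symm).resolve_left hjl
  obtain ⟨c1, -, c3⟩ := hL.to_cl p1 p1' _ (by linarith) (by linarith) h10 (by norm_num)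
  have e : (((m - m' : ℤ) : ℝ) : ℂ) + ((n - n' : ℤ) : ℝ) * I =
      (zz p.1 - zz p'.1) - (zz p1.1 - zz p1'.1) := by
    push_cast
    linear_combination h2' - h2
  have hn : ‖(((m - m' : ℤ) : ℝ) : ℂ) + ((n - n' : ℤ) : ℝ) * I‖ < 1 := by
    rw [e]
    have := norm_sub_le (zz p.1 - zz p'.1) (zz p1.1 - zz p1'.1)
    have := hc.1
    linarith
  have hm : m - m' = 0 := by
    have := (Complex.abs_re_le_norm _).trans_lt hn
    simp only [add_re, ofReal_re, mul_re, I_re, mul_zero, ofReal_im, I_im, zero_mul, sub_zero,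
      add_zero] at this
    exact Int.abs_lt_one_iff.mp (by exact_mod_cast this)
  have hn' : n - n' = 0 := by
    have := (Complex.abs_im_le_norm _).trans_lt hn
    simp only [add_im, ofReal_re, mul_im, I_re, mul_zero, ofReal_im, I_im, mul_one, zero_add,
      add_zero] at this
    exact Int.abs_lt_one_iff.mp (by exact_mod_cast this)
  rw [hm, hn'] at e
  have e' : zz p1.1 - zz p1'.1 = zz p.1 - zz p'.1 := by
    push_cast at e
    linear_combination e
  exact ⟨p1', he', e' ▸ hc.1, h3 ▸ h3' ▸ hc.2.1, c3⟩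

end Pool.Agent.MP_ff5407_an.H58
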