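import Pool.Agent.MP_ff5407_an.H58.Spec

/-! Bowen covers of subexponential size. -/

open scoped ContDiff Topology Manifold NNReal ENNReal ComplexConjugate
open Set Filter MeasureTheory Complex

noncomputable section

namespace Pool.Agent.MP_ff5407_an.H58

theorem F5_ev (A B : ℝ) {c θ : ℝ} (k : ℕ) (hc : 0 < c) (hθ : 0 < θ) :
    ∀ᶠ n : ℕ in atTop, A * ((n : ℝ) + B) ^ k * Real.exp (-(c * n)) ≤ θ := by
  have h : Tendsto (fun n : ℕ => c * ((n : ℝ) + B)) atTop atTop :=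
    (tendsto_atTop_add_const_right _ _ tendsto_natCast_atTop_atTop).const_mul_atTop hc
  have h2 := ((Real.tendsto_pow_mul_exp_neg_atTop_nhds_zero k).comp h).const_mul
    (A * Real.exp (c * B) / c ^ k)
  rw [mul_zero] at h2
  filter_upwards [h2.eventually (ge_mem_nhds hθ)] with n hn
  refine le_of_eq_of_le ?_ hn
  rw [Function.comp, mul_pow, show -(c * n) = c * B + -(c * (n + B)) by ring, Real.exp_add]
  field_simp

theorem F5_iter {X : Type} [TopologicalSpace X] (Φ : Flow ℝ X) (k : ℕ) (x : X) :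
    (Φ 1)^[k] x = Φ k x := by
  induction k with
  | zero => simp
  | succ k ih => rw [Function.iterate_succ_apply', ih, ← Φ.map_add, Nat.cast_succ, add_comm]

theorem rF5 : RF5 := by
  classical
  intro X _ _ Q q E Φ μ hP hL ⟨N, hN⟩ hloc ⟨L, δ, hδ, hT⟩ ⟨C, γ, hγ, hB⟩ hTu ⟨K, hK⟩ R hR hd η hη
  obtain ⟨δ', hδ', hR'⟩ := hTu R hR hd (|L| + N)
  have hc : 0 < η / 8 := by positivity
  filter_upwards [F5_ev 1 0 0 hc hδ, F5_ev 1 0 0 hc hδ',
    F5_ev ((N + 1) * (4 * K) * 10 ^ 24) 2 4 (half_pos hη) one_pos,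
    F5_ev C (N + 1) 1 (mul_pos hc hγ) hη] with n h1 h2 h3 h4
  simp only [pow_zero, one_mul, pow_one] at h1 h2 h4
  have hn : (0 : ℝ) ≤ n := n.cast_nonneg
  have hN0 : (0 : ℝ) ≤ N := N.cast_nonneg
  have e4 : Real.exp (-(η / 8 * n)) ^ γ = Real.exp (-(η / 8 * γ * n)) := by
    rw [← Real.exp_mul]; ring_nf
  have e3 : Real.exp (-(η / 2 * n)) * Real.exp (η * n) * Real.exp (-(η / 8 * n)) ^ 4 = 1 := by
    rw [← Real.exp_nat_mul, ← Real.exp_add, ← Real.exp_add, Real.exp_eq_one_iff]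
    push_cast
    ring
  have ε0 : 0 < Real.exp (-(η / 8 * n)) := Real.exp_pos _
  have ε1 : Real.exp (-(η / 8 * n)) ≤ 1 := Real.exp_le_one_iff.2 (neg_nonpos.2 (by positivity))
  generalize Real.exp (-(η / 8 * n)) = ε at *
  obtain ⟨ρ, hρ⟩ : ∃ ρ, ρ = ε / (10 ^ 6 * (n + 2)) := ⟨_, rfl⟩
  have ρ0 : 0 < ρ := by rw [hρ]; positivity
  have ρe : ((n : ℝ) + 2) * (100 * ρ) = ε / 10000 := by rw [hρ]; field_simp; norm_num
  have ρ1 : 200 * ρ ≤ ε / 10000 := by nlinarith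
  obtain ⟨𝓒, c1, c2, c3⟩ := hK ρ ⟨ρ0, by linarith⟩
  let B : ℕ × Fin 4 × Set Y → Set X := fun a => {v | Good E Q Φ (n + N) ε v ∧
    ∃ p ∈ a.2.2, 2 / 5 ≤ ‖p.1‖ ∧ ‖p.1‖ ≤ 3 / 2 ∧ Φ (a.1 / 20) v = Q a.2.1 p}
  refine ⟨(Finset.range (N + 1) ×ˢ Finset.univ ×ˢ 𝓒).image B, ?_, ?_, ?_⟩
  · refine (Nat.cast_le.2 Finset.card_image_le).trans ?_
    simp only [Finset.card_product, Finset.card_range, Finset.card_univ, Fintype.card_fin]
    push_cast
    refine (mul_le_mul_of_nonneg_left (mul_le_mul_of_nonneg_left c1 (by norm_num))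
      (by positivity)).trans (le_of_eq_of_le ?_
        (mul_le_of_le_one_left (Real.exp_pos (η * n)).le h3))
    rw [mul_assoc _ (Real.exp _), eq_div_of_mul_eq (by positivity) e3, hρ]
    field_simp
  · refine le_trans (measure_mono ?_)
      ((hB (n + N) (by positivity) ε ⟨ε0, ε1⟩).trans (ENNReal.ofReal_le_ofReal ?_))
    · refine fun v hv hg => hv ?_
      obtain ⟨j, p, hp, rfl⟩ := hP.cov v
      obtain ⟨i, hi, a1, a2⟩ := hN p hp
      have i0 : (0 : ℝ) ≤ i / 20 := by positivity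
      have a3 := a1 _ ⟨i0, le_rfl⟩
      obtain ⟨c, hc, hpc⟩ := c2 _ a3
      refine mem_iUnion₂.2 ⟨B (i, j, c), Finset.mem_image_of_mem _ (by simp [hc]; omega),
        hg, _, hpc, a2, a3, hloc j p _ fun s hs => ?_⟩
      exact (a1 s (uIcc_of_le i0 ▸ hs)).trans_lt (by norm_num)
    · rwa [e4, add_assoc]
  · intro S hS x hx y hy k hk
    obtain ⟨⟨i, j, c⟩, ha, rfl⟩ := Finset.mem_image.1 hS
    simp only [Finset.mem_product, Finset.mem_range, Finset.mem_univ, true_and] at ha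
    obtain ⟨hg, p, hp, p1, p2, ex⟩ := hx
    obtain ⟨-, p', hp', -, -, ey⟩ := hy
    dsimp only at ex ey
    have hi : (i : ℝ) ≤ N := Nat.cast_le.2 (by omega)
    have i0 : (0 : ℝ) ≤ i := i.cast_nonneg
    have k0 : (0 : ℝ) ≤ k := k.cast_nonneg
    have kn : (k : ℝ) ≤ n := Nat.cast_le.2 hk.le
    have hpp := c3 c ha.2 p hp p' hp'
    have L0 := abs_nonneg L
    rw [F5_iter, F5_iter, ← sub_add_cancel (k : ℝ) (i / 20), Φ.map_add, Φ.map_add, ex, ey]
    rcases lt_or_ge ((k : ℝ) - i / 20) 0 with h | h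
    · exact hR' j p p' p2 (by linarith) _ ⟨by linarith, by linarith⟩
    obtain ⟨t, ht, l, r, r', b1, b2, b3, b4⟩ := hT n ε (100 * ρ) j p p' p1 p2
      (hL.to_cl p p' ρ p1 (by linarith) hpp (by linarith)) (by linarith) (by linarith)
      (fun t ht j' r hr e => hg (t + i / 20) ⟨by linarith [ht.1], by linarith [ht.2]⟩ j' r hr
        (by rw [Φ.map_add, ex, e])) _ ⟨h, by linarith⟩
    rw [← sub_add_cancel ((k : ℝ) - i / 20) t, Φ.map_add, Φ.map_add, b3, b4]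
    exact hR' l r r' b1 (by linarith) _
      ⟨by linarith [ht.2], by linarith [ht.1, le_abs_self L]⟩

end Pool.Agent.MP_ff5407_an.H58
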