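import Pool.Agent.MP_ff5407_an.H58.Spec

/-! Row F5a: small cells. -/

open scoped ContDiff Topology Manifold NNReal ENNReal ComplexConjugate
open Set Filter MeasureTheory Complex

noncomputable section

namespace Pool.Agent.MP_ff5407_an.H58

theorem F5a_mem (r t : ℝ) (hr : 0 < r) (ht : |t| ≤ 3 / 2) :
    ⌊2 * t / r⌋ ∈ Finset.Icc (-(⌈3 / r⌉₊ : ℤ)) (⌈3 / r⌉₊ : ℤ) := by
  have h1 : 3 / r ≤ (⌈3 / r⌉₊ : ℝ) := Nat.le_ceil _
  obtain ⟨h2, h3⟩ := abs_le.1 ht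
  have h4 : 2 * t / r ≤ 3 / r := div_le_div_of_nonneg_right (by linarith) hr.le
  have h5 : -(3 / r) ≤ 2 * t / r := by
    rw [← neg_div]; exact div_le_div_of_nonneg_right (by linarith) hr.le
  rw [Finset.mem_Icc]
  constructor
  · rw [Int.le_floor]; push_cast; linarith
  · have := Int.floor_le (2 * t / r)
    have h6 : ((⌊2 * t / r⌋ : ℤ) : ℝ) ≤ ((⌈3 / r⌉₊ : ℤ) : ℝ) := by push_cast; linarith
    exact_mod_cast h6

theorem F5a_close (r s t : ℝ) (hr : 0 < r) (h : ⌊2 * s / r⌋ = ⌊2 * t / r⌋) : |s - t| ≤ r / 2 := by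
  have h1 := Int.abs_sub_lt_one_of_floor_eq_floor h
  have e : s - t = (2 * s / r - 2 * t / r) * (r / 2) := by field_simp
  rw [e, abs_mul, abs_of_pos (half_pos hr)]
  nlinarith

theorem F5a_dist (r : ℝ) (z w : ℂ) (hr : 0 < r) (h1 : ⌊2 * z.re / r⌋ = ⌊2 * w.re / r⌋)
    (h2 : ⌊2 * z.im / r⌋ = ⌊2 * w.im / r⌋) : dist z w ≤ r := by
  rw [dist_eq_norm]
  refine (Complex.norm_le_abs_re_add_abs_im _).trans ?_
  have := F5a_close r _ _ hr h1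
  have := F5a_close r _ _ hr h2
  rw [Complex.sub_re, Complex.sub_im]
  linarith

theorem rF5a : RF5a := by
  classical
  refine ⟨9 ^ 4, fun r hr => ?_⟩
  let g : Y → ℤ × ℤ × ℤ × ℤ := fun p =>
    (⌊2 * p.1.re / r⌋, ⌊2 * p.1.im / r⌋, ⌊2 * (p.2 : ℂ).re / r⌋, ⌊2 * (p.2 : ℂ).im / r⌋)
  let J : Finset ℤ := Finset.Icc (-(⌈3 / r⌉₊ : ℤ)) (⌈3 / r⌉₊ : ℤ)
  refine ⟨(J ×ˢ J ×ˢ J ×ˢ J).image fun k => g ⁻¹' {k}, ?_, fun p hp => ?_, ?_⟩
  · have hJ : J.card = 2 * ⌈3 / r⌉₊ + 1 := by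
      simp only [J, Int.card_Icc]; omega
    have h1 : (⌈3 / r⌉₊ : ℝ) < 3 / r + 1 := Nat.ceil_lt_add_one (div_nonneg (by norm_num) hr.1.le)
    have h2 : 1 ≤ 1 / r := by rw [le_div_iff₀ hr.1]; linarith [hr.2]
    have h3 : (J.card : ℝ) ≤ 9 / r := by
      rw [hJ]; push_cast
      have e1 : 3 / r = 3 * (1 / r) := by ring
      have e2 : 9 / r = 9 * (1 / r) := by ring
      linarith
    calc (((J ×ˢ J ×ˢ J ×ˢ J).image fun k => g ⁻¹' {k}).card : ℝ)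
        ≤ ((J ×ˢ J ×ˢ J ×ˢ J).card : ℝ) := by exact_mod_cast Finset.card_image_le
      _ = (J.card : ℝ) ^ 4 := by simp only [Finset.card_product]; push_cast; ring
      _ ≤ (9 / r) ^ 4 := by gcongr
      _ = 9 ^ 4 / r ^ 4 := div_pow _ _ _
  · refine ⟨g ⁻¹' {g p}, Finset.mem_image.2 ⟨g p, ?_, rfl⟩, rfl⟩
    have he : ‖(p.2 : ℂ)‖ ≤ 3 / 2 := by rw [Circle.norm_coe]; norm_num
    simp only [Finset.mem_product, g]
    exact ⟨F5a_mem r _ hr.1 ((Complex.abs_re_le_norm _).trans hp),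
      F5a_mem r _ hr.1 ((Complex.abs_im_le_norm _).trans hp),
      F5a_mem r _ hr.1 ((Complex.abs_re_le_norm _).trans he),
      F5a_mem r _ hr.1 ((Complex.abs_im_le_norm _).trans he)⟩
  · intro c hc p hp p' hp'
    obtain ⟨k, -, rfl⟩ := Finset.mem_image.1 hc
    have h : g p = g p' := (show g p = k from hp).trans (show g p' = k from hp').symm
    simp only [g, Prod.mk.injEq] at h
    rw [Prod.dist_eq]
    exact max_le (F5a_dist r _ _ hr.1 h.1 h.2.1) (F5a_dist r _ _ hr.1 h.2.2.1 h.2.2.2)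

end Pool.Agent.MP_ff5407_an.H58
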