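import Pool.Agent.MP_ff5407_an.H58.Spec

/-! Row F5b: uniform continuity of the flow for bounded times. -/

open scoped ContDiff Topology Manifold NNReal ENNReal ComplexConjugate
open Set Filter MeasureTheory Complex

noncomputable section

namespace Pool.Agent.MP_ff5407_an.H58

theorem rF5b : RF5b := by
  intro X _ Q Φ hQ R hR hd L
  have key : ∀ j, ∃ δ : ℝ, 0 < δ ∧ ∀ p p' : Y, ‖p.1‖ ≤ 3 / 2 → dist p p' ≤ δ →
      ∀ s ∈ Icc (-L) L, (Φ s (Q j p), Φ s (Q j p')) ∈ R := by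
    intro j
    have hO : IsOpen {z : ℝ × Y × Y | z.2.1 ∈ (Q j).source ∧ z.2.2 ∈ (Q j).source} :=
      ((Q j).open_source.preimage (by fun_prop)).inter ((Q j).open_source.preimage (by fun_prop))
    have hΦ : Continuous fun z : ℝ × X => Φ z.1 z.2 := Φ.continuous continuous_fst continuous_snd
    have hF : ContinuousOn (fun z : ℝ × Y × Y => (Φ z.1 (Q j z.2.1), Φ z.1 (Q j z.2.2)))
        {z : ℝ × Y × Y | z.2.1 ∈ (Q j).source ∧ z.2.2 ∈ (Q j).source} :=
      (hΦ.comp_continuousOn (continuousOn_fst.prodMk ((Q j).continuousOn.comp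
        (f := fun z : ℝ × Y × Y => z.2.1) (by fun_prop) fun z hz => hz.1))).prodMk
      (hΦ.comp_continuousOn (continuousOn_fst.prodMk ((Q j).continuousOn.comp
        (f := fun z : ℝ × Y × Y => z.2.2) (by fun_prop) fun z hz => hz.2)))
    have hK : IsCompact ((fun z : ℝ × Y => (z.1, z.2, z.2)) ''
        (Icc (-L) L ×ˢ (Metric.closedBall (0 : ℂ) (3 / 2) ×ˢ (univ : Set Circle)))) :=
      (isCompact_Icc.prod ((isCompact_closedBall _ _).prod isCompact_univ)).image (by fun_prop)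
    obtain ⟨δ, h0, hδ⟩ := hK.exists_cthickening_subset_open (hF.isOpen_inter_preimage hO hR) (by
      rintro _ ⟨z, hz, rfl⟩
      have h1 : z.2 ∈ (Q j).source := by
        rw [hQ.src]
        exact lt_of_le_of_lt (mem_closedBall_zero_iff.1 hz.2.1) (by norm_num)
      exact ⟨⟨h1, h1⟩, hd _⟩)
    refine ⟨δ, h0, fun p p' h1 h2 s hs => (hδ (Metric.mem_cthickening_of_dist_le (s, p, p')
      (s, p, p) δ _ ⟨(s, p), ⟨hs, mem_closedBall_zero_iff.2 h1, mem_univ _⟩, rfl⟩ ?_)).2⟩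
    rw [Prod.dist_eq, Prod.dist_eq (x := (p, p'))]
    simp only [dist_self]
    exact max_le h0.le (max_le h0.le (by rwa [dist_comm]))
  choose δ h0 hδ using key
  obtain ⟨j0, hj⟩ := Finite.exists_min δ
  exact ⟨δ j0, h0 j0, fun j p p' h1 h2 => hδ j p p' h1 (h2.trans (hj j))⟩

end Pool.Agent.MP_ff5407_an.H58
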