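import Pool.Agent.MP_ff5407_an.H58.Main
import Pool.Agent.MP_ff5407_an.H58R.A1
import Pool.Agent.MP_ff5407_an.H58R.A1a
import Pool.Agent.MP_ff5407_an.H58R.A2
import Pool.Agent.MP_ff5407_an.H58R.A3
import Pool.Agent.MP_ff5407_an.H58R.A4
import Pool.Agent.MP_ff5407_an.H58R.A5
import Pool.Agent.MP_ff5407_an.H58R.A5a
import Pool.Agent.MP_ff5407_an.H58R.A5b
import Pool.Agent.MP_ff5407_an.H58R.A6
import Pool.Agent.MP_ff5407_an.H58R.A7
import Pool.Agent.MP_ff5407_an.H58R.B0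
import Pool.Agent.MP_ff5407_an.H58R.B1
import Pool.Agent.MP_ff5407_an.H58R.B2x
import Pool.Agent.MP_ff5407_an.H58R.B3
import Pool.Agent.MP_ff5407_an.H58R.B4
import Pool.Agent.MP_ff5407_an.H58R.B4a
import Pool.Agent.MP_ff5407_an.H58R.B4b
import Pool.Agent.MP_ff5407_an.H58R.B5a
import Pool.Agent.MP_ff5407_an.H58R.B5b
import Pool.Agent.MP_ff5407_an.H58R.B6
import Pool.Agent.MP_ff5407_an.H58R.B7
import Pool.Agent.MP_ff5407_an.H58R.B7a
import Pool.Agent.MP_ff5407_an.H58R.C1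
import Pool.Agent.MP_ff5407_an.H58R.C1a
import Pool.Agent.MP_ff5407_an.H58R.C1b
import Pool.Agent.MP_ff5407_an.H58R.C2
import Pool.Agent.MP_ff5407_an.H58R.C2a
import Pool.Agent.MP_ff5407_an.H58R.C3a
import Pool.Agent.MP_ff5407_an.H58R.C3b
import Pool.Agent.MP_ff5407_an.H58R.C3c
import Pool.Agent.MP_ff5407_an.H58R.C4
import Pool.Agent.MP_ff5407_an.H58R.C5a
import Pool.Agent.MP_ff5407_an.H58R.C5b
import Pool.Agent.MP_ff5407_an.H58R.C6
import Pool.Agent.MP_ff5407_an.H58R.C7a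
import Pool.Agent.MP_ff5407_an.H58R.C7b
import Pool.Agent.MP_ff5407_an.H58R.C7c
import Pool.Agent.MP_ff5407_an.H58R.C8
import Pool.Agent.MP_ff5407_an.H58R.C8a
import Pool.Agent.MP_ff5407_an.H58R.C8b
import Pool.Agent.MP_ff5407_an.H58R.C9
import Pool.Agent.MP_ff5407_an.H58R.D0
import Pool.Agent.MP_ff5407_an.H58R.D1
import Pool.Agent.MP_ff5407_an.H58R.D2
import Pool.Agent.MP_ff5407_an.H58R.D3
import Pool.Agent.MP_ff5407_an.H58R.D4
import Pool.Agent.MP_ff5407_an.H58R.D5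
import Pool.Agent.MP_ff5407_an.H58R.D6
import Pool.Agent.MP_ff5407_an.H58R.D7
import Pool.Agent.MP_ff5407_an.H58R.D8
import Pool.Agent.MP_ff5407_an.H58R.E1
import Pool.Agent.MP_ff5407_an.H58R.E2
import Pool.Agent.MP_ff5407_an.H58R.E3
import Pool.Agent.MP_ff5407_an.H58R.F0
import Pool.Agent.MP_ff5407_an.H58R.F1
import Pool.Agent.MP_ff5407_an.H58R.F2
import Pool.Agent.MP_ff5407_an.H58R.F3
import Pool.Agent.MP_ff5407_an.H58R.F3a
import Pool.Agent.MP_ff5407_an.H58R.F4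
import Pool.Agent.MP_ff5407_an.H58R.F5
import Pool.Agent.MP_ff5407_an.H58R.F5a
import Pool.Agent.MP_ff5407_an.H58R.F5b

/-! All rows put together. -/

open scoped ContDiff Topology Manifold NNReal ENNReal
open Set Filter MeasureTheory

namespace Pool.Agent.MP_ff5407_an.H58

theorem final :
    ∃ (M : Type) (_ : TopologicalSpace M) (_ : T2Space M) (_ : CompactSpace M)
      (_ : ConnectedSpace M) (_ : ChartedSpace ℂ M) (_ : IsManifold 𝓘(ℝ, ℂ) ∞ M),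
      Oriented M ∧ HasGenus M 3 ∧ ∀ β : ℝ≥0, β < 1 / 2 → ∃ m : Met β M, m.SmoothAE ∧
        ∃ Φ : Flow ℝ m.SM, (∀ v, m.Geod fun t => Φ t v) ∧
          (∀ V, m.Geod V → ∀ t, V t = Φ t (V 0)) ∧
          ∃ μ : Measure m.SM, IsProbabilityMeasure μ ∧ m.Liouville μ ∧
            (∀ t, MeasurePreserving (Φ t) μ μ) ∧ ZeroEntropy μ (Φ 1) :=
  main rA6 (rA7 (rA1 rA1a) (rA3 rA2) rA4 (rA5 rA5a (rA5b rA5a))) rB0 rB1 rB2x rB3 (rB4b rB4a) rB4
    rB5a rB5b rB6 (rB7 rB7a) rD0 rD2 rD3 (rD4 rD1) rD5 rD6 (rD7 rD0) rD8 (rE3 rE1 rE2) rF0 rF1 rF2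
    rF3a rF3 rF4 rF5a rF5b rF5 (rC1 rC1a rC1b) rC2a (rC2 rC2a) rC3a rC3b rC3c rC4 rC5a rC5b rC6
    rC7a rC7b rC7c (rC8b rC8a) rC8 rC9

end Pool.Agent.MP_ff5407_an.H58
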