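import Pool.Agent.MP_ff5407_an.H58.Spec

/-! Row B0: the time function of the model and its inverse. -/

open scoped ContDiff Topology Manifold NNReal ENNReal ComplexConjugate
open Set Filter MeasureTheory Complex

noncomputable section

namespace Pool.Agent.MP_ff5407_an.H58

theorem B0_der {f : ℝ → ℝ} (hf : Continuous f) (u : ℝ) :
    HasDerivAt (fun u => ∫ v in (0 : ℝ)..u, f v) (f u) u :=
  intervalIntegral.integral_hasDerivAt_right (hf.intervalIntegrable _ _)
    (hf.stronglyMeasurableAtFilter _ _) hf.continuousAt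

theorem rB0 : RB0 := by
  intro q hq
  have hc := hq.cont
  have cS : Continuous fun z : (ℝ × ℝ) × ℝ => SS q (z.2 ^ 2 + z.1.1 ^ 2) := by
    unfold SS; fun_prop
  have dt : ∀ ξ u, HasDerivAt (tau q ξ) (SS q (u ^ 2 + ξ ^ 2)) u := fun ξ u =>
    B0_der (f := fun v => SS q (v ^ 2 + ξ ^ 2)) (by unfold SS; fun_prop) u
  have lo : ∀ ξ u v, u ≤ v → (v - u) / 2 ≤ tau q ξ v - tau q ξ u := by
    intro ξ u v huv
    have hd : ∀ w, HasDerivAt (fun w => tau q ξ w - w / 2) (SS q (w ^ 2 + ξ ^ 2) - 1 / 2) w :=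
      fun w => (dt ξ w).sub ((hasDerivAt_id w).div_const 2)
    have hm : Monotone fun w => tau q ξ w - w / 2 :=
      monotone_of_deriv_nonneg (fun w => (hd w).differentiableAt) fun w => by
        rw [(hd w).deriv]; linarith [hq.lo (w ^ 2 + ξ ^ 2)]
    have := hm huv
    simp only at this
    linarith
  have mono : ∀ ξ, StrictMono (tau q ξ) := fun ξ u v h => by linarith [lo ξ u v h.le]
  have t0 : ∀ ξ, tau q ξ 0 = 0 := fun ξ => intervalIntegral.integral_same
  have surj : ∀ ξ, Function.Surjective (tau q ξ) := fun ξ t => by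
    have h1 := lo ξ 0 (2 * |t|) (by positivity)
    have h2 := lo ξ (-(2 * |t|)) 0 (by simp)
    rw [t0] at h1 h2
    have ct : Continuous (tau q ξ) := continuous_iff_continuousAt.2 fun u => (dt ξ u).continuousAt
    exact mem_range_of_exists_le_of_exists_ge ct ⟨-(2 * |t|), by linarith [neg_abs_le t]⟩
      ⟨2 * |t|, by linarith [le_abs_self t]⟩
  have r1 : ∀ ξ t, tau q ξ (ut q ξ t) = t := fun ξ t => Function.rightInverse_invFun (surj ξ) t
  have r2 : ∀ ξ u, ut q ξ (tau q ξ u) = u := fun ξ u =>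
    Function.leftInverse_invFun (mono ξ).injective u
  have ab : ∀ ξ u v, |u - v| ≤ 2 * |tau q ξ u - tau q ξ v| := fun ξ u v => by
    rcases le_total u v with h | h
    · have := lo ξ u v h
      rw [abs_of_nonpos (by linarith), abs_of_nonpos (by linarith)]; linarith
    · have := lo ξ v u h
      rw [abs_of_nonneg (by linarith), abs_of_nonneg (by linarith)]; linarith
  have ct : Continuous fun z : ℝ × ℝ => tau q z.1 z.2 :=
    intervalIntegral.continuous_parametric_intervalIntegral_of_continuous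
      (f := fun (z : ℝ × ℝ) v => SS q (v ^ 2 + z.1 ^ 2)) cS continuous_snd
  have cu : Continuous fun z : ℝ × ℝ => ut q z.1 z.2 := by
    refine continuous_iff_continuousAt.2 fun z₀ => ?_
    rw [ContinuousAt, tendsto_iff_norm_sub_tendsto_zero]
    have h1 : Continuous fun z : ℝ × ℝ => 2 * |z.2 - tau q z.1 (ut q z₀.1 z₀.2)| :=
      continuous_const.mul (continuous_snd.sub
        (ct.comp (continuous_fst.prodMk continuous_const))).abs
    have h2 := h1.tendsto z₀
    rw [r1, sub_self, abs_zero, mul_zero] at h2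
    refine squeeze_zero (fun _ => norm_nonneg _) (fun z => ?_) h2
    have := ab z.1 (ut q z.1 z.2) (ut q z₀.1 z₀.2)
    rwa [r1] at this
  refine ⟨r1, r2, mono, ct, ?_, cu, dt, fun ξ u => ?_, fun ξ t => ?_⟩
  · exact intervalIntegral.continuous_parametric_intervalIntegral_of_continuous
      (f := fun (z : ℝ × ℝ) v => z.1 * q (v ^ 2 + z.1 ^ 2))
      (show Continuous fun z : (ℝ × ℝ) × ℝ => z.1.1 * q (z.2 ^ 2 + z.1.1 ^ 2) by fun_prop)
      continuous_snd
  · exact B0_der (f := fun v => ξ * q (v ^ 2 + ξ ^ 2)) (by fun_prop) u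
  · exact HasDerivAt.of_local_left_inverse
      (cu.comp (continuous_const.prodMk continuous_id)).continuousAt (dt ξ _)
      (by linarith [hq.lo (ut q ξ t ^ 2 + ξ ^ 2)]) (Eventually.of_forall (r1 ξ))

end Pool.Agent.MP_ff5407_an.H58
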