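import Pool.Agent.MP_ff5407_an.H58.Spec

/-! Row C1: the charts at the branch points. -/

open scoped ContDiff Topology Manifold NNReal ENNReal ComplexConjugate
open Set Filter MeasureTheory Complex

noncomputable section

namespace Pool.Agent.MP_ff5407_an.H58

theorem C1_sub {a b : ℝ} (h : a < b) : {y : ℂ | ‖y‖ ^ 2 ≤ a} ⊆ {y | ‖y‖ ^ 2 < b} :=
  fun _ hy => lt_of_le_of_lt hy h

theorem C1_sub' {a b : ℝ} (h : a ≤ b) : {y : ℂ | ‖y‖ ^ 2 < a} ⊆ {y | ‖y‖ ^ 2 < b} :=
  fun _ hy => lt_of_lt_of_le hy h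

theorem C1_compact : IsCompact {y : ℂ | ‖y‖ ^ 2 ≤ 9 / 10} := by
  refine (isCompact_closedBall (0 : ℂ) 1).of_isClosed_subset
    (isClosed_le (by fun_prop) continuous_const) fun y hy => ?_
  rw [mem_closedBall_zero_iff]
  have : ‖y‖ ^ 2 ≤ 9 / 10 := hy
  nlinarith [norm_nonneg y]

/-- The chart as a bijection from the disc to its image. -/
def C1_E (h1 : RC1a) (j : Fin 4) : PartialEquiv ℂ Srf :=
  ((h1 j).2.mono (C1_sub' (by norm_num))).toPartialEquiv (Pm j) {y | ‖y‖ ^ 2 < 17 / 20}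

theorem C1_symm (h1 : RC1a) (j : Fin 4) : ContinuousOn (C1_E h1 j).symm (C1_E h1 j).target := by
  rw [continuousOn_iff_isClosed]
  intro t ht
  refine ⟨Pm j '' (t ∩ {y | ‖y‖ ^ 2 ≤ 9 / 10}), ?_, ?_⟩
  · exact ((C1_compact.inter_left ht).image_of_continuousOn
      ((h1 j).1.mono (inter_subset_right.trans (C1_sub (by norm_num))))).isClosed
  · ext y
    constructor
    · rintro ⟨a, b⟩
      have c : ‖(C1_E h1 j).symm y‖ ^ 2 < 17 / 20 := (C1_E h1 j).map_target b
      exact ⟨⟨_, ⟨a, c.le.trans (by norm_num)⟩, (C1_E h1 j).right_inv b⟩, b⟩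
    · rintro ⟨⟨x, ⟨hx1, hx2⟩, hx⟩, b⟩
      refine ⟨?_, b⟩
      have : (C1_E h1 j).symm y = x :=
        (h1 j).2 (C1_sub' (by norm_num) ((C1_E h1 j).map_target b)) (C1_sub (by norm_num) hx2)
          (((C1_E h1 j).right_inv b).trans hx.symm)
      rw [mem_preimage, this]; exact hx1

theorem rC1 (h1 : RC1a) (h2 : RC1b) : RC1 :=
  ⟨fun j =>
    { toPartialEquiv := C1_E h1 j
      open_source := isOpen_lt (by fun_prop) continuous_const
      open_target := h2.1 j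
      continuousOn_toFun := (h1 j).1.mono (C1_sub' (by norm_num))
      continuousOn_invFun := C1_symm h1 j },
    ⟨fun _ => rfl, h2.2.1, fun j l y y' _ _ h => h2.2.2 j l y y' h⟩⟩

end Pool.Agent.MP_ff5407_an.H58
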