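import Pool.Agent.MP_ff5407_an.H58.Spec

/-! Row `C7a`: the tangent bundle of a Hausdorff surface is Hausdorff. -/

open scoped ContDiff Topology Manifold NNReal ENNReal ComplexConjugate
open Set Filter MeasureTheory Complex

noncomputable section

namespace Pool.Agent.MP_ff5407_an.H58

theorem rC7a : RC7a := by
  intro M _ _ _ _
  refine ⟨fun v w hne => ?_⟩
  by_cases h : v.1 = w.1
  · let e := trivializationAt ℂ (TangentSpace 𝓘(ℝ, ℂ)) v.1
    have hv : v ∈ e.source := by
      rw [e.mem_source]; exact FiberBundle.mem_baseSet_trivializationAt' v.1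
    have hw : w ∈ e.source := by
      rw [e.mem_source, ← h]; exact FiberBundle.mem_baseSet_trivializationAt' v.1
    have hne' : e.toOpenPartialHomeomorph v ≠ e.toOpenPartialHomeomorph w :=
      fun hh => hne (e.toOpenPartialHomeomorph.injOn hv hw hh)
    obtain ⟨U, V, hU, hV, hvU, hwV, hd⟩ := t2_separation hne'
    refine ⟨_, _, e.toOpenPartialHomeomorph.isOpen_inter_preimage hU,
      e.toOpenPartialHomeomorph.isOpen_inter_preimage hV, ⟨hv, hvU⟩, ⟨hw, hwV⟩, ?_⟩
    exact (hd.preimage _).mono inter_subset_right inter_subset_right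
  · exact separated_by_continuous
      (FiberBundle.continuous_proj ℂ (TangentSpace 𝓘(ℝ, ℂ) : M → Type)) h

end Pool.Agent.MP_ff5407_an.H58
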