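import Pool.Agent.MP_ff5407_an.H58.Spec

/-! Row D5: the orbits of the glued flow are exactly the solutions of the local equations. -/

open scoped ContDiff Topology Manifold NNReal ENNReal ComplexConjugate
open Set Filter MeasureTheory Complex

noncomputable section

namespace Pool.Agent.MP_ff5407_an.H58

theorem D5_congr {q : ℝ → ℝ} {γ γ' : ℝ → Y} {t : ℝ} (h : Ode q γ t) (he : γ' =ᶠ[𝓝 t] γ) :
    Ode q γ' t := by
  have ht : γ' t = γ t := he.self_of_nhds
  refine ⟨?_, ?_⟩
  · rw [ht]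
    exact h.1.congr_of_eventuallyEq (he.mono fun s hs => by simp only [hs])
  · rw [ht]
    exact h.2.congr_of_eventuallyEq (he.mono fun s hs => by simp only [hs])

theorem D5_loc {X : Type} [TopologicalSpace X] {Q : Fin 4 → OpenPartialHomeomorph Y X}
    {q : ℝ → ℝ} {Φ : Flow ℝ X} (hF : Fl q) (hL : Loc q Q Φ) (j : Fin 4) (p : Y)
    (hp : ‖p.1‖ < 17 / 10) (t : ℝ) :
    ∀ᶠ s in 𝓝 t, ‖(psi q (s - t) p).1‖ < 17 / 10 ∧ Φ (s - t) (Q j p) = Q j (psi q (s - t) p) := by
  have hδ : 0 < (17 / 10 - ‖p.1‖) / 2 := by linarith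
  have key : ∀ r : ℝ, |r| < (17 / 10 - ‖p.1‖) / 2 → ‖(psi q r p).1‖ < 17 / 10 := by
    intro r hr
    have h1 := hF.speed r p
    have h2 := le_abs_self (‖(psi q r p).1‖ - ‖p.1‖)
    linarith
  filter_upwards [Metric.ball_mem_nhds t hδ] with s hs
  rw [Metric.mem_ball, Real.dist_eq] at hs
  refine ⟨key _ hs, hL j p _ fun r hr => key r (lt_of_le_of_lt ?_ hs)⟩
  have := abs_sub_left_of_mem_uIcc hr
  simpa using this

theorem rD5 : RD5 := by
  intro X _ Q q Φ hP hF hU hT hL
  have hsrc : ∀ j v, v ∈ (Q j).target → ‖((Q j).symm v).1‖ < 17 / 10 := by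
    intro j v hv
    have := (Q j).map_target hv
    rw [hP.src j] at this
    exact this
  have hsrc' : ∀ j (p : Y), ‖p.1‖ < 17 / 10 → p ∈ (Q j).source := by
    intro j p hp
    rw [hP.src j]
    exact hp
  refine ⟨fun v => ⟨Φ.continuous continuous_id continuous_const, fun t j hv => ?_⟩, ?_⟩
  · have h0 := hF.ode (psi q (-t) ((Q j).symm (Φ t v))) t
    refine D5_congr h0 ?_
    filter_upwards [D5_loc hF hL j _ (hsrc j _ hv) t] with s hs
    have e1 : Φ s v = Φ (s - t) (Φ t v) := by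
      rw [← Φ.map_add]
      congr 1
      ring
    rw [(Q j).right_inv hv] at hs
    rw [e1, hs.2, (Q j).left_inv (hsrc' j _ hs.1), ← hF.add, sub_eq_add_neg]
  · rintro V ⟨hV, hE⟩
    have hloc : ∀ t, ∀ᶠ s in 𝓝 t, Φ (-s) (V s) = Φ (-t) (V t) := by
      intro t
      obtain ⟨j, hj, -⟩ := hE t
      have hev : ∀ᶠ s in 𝓝 t, V s ∈ (Q j).target :=
        hV.continuousAt.eventually ((Q j).open_target.mem_nhds hj)
      obtain ⟨a, b, hab, hsub⟩ := mem_nhds_iff_exists_Ioo_subset.1 hev
      have hode : ∀ s ∈ Ioo a b, Ode q (fun r => (Q j).symm (V r)) s := by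
        intro s hs
        obtain ⟨l, hl, hO⟩ := hE s
        have h1 := hT l j (fun r => (Q l).symm (V r)) s (hsrc l _ hl)
          (by rw [(Q l).right_inv hl]; exact hsub hs) hO
        refine D5_congr h1 ?_
        filter_upwards [hV.continuousAt.eventually ((Q l).open_target.mem_nhds hl)] with r hr
        rw [(Q l).right_inv hr]
      filter_upwards [D5_loc hF hL j _ (hsrc j _ hj) t, Ioo_mem_nhds hab.1 hab.2] with s hs hs'
      have h2 : (Q j).symm (V s) = psi q (s - t) ((Q j).symm (V t)) := hU _ a b hode t hab s hs'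
      have h3 : V s = Φ (s - t) (V t) := by
        rw [(Q j).right_inv hj, ← h2, (Q j).right_inv (hsub hs')] at hs
        exact hs.2.symm
      rw [h3, ← Φ.map_add]
      congr 1
      ring
    have hlc : IsLocallyConstant fun s : ℝ => Φ (-s) (V s) :=
      (IsLocallyConstant.iff_eventually_eq _).2 hloc
    intro t
    have h4 : Φ (-t) (V t) = Φ (-0) (V 0) := hlc.apply_eq_of_preconnectedSpace t 0
    rw [neg_zero, Φ.map_zero_apply] at h4
    rw [← h4, ← Φ.map_add, add_neg_cancel, Φ.map_zero_apply]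

end Pool.Agent.MP_ff5407_an.H58
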