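import Pool.Agent.MP_ff5407_an.H58.Spec

/-!
Row F4: the measure of the set of orbits that come close to the bad invariants.
-/

open scoped ContDiff Topology Manifold NNReal ENNReal ComplexConjugate
open Set Filter MeasureTheory Complex

noncomputable section

namespace Pool.Agent.MP_ff5407_an.H58

theorem F4_xi_cont : Continuous xi := by
  unfold xi
  fun_prop

theorem F4_meas (Bad : Set ℝ) (h : MeasurableSet Bad) :
    MeasurableSet {p : Y | ‖p.1‖ ≤ 1 ∧ xi p ∈ Bad} := by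
  have h1 : MeasurableSet {p : Y | ‖p.1‖ ≤ 1} :=
    (isClosed_le (by fun_prop) continuous_const).measurableSet
  exact h1.inter (F4_xi_cont.measurable h)

theorem F4_sub {X : Type} [TopologicalSpace X] (Q : Fin 4 → OpenPartialHomeomorph Y X) (q : ℝ → ℝ)
    (E : Set ℝ) (Φ : Flow ℝ X) (hF : Fl q) (hL : Loc q Q Φ) (T ε : ℝ) (Bad : Set ℝ)
    (hB : {ξ | ¬ far E ε ξ} ⊆ Bad) :
    {v | ¬ Good E Q Φ T ε v} ⊆ ⋃ z ∈ (Finset.range (⌊5 * T⌋₊ + 1)) ×ˢ (Finset.univ : Finset (Fin 4)),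
      (Φ ((z.1 : ℝ) / 5)) ⁻¹' (Q z.2 '' {p : Y | ‖p.1‖ ≤ 1 ∧ xi p ∈ Bad}) := by
  intro v hv
  simp only [Good, mem_ofPred_eq, not_forall] at hv
  obtain ⟨t, ht, j, p, hp, he, hf⟩ := hv
  have h0 : 0 ≤ 5 * t := by linarith [ht.1]
  have h1 : (⌊5 * t⌋₊ : ℝ) ≤ 5 * t := Nat.floor_le h0
  have h2 : 5 * t < ⌊5 * t⌋₊ + 1 := Nat.lt_floor_add_one _
  have h3 : ⌊5 * t⌋₊ ≤ ⌊5 * T⌋₊ := Nat.floor_le_floor (by linarith [ht.2])
  have hs : ∀ s : ℝ, |s| ≤ 1 / 5 → ‖(psi q s p).1‖ ≤ 1 := fun s h => by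
    have := hF.speed s p
    have := (abs_le.1 this).2
    linarith
  simp only [mem_iUnion]
  refine ⟨(⌊5 * t⌋₊, j), by simp; omega, ?_⟩
  refine ⟨psi q ((⌊5 * t⌋₊ : ℝ) / 5 - t) p, ⟨hs _ (abs_le.2 ⟨by linarith, by linarith⟩), ?_⟩, ?_⟩
  · rw [hF.xi_eq]; exact hB hf
  · rw [← hL j p _ fun s h => ?_, ← he, ← Φ.map_add]
    · congr 1; ring
    · have h4 : (⌊5 * t⌋₊ : ℝ) / 5 - t ≤ 0 := by linarith
      rw [uIcc_of_ge h4] at h
      have := hs s (abs_le.2 ⟨by linarith [h.1], by linarith [h.2]⟩)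
      linarith

theorem rF4 : RF4 := by
  intro X _ _ _ Q β q E Φ μ c _ hP hF hM hL hMu hI
  obtain ⟨C, γ, hγ, hC⟩ := hP.thick
  obtain ⟨C1, hC1⟩ := hM.bad
  refine ⟨20 * (c * C1 * |C|), γ, hγ, fun T hT ε hε => ?_⟩
  set Bad := toMeasurable volume {ξ | ¬ far E ε ξ} with hBad
  have hm : MeasurableSet Bad := measurableSet_toMeasurable _ _
  have hv : volume Bad ≤ ENNReal.ofReal (|C| * ε ^ γ) := by
    rw [hBad, measure_toMeasurable]
    refine (hC ε hε).trans (ENNReal.ofReal_le_ofReal ?_)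
    exact mul_le_mul_of_nonneg_right (le_abs_self C) (Real.rpow_nonneg hε.1.le _)
  have hpos : 0 ≤ ε ^ γ := Real.rpow_nonneg hε.1.le _
  have h1 : ∀ (s : ℝ) (j : Fin 4), μ ((Φ s) ⁻¹' (Q j '' {p : Y | ‖p.1‖ ≤ 1 ∧ xi p ∈ Bad})) ≤
      ENNReal.ofReal (c * C1 * |C| * ε ^ γ) := fun s j => by
    refine (Measure.le_map_apply (hI s).measurable.aemeasurable _).trans ?_
    rw [(hI s).map_eq, hMu j _ (F4_meas Bad hm) fun p hp => by linarith [hp.1]]
    calc (c : ℝ≥0∞) * mm q {p : Y | ‖p.1‖ ≤ 1 ∧ xi p ∈ Bad}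
        ≤ c * (C1 * ENNReal.ofReal (|C| * ε ^ γ)) := by
          gcongr
          exact (hC1 Bad).trans (by gcongr)
      _ = ENNReal.ofReal (c * C1 * |C| * ε ^ γ) := by
          rw [mul_assoc, mul_assoc, ENNReal.ofReal_mul c.coe_nonneg,
            ENNReal.ofReal_mul C1.coe_nonneg, ENNReal.ofReal_coe_nnreal, ENNReal.ofReal_coe_nnreal]
  refine (measure_mono (F4_sub Q q E Φ hF hL T ε Bad (subset_toMeasurable _ _))).trans ?_
  refine (measure_biUnion_finset_le _ _).trans ?_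
  refine (Finset.sum_le_sum fun z _ => h1 _ _).trans ?_
  rw [Finset.sum_const, nsmul_eq_mul, ← ENNReal.ofReal_natCast,
    ← ENNReal.ofReal_mul (Nat.cast_nonneg _)]
  refine ENNReal.ofReal_le_ofReal ?_
  have h2 : (⌊5 * T⌋₊ : ℝ) ≤ 5 * T := Nat.floor_le (by linarith)
  have h3 : 0 ≤ (c : ℝ) * C1 * |C| * ε ^ γ := by positivity
  simp only [Finset.card_product, Finset.card_range, Finset.card_univ, Fintype.card_fin]
  push_cast
  nlinarith

end Pool.Agent.MP_ff5407_an.H58
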